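import Pool.Agent.HGF.Mov
import Pool.Agent.HGF.Eig

/-!
# Project HGF: the class function vanishes at the degenerate points

**`line`.** Suppose that for the point with the number `j` the coordinate `u_i` is free: the
points with
the coordinate `u_i` replaced by any `some t` lie on `Y`. Take the point over `Om k` with all
coordinates constant except `u j i = some (tt k)`; at a place `v` with `v.At (tt k) c` its value has
`u j i = some c`, all other coordinates are unchanged (`vlo_const`, `vlo_at`). By `bridge` for
`c₀ = c` and `c₁ = 0`: if `u j i = some c` then `E s u` is the value of `E` at a point with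
`u j i = some 0`, which is zero (`zero_of`). If `u j i = none` then `E s u = 0` by `zero_of`.

**`zero_of_C`.** `form d_i C_i (s j) = 0`, `u j i = some c`. The equation for the point `j`
contains `u_i`
only through the factor `form d_i B_i s * snd (u_i) ^ M` and `snd (u_i) ^ M` on the right, with
`snd (u_i) = 1` for `u_i = some _`: so it also holds with `u_i = some (tt k)` (use `Function.update`
and `Finset.prod_update_of_mem`, or compare the factors of the products; constant points by
`form_map`).

**`zero_of_A`.** `form D A (s j) = 0`: the product of the factors is zero, so the factor with some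
number `i'` is zero. There is `i ≠ i'` (`2 ≤ m`). The equation holds for every value of `u_i`
because
the factor `i'` and the form `A` are still zero.
-/

set_option autoImplicit false
set_option linter.unusedSectionVars false

noncomputable section

namespace Pool.Agent.HGF

open Polynomial Pool.Agent.ZCyc Pool.Agent.Dess Pool.Agent.GT Pool.Agent.TInc
open Pool.Agent.VFP (Om tt)
open scoped Classical

variable {k : Type} [Field k] [IsAlgClosed k] [CharZero k] {m : ℕ} {F : Fam k m} {N : ℕ} {W : Type}
  [AddCommGroup W] [Module k W] {E : (Fin N → Option k) → (Fin N → Fin m → Option k) → W}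
  {b : Fin m → ℕ}

private theorem vlo_upd {v : Place k (Om k)} {a : k} (ha : v.At (tt k) a)
    (u : Fin N → Fin m → Option k) (j : Fin N) (i : Fin m) (j' : Fin N) (i' : Fin m) :
    vlo v (Function.update (fun j l => (u j l).map (algebraMap k (Om k))) j
        (Function.update (fun l => (u j l).map (algebraMap k (Om k))) i (some (tt k))) j' i') =
      Function.update u j (Function.update (u j) i (some a)) j' i' := by
  by_cases hj : j' = j
  · subst hj
    rw [Function.update_self, Function.update_self]
    by_cases hi : i' = i
    · subst hi
      rw [Function.update_self, Function.update_self]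
      exact vlo_at ha
    · rw [Function.update_of_ne hi, Function.update_of_ne hi]
      exact vlo_const v _
  · rw [Function.update_of_ne hj, Function.update_of_ne hj]
    exact vlo_const v _

theorem line (hb : ∀ i, 0 < b i ∧ b i < F.M) (hE : IsCF F E) (hEig : IsEig F.M b E)
    {s : Fin N → Option k} {u : Fin N → Fin m → Option k} (h : ∀ j, OnY F (s j) (u j))
    {j : Fin N} {i : Fin m}
    (hf : OnY F ((s j).map (algebraMap k (Om k)))
      (Function.update (fun l => (u j l).map (algebraMap k (Om k))) i (some (tt k)))) :
    E s u = 0 := by
  rcases hu : u j i with _ | c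
  · exact zero_of hEig hb (Or.inl hu)
  have hw : ∀ j', OnY F ((fun j => (s j).map (algebraMap k (Om k))) j')
      (Function.update (fun j l => (u j l).map (algebraMap k (Om k))) j
        (Function.update (fun l => (u j l).map (algebraMap k (Om k))) i (some (tt k))) j') := by
    intro j'
    by_cases hj : j' = j
    · subst hj
      rw [Function.update_self]
      exact hf
    · rw [Function.update_of_ne hj]
      exact (onY_const (K := Om k) (s j') (u j')).2 (h j')
  have key : ∀ (v : Place k (Om k)) (a : k), v.At (tt k) a →
      E (fun j' => vlo v ((fun j => (s j).map (algebraMap k (Om k))) j'))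
        (fun j' i' => vlo v (Function.update (fun j l => (u j l).map (algebraMap k (Om k))) j
          (Function.update (fun l => (u j l).map (algebraMap k (Om k))) i (some (tt k)))
          j' i')) =
      E s (Function.update u j (Function.update (u j) i (some a))) := by
    intro v a ha
    congr 1
    · funext j'
      exact vlo_const v _
    · funext j' i'
      exact vlo_upd ha u j i j' i'
  have h0 := bridge hE hw (fun v hv => key v c hv) (fun v hv => key v 0 hv)
  have h1 : Function.update u j (Function.update (u j) i (some c)) = u := by
    rw [← hu, Function.update_eq_self, Function.update_eq_self]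
  rw [h1] at h0
  rw [h0]
  refine zero_of hEig hb (j := j) (i := i) (Or.inr ?_)
  rw [Function.update_self, Function.update_self]

private theorem onY_om {s : Option k} {u : Fin m → Option k} (h : OnY F s u) :
    OnY F (s.map (algebraMap k (Om k))) (fun l => (u l).map (algebraMap k (Om k))) :=
  (onY_const (K := Om k) s u).2 h

private theorem form_om {d : ℕ} {P : k[X]} {s : Option k} (h : form d P s = 0) :
    form d P (s.map (algebraMap k (Om k))) = 0 := by
  have h1 := form_map (Algebra.ofId k (Om k)) d P s
  rw [h, map_zero] at h1
  exact h1

theorem zero_of_C (hb : ∀ i, 0 < b i ∧ b i < F.M) (hE : IsCF F E) (hEig : IsEig F.M b E)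
    {s : Fin N → Option k} {u : Fin N → Fin m → Option k} (h : ∀ j, OnY F (s j) (u j))
    {j : Fin N} {i : Fin m} (hC : form (F.d i) (F.C i) (s j) = 0) : E s u = 0 := by
  rcases hu : u j i with _ | c
  · exact zero_of hEig hb (Or.inl hu)
  refine line hb hE hEig h (j := j) (i := i) ?_
  have h1 := onY_om (h j)
  have hC' := form_om hC
  unfold OnY at h1 ⊢
  have e1 : ∀ l, snd (Function.update (fun l => (u j l).map (algebraMap k (Om k))) i
      (some (tt k)) l) = snd ((u j l).map (algebraMap k (Om k))) := by
    intro l
    by_cases hl : l = i
    · subst hl
      rw [Function.update_self, hu]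
      rfl
    · rw [Function.update_of_ne hl]
  have e2 : ∀ l, form (F.d l) (F.C l) ((s j).map (algebraMap k (Om k))) *
      fst (Function.update (fun l => (u j l).map (algebraMap k (Om k))) i
        (some (tt k)) l) ^ F.M = form (F.d l) (F.C l) ((s j).map (algebraMap k (Om k))) *
      fst ((u j l).map (algebraMap k (Om k))) ^ F.M := by
    intro l
    by_cases hl : l = i
    · subst hl
      rw [hC', zero_mul, zero_mul]
    · rw [Function.update_of_ne hl]
  simp only [e1, e2]
  exact h1

theorem zero_of_A (hm : 2 ≤ m) (hb : ∀ i, 0 < b i ∧ b i < F.M) (hE : IsCF F E)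
    (hEig : IsEig F.M b E) {s : Fin N → Option k} {u : Fin N → Fin m → Option k}
    (h : ∀ j, OnY F (s j) (u j)) {j : Fin N} (hA : form F.D F.A (s j) = 0) : E s u = 0 := by
  have h1 := onY_om (h j)
  have hA' := form_om hA
  unfold OnY at h1
  rw [hA', zero_mul, Finset.prod_eq_zero_iff] at h1
  obtain ⟨i', _, hi'⟩ := h1
  obtain ⟨i, hi⟩ : ∃ i : Fin m, i ≠ i' := by
    have : Nontrivial (Fin m) := Fin.nontrivial_iff_two_le.2 hm
    exact exists_ne i'
  refine line hb hE hEig h (j := j) (i := i) ?_
  unfold OnY
  rw [hA', zero_mul]
  refine Finset.prod_eq_zero (Finset.mem_univ i') ?_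
  rw [Function.update_of_ne hi.symm]
  exact hi'

/-- the point at infinity, if `deg C_i < d_i` -/
theorem zero_of_none (hb : ∀ i, 0 < b i ∧ b i < F.M) (hE : IsCF F E) (hEig : IsEig F.M b E)
    {s : Fin N → Option k} {u : Fin N → Fin m → Option k} (h : ∀ j, OnY F (s j) (u j))
    {i : Fin m} (hi : (F.C i).natDegree < F.d i) {j : Fin N} (hs : s j = none) : E s u = 0 := by
  refine zero_of_C hb hE hEig h (j := j) (i := i) ?_
  rw [hs, form_none, Polynomial.coeff_eq_zero_of_natDegree_lt hi, map_zero]

end Pool.Agent.HGF
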