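import Pool.Agent.HGF.Slot
import Pool.Agent.HGF.Eig

/-!
# Project HGF: decomposition of a class function into eigenfunctions

`ω` is a primitive root of unity of order `M`. `chr M ω β E` is the average of `E` over all
rotations
`ω ^ a_{ji}` of the coordinates `u_i^{(j)}` with the weights `∏ ω ^ (-β_{ji} a_{ji})`.

1. `sum_chr`: exchange the sums over `β` and `a`; for fixed `a` the sum over `β` of the weights is
`∏_{j,i} ∑_{c < M} ω ^ (-c a_{ji})` (`Finset.prod_univ_sum` twice, or `Fintype.piFinset_univ`), and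
`∑_{c < M} ω ^ (-c a)` is `M` for `a = 0` and `0` for `0 < a < M`
(`IsPrimitiveRoot.geom_sum_eq_zero` for
the primitive root `ω⁻¹ ^ a` of order `M / gcd`, or the geometric sum: `(y - 1) * ∑ y ^ c = y ^ M
- 1 = 0`
and `y ≠ 1`). So only `a = 0` remains, with `E s u` and the factor `M ^ (n m)`.
2. `isEigS_chr`: every `ζ` with `ζ ^ M = 1` is `ω ^ c` (`IsPrimitiveRoot.eq_pow_of_pow_eq_one`).
In the
sum for `rot j i ζ u` substitute `a_{ji} + c` (modulo `M`) for `a_{ji}` (a bijection of the index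
set; it
is convenient to replace `Fin M` by exponents modulo `M`: `ω ^ x` depends only on `x % M`).
3. `isCF_chr`: every term is a class function since the rotated points lie on `Y` (`onY_mul`; the
values
commute with the rotation: `vlo_mul`); finite sums and multiples of class functions are class
functions.
-/

set_option autoImplicit false

noncomputable section

namespace Pool.Agent.HGF

open Polynomial Pool.Agent.ZCyc Pool.Agent.Dess Pool.Agent.GT Pool.Agent.TInc
open scoped Classical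

variable {k : Type} [Field k] {m : ℕ} {F : Fam k m} {n : ℕ} {W : Type} [AddCommGroup W]
  [Module k W] {E : (Fin n → Option k) → (Fin n → Fin m → Option k) → W} {M : ℕ}

/-- an eigenfunction with exponents which depend on the point -/
def IsEigS (M : ℕ) (β : Fin n → Fin m → ℕ)
    (E : (Fin n → Option k) → (Fin n → Fin m → Option k) → W) : Prop :=
  ∀ s u j i (ζ : k), ζ ^ M = 1 → E s (rot j i ζ u) = ζ ^ β j i • E s u

/-- the eigenfunction with the exponents `β` in `E` -/
def chr (M : ℕ) (ω : k) (β : Fin n → Fin m → Fin M)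
    (E : (Fin n → Option k) → (Fin n → Fin m → Option k) → W) (s : Fin n → Option k)
    (u : Fin n → Fin m → Option k) : W :=
  ((M : k)⁻¹) ^ (n * m) • ∑ a : Fin n → Fin m → Fin M,
    (∏ j, ∏ i, (ω⁻¹) ^ ((β j i : ℕ) * (a j i : ℕ))) •
      E s fun j i => (u j i).map fun w => ω ^ (a j i : ℕ) * w

private theorem chr_pow_add {y : k} (hy : y ^ M = 1) [NeZero M] (p q : Fin M) :
    y ^ ((p + q : Fin M) : ℕ) = y ^ (p : ℕ) * y ^ (q : ℕ) := by
  rw [Fin.val_add, ← pow_eq_pow_mod _ hy, pow_add]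

private theorem chr_geom {ω : k} (hω : IsPrimitiveRoot ω M) (x : Fin M) :
    ∑ c : Fin M, (ω⁻¹) ^ ((c : ℕ) * (x : ℕ)) = if (x : ℕ) = 0 then (M : k) else 0 := by
  have h1 : ∀ c : ℕ, (ω⁻¹) ^ (c * (x : ℕ)) = ((ω⁻¹) ^ (x : ℕ)) ^ c := by
    intro c
    rw [mul_comm, pow_mul]
  rw [Finset.sum_congr rfl fun (c : Fin M) _ => h1 c,
    Fin.sum_univ_eq_sum_range (fun c => ((ω⁻¹) ^ (x : ℕ)) ^ c) M]
  split_ifs with hx
  · rw [hx]
    simp
  · set y := (ω⁻¹) ^ (x : ℕ) with hy
    have hy1 : y - 1 ≠ 0 := by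
      intro h
      have h2 : (ω⁻¹) ^ (x : ℕ) = 1 := sub_eq_zero.1 h
      rw [hω.inv.pow_eq_one_iff_dvd] at h2
      have h3 := Nat.le_of_dvd (Nat.pos_of_ne_zero hx) h2
      have := x.2
      omega
    have hyM : y ^ M = 1 := by
      rw [hy, ← pow_mul, mul_comm, pow_mul, hω.inv.pow_eq_one, one_pow]
    have h2 := geom_sum_mul y M
    rw [hyM, sub_self] at h2
    exact (mul_eq_zero.1 h2).resolve_right hy1

private theorem chr_prod_sum (g : Fin n → Fin m → Fin M → k) :
    ∑ β : Fin n → Fin m → Fin M, ∏ j, ∏ i, g j i (β j i) = ∏ j, ∏ i, ∑ c, g j i c := by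
  have h1 : ∀ j, ∏ i, ∑ c, g j i c = ∑ b : Fin m → Fin M, ∏ i, g j i (b i) := by
    intro j
    rw [Finset.prod_univ_sum, Fintype.piFinset_univ]
  rw [Finset.prod_congr rfl fun j _ => h1 j, Finset.prod_univ_sum, Fintype.piFinset_univ]

private theorem chr_weights {ω : k} (hω : IsPrimitiveRoot ω M)
    (a : Fin n → Fin m → Fin M) :
    ∑ β : Fin n → Fin m → Fin M, ∏ j, ∏ i, (ω⁻¹) ^ ((β j i : ℕ) * (a j i : ℕ)) =
      if ∀ j i, (a j i : ℕ) = 0 then (M : k) ^ (n * m) else 0 := by
  rw [chr_prod_sum fun j i c => (ω⁻¹) ^ ((c : ℕ) * (a j i : ℕ))]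
  simp only [chr_geom hω]
  split_ifs with h
  · have h1 : ∀ j, ∏ i, (if (a j i : ℕ) = 0 then (M : k) else 0) = (M : k) ^ m := by
      intro j
      rw [Finset.prod_congr rfl fun i _ => if_pos (h j i)]
      simp
    rw [Finset.prod_congr rfl fun j _ => h1 j]
    simp only [Finset.prod_const, Finset.card_univ, Fintype.card_fin]
    rw [← pow_mul, mul_comm]
  · push Not at h
    obtain ⟨j, i, hji⟩ := h
    exact Finset.prod_eq_zero (Finset.mem_univ j)
      (Finset.prod_eq_zero (Finset.mem_univ i) (if_neg hji))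

theorem sum_chr [CharZero k] (hM : 0 < M) {ω : k} (hω : IsPrimitiveRoot ω M)
    (s : Fin n → Option k) (u : Fin n → Fin m → Option k) :
    ∑ β : Fin n → Fin m → Fin M, chr M ω β E s u = E s u := by
  have hM' : ((M : k)⁻¹) ^ (n * m) * (M : k) ^ (n * m) = 1 := by
    rw [← mul_pow, inv_mul_cancel₀ (Nat.cast_ne_zero.2 hM.ne'), one_pow]
  have h0 : ∀ j i, (((fun _ _ => ⟨0, hM⟩ : Fin n → Fin m → Fin M) j i : Fin M) : ℕ) = 0 :=
    fun _ _ => rfl
  unfold chr
  rw [← Finset.smul_sum, Finset.sum_comm]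
  rw [Finset.sum_congr rfl fun a _ => (Finset.sum_smul (s := Finset.univ)
    (f := fun β : Fin n → Fin m → Fin M => ∏ j, ∏ i, (ω⁻¹) ^ ((β j i : ℕ) * (a j i : ℕ)))).symm]
  rw [Finset.sum_eq_single (fun _ _ => ⟨0, hM⟩ : Fin n → Fin m → Fin M)]
  · rw [chr_weights hω, if_pos h0, smul_smul, hM', one_smul]
    congr 1
    funext j i
    cases u j i with
    | none => rfl
    | some w =>
      rw [Option.map_some, pow_zero, one_mul]
  · intro a _ ha
    rw [chr_weights hω, if_neg, zero_smul]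
    intro h
    apply ha
    funext j i
    exact Fin.ext (h j i)
  · intro h
    exact absurd (Finset.mem_univ _) h

theorem isEigS_chr (hM : 0 < M) {ω : k} (hω : IsPrimitiveRoot ω M)
    (β : Fin n → Fin m → Fin M) : IsEigS M (fun j i => (β j i : ℕ)) (chr M ω β E) := by
  have hne : NeZero M := ⟨hM.ne'⟩
  intro s u j0 i0 ζ hζ
  obtain ⟨c0, hc0, rfl⟩ := hω.eq_pow_of_pow_eq_one hζ
  let c : Fin M := ⟨c0, hc0⟩
  let δ : Fin n → Fin m → Fin M := Pi.single j0 (Pi.single i0 c)
  have hδ : ∀ j i, δ j i = if j = j0 ∧ i = i0 then c else 0 := by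
    intro j i
    show (Pi.single j0 (Pi.single i0 c) : Fin n → Fin m → Fin M) j i = _
    by_cases hj : j = j0
    · subst hj
      rw [Pi.single_eq_same]
      by_cases hi : i = i0
      · subst hi
        rw [Pi.single_eq_same, if_pos ⟨rfl, rfl⟩]
      · rw [Pi.single_eq_of_ne hi, if_neg fun h => hi h.2]
    · rw [Pi.single_eq_of_ne hj, if_neg fun h => hj h.1]
      rfl
  have hpt : ∀ a : Fin n → Fin m → Fin M,
      (fun j i => (rot j0 i0 (ω ^ c0) u j i).map fun w => ω ^ (a j i : ℕ) * w) =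
        fun j i => (u j i).map fun w => ω ^ ((a + δ) j i : ℕ) * w := by
    intro a
    funext j i
    have h1 : ω ^ (((a + δ) j i : Fin M) : ℕ) = ω ^ (a j i : ℕ) * ω ^ (δ j i : ℕ) :=
      chr_pow_add hω.pow_eq_one (a j i) (δ j i)
    rw [h1, hδ]
    unfold rot
    by_cases hj : j = j0
    · subst hj
      rw [Function.update_self]
      by_cases hi : i = i0
      · subst hi
        rw [Function.update_self, if_pos ⟨rfl, rfl⟩]
        cases u j i with
        | none => rfl
        | some w =>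
          rw [Option.map_some, Option.map_some, Option.map_some, mul_assoc]
      · rw [Function.update_of_ne hi, if_neg fun h => hi h.2, Fin.val_zero, pow_zero]
        simp only [mul_one]
    · rw [Function.update_of_ne hj, if_neg fun h => hj h.1, Fin.val_zero, pow_zero]
      simp only [mul_one]
  have hβ : ∀ j i, ((ω⁻¹) ^ (β j i : ℕ)) ^ M = 1 := by
    intro j i
    rw [← pow_mul, mul_comm, pow_mul, hω.inv.pow_eq_one, one_pow]
  have hw : ∀ a : Fin n → Fin m → Fin M,
      ∏ j, ∏ i, (ω⁻¹) ^ ((β j i : ℕ) * (a j i : ℕ)) =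
        (ω ^ c0) ^ (β j0 i0 : ℕ) *
          ∏ j, ∏ i, (ω⁻¹) ^ ((β j i : ℕ) * ((a + δ) j i : ℕ)) := by
    intro a
    have h1 : ∀ j i, (ω⁻¹) ^ ((β j i : ℕ) * (((a + δ) j i : Fin M) : ℕ)) =
        (ω⁻¹) ^ ((β j i : ℕ) * (a j i : ℕ)) * (ω⁻¹) ^ ((β j i : ℕ) * (δ j i : ℕ)) := by
      intro j i
      rw [pow_mul, pow_mul, pow_mul]
      exact chr_pow_add (hβ j i) (a j i) (δ j i)
    have h2 : ∏ j, ∏ i, (ω⁻¹) ^ ((β j i : ℕ) * (δ j i : ℕ)) =
        (ω⁻¹) ^ ((β j0 i0 : ℕ) * c0) := by
      rw [Finset.prod_eq_single j0, Finset.prod_eq_single i0]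
      · rw [hδ, if_pos ⟨rfl, rfl⟩]
      · intro i _ hi
        rw [hδ, if_neg fun h => hi h.2, Fin.val_zero, mul_zero, pow_zero]
      · intro h
        exact absurd (Finset.mem_univ _) h
      · intro j _ hj
        refine Finset.prod_eq_one fun i _ => ?_
        rw [hδ, if_neg fun h => hj h.1, Fin.val_zero, mul_zero, pow_zero]
      · intro h
        exact absurd (Finset.mem_univ _) h
    simp only [h1, Finset.prod_mul_distrib]
    rw [h2]
    have h3 : (ω ^ c0) ^ (β j0 i0 : ℕ) * (ω⁻¹) ^ ((β j0 i0 : ℕ) * c0) = 1 := by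
      rw [← pow_mul, mul_comm c0, ← mul_pow, mul_inv_cancel₀ (hω.ne_zero hM.ne'), one_pow]
    rw [mul_left_comm, h3, mul_one]
  unfold chr
  rw [smul_comm]
  congr 1
  simp only [hpt]
  rw [Finset.smul_sum, ← Equiv.sum_comp (Equiv.addRight δ)
    (fun a => (ω ^ c0) ^ (β j0 i0 : ℕ) • (∏ j, ∏ i, (ω⁻¹) ^ ((β j i : ℕ) * (a j i : ℕ))) •
      E s fun j i => (u j i).map fun w => ω ^ (a j i : ℕ) * w)]
  refine Finset.sum_congr rfl fun a _ => ?_
  rw [hw a, mul_smul]
  rfl

theorem isCF_chr [IsAlgClosed k] [CharZero k] (hM : 0 < F.M) {ω : k}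
    (hω : IsPrimitiveRoot ω F.M) (hE : IsCF F E) (β : Fin n → Fin m → Fin F.M) :
    IsCF F (chr F.M ω β E) := by
  intro K _ _ hK s u f hf hY
  have hω1 : ∀ c : ℕ, (algebraMap k K (ω ^ c)) ^ F.M = 1 := by
    intro c
    rw [← map_pow, ← pow_mul, mul_comm, pow_mul, hω.pow_eq_one, one_pow, map_one]
  have hω0 : ∀ c : ℕ, ω ^ c ≠ 0 := fun c => pow_ne_zero _ (hω.ne_zero hM.ne')
  have hterm : ∀ a : Fin n → Fin m → Fin F.M,
      ((TInc.dv hK f).sum fun v e => e • E (fun j => vlo v (s j))
        (fun j i => (vlo v (u j i)).map fun w => ω ^ (a j i : ℕ) * w)) = 0 := by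
    intro a
    have h1 := hE K hK s (fun j i => (u j i).map fun w => algebraMap k K (ω ^ (a j i : ℕ)) * w) f
      hf (fun j => by
        have h2 := hY j
        unfold OnY at h2 ⊢
        have h3 : ∀ (x : Option K) (y : K), snd (x.map fun w => y * w) = snd x := by
          intro x y
          cases x with
          | none => rfl
          | some w => rw [Option.map_some, snd_some, snd_some]
        have h4 : ∀ (x : Option K) (y : K), y ^ F.M = 1 →
            fst (x.map fun w => y * w) ^ F.M = fst x ^ F.M := by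
          intro x y hy
          cases x with
          | none => rfl
          | some w => rw [Option.map_some, fst_some, fst_some, mul_pow, hy, one_mul]
        simp only [h3]
        rw [Finset.prod_congr rfl fun i _ => by rw [h4 _ _ (hω1 _)]]
        exact h2)
    simp only [vlo_mul _ (hω0 _)] at h1
    exact h1
  unfold chr
  unfold Finsupp.sum at hterm ⊢
  have h5 : ∀ v ∈ (TInc.dv hK f).support, (TInc.dv hK f) v •
      (((F.M : k)⁻¹) ^ (n * m) • ∑ a : Fin n → Fin m → Fin F.M,
        (∏ j, ∏ i, (ω⁻¹) ^ ((β j i : ℕ) * (a j i : ℕ))) •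
          E (fun j => vlo v (s j)) fun j i => (vlo v (u j i)).map fun w => ω ^ (a j i : ℕ) * w) =
      ((F.M : k)⁻¹) ^ (n * m) • ∑ a : Fin n → Fin m → Fin F.M,
        (∏ j, ∏ i, (ω⁻¹) ^ ((β j i : ℕ) * (a j i : ℕ))) • ((TInc.dv hK f) v •
          E (fun j => vlo v (s j)) fun j i =>
            (vlo v (u j i)).map fun w => ω ^ (a j i : ℕ) * w) := by
    intro v _
    rw [smul_comm, Finset.smul_sum]
    congr 1
    refine Finset.sum_congr rfl fun a _ => ?_
    rw [smul_comm]
  rw [Finset.sum_congr rfl h5, ← Finset.smul_sum, Finset.sum_comm]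
  rw [Finset.sum_eq_zero fun a _ => ?_, smul_zero]
  rw [← Finset.smul_sum, hterm a, smul_zero]

/-- restriction to points with equal exponents -/
theorem isEig_glueS {N : ℕ} {β : Fin n → Fin m → ℕ} (hE : IsEigS M β E) {e : Fin N → Fin n}
    (he : Function.Injective e) {b : Fin m → ℕ} (hb : ∀ a i, β (e a) i = b i)
    (s0 : Fin n → Option k) (u0 : Fin n → Fin m → Option k) :
    IsEig M b fun (s : Fin N → Option k) (u : Fin N → Fin m → Option k) =>
      E (glue e s0 s) (glue e u0 u) := by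
  intro s u a i ζ hζ
  have h1 : glue e u0 (rot a i ζ u) = rot (e a) i ζ (glue e u0 u) := by
    funext j
    by_cases hj : ∃ a', e a' = j
    · obtain ⟨a', rfl⟩ := hj
      rw [glue_apply he]
      unfold rot
      by_cases ha : a' = a
      · subst ha
        rw [Function.update_self, Function.update_self, glue_apply he]
      · rw [Function.update_of_ne ha, Function.update_of_ne fun h => ha (he h), glue_apply he]
    · push Not at hj
      rw [glue_of _ _ hj]
      unfold rot
      rw [Function.update_of_ne (fun h => hj a h.symm), glue_of _ _ hj]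
  show E (glue e s0 s) (glue e u0 (rot a i ζ u)) = _
  rw [h1, hE _ _ _ _ _ hζ, hb]

end Pool.Agent.HGF
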