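import Pool.Agent.HGF.Val

/-!
# Project HGF: change of the coordinate `s`

The form `C_i` of degree `d_i > 0` has a zero on the projective line, at infinity if `deg C_i < d_i`, or
`s = r ∈ k`. In the second case the new coordinate `s'`, `s = r + 1 / s'`, moves it to infinity.

`mob r : Option K → Option K` is the map `s' ↦ s = r + 1 / s'` (`none ↦ some r`, `some 0 ↦ none`).
`tr r d P = reflect d (taylor r P)` is the polynomial `s' ^ d P(r + 1 / s')`, for `deg P ≤ d`: it satisfies
`form d P (mob r x) * c ^ d = form d (tr r d P) x` with the factor `c = snd x` if `x = none`... precisely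
(`form_mob`) there is `c ≠ 0` (depending only on `x`: `c = 1` for `x = none` and `x = some 0`, `c = x'` for
`x = some x'`, `x' ≠ 0`) with `form d (tr r d P) x = c ^ d * form d P (mob r x)` for all `d`, `P` with `deg P ≤ d`.
[`taylor r P = P(X + r)`, `reflect d` exchanges the coefficients of `X ^ j` and `X ^ (d - j)`;
`Polynomial.eval₂_reflect_mul_pow`, `coeff_reflect`, `revAt`. For `x = none`: the coefficient of degree `d` of
`tr r d P` is the constant coefficient of `taylor r P`, that is `P(r)`. For `x = some 0`: the constant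
coefficient of `tr r d P` is the coefficient of degree `d` of `taylor r P`, equal to that of `P`.]

`cng r F` is the new hypersurface. `OnY (cng r F) x u ↔ OnY F (mob r x) u` (the equation is multiplied by
`c ^ D`, `D = ∑ d_i`). Values: `vlo v (mob r x) = mob r (vlo v x)`. The assumptions `Adm` hold for `cng r F`:
`tr` is additive and multiplicative (`tr r (d + e) (P Q) = tr r d P * tr r e Q`, from `reflect_mul`), it is
injective on polynomials of degree at most `d`. If `C_i(r) = 0` then the coefficient of degree `d_i` of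
`tr r d_i C_i` is zero, so its degree is smaller than `d_i` (`d_i > 0`).

**`vanish_all`.** By `D > 0` (otherwise `A` is a multiple of `∏ B_i`, all constants) there is `i` with
`d_i > 0`. If `deg C_i < d_i` use `H`. Otherwise `C_i` has a root `r` (`IsAlgClosed.exists_root`); for a class
function `E` for `F` the function `E' x u = E (fun j => mob r (x j)) u` is a class function for `cng r F`, an
eigenfunction, and every point `s` is `mob r x` for some `x`. `AE E' x u = AE E s u`. (`(cng r F).D = F.D` by
`rfl`.)
-/

set_option autoImplicit false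

noncomputable section

namespace Pool.Agent.HGF

open Polynomial Pool.Agent.ZCyc Pool.Agent.Dess Pool.Agent.GT Pool.Agent.TInc
open scoped Classical

variable {k : Type} [Field k] {m : ℕ} {K : Type} [Field K] [Algebra k K]

/-- the map `x ↦ r + 1 / x` of the projective line -/
def mob (r : k) (x : Option K) : Option K :=
  match x with
  | none => some (algebraMap k K r)
  | some x => if x = 0 then none else some (algebraMap k K r + x⁻¹)

/-- the polynomial `X ^ d P(r + 1 / X)` -/
def tr (r : k) (d : ℕ) (P : k[X]) : k[X] := reflect d (taylor r P)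

/-- the hypersurface in the new coordinate -/
def cng (r : k) (F : Fam k m) : Fam k m where
  B i := tr r (F.d i) (F.B i)
  C i := tr r (F.d i) (F.C i)
  A := tr r F.D F.A
  d := F.d
  M := F.M

/-! ### The polynomials -/

private theorem tr_deg (r : k) {d : ℕ} {P : k[X]} (h : P.natDegree ≤ d) :
    (tr r d P).natDegree ≤ d := by
  refine natDegree_reflect_le.trans (max_le le_rfl ?_)
  rw [natDegree_taylor]
  exact h

private theorem tr_coeff_top (r : k) (d : ℕ) (P : k[X]) : (tr r d P).coeff d = P.eval r := by
  unfold tr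
  rw [coeff_reflect, revAt_le le_rfl, Nat.sub_self, taylor_coeff_zero]

private theorem tr_coeff_zero (r : k) {d : ℕ} {P : k[X]} (h : P.natDegree ≤ d) :
    (tr r d P).coeff 0 = P.coeff d := by
  unfold tr
  rw [coeff_reflect, revAt_zero]
  rcases h.lt_or_eq with h | rfl
  · rw [coeff_eq_zero_of_natDegree_lt h, coeff_eq_zero_of_natDegree_lt]
    rwa [natDegree_taylor]
  · rw [coeff_taylor_natDegree, coeff_natDegree]

private theorem tr_ne (r : k) (d : ℕ) {P : k[X]} (h : P ≠ 0) : tr r d P ≠ 0 := by
  unfold tr
  rw [Ne, reflect_eq_zero_iff, taylor_eq_zero]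
  exact h

private theorem tr_inj (r : k) (d : ℕ) {P Q : k[X]} (h : tr r d P = tr r d Q) : P = Q := by
  have h1 := congrArg (reflect d) h
  unfold tr at h1
  rw [reflect_reflect, reflect_reflect] at h1
  exact taylor_injective r h1

private theorem tr_C_mul (r c : k) (d : ℕ) (P : k[X]) :
    tr r d (Polynomial.C c * P) = Polynomial.C c * tr r d P := by
  unfold tr
  rw [taylor_mul, taylor_C, reflect_C_mul]

private theorem tr_prod (r : k) {ι : Type} (s : Finset ι) (d : ι → ℕ) (P : ι → k[X])
    (h : ∀ i, (P i).natDegree ≤ d i) :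
    tr r (∑ i ∈ s, d i) (∏ i ∈ s, P i) = ∏ i ∈ s, tr r (d i) (P i) := by
  induction s using Finset.induction_on with
  | empty =>
    rw [Finset.sum_empty, Finset.prod_empty, Finset.prod_empty]
    unfold tr
    rw [taylor_one, reflect_C, pow_zero, mul_one, C_1]
  | insert i s hi ih =>
    rw [Finset.sum_insert hi, Finset.prod_insert hi, Finset.prod_insert hi, ← ih]
    unfold tr
    rw [taylor_mul, reflect_mul]
    · rw [natDegree_taylor]
      exact h i
    · rw [natDegree_taylor]
      refine (natDegree_prod_le _ _).trans ?_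
      exact Finset.sum_le_sum fun j _ => h j

private theorem tr_aeval (r : k) {d : ℕ} {P : k[X]} (h : P.natDegree ≤ d) {y : K} (hy : y ≠ 0) :
    aeval y (tr r d P) = y ^ d * aeval (algebraMap k K r + y⁻¹) P := by
  have hinv : Invertible y⁻¹ := invertibleOfNonzero (inv_ne_zero hy)
  have h1 := eval₂_reflect_mul_pow (algebraMap k K) y⁻¹ d (taylor r P) (by
    rw [natDegree_taylor]
    exact h)
  rw [invOf_eq_inv, inv_inv] at h1
  have h2 : eval₂ (algebraMap k K) y⁻¹ (taylor r P) = aeval (algebraMap k K r + y⁻¹) P := by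
    rw [← aeval_def, taylor_apply, aeval_comp, map_add, aeval_X, aeval_C, add_comm]
  rw [h2] at h1
  rw [← h1, aeval_def]
  unfold tr
  rw [mul_comm (y ^ d), mul_assoc, ← mul_pow, inv_mul_cancel₀ hy, one_pow, mul_one]

theorem form_mob (r : k) (x : Option K) : ∃ c : K, c ≠ 0 ∧ ∀ (d : ℕ) (P : k[X]),
    P.natDegree ≤ d → form d (tr r d P) x = c ^ d * form d P (mob r x) := by
  cases x with
  | none =>
    refine ⟨1, one_ne_zero, fun d P h => ?_⟩
    have h1 : mob r (none : Option K) = some (algebraMap k K r) := rfl
    rw [form_none, h1, form_some h, tr_coeff_top, one_pow, one_mul,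
      aeval_algebraMap_apply_eq_algebraMap_eval]
  | some y =>
    by_cases hy : y = 0
    · subst hy
      refine ⟨1, one_ne_zero, fun d P h => ?_⟩
      have h1 : mob r (some (0 : K)) = none := if_pos rfl
      rw [h1, form_none, form_some (tr_deg r h), one_pow, one_mul, aeval_def, eval₂_at_zero,
        tr_coeff_zero r h]
    · refine ⟨y, hy, fun d P h => ?_⟩
      have h1 : mob r (some y) = some (algebraMap k K r + y⁻¹) := if_neg hy
      rw [h1, form_some (tr_deg r h), form_some h, tr_aeval r h hy]

theorem vlo_mob [HasRes k K] (v : Place k K) (r : k) (x : Option K) :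
    vlo v (mob r x) = mob r (vlo v x) := by
  cases x with
  | none =>
    show HYG.vl v (algebraMap k K r) = some (algebraMap k k r)
    rw [HYG.vl_const]
    rfl
  | some f =>
    by_cases h0 : f = 0
    · subst h0
      have h1 : mob r (some (0 : K)) = none := if_pos rfl
      have h2 : HYG.vl v (0 : K) = some 0 := by
        have h3 := HYG.vl_const (v := v) (0 : k)
        rwa [map_zero] at h3
      have h4 : mob r (some (0 : k)) = none := if_pos rfl
      rw [h1, vlo_none, vlo_some, h2, h4]
    · have h1 : mob r (some f) = some (algebraMap k K r + f⁻¹) := if_neg h0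
      rw [h1, vlo_some, vlo_some]
      by_cases hf : f ∈ v.ring
      · obtain ⟨c, hc⟩ := HasRes.res v f hf
        rw [HYG.vl_of_at hc]
        by_cases hc0 : c = 0
        · subst hc0
          have h4 : mob r (some (0 : k)) = none := if_pos rfl
          rw [h4]
          refine HYG.vl_none.2 fun c hc' => ?_
          have h5 : f⁻¹ ∈ v.ring := by
            have h6 := sub_mem hc'.mem (Place.at_const (v := v) r).mem
            rwa [add_sub_cancel_left] at h6
          have h6 : v.Vanishes f := Place.at_zero_iff.1 hc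
          rcases (v.vanishes_iff_or _).1 h6 with h7 | h7
          · exact h0 h7
          · exact h7 h5
        · have h4 : mob r (some c) = some (algebraMap k k r + c⁻¹) := if_neg hc0
          rw [h4]
          exact HYG.vl_of_at ((Place.at_const r).add (hc.inv hc0))
      · have h4 : HYG.vl v f = none := HYG.vl_none.2 fun c hc => hf hc.mem
        rw [h4]
        have h5 : v.At f⁻¹ 0 := by
          rw [Place.at_zero_iff, Place.vanishes_iff_or, inv_inv]
          exact Or.inr hf
        have h6 := (Place.at_const (v := v) r).add h5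
        rw [add_zero] at h6
        exact HYG.vl_of_at h6

theorem mob_surj (r : k) (y : Option k) : ∃ x : Option k, mob r x = y := by
  cases y with
  | none => exact ⟨some 0, if_pos rfl⟩
  | some c =>
    by_cases hc : c = r
    · subst hc
      exact ⟨none, rfl⟩
    · have h1 : (c - r)⁻¹ ≠ 0 := inv_ne_zero (sub_ne_zero.2 hc)
      refine ⟨some (c - r)⁻¹, ?_⟩
      have h2 : mob r (some (c - r)⁻¹) = some (algebraMap k k r + ((c - r)⁻¹)⁻¹) := if_neg h1
      rw [h2, inv_inv, Algebra.algebraMap_self, RingHom.id_apply, add_sub_cancel]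

theorem onY_mob {F : Fam k m} (hF : F.Adm) (r : k) (x : Option K) (u : Fin m → Option K) :
    OnY (cng r F) x u ↔ OnY F (mob r x) u := by
  obtain ⟨c, hc, h⟩ := form_mob (K := K) r x
  have hD : c ^ F.D = ∏ i, c ^ F.d i := by
    unfold Fam.D
    rw [Finset.prod_pow_eq_pow_sum]
  have h1 : ∀ i, form ((cng r F).d i) ((cng r F).B i) x * snd (u i) ^ (cng r F).M -
      form ((cng r F).d i) ((cng r F).C i) x * fst (u i) ^ (cng r F).M =
      c ^ F.d i * (form (F.d i) (F.B i) (mob r x) * snd (u i) ^ F.M -
        form (F.d i) (F.C i) (mob r x) * fst (u i) ^ F.M) := by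
    intro i
    show form (F.d i) (tr r (F.d i) (F.B i)) x * snd (u i) ^ F.M -
      form (F.d i) (tr r (F.d i) (F.C i)) x * fst (u i) ^ F.M = _
    rw [h _ _ (hF.degB i), h _ _ (hF.degC i)]
    ring
  have h2 : form (cng r F).D (cng r F).A x = c ^ F.D * form F.D F.A (mob r x) := h _ _ hF.degA
  unfold OnY
  rw [Finset.prod_congr rfl fun i _ => h1 i, Finset.prod_mul_distrib, ← hD, h2, mul_assoc]
  exact mul_right_inj' (pow_ne_zero _ hc)

theorem adm_cng {F : Fam k m} (hF : F.Adm) (r : k) : (cng r F).Adm := by
  refine ⟨hF.two, hF.M0, fun i => tr_deg r (hF.degB i), fun i => tr_deg r (hF.degC i),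
    tr_deg r hF.degA, fun i => tr_ne r _ (hF.B0 i), fun i => tr_ne r _ (hF.C0 i),
    tr_ne r _ hF.A0, fun c hc => ?_⟩
  have h1 : ∏ i, (cng r F).B i = tr r F.D (∏ i, F.B i) :=
    (tr_prod r Finset.univ F.d F.B hF.degB).symm
  rw [h1, ← tr_C_mul] at hc
  exact hF.indep c (tr_inj r F.D hc)

theorem deg_cng {F : Fam k m} (hF : F.Adm) {r : k} {i : Fin m} (hi : 0 < F.d i)
    (hr : (F.C i).IsRoot r) : ((cng r F).C i).natDegree < (cng r F).d i := by
  have _ := hi
  show (tr r (F.d i) (F.C i)).natDegree < F.d i
  refine lt_of_le_of_ne (tr_deg r (hF.degC i)) fun h => ?_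
  have h1 := tr_coeff_top r (F.d i) (F.C i)
  rw [hr] at h1
  have h2 : (tr r (F.d i) (F.C i)).leadingCoeff = 0 := by
    unfold leadingCoeff
    rw [h]
    exact h1
  exact tr_ne r _ (hF.C0 i) (leadingCoeff_eq_zero.1 h2)

/-- it is sufficient to consider the case that a form `C_i` vanishes at infinity -/
theorem vanish_all [IsAlgClosed k] [CharZero k]
    (H : ∀ (F : Fam k m) (i : Fin m), F.Adm → (F.C i).natDegree < F.d i → Vanish F)
    {F : Fam k m} (hF : F.Adm) : Vanish F := by
  have hd : ∃ i, 0 < F.d i := by
    by_contra hcon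
    push Not at hcon
    have hd0 : ∀ i, F.d i = 0 := fun i => Nat.le_zero.1 (hcon i)
    have hD0 : F.D = 0 := Finset.sum_eq_zero fun i _ => hd0 i
    have hA : F.A = Polynomial.C (F.A.coeff 0) :=
      eq_C_of_natDegree_eq_zero (Nat.le_zero.1 (hD0 ▸ hF.degA))
    have hBd : (∏ i, F.B i).natDegree = 0 := by
      refine Nat.le_zero.1 ((natDegree_prod_le _ _).trans ?_)
      exact (Finset.sum_le_sum fun i _ => hF.degB i).trans hD0.le
    have hB := eq_C_of_natDegree_eq_zero hBd
    have hB0 : ∏ i, F.B i ≠ 0 := Finset.prod_ne_zero_iff.2 fun i _ => hF.B0 i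
    have hb0 : (∏ i, F.B i).coeff 0 ≠ 0 := by
      intro h
      rw [h, C_0] at hB
      exact hB0 hB
    apply hF.indep (F.A.coeff 0 / (∏ i, F.B i).coeff 0)
    rw [hB, ← C_mul, coeff_C_zero, div_mul_cancel₀ _ hb0]
    exact hA
  obtain ⟨i, hi⟩ := hd
  by_cases hCi : (F.C i).natDegree < F.d i
  · exact H F i hF hCi
  have hdeg : (F.C i).degree ≠ 0 := by
    intro h
    have h1 := natDegree_eq_of_degree_eq_some (n := 0) h
    omega
  obtain ⟨r, hr⟩ := IsAlgClosed.exists_root _ hdeg
  have hV := H (cng r F) i (adm_cng hF r) (deg_cng hF hi hr)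
  intro W _ _ b E hb hcf heig s u hs
  choose x hx using fun j => mob_surj r (s j)
  have h1 := hV W b (fun x u => E (fun j => mob r (x j)) u) hb
    (fun K _ _ hK s' u' f hf hon => ?_) (fun s' u' j i' ζ hζ => heig _ u' j i' ζ hζ) x u
    (fun j => (onY_mob hF r _ _).2 (by rw [hx]; exact hs j))
  · have h2 : AE E s u = AE (fun x u => E (fun j => mob r (x j)) u) x u := by
      unfold AE
      refine Finset.sum_congr rfl fun π _ => ?_
      simp only [hx]
    rw [h2]
    exact h1
  · have hres : HasRes k K := hasRes_of_isCurve hK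
    have h2 := hcf K hK (fun j => mob r (s' j)) u' f hf fun j => (onY_mob hF r _ _).1 (hon j)
    simp only [vlo_mob] at h2
    exact h2

end Pool.Agent.HGF
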