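import Pool.Agent.HGF.Seq
import Pool.Agent.GT.Val

/-!
# Project HGF, core: an affine recursion

`ph x y i h = (y_i / x_i) (h + 1 - x_i)`, `fl x y l n h = ph_{l+n-1} (... (ph_l h))` (`n` steps). It is
`al x y l n * h + be x y l n`. `fx m x y l` is the fixed point of `fl x y l (m - l)`, it exists if
`al x y l (m - l) ≠ 1`. The numbers `gn m x y q` are `1 - al x y l (m - l)` and the numerators of
`fl x y l n (fx m x y l)` and of `fl x y l n (fx m x y l) + 1`, for `l < m`, `n ≤ m - l`. They are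
polynomials in `x_i`, `y_i`, `x_i⁻¹`, so they pass to the values at places (`gn_at`).

**`gn_const`.** For constant sequences `a ≠ b`, both different from `0`, `1`, let
`h = b (1 - a) / (a - b)`. Then `ph h = h`, so `fl x y l n h = h` for all `n`, `al x y l n = (b / a) ^ n`; if
`b ^ j ≠ a ^ j` for `1 ≤ j ≤ m` then `fx m x y l = h`, the numerators are `(1 - al) h` and `(1 - al) (h + 1)`,
`h ≠ 0`, `h + 1 = a (1 - b) / (a - b) ≠ 0`. The set of the exceptions `b` is finite: `0`, `1` and the roots of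
`X ^ j - a ^ j`, `1 ≤ j ≤ m`. The same with `a` and `b` exchanged.
-/

set_option autoImplicit false

noncomputable section

namespace Pool.Agent.HGF

open Finset Pool.Agent.ZCyc Pool.Agent.Dess Pool.Agent.GT

section Alg

variable {K : Type*} [Field K] {m : ℕ}

/-- the affine map with the number `i` -/
def ph (x y : ℕ → K) (i : ℕ) (h : K) : K := y i / x i * (h + 1 - x i)

/-- `n` steps of the recursion, starting with the number `l` -/
def fl (x y : ℕ → K) (l : ℕ) : ℕ → K → K
  | 0, h => h
  | n + 1, h => ph x y (l + n) (fl x y l n h)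

/-- the linear coefficient of `fl` -/
def al (x y : ℕ → K) (l n : ℕ) : K := ∏ i ∈ range n, y (l + i) / x (l + i)

/-- the constant coefficient of `fl` -/
def be (x y : ℕ → K) (l : ℕ) : ℕ → K
  | 0 => 0
  | n + 1 => y (l + n) / x (l + n) * (be x y l n + 1 - x (l + n))

/-- the fixed point of `m - l` steps -/
def fx (m : ℕ) (x y : ℕ → K) (l : ℕ) : K := be x y l (m - l) / (1 - al x y l (m - l))

/-- the numerator of `fl x y l n (fx m x y l)` -/
def nmr (m : ℕ) (x y : ℕ → K) (l n : ℕ) : K :=
  al x y l n * be x y l (m - l) + (1 - al x y l (m - l)) * be x y l n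

/-- the conditions for general position -/
def gn (m : ℕ) (x y : ℕ → K) (q : Fin 3 × Fin m × Fin (m + 1)) : K :=
  if (q.2.1 : ℕ) + q.2.2 ≤ m then
    if q.1 = 0 then 1 - al x y q.2.1 (m - q.2.1)
    else if q.1 = 1 then nmr m x y q.2.1 q.2.2
    else nmr m x y q.2.1 q.2.2 + (1 - al x y q.2.1 (m - q.2.1))
  else 1

/-- general position -/
def Gen (m : ℕ) (x y : ℕ → K) : Prop := ∀ q, gn m x y q ≠ 0

theorem fl_eq (x y : ℕ → K) (l n : ℕ) (h : K) :
    fl x y l n h = al x y l n * h + be x y l n := by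
  induction n with
  | zero =>
    show h = (∏ i ∈ range 0, y (l + i) / x (l + i)) * h + 0
    rw [prod_range_zero, one_mul, add_zero]
  | succ n ih =>
    show y (l + n) / x (l + n) * (fl x y l n h + 1 - x (l + n)) =
      (∏ i ∈ range (n + 1), y (l + i) / x (l + i)) * h +
        y (l + n) / x (l + n) * (be x y l n + 1 - x (l + n))
    rw [ih, prod_range_succ]
    unfold al
    ring

theorem fl_add (x y : ℕ → K) (l n n' : ℕ) (h : K) :
    fl x y l (n + n') h = fl x y (l + n) n' (fl x y l n h) := by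
  induction n' with
  | zero => rfl
  | succ n' ih =>
    show ph x y (l + (n + n')) (fl x y l (n + n') h) =
      ph x y (l + n + n') (fl x y (l + n) n' (fl x y l n h))
    rw [ih, add_assoc]

/-- the recursion is the same after one period -/
theorem fl_per {x y : ℕ → K} (hx : Per m x) (hy : Per m y) (l n : ℕ) (h : K) :
    fl x y (l + m) n h = fl x y l n h := by
  induction n with
  | zero => rfl
  | succ n ih =>
    show y (l + m + n) / x (l + m + n) * (fl x y (l + m) n h + 1 - x (l + m + n)) =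
      y (l + n) / x (l + n) * (fl x y l n h + 1 - x (l + n))
    have e : l + m + n = l + n + m := by omega
    rw [ih, e, hx, hy]

theorem al_succ_left (x y : ℕ → K) (l n : ℕ) : al x y l (n + 1) = y l / x l * al x y (l + 1) n := by
  unfold al
  rw [prod_range_succ', mul_comm]
  congr 1
  refine prod_congr rfl fun i _ => ?_
  rw [show l + 1 + i = l + (i + 1) by omega]

theorem al_ne {x y : ℕ → K} (hx : ∀ i, x i ≠ 0) (hy : ∀ i, y i ≠ 0) (l n : ℕ) :
    al x y l n ≠ 0 := by
  unfold al
  exact prod_ne_zero_iff.2 fun i _ => div_ne_zero (hy _) (hx _)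

theorem Gen.al_ne_one {x y : ℕ → K} (h : Gen m x y) {l : ℕ} (hl : l < m) :
    al x y l (m - l) ≠ 1 := by
  have h1 := h (0, ⟨l, hl⟩, ⟨0, by omega⟩)
  unfold gn at h1
  rw [if_pos (show l + 0 ≤ m by omega), if_pos rfl] at h1
  intro h2
  apply h1
  show 1 - al x y l (m - l) = 0
  rw [h2, sub_self]

theorem Gen.fl_fx {x y : ℕ → K} (h : Gen m x y) {l : ℕ} (hl : l < m) :
    fl x y l (m - l) (fx m x y l) = fx m x y l := by
  have h1 : 1 - al x y l (m - l) ≠ 0 := sub_ne_zero.2 (h.al_ne_one hl).symm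
  rw [fl_eq]
  unfold fx
  field_simp
  ring

private theorem fl_fx_eq {x y : ℕ → K} {l n : ℕ} (h1 : 1 - al x y l (m - l) ≠ 0) :
    fl x y l n (fx m x y l) = nmr m x y l n / (1 - al x y l (m - l)) := by
  rw [fl_eq]
  unfold fx nmr
  field_simp

theorem Gen.ne_zero {x y : ℕ → K} (h : Gen m x y) {l n : ℕ} (hl : l < m) (hn : l + n ≤ m) :
    fl x y l n (fx m x y l) ≠ 0 := by
  have h1 : 1 - al x y l (m - l) ≠ 0 := sub_ne_zero.2 (h.al_ne_one hl).symm
  rw [fl_fx_eq h1]
  have h2 := h (1, ⟨l, hl⟩, ⟨n, by omega⟩)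
  unfold gn at h2
  rw [if_pos hn, if_neg (show ¬ (1 : Fin 3) = 0 by decide), if_pos rfl] at h2
  exact div_ne_zero h2 h1

theorem Gen.add_one_ne {x y : ℕ → K} (h : Gen m x y) {l n : ℕ} (hl : l < m) (hn : l + n ≤ m) :
    fl x y l n (fx m x y l) + 1 ≠ 0 := by
  have h1 : 1 - al x y l (m - l) ≠ 0 := sub_ne_zero.2 (h.al_ne_one hl).symm
  rw [fl_fx_eq h1]
  have h2 := h (2, ⟨l, hl⟩, ⟨n, by omega⟩)
  unfold gn at h2
  rw [if_pos hn, if_neg (show ¬ (2 : Fin 3) = 0 by decide),
    if_neg (show ¬ (2 : Fin 3) = 1 by decide)] at h2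
  have h3 : nmr m x y l n / (1 - al x y l (m - l)) + 1 =
      (nmr m x y l n + (1 - al x y l (m - l))) / (1 - al x y l (m - l)) := by
    rw [add_div, div_self h1]
  rw [h3]
  exact div_ne_zero h2 h1

/-- generic position for constant sequences -/
theorem gen_const {a b : K} (ha : a ≠ 0) (ha' : a ≠ 1) (hb : b ≠ 0) (hb' : b ≠ 1)
    (h : ∀ j, 1 ≤ j → j ≤ m → b ^ j ≠ a ^ j) : Gen m (fun _ => a) fun _ => b := by
  intro q
  unfold gn
  have hm : 1 ≤ m := by
    have := q.2.1.isLt
    omega
  have hab : a - b ≠ 0 := by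
    intro h1
    apply h 1 le_rfl hm
    rw [pow_one, pow_one, sub_eq_zero.1 h1]
  have hal : ∀ l n, al (fun _ => a) (fun _ => b) l n = (b / a) ^ n := by
    intro l n
    unfold al
    rw [prod_const, card_range]
  have hfl : ∀ l n, fl (fun _ => a) (fun _ => b) l n (b * (1 - a) / (a - b)) =
      b * (1 - a) / (a - b) := by
    intro l n
    induction n with
    | zero => rfl
    | succ n ih =>
      show b / a * (fl (fun _ => a) (fun _ => b) l n (b * (1 - a) / (a - b)) + 1 - a) = _
      rw [ih]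
      field_simp
      ring
  have hbe : ∀ l n, be (fun _ => a) (fun _ => b) l n =
      (1 - (b / a) ^ n) * (b * (1 - a) / (a - b)) := by
    intro l n
    have h1 := fl_eq (fun _ => a) (fun _ => b) l n (b * (1 - a) / (a - b))
    rw [hfl, hal] at h1
    linear_combination -h1
  have hnmr : ∀ l n, nmr m (fun _ => a) (fun _ => b) l n =
      (1 - (b / a) ^ (m - l)) * (b * (1 - a) / (a - b)) := by
    intro l n
    unfold nmr
    rw [hal, hal, hbe, hbe]
    ring
  have hne : ∀ l : Fin m, 1 - (b / a) ^ (m - (l : ℕ)) ≠ 0 := by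
    intro l h1
    have hl := l.isLt
    apply h (m - l) (by omega) (by omega)
    rw [div_pow] at h1
    have h2 : a ^ (m - (l : ℕ)) ≠ 0 := pow_ne_zero _ ha
    have h3 := sub_eq_zero.1 h1
    rw [eq_comm, div_eq_one_iff_eq h2] at h3
    exact h3
  split_ifs
  · rw [hal]
    exact hne _
  · rw [hnmr]
    exact mul_ne_zero (hne _) (div_ne_zero (mul_ne_zero hb (sub_ne_zero.2 ha'.symm)) hab)
  · rw [hnmr, hal]
    have h1 : (1 - (b / a) ^ (m - (q.2.1 : ℕ))) * (b * (1 - a) / (a - b)) +
        (1 - (b / a) ^ (m - (q.2.1 : ℕ))) =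
        (1 - (b / a) ^ (m - (q.2.1 : ℕ))) * (a * (1 - b) / (a - b)) := by
      have h2 : b * (1 - a) / (a - b) + 1 = a * (1 - b) / (a - b) := by
        field_simp
        ring
      rw [← h2]
      ring
    rw [h1]
    exact mul_ne_zero (hne _) (div_ne_zero (mul_ne_zero ha (sub_ne_zero.2 hb'.symm)) hab)
  · exact one_ne_zero

theorem gn_const {a : K} (ha : a ≠ 0) (ha' : a ≠ 1) :
    {b : K | ¬ Gen m (fun _ => a) fun _ => b}.Finite ∧
      {b : K | ¬ Gen m (fun _ => b) fun _ => a}.Finite := by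
  classical
  have hfin : ({0, 1} ∪ ⋃ j ∈ Set.Icc 1 m, {b : K | b ^ j = a ^ j}).Finite := by
    refine Set.Finite.union (by simp) (Set.Finite.biUnion (Set.finite_Icc 1 m) fun j hj => ?_)
    refine ((Polynomial.nthRoots j (a ^ j)).toFinset.finite_toSet).subset fun b hb => ?_
    rw [mem_coe, Multiset.mem_toFinset, Polynomial.mem_nthRoots (by
      have := hj.1
      omega)]
    exact hb
  constructor
  · refine hfin.subset fun b hb => ?_
    by_contra h1
    apply hb
    have h2 := not_or.1 h1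
    refine gen_const ha ha' (fun h3 => h2.1 (Or.inl h3)) (fun h3 => h2.1 (Or.inr h3))
      fun j hj1 hj2 h3 => h2.2 ?_
    exact Set.mem_biUnion (Set.mem_Icc.2 ⟨hj1, hj2⟩) h3
  · refine hfin.subset fun b hb => ?_
    by_contra h1
    apply hb
    have h2 := not_or.1 h1
    refine gen_const (fun h3 => h2.1 (Or.inl h3)) (fun h3 => h2.1 (Or.inr h3)) ha ha'
      fun j hj1 hj2 h3 => h2.2 ?_
    exact Set.mem_biUnion (Set.mem_Icc.2 ⟨hj1, hj2⟩) h3.symm

end Alg

/-- the values at a place -/
theorem gn_at {k : Type} [Field k] {K : Type} [Field K] [Algebra k K] {m : ℕ} {v : Place k K}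
    {x y : ℕ → K} {x' y' : ℕ → k} (hx : ∀ i, v.At (x i) (x' i)) (hy : ∀ i, v.At (y i) (y' i))
    (h0 : ∀ i, x' i ≠ 0) (q : Fin 3 × Fin m × Fin (m + 1)) :
    v.At (gn m x y q) (gn m x' y' q) := by
  have h1 : v.At (1 : K) (1 : k) := by
    have := Place.at_const (v := v) (1 : k)
    rwa [map_one] at this
  have hal : ∀ l n, v.At (al x y l n) (al x' y' l n) := by
    intro l n
    unfold al
    exact Place.At.prod fun i _ => (hy _).div (hx _) (h0 _)
  have hbe : ∀ l n, v.At (be x y l n) (be x' y' l n) := by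
    intro l n
    induction n with
    | zero =>
      have := Place.at_const (v := v) (0 : k)
      rw [map_zero] at this
      exact this
    | succ n ih => exact ((hy _).div (hx _) (h0 _)).mul ((ih.add h1).sub (hx _))
  have hnmr : ∀ l n, v.At (nmr m x y l n) (nmr m x' y' l n) := by
    intro l n
    exact ((hal _ _).mul (hbe _ _)).add ((h1.sub (hal _ _)).mul (hbe _ _))
  unfold gn
  split_ifs
  · exact h1.sub (hal _ _)
  · exact hnmr _ _
  · exact (hnmr _ _).add (h1.sub (hal _ _))
  · exact h1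

end Pool.Agent.HGF
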