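import Pool.Agent.HGF.Defs
import Pool.Agent.HYG.ATwo

/-!
# Project HGF, core: the two point lemma

`two_roots` is the variant of `HYG.Chn.two_point` where the function `η ^ M - 1` has the zeros `t = a`
and
`t = b`, which may coincide. Let `η ^ M = 1 + (t - a) (t - b) u`. Add the relations for all `M`-th
roots of
unity `ζ`. The contribution of a place `v` is `∑ ζ, ord v (ζ η - 1) • F ζ v`. It is zero at the
poles of `η`
(`hF0`). Let `η` have the value `e` at `v` (`HasRes`). If `e ^ M ≠ 1` it is zero by
`HYG.Chn.ord_root_zero`. If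
`e ^ M = 1` then `t` is regular at `v` (`hinf`), `(t - a) (t - b) u` has the value zero, and `t`
has the value
`a` or `b`: otherwise `u` vanishes at `v`, but `u⁻¹` is regular (`hu₃`) (and `u ≠ 0`, because
`η ^ M = 1`
is not possible by `hinf` at a pole of `t`). By `HYG.Chn.ord_root_zero` only `ζ = e⁻¹` contributes, and
by
`HYG.Chn.sum_ord_roots` the contribution is `ord v (η ^ M - 1) • F e⁻¹ v`, with
`ord v (η ^ M - 1) = ord v (t - a) + ord v (t - b)` (`ord v u = 0` by `hu₁`, `hu₂`), `F e⁻¹ v = g₁`
if `t` has
the value `a` and `g₂` if `t` has the value `b`. If `t` has the value `a` or `b` then `e ^ M = 1`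
(the value
of `η ^ M` is `1 + 0`). Hence the sum is
`(∑_{v : t = a} ord v (t - a)) • g₁ + (∑_{v : t = b} ord v (t - b)) • g₂ = N • (g₁ + g₂)` with
`N = finrank (k(t)) K > 0` (`deg_zeros'` for `t - a` and `t - b`, `k(t - a) = k(t)`, as in
`GT.bridge`). If
`a = b` both sums are over the same places, and the contribution of `v` is
`(2 ord v (t - a)) • g₁ = ord v (t - a) • g₁ + ord v (t - a) • g₂`.
-/

set_option autoImplicit false

noncomputable section

namespace Pool.Agent.HGF

open Pool.Agent.ZCyc Pool.Agent.Dess Pool.Agent.GT Pool.Agent.TInc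
open scoped Classical

variable {k : Type} [Field k] [IsAlgClosed k] [CharZero k] {K : Type} [Field K] [Algebra k K]

/-- the contribution of a place -/
private lemma contrib_CoB (hK : IsCurve k K) {W : Type} [AddCommGroup W] [Module ℚ W] {M : ℕ}
    (hM : 0 < M) {t u η : K} {a b : k} (hta0 : t - algebraMap k K a ≠ 0)
    (htb0 : t - algebraMap k K b ≠ 0) (hu0 : u ≠ 0)
    (hη : η ^ M = 1 + (t - algebraMap k K a) * (t - algebraMap k K b) * u)
    (hu₁ : ∀ v : Place k K, v.At t a → ∃ d, d ≠ 0 ∧ v.At u d)
    (hu₂ : ∀ v : Place k K, v.At t b → ∃ d, d ≠ 0 ∧ v.At u d)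
    (hu₃ : ∀ v : Place k K, t ∈ v.ring → u⁻¹ ∈ v.ring)
    (hinf : ∀ v : Place k K, t ∉ v.ring → ¬ v.At (η ^ M) 1)
    (F : k → Place k K → W) {g₁ g₂ : W}
    (hF0 : ∀ (ζ : k) (v : Place k K), ζ ^ M = 1 → η ∉ v.ring → F ζ v = 0)
    (hF1 : ∀ (ζ : k) (v : Place k K), ζ ^ M = 1 → v.At t a → v.At (algebraMap k K ζ * η) 1 →
      F ζ v = g₁)
    (hF2 : ∀ (ζ : k) (v : Place k K), ζ ^ M = 1 → v.At t b → v.At (algebraMap k K ζ * η) 1 →
      F ζ v = g₂) (v : Place k K) :
    ∑ ζ ∈ Polynomial.nthRootsFinset M (1 : k), ord v (algebraMap k K ζ * η - 1) • F ζ v =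
      (if v.At t a then ord v (t - algebraMap k K a) • g₁ else 0) +
        if v.At t b then ord v (t - algebraMap k K b) • g₂ else 0 := by
  have htt0 : (t - algebraMap k K a) * (t - algebraMap k K b) ≠ 0 := mul_ne_zero hta0 htb0
  have htu0 : (t - algebraMap k K a) * (t - algebraMap k K b) * u ≠ 0 := mul_ne_zero htt0 hu0
  have hη1 : η ^ M ≠ 1 := by
    intro h
    apply htu0
    rw [h] at hη
    exact (left_eq_add.1 hη)
  -- at a zero of `t - a` or `t - b` the function `η ^ M - 1` vanishes
  have hz1 : v.At t a ∨ v.At t b → v.At (η ^ M) 1 := by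
    intro h
    have hz : v.At ((t - algebraMap k K a) * (t - algebraMap k K b) * u) 0 := by
      rcases h with h | h
      · obtain ⟨d, _, hd⟩ := hu₁ v h
        have h1 := ((h.sub (Place.at_const a)).mul (h.sub (Place.at_const b))).mul hd
        rwa [sub_self, zero_mul, zero_mul] at h1
      · obtain ⟨d, _, hd⟩ := hu₂ v h
        have h1 := ((h.sub (Place.at_const a)).mul (h.sub (Place.at_const b))).mul hd
        rwa [sub_self, mul_zero, zero_mul] at h1
    have h1 := (Place.at_const (v := v) (1 : k)).add hz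
    rw [map_one, add_zero, ← hη] at h1
    exact h1
  by_cases hηv : η ∈ v.ring
  · obtain ⟨e, he⟩ := exists_at hK v hηv
    have heM : v.At (η ^ M) (e ^ M) := he.pow M
    by_cases heM1 : e ^ M = 1
    · -- one root of unity contributes
      have he0 : e ≠ 0 := by
        rintro rfl
        rw [zero_pow hM.ne'] at heM1
        exact zero_ne_one heM1
      have hζ0 : (e⁻¹) ^ M = 1 := by rw [inv_pow, heM1, inv_one]
      have hmem : e⁻¹ ∈ Polynomial.nthRootsFinset M (1 : k) :=
        (Polynomial.mem_nthRootsFinset hM _).2 hζ0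
      have hoth : ∀ ζ ∈ Polynomial.nthRootsFinset M (1 : k), ζ ≠ e⁻¹ →
          ord v (algebraMap k K ζ * η - 1) = 0 := by
        intro ζ _ hζ
        apply HYG.Chn.ord_root_zero hK he
        intro h
        exact hζ (eq_inv_of_mul_eq_one_left h)
      have h1 : ∑ ζ ∈ Polynomial.nthRootsFinset M (1 : k),
          ord v (algebraMap k K ζ * η - 1) • F ζ v =
          ord v (algebraMap k K e⁻¹ * η - 1) • F e⁻¹ v := by
        apply Finset.sum_eq_single_of_mem _ hmem
        intro ζ hζ hne
        rw [hoth ζ hζ hne, zero_smul]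
      have h2 : ord v (algebraMap k K e⁻¹ * η - 1) =
          ord v (t - algebraMap k K a) + ord v (t - algebraMap k K b) + ord v u := by
        rw [← Finset.sum_eq_single_of_mem (f := fun ζ => ord v (algebraMap k K ζ * η - 1)) _ hmem
          hoth, HYG.Chn.sum_ord_roots hK v hM hη1, hη, add_sub_cancel_left, ord_mul hK v htt0 hu0,
          ord_mul hK v hta0 htb0]
      have hval : v.At (algebraMap k K e⁻¹ * η) 1 := by
        have h3 := (Place.at_const (v := v) e⁻¹).mul he
        rwa [inv_mul_cancel₀ he0] at h3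
      rw [h1, h2]
      have htv : t ∈ v.ring := by
        by_contra htv
        apply hinf v htv
        rwa [heM1] at heM
      obtain ⟨c, hc⟩ := exists_at hK v htv
      have hcab : c = a ∨ c = b := by
        by_contra hn
        rw [not_or] at hn
        have h3 : v.At ((t - algebraMap k K a) * (t - algebraMap k K b) * u) 0 := by
          have h4 := heM.sub (Place.at_const (v := v) (1 : k))
          rw [heM1, sub_self, map_one, hη, add_sub_cancel_left] at h4
          exact h4
        have h5 : v.At ((t - algebraMap k K a) * (t - algebraMap k K b)) ((c - a) * (c - b)) :=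
          (hc.sub (Place.at_const a)).mul (hc.sub (Place.at_const b))
        have h6 : (c - a) * (c - b) ≠ 0 :=
          mul_ne_zero (sub_ne_zero.2 hn.1) (sub_ne_zero.2 hn.2)
        have h4 := h3.mul (h5.inv h6)
        have e' : (t - algebraMap k K a) * (t - algebraMap k K b) * u *
            ((t - algebraMap k K a) * (t - algebraMap k K b))⁻¹ = u := by
          field_simp
        rw [e', zero_mul, Place.at_zero_iff, Place.vanishes_iff_or] at h4
        rcases h4 with h4 | h4
        · exact hu0 h4
        · exact h4 (hu₃ v htv)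
      have hou : ord v u = 0 := by
        rcases hcab with rfl | rfl
        · obtain ⟨d, hd0, hd⟩ := hu₁ v hc
          exact ord_of_at hK hd hd0
        · obtain ⟨d, hd0, hd⟩ := hu₂ v hc
          exact ord_of_at hK hd hd0
      rw [hou, add_zero]
      have hoc : ∀ d : k, c ≠ d → ord v (t - algebraMap k K d) = 0 := fun d hd =>
        ord_of_at hK (hc.sub (Place.at_const d)) (sub_ne_zero.2 hd)
      by_cases hca : c = a
      · subst hca
        rw [if_pos hc, add_smul, hF1 _ v hζ0 hc hval]
        by_cases hcb : c = b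
        · subst hcb
          rw [if_pos hc, ← hF1 _ v hζ0 hc hval, ← hF2 _ v hζ0 hc hval]
        · rw [if_neg fun h => hcb (hc.unique h), hoc b hcb, zero_smul]
      · have hcb : c = b := hcab.resolve_left hca
        subst hcb
        rw [if_pos hc, if_neg fun h => hca (hc.unique h), hoc a hca, zero_add, zero_add,
          hF2 _ v hζ0 hc hval]
    · -- nothing contributes
      have hno : ¬ (v.At t a ∨ v.At t b) := fun h => heM1 (heM.unique (hz1 h))
      rw [not_or] at hno
      rw [if_neg hno.1, if_neg hno.2, add_zero]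
      apply Finset.sum_eq_zero
      intro ζ hζ
      rw [Polynomial.mem_nthRootsFinset hM] at hζ
      rw [HYG.Chn.ord_root_zero hK he, zero_smul]
      intro h
      apply heM1
      have h1 : (ζ * e) ^ M = 1 := by rw [h, one_pow]
      rwa [mul_pow, hζ, one_mul] at h1
  · -- poles of `η`
    have hno : ¬ (v.At t a ∨ v.At t b) := by
      intro h
      apply hηv
      have h1 := (hz1 h).mem
      have hη0 : η ≠ 0 := by
        rintro rfl
        exact hηv (zero_mem _)
      rw [mem_iff_ord hK (pow_ne_zero M hη0), ord_pow hK] at h1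
      rw [mem_iff_ord hK hη0]
      have hM' : (0 : ℤ) < M := by exact_mod_cast hM
      exact nonneg_of_mul_nonneg_right h1 hM'
    rw [not_or] at hno
    rw [if_neg hno.1, if_neg hno.2, add_zero]
    apply Finset.sum_eq_zero
    intro ζ hζ
    rw [Polynomial.mem_nthRootsFinset hM] at hζ
    rw [hF0 ζ v hζ hηv, smul_zero]

theorem two_roots (hK : IsCurve k K) {W : Type} [AddCommGroup W] [Module ℚ W] {M : ℕ} (hM : 0 < M)
    {t u η : K} (ht : Transcendental k t) {a b : k}
    (hη : η ^ M = 1 + (t - algebraMap k K a) * (t - algebraMap k K b) * u)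
    (hu₁ : ∀ v : Place k K, v.At t a → ∃ d, d ≠ 0 ∧ v.At u d)
    (hu₂ : ∀ v : Place k K, v.At t b → ∃ d, d ≠ 0 ∧ v.At u d)
    (hu₃ : ∀ v : Place k K, t ∈ v.ring → u⁻¹ ∈ v.ring)
    (hinf : ∀ v : Place k K, t ∉ v.ring → ¬ v.At (η ^ M) 1)
    (F : k → Place k K → W) {g₁ g₂ : W}
    (hF : ∀ ζ : k, ζ ^ M = 1 →
      ((TInc.dv hK (algebraMap k K ζ * η - 1)).sum fun v a => a • F ζ v) = 0)
    (hF0 : ∀ (ζ : k) (v : Place k K), ζ ^ M = 1 → η ∉ v.ring → F ζ v = 0)
    (hF1 : ∀ (ζ : k) (v : Place k K), ζ ^ M = 1 → v.At t a → v.At (algebraMap k K ζ * η) 1 →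
      F ζ v = g₁)
    (hF2 : ∀ (ζ : k) (v : Place k K), ζ ^ M = 1 → v.At t b → v.At (algebraMap k K ζ * η) 1 →
      F ζ v = g₂) : g₁ + g₂ = 0 := by
  -- the functions `t - c`
  have hft : ∀ c, Transcendental k (t - algebraMap k K c) := by
    intro c h
    apply ht
    have h1 : t = (t - algebraMap k K c) + algebraMap k K c := by ring
    rw [h1]
    exact h.add (isAlgebraic_algebraMap c)
  have hf0 : ∀ c, t - algebraMap k K c ≠ 0 := by
    intro c h
    apply hft c
    rw [h]
    exact isAlgebraic_zero
  have hadj : ∀ c, IntermediateField.adjoin k {t - algebraMap k K c} =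
      IntermediateField.adjoin k {t} := by
    intro c
    apply le_antisymm
    · rw [IntermediateField.adjoin_simple_le_iff]
      exact sub_mem (IntermediateField.mem_adjoin_simple_self k t)
        (IntermediateField.algebraMap_mem _ c)
    · rw [IntermediateField.adjoin_simple_le_iff]
      have h1 : t = (t - algebraMap k K c) + algebraMap k K c := by ring
      have h2 : (t - algebraMap k K c) + algebraMap k K c ∈
          IntermediateField.adjoin k {t - algebraMap k K c} :=
        add_mem (IntermediateField.mem_adjoin_simple_self k (t - algebraMap k K c))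
          (IntermediateField.algebraMap_mem _ c)
      rwa [← h1] at h2
  have := fin_adjoin hK ht
  have hN : 0 < Module.finrank (IntermediateField.adjoin k {t}) K := Module.finrank_pos
  -- the zeros
  let S : k → Finset (Place k K) := fun c =>
    (finite_ord hK (t - algebraMap k K c)).toFinset.filter fun v => v.At t c
  have hS : ∀ c v, v ∈ S c ↔ v.At t c := by
    intro c v
    rw [Finset.mem_filter, Set.Finite.mem_toFinset]
    constructor
    · exact fun h => h.2
    · intro h
      have h1 := (vanishes_iff_ord hK (hf0 c)).1 h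
      exact ⟨ne_of_gt h1, h⟩
  have hdeg : ∀ c, ∑ v ∈ S c, ord v (t - algebraMap k K c) =
      Module.finrank (IntermediateField.adjoin k {t}) K := by
    intro c
    rw [deg_zeros' hK (hft c) (S c) (hS c), hadj c]
  -- `u ≠ 0`
  have hu0 : u ≠ 0 := by
    have hne : (S a).Nonempty := by
      rw [Finset.nonempty_iff_ne_empty]
      intro h
      have h1 := hdeg a
      rw [h, Finset.sum_empty] at h1
      omega
    obtain ⟨v, hv⟩ := hne
    obtain ⟨d, hd0, hd⟩ := hu₁ v ((hS a v).1 hv)
    rintro rfl
    have h0 := Place.at_const (v := v) (0 : k)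
    rw [map_zero] at h0
    exact hd0 (hd.unique h0)
  have hc := contrib_CoB hK hM (hf0 a) (hf0 b) hu0 hη hu₁ hu₂ hu₃ hinf F hF0 hF1 hF2
  -- the sum of all relations
  set R := Polynomial.nthRootsFinset M (1 : k) with hR
  set T := R.biUnion (fun ζ => (TInc.dv hK (algebraMap k K ζ * η - 1)).support) ∪
    (S a ∪ S b) with hT
  have hsum : ∀ ζ ∈ R, ∑ v ∈ T, ord v (algebraMap k K ζ * η - 1) • F ζ v = 0 := by
    intro ζ hζ
    have h1 := hF ζ ((Polynomial.mem_nthRootsFinset hM _).1 hζ)
    rw [Finsupp.sum_of_support_subset (s := T)] at h1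
    · exact h1
    · intro v hv
      rw [hT]
      apply Finset.mem_union_left
      rw [Finset.mem_biUnion]
      exact ⟨ζ, hζ, hv⟩
    · intro v _
      exact zero_smul ℤ _
  have htot : ∑ v ∈ T, ((if v.At t a then ord v (t - algebraMap k K a) • g₁ else 0) +
      if v.At t b then ord v (t - algebraMap k K b) • g₂ else 0) = 0 := by
    rw [← Finset.sum_congr rfl (fun v _ => hc v), Finset.sum_comm]
    exact Finset.sum_eq_zero hsum
  have hfa : T.filter (fun v => v.At t a) = S a := by
    ext v
    rw [Finset.mem_filter, hS]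
    constructor
    · exact fun h => h.2
    · intro h
      exact ⟨Finset.mem_union_right _ (Finset.mem_union_left _ ((hS a v).2 h)), h⟩
  have hfb : T.filter (fun v => v.At t b) = S b := by
    ext v
    rw [Finset.mem_filter, hS]
    constructor
    · exact fun h => h.2
    · intro h
      exact ⟨Finset.mem_union_right _ (Finset.mem_union_right _ ((hS b v).2 h)), h⟩
  rw [Finset.sum_add_distrib, ← Finset.sum_filter, ← Finset.sum_filter, hfa, hfb,
    ← Finset.sum_smul, ← Finset.sum_smul, hdeg a, hdeg b, ← smul_add,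
    ← Int.cast_smul_eq_zsmul ℚ] at htot
  rcases smul_eq_zero.1 htot with h | h
  · exfalso
    have h1 : Module.finrank (IntermediateField.adjoin k {t}) K = 0 := by exact_mod_cast h
    omega
  · exact h

end Pool.Agent.HGF
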