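import Pool.Agent.HGF.StA

/-!
# States: the sum over the permutations does not depend on the order of the factorisation

Let `E` be a function of `N` points which depends, for interior points, only on the rows and on the
products of the coordinates (`heq`), and which satisfies the core relation (`hcore`) for two slots.
Then the sums `AE` of the states which belong to the factorisations `O σ` of one operator are equal
(`orders`).
-/

set_option autoImplicit false

noncomputable section

namespace Pool.Agent.HGF

open Polynomial Finset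

variable {k : Type} [Field k] {m N : ℕ} {F : Fam k m} {W : Type} [AddCommGroup W]

/-- the finite points -/
def som {α : Type} (w : Fin N → α → k) : Fin N → α → Option k := fun j i => some (w j i)

/-- the finite points of the base -/
def som0 (s : Fin N → k) : Fin N → Option k := fun j => some (s j)

/-- `E` depends only on the `M`-th powers and on the products of the coordinates -/
def ProdInv (F : Fam k m) (E : (Fin N → Option k) → (Fin N → Fin m → Option k) → W) : Prop :=
  ∀ (s : Fin N → k) (w w' : Fin N → Fin m → k), (∀ j, Int F (s j) (w j)) →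
    (∀ j, Int F (s j) (w' j)) → (∀ j i, w' j i ^ F.M = w j i ^ F.M) →
    (∀ i, ∏ j, w' j i = ∏ j, w j i) → E (som0 s) (som w') = E (som0 s) (som w)

/-- the core relation for two slots -/
def CoreRel (F : Fam k m) (hm : 0 < m) (Gn : (ℕ → k) → (ℕ → k) → Prop)
    (rX rY : (ℕ → k) → (ℕ → k) → ℕ → k)
    (E : (Fin N → Option k) → (Fin N → Fin m → Option k) → W) : Prop :=
  ∀ (s : Fin N → k) (w w' : Fin N → Fin m → k) (a b : Fin N), a ≠ b →
    (∀ j, Int F (s j) (w j)) → (∀ j, Int F (s j) (w' j)) →
    (∀ l, l ≠ a → l ≠ b → w' l = w l) → (∀ i, w' a i * w' b i = w a i * w b i) →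
    lam F (s a) ≠ lam F (s b) → Gn (row F hm (s a) (w a)) (row F hm (s b) (w b)) →
    row F hm (s a) (w' a) = rX (row F hm (s a) (w a)) (row F hm (s b) (w b)) →
    row F hm (s b) (w' b) = rY (row F hm (s a) (w a)) (row F hm (s b) (w b)) →
    E (som0 s) (som w) = ((-1 : ℤ) ^ (m + 1)) • E (som0 s) (som w')

/-- the properties of the exchange of two neighbouring factors -/
def RProp (m : ℕ) (Gn : (ℕ → k) → (ℕ → k) → Prop) (rX rY : (ℕ → k) → (ℕ → k) → ℕ → k) : Prop :=
  ∀ x y, Good m x → Good m y → mu m x ≠ mu m y → Gn x y →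
    Good m (rX x y) ∧ Good m (rY x y) ∧ mu m (rX x y) = mu m x ∧ mu m (rY x y) = mu m y ∧
      ∀ ψ, op (rX x y) (op (rY x y) ψ) = op y (op x ψ)

omit [Field k] in
lemma ae_comp (E : (Fin N → Option k) → (Fin N → Fin m → Option k) → W) (s : Fin N → Option k)
    (u : Fin N → Fin m → Option k) (τ : Equiv.Perm (Fin N)) :
    AE E (fun j => s (τ j)) (fun j => u (τ j)) =
      ((Equiv.Perm.sign τ : ℤ) ^ (m + 1)) • AE E s u := by
  unfold AE
  rw [smul_sum, ← Equiv.sum_comp (Equiv.mulLeft τ)
    fun π => ((Equiv.Perm.sign τ : ℤ) ^ (m + 1)) • (((Equiv.Perm.sign π : ℤ) ^ (m + 1)) •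
      E (fun j => s (π j)) fun j => u (π j))]
  refine sum_congr rfl fun π _ => ?_
  show _ = ((Equiv.Perm.sign τ : ℤ) ^ (m + 1)) •
    (((Equiv.Perm.sign (τ * π) : ℤ) ^ (m + 1)) • E (fun j => s (τ (π j))) fun j => u (τ (π j)))
  have h1 : (Equiv.Perm.sign τ : ℤ) * (Equiv.Perm.sign τ : ℤ) = 1 := by
    rcases Int.units_eq_one_or (Equiv.Perm.sign τ) with h | h <;> rw [h] <;> rfl
  rw [smul_smul, Equiv.Perm.sign_mul, Units.val_mul, ← mul_pow, ← mul_assoc, h1, one_mul]

omit [Field k] in
lemma ae_congr {E : (Fin N → Option k) → (Fin N → Fin m → Option k) → W}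
    {s s' : Fin N → Option k} {u u' : Fin N → Fin m → Option k} (c : ℤ)
    (h : ∀ π : Equiv.Perm (Fin N), E (fun j => s (π j)) (fun j => u (π j)) =
      c • E (fun j => s' (π j)) fun j => u' (π j)) : AE E s u = c • AE E s' u' := by
  unfold AE
  rw [smul_sum]
  refine sum_congr rfl fun π _ => ?_
  rw [h π, smul_comm]

/-- the value of `AE` for a state does not depend on the choice of the roots -/
lemma ae_st (hm : 0 < m) {E : (Fin N → Option k) → (Fin N → Fin m → Option k) → W}
    (heq : ProdInv F E) {s : Fin N → k} {X : Fin N → ℕ → k} {p : Fin m → k}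
    {w w' : Fin N → Fin m → k} (h : IsSt F hm s X p w) (h' : IsSt F hm s X p w') :
    AE E (som0 s) (som w') = AE E (som0 s) (som w) := by
  rw [ae_congr (E := E) (s := som0 s) (s' := som0 s) (u := som w') (u' := som w) 1, one_smul]
  intro π
  rw [one_smul]
  refine heq (fun j => s (π j)) (fun j => w (π j)) (fun j => w' (π j))
    (fun j => h.int _) (fun j => h'.int _) (fun j i => ?_) fun i => ?_
  · rw [pow_of_row hm (h.int _).base (h.row _) i, pow_of_row hm (h'.int _).base (h'.row _) i]
  · rw [Equiv.prod_comp π fun j => w' j i, Equiv.prod_comp π fun j => w j i, h.prod, h'.prod]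

/-- exchange of two neighbours -/
theorem ae_swap [IsAlgClosed k] (hm : 0 < m) (hM : 0 < F.M) {Gn : (ℕ → k) → (ℕ → k) → Prop}
    {rX rY : (ℕ → k) → (ℕ → k) → ℕ → k}
    {E : (Fin N → Option k) → (Fin N → Fin m → Option k) → W}
    (hr : RProp m Gn rX rY) (hcore : CoreRel F hm Gn rX rY E) {s : Fin N → k}
    {X : Fin N → ℕ → k} {p : Fin m → k} {w : Fin N → Fin m → k} (h : IsSt F hm s X p w)
    {a b : Fin N} (hab : a ≠ b) (hlam : lam F (s a) ≠ lam F (s b)) (hgen : Gn (X a) (X b)) :
    ∃ w', IsSt F hm (fun j => s (Equiv.swap a b j))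
      (Function.update (Function.update X a (rY (X a) (X b))) b (rX (X a) (X b))) p w' ∧
      AE E (som0 fun j => s (Equiv.swap a b j)) (som w') = AE E (som0 s) (som w) := by
  set x := X a with hx
  set y := X b with hy
  have hgx : Good m x := by
    rw [hx, ← h.row]
    exact (h.int a).good hm
  have hgy : Good m y := by
    rw [hy, ← h.row]
    exact (h.int b).good hm
  have hmx : mu m x = lam F (s a) := by
    rw [hx, ← h.row]
    exact (h.int a).mu hm
  have hmy : mu m y = lam F (s b) := by
    rw [hy, ← h.row]
    exact (h.int b).mu hm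
  obtain ⟨g1, g2, g3, g4, g5⟩ := hr x y hgx hgy (by rwa [hmx, hmy]) hgen
  -- the new roots at `a`
  have hprod : ∀ i, (1 - rX x y i) * (1 - rY x y i) = (1 - x i) * (1 - y i) := by
    intro i
    have h1 := prod_one_sub (N := 2) (X := ![x, y]) (Y := ![rY x y, rX x y]) (by
      funext ψ
      exact g5 ψ) i
    rw [Fin.prod_univ_two, Fin.prod_univ_two] at h1
    rw [mul_comm]
    exact h1
  have hBa : ∀ i, aeval (s a) (F.B i) / aeval (s a) (F.C i) ≠ 0 := fun i =>
    div_ne_zero ((h.int a).B i) ((h.int a).C i)
  have h0 : ∀ i : Fin m, ∃ r : k,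
      r ^ F.M = aeval (s a) (F.B i) / aeval (s a) (F.C i) * (1 - rX x y i) := fun i =>
    IsAlgClosed.exists_pow_nat_eq _ hM
  choose r hrr using h0
  have hr0 : ∀ i, r i ≠ 0 := by
    intro i hi
    have h1 := hrr i
    rw [hi, zero_pow hM.ne'] at h1
    exact mul_ne_zero (hBa i) (sub_ne_zero.2 (g1.ne1 i).symm) h1.symm
  set w1 : Fin N → Fin m → k := Function.update (Function.update w a r) b
    fun i => w a i * w b i / r i with hw1
  have hw1a : w1 a = r := by
    rw [hw1, Function.update_of_ne hab, Function.update_self]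
  have hw1b : w1 b = fun i => w a i * w b i / r i := by
    rw [hw1, Function.update_self]
  have hw1l : ∀ l, l ≠ a → l ≠ b → w1 l = w l := by
    intro l hla hlb
    rw [hw1, Function.update_of_ne hlb, Function.update_of_ne hla]
  have hrow1a : row F hm (s a) (w1 a) = rX x y := by
    rw [hw1a]
    exact row_of_pow hm (h.int a).base g1.per hrr
  have hrow1b : row F hm (s b) (w1 b) = rY x y := by
    rw [hw1b]
    refine row_of_pow hm (h.int b).base g2.per fun i => ?_
    rw [div_pow, mul_pow, hrr, pow_of_row hm (h.int a).base (h.row a) i,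
      pow_of_row hm (h.int b).base (h.row b) i, ← hx, ← hy]
    have h1 := hBa i
    have h2 : 1 - rX x y i ≠ 0 := sub_ne_zero.2 (g1.ne1 i).symm
    rw [div_eq_iff (mul_ne_zero h1 h2)]
    linear_combination (aeval (s a) (F.B i) / aeval (s a) (F.C i)) *
      (aeval (s b) (F.B i) / aeval (s b) (F.C i)) * (-hprod i)
  have hint1 : ∀ j, Int F (s j) (w1 j) := by
    intro j
    by_cases hja : j = a
    · subst hja
      refine int_of_row hm hM (h.int j).base ?_ ?_
      · rw [hrow1a]
        exact g1
      · rw [hrow1a, g3, hmx]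
    · by_cases hjb : j = b
      · subst hjb
        refine int_of_row hm hM (h.int j).base ?_ ?_
        · rw [hrow1b]
          exact g2
        · rw [hrow1b, g4, hmy]
      · rw [hw1l j hja hjb]
        exact h.int j
  have hpair : ∀ i, w1 a i * w1 b i = w a i * w b i := by
    intro i
    rw [hw1a, hw1b]
    exact mul_div_cancel₀ _ (hr0 i)
  have hAE1 : AE E (som0 s) (som w) = ((-1 : ℤ) ^ (m + 1)) • AE E (som0 s) (som w1) := by
    refine ae_congr _ fun π => ?_
    refine hcore (fun j => s (π j)) (fun j => w (π j)) (fun j => w1 (π j)) (π.symm a) (π.symm b)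
      (fun h1 => hab (π.symm.injective h1)) (fun j => h.int _) (fun j => hint1 _)
      (fun l hla hlb => hw1l _ (fun h1 => hla (by rw [← h1, Equiv.symm_apply_apply]))
        fun h1 => hlb (by rw [← h1, Equiv.symm_apply_apply])) ?_ ?_ ?_ ?_ ?_
    · intro i
      rw [Equiv.apply_symm_apply, Equiv.apply_symm_apply]
      exact hpair i
    · rw [Equiv.apply_symm_apply, Equiv.apply_symm_apply]
      exact hlam
    · rw [Equiv.apply_symm_apply, Equiv.apply_symm_apply, h.row, h.row]
      exact hgen
    · rw [Equiv.apply_symm_apply, Equiv.apply_symm_apply, h.row, h.row]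
      exact hrow1a
    · rw [Equiv.apply_symm_apply, Equiv.apply_symm_apply, h.row, h.row]
      exact hrow1b
  refine ⟨fun j => w1 (Equiv.swap a b j), ⟨fun j => hint1 _, fun j => ?_, fun i => ?_⟩, ?_⟩
  · by_cases hjb : j = b
    · subst hjb
      rw [Equiv.swap_apply_right, Function.update_self]
      exact hrow1a
    · rw [Function.update_of_ne hjb]
      by_cases hja : j = a
      · subst hja
        rw [Equiv.swap_apply_left, Function.update_self]
        exact hrow1b
      · rw [Function.update_of_ne hja, Equiv.swap_apply_of_ne_of_ne hja hjb, hw1l j hja hjb]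
        exact h.row j
  · rw [Equiv.prod_comp (Equiv.swap a b) fun j => w1 j i, ← h.prod]
    have h1 : ∀ u : Fin N → Fin m → k, ∏ j, u j i = u a i * (u b i *
        ∏ j ∈ (univ.erase a).erase b, u j i) := by
      intro u
      rw [← mul_prod_erase univ _ (mem_univ a), ← mul_prod_erase (univ.erase a) _
        (mem_erase.2 ⟨hab.symm, mem_univ b⟩)]
    rw [h1, h1, ← mul_assoc, ← mul_assoc, hpair]
    congr 1
    refine prod_congr rfl fun j hj => ?_
    rw [mem_erase, mem_erase] at hj
    rw [hw1l j hj.2.1 hj.1]
  · have h1 := ae_comp E (som0 s) (som w1) (Equiv.swap a b)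
    have h2 : AE E (som0 fun j => s (Equiv.swap a b j)) (som fun j => w1 (Equiv.swap a b j)) =
        AE E (fun j => som0 s (Equiv.swap a b j)) fun j => som w1 (Equiv.swap a b j) := rfl
    rw [h2, h1, hAE1, Equiv.Perm.sign_swap hab, Units.val_neg, Units.val_one]

/-- **All factorisations of one operator give the same value.** -/
theorem orders [IsAlgClosed k] (hm : 0 < m) (hM : 0 < F.M) {Gn : (ℕ → k) → (ℕ → k) → Prop}
    {rX rY : (ℕ → k) → (ℕ → k) → ℕ → k}
    {E : (Fin N → Option k) → (Fin N → Fin m → Option k) → W} (heq : ProdInv F E)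
    (hr : RProp m Gn rX rY) (hcore : CoreRel F hm Gn rX rY E) {s : Fin N → k}
    (hinj : Function.Injective fun j => lam F (s j)) {X : Fin N → ℕ → k}
    {O : Equiv.Perm (Fin N) → Fin N → ℕ → k} (hO : Ords m X O)
    (hgen : ∀ (σ : Equiv.Perm (Fin N)) (j j' : Fin N), (j' : ℕ) = j + 1 →
      Gn (O σ j) (O σ j')) {p : Fin m → k} {w : Fin N → Fin m → k} (hw : IsSt F hm s X p w)
    (σ : Equiv.Perm (Fin N)) {w' : Fin N → Fin m → k}
    (hw' : IsSt F hm (fun j => s (σ j)) (O σ) p w') :
    AE E (som0 fun j => s (σ j)) (som w') = AE E (som0 s) (som w) := by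
  have hX : ∀ j, Good m (X j) := fun j => by
    rw [← hw.row]
    exact (hw.int j).good hm
  have hmu : ∀ j, mu m (X j) = lam F (s j) := fun j => by
    rw [← hw.row]
    exact (hw.int j).mu hm
  have hinjX : Function.Injective fun j => mu m (X j) := fun i j hij => hinj (by
    have h1 : mu m (X i) = mu m (X j) := hij
    rw [hmu, hmu] at h1
    exact h1)
  cases N with
  | zero =>
    have h1 : σ = 1 := Subsingleton.elim _ _
    subst h1
    have h2 : w' = w := Subsingleton.elim _ _
    rw [h2]
    rfl
  | succ n =>
    have hσ : σ ∈ Submonoid.closure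
        (Set.range fun i : Fin n => Equiv.swap i.castSucc i.succ) := by
      rw [Equiv.Perm.mclosure_swap_castSucc_succ]
      trivial
    induction hσ using Submonoid.closure_induction_right generalizing w' with
    | one =>
      rw [hO.one hX hinjX] at hw'
      exact ae_st hm heq hw hw'
    | mul_right σ _ τ hτ ih =>
      obtain ⟨i, rfl⟩ := hτ
      set a : Fin (n + 1) := i.castSucc with ha
      set b : Fin (n + 1) := i.succ with hb
      have hab : a ≠ b := by
        intro h1
        have h2 := congrArg Fin.val h1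
        simp [ha, hb] at h2
      have hbv : (b : ℕ) = a + 1 := by simp [ha, hb]
      obtain ⟨w0, hw0⟩ := exists_ws (F := F) hm hM (Nat.succ_pos n)
        (s := fun j => s (σ j)) (X := O σ) (p := p) (fun j => (hw.int _).base) (hO.good σ)
        (fun j => by rw [hO.mu, hmu]) (hw.pcond.perm σ (hO.opr σ))
      have h0 := ih hw0
      obtain ⟨w1, hw1, h1⟩ := ae_swap hm hM hr hcore hw0 hab
        (fun h2 => hab (σ.injective (hinj h2))) (hgen σ a b hbv)
      have hgx := hO.good σ a
      have hgy := hO.good σ b
      obtain ⟨g1, g2, g3, g4, g5⟩ := hr (O σ a) (O σ b) hgx hgy (by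
        rw [hO.mu, hO.mu]
        exact fun h2 => hab (σ.injective (hinjX h2))) (hgen σ a b hbv)
      have hX' : Function.update (Function.update (O σ) a (rY (O σ a) (O σ b))) b
          (rX (O σ a) (O σ b)) = O (σ * Equiv.swap a b) := by
        refine hO.eq hinjX (fun j => ?_) (fun j => ?_) ?_
        · by_cases hjb : j = b
          · subst hjb
            rw [Function.update_self]
            exact g1
          · rw [Function.update_of_ne hjb]
            by_cases hja : j = a
            · subst hja
              rw [Function.update_self]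
              exact g2
            · rw [Function.update_of_ne hja]
              exact hO.good σ j
        · by_cases hjb : j = b
          · subst hjb
            rw [Function.update_self, g3, hO.mu, Equiv.Perm.mul_apply, Equiv.swap_apply_right]
          · rw [Function.update_of_ne hjb]
            by_cases hja : j = a
            · subst hja
              rw [Function.update_self, g4, hO.mu, Equiv.Perm.mul_apply, Equiv.swap_apply_left]
            · rw [Function.update_of_ne hja, hO.mu, Equiv.Perm.mul_apply,
                Equiv.swap_apply_of_ne_of_ne hja hjb]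
        · rw [← hO.opr σ]
          refine opr_congr_pair hbv (fun l h1 h2 => ?_) fun ψ => ?_
          · rw [Function.update_of_ne h2, Function.update_of_ne h1]
          · rw [Function.update_self, Function.update_of_ne hab, Function.update_self]
            exact g5 ψ
      rw [hX'] at hw1
      have h2 : IsSt F hm (fun j => s ((σ * Equiv.swap a b) j)) (O (σ * Equiv.swap a b)) p w1 :=
        hw1
      rw [ae_st hm heq h2 hw', ← h0]
      exact h1

end Pool.Agent.HGF
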