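import Pool.Agent.HGF.CoB
import Pool.Agent.HGF.StB
import Pool.Agent.HGF.Bdry
import Pool.Agent.HYG.Roots

/-!
# Project HGF, core: a rational curve of pairs of points on which one product moves

Two slots `a ≠ b` of the class function `E`, the base coordinates `s_a`, `s_b` and the other points are
fixed. `X_i(t)`, `Y_i(t)` (`i < m`) are rational functions: the coordinates `x_i` of the points in the slots
`a` and `b`. `β_i = B_i(s_a) / C_i(s_a)`, `β'_i = B_i(s_b) / C_i(s_b)`. The products `(1 - X_i) (1 - Y_i) = P_i` are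
constant for `i ≠ i0`, and `(1 - X_{i0}) (1 - Y_{i0}) = P_{i0} (1 + (t - t1) (t - t2) u)`.

**Proof.** Let `K₀ = k(t) = RatFunc k` (`HYG.isCurve_ratFunc`), and let `K`, `φ` be a finite extension which
contains `η` with `η ^ M = 1 + (t - t1) (t - t2) u` and `r_i` with `r_i ^ M = β_i (1 - X_i)` (`HYG.exists_roots`
with `m + 1` roots; `r_i ≠ 0` as `X_i ≠ 1`, because the value at `t = t1` is not `1`). For a root of unity
`ζ` let `c_i(ζ) = c_i` for `i ≠ i0`, and `c_{i0}(ζ) = c_{i0} ζ η`. The point over `K`: the coordinates of the slot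
`a` are `some r_i`, those of the slot `b` are `some (c_i(ζ) / r_i)`, the other slots and all `s` are constant.
It lies on `Y`: `onY_some` with `B_i(s_a) - C_i(s_a) r_i ^ M = B_i(s_a) X_i`, `∏ X_i = lam F s_a`; and
`(c_i(ζ) / r_i) ^ M = β'_i (1 - Y_i)` because `c_i(ζ) ^ M = β_i β'_i (1 - X_i) (1 - Y_i)` (`η ≠ 0`, since
`1 + .. = 0` would contradict `η ^ M → 1` at `t = t1`).
Apply `two_roots` to `K`, `φ t`, `φ u`, `η` and `F ζ v` = value of `E` at the values of this point at `v`, for
`ζ ^ M = 1`. The relations `hF` are `IsCF` for `f = ζ η - 1` (if `f = 0` then `dv` of zero: `η ^ M = 1` is impossible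
by `hinf`). The hypotheses on `u` pass from `RatFunc k` to `K` by the place of `RatFunc k` below `v`
(`exists_below` with an embedding into `Om k`, or `HYG.exists_over` and its companions).
(F0) At a pole of `η` the product of the coordinates `i0` of the two slots is `c_{i0} ζ η`: one of them is
infinite: `zero_of`. [If both are regular then so is the product.]
(F1) Let `t` have the value `t1`, `ζ η` the value `1`. The `r_i` have values `ρ_i` with
`ρ_i ^ M = β_i (1 - x1_i) ≠ 0` (`r_i ^ M` has a value, so `r_i` is regular), the coordinates of the slot `b` have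
the values `c_i / ρ_i`. By `eq_of_prod` the value of `E` is `E (som0 s) (som w1)`: the `M`-th powers are equal
to those of `w1` (slot `a`: `hw1a`; slot `b`: `w1 b i = c_i / w1 a i`), the products of the two slots are
`c_i`, all other coordinates are equal. (F2) is the same.
`Module ℚ W` is `Module.compHom W (algebraMap ℚ k)`.
-/

set_option autoImplicit false

noncomputable section

namespace Pool.Agent.HGF

open Polynomial Pool.Agent.ZCyc Pool.Agent.Dess Pool.Agent.GT Pool.Agent.TInc
open scoped Classical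

variable {k : Type} [Field k] [IsAlgClosed k] [CharZero k] {m : ℕ} {F : Fam k m} {N : ℕ} {W : Type}
  [AddCommGroup W] [Module k W] {E : (Fin N → Option k) → (Fin N → Fin m → Option k) → W}
  {b : Fin m → ℕ}

/-- the place of `RatFunc k` below a place -/
private theorem pl_below {K : Type} [Field K] [Algebra k K] (hK : IsCurve k K)
    (φ : RatFunc k →ₐ[k] K) (v : Place k K) :
    ∃ v0 : Place k (RatFunc k), v.ring.comap (φ : RatFunc k →+* K) = v0.ring := by
  obtain ⟨t, ht, hfin⟩ := id hK
  have h1 := Pool.Agent.TInc.card_emb hK ht (ψ := VFP.tt k) Pool.Agent.VFP.tt_transc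
  have h2 : 0 < {σ : K →ₐ[k] VFP.Om k | σ t = VFP.tt k}.ncard := by
    rw [h1.2]
    exact Module.finrank_pos
  obtain ⟨σ, -⟩ := Set.nonempty_of_ncard_ne_zero h2.ne'
  obtain ⟨V, hV⟩ := TInc.exists_above hK v σ
  obtain ⟨c, hc⟩ := TInc.exists_below HYG.isCurve_ratFunc V (σ.comp φ)
  refine ⟨c, ?_⟩
  rw [← hc, ← hV]
  rfl

private theorem pl_at {K : Type} [Field K] [Algebra k K] {φ : RatFunc k →ₐ[k] K} {v : Place k K}
    {v0 : Place k (RatFunc k)} (h : v.ring.comap (φ : RatFunc k →+* K) = v0.ring)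
    (f : RatFunc k) (c : k) : v.At (φ f) c ↔ v0.At f c := by
  rw [← HYG.vl_eq, ← HYG.vl_eq, HYG.vl_below h]

private theorem pl_mem {K : Type} [Field K] [Algebra k K] {φ : RatFunc k →ₐ[k] K} {v : Place k K}
    {v0 : Place k (RatFunc k)} (h : v.ring.comap (φ : RatFunc k →+* K) = v0.ring)
    (f : RatFunc k) : φ f ∈ v.ring ↔ f ∈ v0.ring := by
  rw [← h]
  exact Iff.rfl

/-- the values of roots -/
private theorem pl_root {K : Type} [Field K] [Algebra k K] (hK : IsCurve k K) {v : Place k K}
    {f : K} {M : ℕ} (hM : 0 < M) {c : k} (h : v.At (f ^ M) c) : ∃ r : k, r ^ M = c ∧ v.At f r := by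
  have hf : f ∈ v.ring := by
    by_contra hf
    have h1 : v.Vanishes f⁻¹ := (v.vanishes_iff_or _).2 (Or.inr (by rwa [inv_inv]))
    have h2 : v.Vanishes (f ^ M)⁻¹ := by
      rw [← inv_pow]
      exact h1.pow v hM.ne'
    rcases (v.vanishes_iff_or _).1 h2 with h3 | h3
    · have h4 : f = 0 := by
        by_contra h5
        exact inv_ne_zero (pow_ne_zero M h5) h3
      exact hf (h4 ▸ zero_mem v.ring)
    · rw [inv_inv] at h3
      exact h3 h.mem
  obtain ⟨r, hr⟩ := exists_at hK v hf
  exact ⟨r, (hr.pow M).unique h, hr⟩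

/-- a point of the hypersurface with constant base coordinate -/
private theorem pl_onY (hF : F.Adm) {K : Type} [Field K] [Algebra k K] {s : k} (hs : Base F s)
    {w Z : Fin m → K} (hZ : ∏ i, Z i = algebraMap k K (lam F s))
    (hw : ∀ i, w i ^ F.M = algebraMap k K (aeval s (F.B i) / aeval s (F.C i)) * (1 - Z i)) :
    OnY F (some (algebraMap k K s)) (fun i => some (w i)) := by
  rw [onY_some hF]
  have e : ∀ P : k[X], aeval (algebraMap k K s) P = algebraMap k K (aeval s P) := fun P =>
    aeval_algebraMap_apply K s P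
  have h1 : ∀ i, aeval (algebraMap k K s) (F.B i) - aeval (algebraMap k K s) (F.C i) *
      w i ^ F.M = algebraMap k K (aeval s (F.B i)) * Z i := by
    intro i
    have h2 : algebraMap k K (aeval s (F.C i)) * algebraMap k K (aeval s (F.B i) /
        aeval s (F.C i)) = algebraMap k K (aeval s (F.B i)) := by
      rw [← map_mul, mul_div_cancel₀ _ (hs.C i)]
    rw [e, e, hw i, ← mul_assoc, h2]
    ring
  rw [Finset.prod_congr rfl fun i _ => h1 i, Finset.prod_mul_distrib, hZ, ← map_prod, ← map_mul,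
    e]
  congr 1
  unfold lam
  rw [mul_div_cancel₀ _ (Finset.prod_ne_zero_iff.2 fun i _ => hs.B i)]

/-- the product over all slots -/
private theorem pl_prod {f g : Fin N → k} {j j' : Fin N} (hj : j ≠ j')
    (h : ∀ l, l ≠ j → l ≠ j' → f l = g l) (hp : f j * f j' = g j * g j') :
    ∏ l, f l = ∏ l, g l := by
  have h1 : ∀ e : Fin N → k, ∏ l, e l =
      e j * e j' * ∏ l ∈ (Finset.univ.erase j).erase j', e l := by
    intro e
    rw [← Finset.mul_prod_erase Finset.univ e (Finset.mem_univ j),
      ← Finset.mul_prod_erase (Finset.univ.erase j) e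
        (Finset.mem_erase.2 ⟨hj.symm, Finset.mem_univ j'⟩), mul_assoc]
  rw [h1 f, h1 g, hp]
  congr 1
  refine Finset.prod_congr rfl fun l hl => ?_
  rw [Finset.mem_erase, Finset.mem_erase] at hl
  exact h l hl.2.1 hl.1

theorem pair_line (hF : F.Adm) (hb : ∀ i, 0 < b i ∧ b i < F.M) (hE : IsCF F E)
    (hEig : IsEig F.M b E) {s : Fin N → k} {j j' : Fin N} (hj : j ≠ j') (hs : Base F (s j))
    (hs' : Base F (s j')) {w0 : Fin N → Fin m → k} (h0 : ∀ l, l ≠ j → l ≠ j' → Int F (s l) (w0 l))
    {c P : Fin m → k} (hc : ∀ i, c i ≠ 0)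
    (hP : ∀ i, c i ^ F.M = aeval (s j) (F.B i) / aeval (s j) (F.C i) *
      (aeval (s j') (F.B i) / aeval (s j') (F.C i)) * P i)
    {X Y : Fin m → RatFunc k} (hX : ∏ i, X i = algebraMap k (RatFunc k) (lam F (s j)))
    (hY : ∏ i, Y i = algebraMap k (RatFunc k) (lam F (s j'))) {i0 : Fin m}
    (hXY : ∀ i, i ≠ i0 → (1 - X i) * (1 - Y i) = algebraMap k (RatFunc k) (P i))
    {t1 t2 : k} {u : RatFunc k}
    (hu : (1 - X i0) * (1 - Y i0) = algebraMap k (RatFunc k) (P i0) *
      (1 + (RatFunc.X - algebraMap k (RatFunc k) t1) * (RatFunc.X - algebraMap k (RatFunc k) t2) *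
        u))
    (hu₁ : ∀ v : Place k (RatFunc k), v.At RatFunc.X t1 → ∃ d, d ≠ 0 ∧ v.At u d)
    (hu₂ : ∀ v : Place k (RatFunc k), v.At RatFunc.X t2 → ∃ d, d ≠ 0 ∧ v.At u d)
    (hu₃ : ∀ v : Place k (RatFunc k), RatFunc.X ∈ v.ring → u⁻¹ ∈ v.ring)
    (hinf : ∀ v : Place k (RatFunc k), RatFunc.X ∉ v.ring →
      ¬ v.At (1 + (RatFunc.X - algebraMap k (RatFunc k) t1) *
        (RatFunc.X - algebraMap k (RatFunc k) t2) * u) 1)
    {x1 x2 : Fin m → k} (h1 : ∀ i (v : Place k (RatFunc k)), v.At RatFunc.X t1 → v.At (X i) (x1 i))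
    (h1' : ∀ i, x1 i ≠ 1)
    (h2 : ∀ i (v : Place k (RatFunc k)), v.At RatFunc.X t2 → v.At (X i) (x2 i))
    (h2' : ∀ i, x2 i ≠ 1) {w1 w2 : Fin N → Fin m → k}
    (hw1 : ∀ l, l ≠ j → l ≠ j' → w1 l = w0 l)
    (hw1a : ∀ i, w1 j i ^ F.M = aeval (s j) (F.B i) / aeval (s j) (F.C i) * (1 - x1 i))
    (hw1p : ∀ i, w1 j i * w1 j' i = c i)
    (hw2 : ∀ l, l ≠ j → l ≠ j' → w2 l = w0 l)
    (hw2a : ∀ i, w2 j i ^ F.M = aeval (s j) (F.B i) / aeval (s j) (F.C i) * (1 - x2 i))
    (hw2p : ∀ i, w2 j i * w2 j' i = c i) :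
    E (som0 s) (som w1) + E (som0 s) (som w2) = 0 := by
  have hM := hF.M0
  let _ : Module ℚ W := Module.compHom W (algebraMap ℚ k)
  set T : RatFunc k := RatFunc.X with hT
  have hTt : Transcendental k T := RatFunc.transcendental_X
  set e0 : RatFunc k := 1 + (T - algebraMap k (RatFunc k) t1) *
    (T - algebraMap k (RatFunc k) t2) * u with he0
  have hβ : ∀ i, aeval (s j) (F.B i) / aeval (s j) (F.C i) ≠ 0 := fun i =>
    div_ne_zero (hs.B i) (hs.C i)
  have hβ' : ∀ i, aeval (s j') (F.B i) / aeval (s j') (F.C i) ≠ 0 := fun i =>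
    div_ne_zero (hs'.B i) (hs'.C i)
  have hP0 : ∀ i, P i ≠ 0 := by
    intro i h0
    have h3 := hP i
    rw [h0, mul_zero] at h3
    exact pow_ne_zero _ (hc i) h3
  have hX1 : ∀ i, X i ≠ 1 := by
    intro i h0
    obtain ⟨v, hv⟩ := exists_place hTt t1
    have h3 := h1 i v hv
    rw [h0] at h3
    have h4 := Place.at_const (v := v) (1 : k)
    rw [map_one] at h4
    exact h1' i (h3.unique h4)
  -- the value of `e0` at the zeros
  have he1 : ∀ v : Place k (RatFunc k), v.At T t1 → v.At e0 1 := by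
    intro v hv
    obtain ⟨d, -, hd⟩ := hu₁ v hv
    have hr : T ∈ v.ring := hv.mem
    obtain ⟨a, ha⟩ := exists_at HYG.isCurve_ratFunc v
      (sub_mem hr (v.const_mem t2))
    have h3 := (Place.at_const (v := v) (1 : k)).add
      (((hv.sub (Place.at_const t1)).mul ha).mul hd)
    rw [map_one, sub_self, zero_mul, zero_mul, add_zero] at h3
    exact h3
  have he00 : e0 ≠ 0 := by
    intro h0
    obtain ⟨v, hv⟩ := exists_place hTt t1
    have h3 := he1 v hv
    rw [h0] at h3
    have h4 := Place.at_const (v := v) (0 : k)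
    rw [map_zero] at h4
    exact one_ne_zero (h3.unique h4)
  -- the extension
  obtain ⟨K, _, _, hK, φ, w, hw⟩ := HYG.exists_roots (k := k) HYG.isCurve_ratFunc
    (M := fun _ : Fin (m + 1) => F.M) (fun _ => hM)
    (Fin.cons e0 fun i => algebraMap k (RatFunc k) (aeval (s j) (F.B i) / aeval (s j) (F.C i)) *
      (1 - X i) : Fin (m + 1) → RatFunc k)
  set η : K := w 0 with hη
  have hηM : η ^ F.M = φ e0 := by
    have h3 := hw 0
    rwa [Fin.cons_zero] at h3
  have hr : ∀ i : Fin m, w i.succ ^ F.M =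
      algebraMap k K (aeval (s j) (F.B i) / aeval (s j) (F.C i)) * (1 - φ (X i)) := by
    intro i
    have h3 := hw i.succ
    rw [Fin.cons_succ, map_mul, map_sub, map_one, AlgHom.commutes] at h3
    exact h3
  have hr0 : ∀ i : Fin m, w i.succ ≠ 0 := by
    intro i h0
    have h3 := hr i
    rw [h0, zero_pow hM.ne'] at h3
    have h4 : algebraMap k K (aeval (s j) (F.B i) / aeval (s j) (F.C i)) ≠ 0 := by
      rw [Ne, map_eq_zero]
      exact hβ i
    have h5 : 1 - φ (X i) ≠ 0 := by
      rw [sub_ne_zero, ← map_one φ]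
      exact fun h => hX1 i (φ.injective h).symm
    exact mul_ne_zero h4 h5 h3.symm
  have hη0 : η ≠ 0 := by
    intro h0
    rw [h0, zero_pow hM.ne'] at hηM
    rw [← map_zero φ] at hηM
    exact he00 (φ.injective hηM).symm
  have hφT : Transcendental k (φ T) := fun h =>
    hTt ((isAlgebraic_algHom_iff φ (φ : RatFunc k →+* K).injective).1 h)
  set q : k → Fin m → K := fun ζ i =>
    algebraMap k K (c i) * (if i = i0 then algebraMap k K ζ * η else 1) / w i.succ with hq
  set U : k → Fin N → Fin m → Option K := fun ζ l i =>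
    if l = j then some (w i.succ) else if l = j' then some (q ζ i)
      else some (algebraMap k K (w0 l i)) with hU
  have hUj : ∀ ζ, U ζ j = fun i => some (w i.succ) := by
    intro ζ
    funext i
    rw [hU]
    exact if_pos rfl
  have hUj' : ∀ ζ, U ζ j' = fun i => some (q ζ i) := by
    intro ζ
    funext i
    rw [hU]
    beta_reduce
    rw [if_neg hj.symm, if_pos rfl]
  have hUl : ∀ ζ l, l ≠ j → l ≠ j' → U ζ l = fun i => some (algebraMap k K (w0 l i)) := by
    intro ζ l hl hl'
    funext i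
    rw [hU]
    beta_reduce
    rw [if_neg hl, if_neg hl']
  have hqM : ∀ ζ : k, ζ ^ F.M = 1 → ∀ i, q ζ i ^ F.M =
      algebraMap k K (aeval (s j') (F.B i) / aeval (s j') (F.C i)) * (1 - φ (Y i)) := by
    intro ζ hζ i
    have h3 : (1 - φ (X i)) * (1 - φ (Y i)) = algebraMap k K (P i) *
        (if i = i0 then algebraMap k K ζ * η else 1) ^ F.M := by
      by_cases hi : i = i0
      · subst hi
        rw [if_pos rfl, mul_pow, ← map_pow, hζ, map_one, one_mul, hηM]
        have h4 := congrArg φ hu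
        rw [map_mul, map_mul, map_sub, map_sub, map_one, AlgHom.commutes] at h4
        exact h4
      · rw [if_neg hi, one_pow, mul_one]
        have h4 := congrArg φ (hXY i hi)
        rw [map_mul, map_sub, map_sub, map_one, AlgHom.commutes] at h4
        exact h4
    have h5 : 1 - φ (X i) ≠ 0 := by
      rw [sub_ne_zero, ← map_one φ]
      exact fun h => hX1 i (φ.injective h).symm
    have h6 : algebraMap k K (aeval (s j) (F.B i) / aeval (s j) (F.C i)) ≠ 0 := by
      rw [Ne, map_eq_zero]
      exact hβ i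
    rw [hq]
    beta_reduce
    rw [div_pow, mul_pow, hr i, ← map_pow, hP i, div_eq_iff (mul_ne_zero h6 h5), map_mul, map_mul]
    have h7 : algebraMap k K (aeval (s j') (F.B i) / aeval (s j') (F.C i)) * (1 - φ (Y i)) *
        (algebraMap k K (aeval (s j) (F.B i) / aeval (s j) (F.C i)) * (1 - φ (X i))) =
        algebraMap k K (aeval (s j) (F.B i) / aeval (s j) (F.C i)) *
        algebraMap k K (aeval (s j') (F.B i) / aeval (s j') (F.C i)) *
          ((1 - φ (X i)) * (1 - φ (Y i))) := by ring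
    rw [h7, h3]
    ring
  have hon : ∀ ζ : k, ζ ^ F.M = 1 → ∀ l, OnY F (some (algebraMap k K (s l))) (U ζ l) := by
    intro ζ hζ l
    by_cases hl : l = j
    · subst hl
      rw [hUj]
      refine pl_onY hF hs (Z := fun i => φ (X i)) ?_ hr
      rw [← map_prod, hX, AlgHom.commutes]
    by_cases hl' : l = j'
    · subst hl'
      rw [hUj']
      refine pl_onY hF hs' (Z := fun i => φ (Y i)) ?_ (hqM ζ hζ)
      rw [← map_prod, hY, AlgHom.commutes]
    · rw [hUl ζ l hl hl']
      have h3 : OnY F (some (s l)) (fun i => some (w0 l i)) :=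
        (onY_some hF _ _).2 (h0 l hl hl').onY
      exact (onY_const (K := K) (some (s l)) fun i => some (w0 l i)).2 h3
  set G : k → Place k K → W := fun ζ v =>
    E (fun l => vlo v (some (algebraMap k K (s l)))) (fun l i => vlo v (U ζ l i)) with hG
  -- the limits
  have key : ∀ (t0 : k) (x0 : Fin m → k) (ω : Fin N → Fin m → k),
      (∀ i (v : Place k (RatFunc k)), v.At RatFunc.X t0 → v.At (X i) (x0 i)) →
      (∀ i, x0 i ≠ 1) → (∀ l, l ≠ j → l ≠ j' → ω l = w0 l) →
      (∀ i, ω j i ^ F.M = aeval (s j) (F.B i) / aeval (s j) (F.C i) * (1 - x0 i)) →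
      (∀ i, ω j i * ω j' i = c i) → ∀ (ζ : k) (v : Place k K), ζ ^ F.M = 1 → v.At (φ T) t0 →
      v.At (algebraMap k K ζ * η) 1 → G ζ v = E (som0 s) (som ω) := by
    intro t0 x0 ω k1 k2 k3 k4 k5 ζ v hζ hv hv1
    obtain ⟨v0, hv0⟩ := pl_below hK φ v
    have hx : ∀ i, v.At (φ (X i)) (x0 i) := fun i =>
      (pl_at hv0 _ _).2 (k1 i v0 ((pl_at hv0 _ _).1 hv))
    have hrv : ∀ i : Fin m, ∃ ρ : k, ρ ^ F.M =
        aeval (s j) (F.B i) / aeval (s j) (F.C i) * (1 - x0 i) ∧ v.At (w i.succ) ρ := by
      intro i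
      refine pl_root hK hM ?_
      rw [hr i]
      refine (Place.at_const _).mul ?_
      have h3 := (Place.at_const (v := v) (1 : k)).sub (hx i)
      rwa [map_one] at h3
    choose ρ hρ1 hρ2 using hrv
    have hρ0 : ∀ i, ρ i ≠ 0 := by
      intro i h3
      have h4 := hρ1 i
      rw [h3, zero_pow hM.ne'] at h4
      exact mul_ne_zero (hβ i) (sub_ne_zero.2 (k2 i).symm) h4.symm
    have hqv : ∀ i, v.At (q ζ i) (c i / ρ i) := by
      intro i
      have h3 : v.At (if i = i0 then algebraMap k K ζ * η else 1) (1 : k) := by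
        split_ifs
        · exact hv1
        · have h4 := Place.at_const (v := v) (1 : k)
          rwa [map_one] at h4
      have h5 := ((Place.at_const (v := v) (c i)).mul h3).div (hρ2 i) (hρ0 i)
      rwa [mul_one] at h5
    have e1 : (fun l => vlo v (some (algebraMap k K (s l)))) = som0 s := by
      funext l
      exact vlo_const v (some (s l))
    have e2 : (fun l i => vlo v (U ζ l i)) = fun l i => some
        ((if l = j then ρ i else if l = j' then c i / ρ i else w0 l i : k)) := by
      funext l i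
      by_cases hl : l = j
      · subst hl
        rw [hUj, if_pos rfl]
        exact vlo_at (hρ2 i)
      by_cases hl' : l = j'
      · subst hl'
        rw [hUj', if_neg hl, if_pos rfl]
        exact vlo_at (hqv i)
      · rw [hUl ζ l hl hl', if_neg hl, if_neg hl']
        exact vlo_const v (some (w0 l i))
    have hG' : G ζ v = E (fun l => vlo v (some (algebraMap k K (s l))))
      (fun l i => vlo v (U ζ l i)) := rfl
    rw [hG', e1, e2]
    have hω0 : ∀ i, ω j i ≠ 0 := fun i h3 => by
      have h4 := k5 i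
      rw [h3, zero_mul] at h4
      exact hc i h4.symm
    have hω0' : ∀ i, ω j' i ≠ 0 := fun i h3 => by
      have h4 := k5 i
      rw [h3, mul_zero] at h4
      exact hc i h4.symm
    refine eq_of_prod hEig (w := ω)
      (w' := fun l i => if l = j then ρ i else if l = j' then c i / ρ i else w0 l i) ?_ hM ?_ ?_
    · intro l i
      by_cases hl : l = j
      · subst hl
        exact hω0 i
      by_cases hl' : l = j'
      · subst hl'
        exact hω0' i
      · rw [k3 l hl hl']
        exact (h0 l hl hl').w i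
    · intro l i
      by_cases hl : l = j
      · subst hl
        rw [if_pos rfl, hρ1, k4]
      by_cases hl' : l = j'
      · subst hl'
        rw [if_neg hl, if_pos rfl, div_pow, hρ1, ← k4, ← k5 i, mul_pow,
          mul_div_cancel_left₀ _ (pow_ne_zero _ (hω0 i))]
      · rw [if_neg hl, if_neg hl', k3 l hl hl']
    · intro i
      refine pl_prod hj (fun l hl hl' => ?_) ?_
      · rw [if_neg hl, if_neg hl', k3 l hl hl']
      · rw [if_pos rfl, if_neg hj.symm, if_pos rfl, k5, mul_div_cancel₀ _ (hρ0 i)]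
  refine two_roots hK hM hφT (a := t1) (b := t2) (u := φ u) (η := η) ?_ ?_ ?_ ?_ ?_ G ?_ ?_
    (key t1 x1 w1 h1 h1' hw1 hw1a hw1p) (key t2 x2 w2 h2 h2' hw2 hw2a hw2p)
  · rw [hηM, he0, map_add, map_mul, map_mul, map_sub, map_sub, map_one, AlgHom.commutes,
      AlgHom.commutes]
  · intro v hv
    obtain ⟨v0, hv0⟩ := pl_below hK φ v
    obtain ⟨d, hd, hd'⟩ := hu₁ v0 ((pl_at hv0 _ _).1 hv)
    exact ⟨d, hd, (pl_at hv0 _ _).2 hd'⟩
  · intro v hv
    obtain ⟨v0, hv0⟩ := pl_below hK φ v
    obtain ⟨d, hd, hd'⟩ := hu₂ v0 ((pl_at hv0 _ _).1 hv)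
    exact ⟨d, hd, (pl_at hv0 _ _).2 hd'⟩
  · intro v hv
    obtain ⟨v0, hv0⟩ := pl_below hK φ v
    rw [← map_inv₀]
    exact (pl_mem hv0 _).2 (hu₃ v0 ((pl_mem hv0 _).1 hv))
  · intro v hv hat
    obtain ⟨v0, hv0⟩ := pl_below hK φ v
    rw [hηM] at hat
    exact hinf v0 (fun h => hv ((pl_mem hv0 _).2 h)) ((pl_at hv0 _ _).1 hat)
  · -- the relations
    intro ζ hζ
    by_cases hf : algebraMap k K ζ * η - 1 = 0
    · exfalso
      have h3 : η ^ F.M = 1 := by
        have h4 : (algebraMap k K ζ * η) ^ F.M = 1 := by rw [sub_eq_zero.1 hf, one_pow]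
        rwa [mul_pow, ← map_pow, hζ, map_one, one_mul] at h4
      have h5 : e0 = 1 := by
        apply φ.injective
        show φ e0 = φ 1
        rw [← hηM, h3, map_one]
      have hTi : Transcendental k T⁻¹ := fun h => hTt (by
        have h6 := h.inv
        rwa [inv_inv] at h6)
      obtain ⟨v, hv⟩ := exists_place hTi 0
      have h6 : T ∉ v.ring := by
        rw [Place.at_zero_iff, Place.vanishes_iff_or, inv_inv] at hv
        rcases hv with hv | hv
        · exact absurd (inv_eq_zero.1 hv) RatFunc.X_ne_zero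
        · exact hv
      apply hinf v h6
      show v.At e0 1
      rw [h5]
      have h7 := Place.at_const (v := v) (1 : k)
      rwa [map_one] at h7
    · exact hE K hK (fun l => some (algebraMap k K (s l))) (U ζ) _ hf (hon ζ hζ)
  · -- poles of `η`
    intro ζ v hζ hv
    have hζ0 : ζ ≠ 0 := by
      rintro rfl
      rw [zero_pow hM.ne'] at hζ
      exact zero_ne_one hζ
    have h3 : w i0.succ ∉ v.ring ∨ q ζ i0 ∉ v.ring := by
      by_contra hcon
      push Not at hcon
      apply hv
      have h4 : w i0.succ * q ζ i0 = algebraMap k K (c i0 * ζ) * η := by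
        rw [hq]
        beta_reduce
        rw [if_pos rfl, mul_div_cancel₀ _ (hr0 i0), map_mul]
        ring
      have h5 : η = algebraMap k K (c i0 * ζ)⁻¹ * (w i0.succ * q ζ i0) := by
        rw [h4, ← mul_assoc, ← map_mul, inv_mul_cancel₀ (mul_ne_zero (hc i0) hζ0), map_one,
          one_mul]
      rw [h5]
      exact mul_mem (v.const_mem _) (mul_mem hcon.1 hcon.2)
    rcases h3 with h3 | h3
    · refine zero_of hEig hb (j := j) (i := i0) (Or.inl ?_)
      rw [hUj]
      exact (HYG.vl_none_iff hK).2 h3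
    · refine zero_of hEig hb (j := j') (i := i0) (Or.inl ?_)
      rw [hUj']
      exact (HYG.vl_none_iff hK).2 h3

end Pool.Agent.HGF
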