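import Pool.Agent.HGF.CoA
import Pool.Agent.HGF.StB

/-!
# Project HGF, core: the exchange of two factors

Let `w = fx m x y 0`, `h_i = fl x y 0 (i + 1) w`, `h_{-1} = w`. Then `h_i = (y_i / x_i) (h_{i-1} + 1 - x_i)`, and
`h_{i+m} = h_i` (`fl_per`, `fl_add`, `Gen.fl_fx` for `l = 0`), so `h_i` and `h_i + 1` are different from zero
for all `i` (`Gen.ne_zero`, `Gen.add_one_ne` for `i < m`, and periodicity). `rX_i = x_i (h_i + 1) / (h_{i-1} + 1)`,
`rY_i = y_i h_{i-1} / h_i`. Identities (from `x_i h_i = y_i (h_{i-1} + 1 - x_i)`):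
`1 - rX_i = (1 - y_i) x_i h_i / (y_i (h_{i-1} + 1))`, `1 - rY_i = (y_i / x_i) (1 - x_i) (h_{i-1} + 1) / h_i`. So
`rX`, `rY` are good, `(1 - rX_i) (1 - rY_i) = (1 - x_i) (1 - y_i)`, and the products over one period are those
of `x` and `y` (telescoping, `h_{m-1} = h_{-1} = w`).
The product of the operators: `op u (op v ψ) i = [ψ_i / (1 - v_i) - (v_i / (1 - v_i) + u_i / (1 - v_{i+1})) ψ_{i+1}`
`+ u_i v_{i+1} / (1 - v_{i+1}) ψ_{i+2}] / (1 - u_i)`. The first coefficient `1 / ((1 - u_i) (1 - v_i))` is the same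
for `(u, v) = (y, x)` and `(rX, rY)`; the third one is the product of
`rX_i / (1 - rX_i) = y_i (h_i + 1) / ((1 - y_i) h_i)` and
`rY_{i+1} / (1 - rY_{i+1}) = x_{i+1} h_i / ((1 - x_{i+1}) (h_i + 1))`, which is
`y_i x_{i+1} / ((1 - y_i) (1 - x_{i+1}))`; the sum of the three coefficients is `1` in both cases, so the
second coefficients are equal.
-/

set_option autoImplicit false

noncomputable section

namespace Pool.Agent.HGF

open Finset

variable {K : Type*} [Field K] {m : ℕ}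

/-- the new first factor -/
def rX (m : ℕ) (x y : ℕ → K) (i : ℕ) : K :=
  x i * (fl x y 0 (i + 1) (fx m x y 0) + 1) / (fl x y 0 i (fx m x y 0) + 1)

/-- the new second factor -/
def rY (m : ℕ) (x y : ℕ → K) (i : ℕ) : K :=
  y i * fl x y 0 i (fx m x y 0) / fl x y 0 (i + 1) (fx m x y 0)

private lemma prod_range_div_of_ne {f : ℕ → K} (hf : ∀ i, f i ≠ 0) (n : ℕ) :
    ∏ i ∈ range n, f (i + 1) / f i = f n / f 0 := by
  induction n with
  | zero => rw [prod_range_zero, div_self (hf 0)]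
  | succ n ih =>
    rw [prod_range_succ, ih]
    have := hf n
    have := hf 0
    field_simp

private lemma hh_add {x y : ℕ → K} (hx : Per m x) (hy : Per m y) (hm : 0 < m) (h : Gen m x y)
    (i : ℕ) : fl x y 0 (i + m) (fx m x y 0) = fl x y 0 i (fx m x y 0) := by
  rw [add_comm i m, fl_add]
  have h1 := h.fl_fx (l := 0) hm
  rw [Nat.sub_zero] at h1
  rw [h1]
  exact fl_per hx hy 0 i _

private lemma hh_ne {x y : ℕ → K} (hx : Per m x) (hy : Per m y) (hm : 0 < m) (h : Gen m x y)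
    (i : ℕ) : fl x y 0 i (fx m x y 0) ≠ 0 ∧ fl x y 0 i (fx m x y 0) + 1 ≠ 0 := by
  induction i using Nat.strong_induction_on with
  | _ i ih =>
    by_cases hi : i ≤ m
    · exact ⟨h.ne_zero (l := 0) hm (by omega), h.add_one_ne (l := 0) hm (by omega)⟩
    · obtain ⟨l, rfl⟩ : ∃ l, i = l + m := ⟨i - m, by omega⟩
      rw [hh_add hx hy hm h l]
      exact ih l (by omega)

private lemma hh_rel {x y : ℕ → K} (hx : Good m x) (i : ℕ) :
    x i * fl x y 0 (i + 1) (fx m x y 0) = y i * (fl x y 0 i (fx m x y 0) + 1 - x i) := by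
  have h1 : fl x y 0 (i + 1) (fx m x y 0) = ph x y (0 + i) (fl x y 0 i (fx m x y 0)) := rfl
  rw [h1, Nat.zero_add, ph, ← mul_assoc, mul_div_cancel₀ _ (hx.ne0 i)]

private lemma sub_rX {x y : ℕ → K} (hx : Good m x) (hy : Good m y) (hm : 0 < m)
    (h : Gen m x y) (i : ℕ) : 1 - rX m x y i = (1 - y i) * (fl x y 0 i (fx m x y 0) + 1 - x i) /
      (fl x y 0 i (fx m x y 0) + 1) := by
  have h1 := hh_rel (y := y) hx i
  have h2 := (hh_ne hx.per hy.per hm h i).2
  rw [rX, eq_div_iff h2, sub_mul, div_mul_cancel₀ _ h2]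
  linear_combination -h1

private lemma sub_rY {x y : ℕ → K} (hx : Good m x) (hy : Good m y) (hm : 0 < m)
    (h : Gen m x y) (i : ℕ) : 1 - rY m x y i = y i * (1 - x i) * (fl x y 0 i (fx m x y 0) + 1) /
      (x i * fl x y 0 (i + 1) (fx m x y 0)) := by
  have h1 := hh_rel (y := y) hx i
  have h2 := (hh_ne hx.per hy.per hm h (i + 1)).1
  rw [rY, eq_div_iff (mul_ne_zero (hx.ne0 i) h2), sub_mul]
  have h3 : y i * fl x y 0 i (fx m x y 0) / fl x y 0 (i + 1) (fx m x y 0) *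
      (x i * fl x y 0 (i + 1) (fx m x y 0)) = y i * fl x y 0 i (fx m x y 0) * x i := by
    rw [mul_comm (x i), ← mul_assoc, div_mul_cancel₀ _ h2]
  rw [h3]
  linear_combination h1

private lemma hh_sub_ne {x y : ℕ → K} (hx : Good m x) (hy : Good m y) (hm : 0 < m)
    (h : Gen m x y) (i : ℕ) : fl x y 0 i (fx m x y 0) + 1 - x i ≠ 0 := by
  intro h0
  have h1 := hh_rel (y := y) hx i
  rw [h0, mul_zero] at h1
  exact mul_ne_zero (hx.ne0 i) (hh_ne hx.per hy.per hm h (i + 1)).1 h1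

theorem one_sub_rX {x y : ℕ → K} (hx : Good m x) (hy : Good m y) (hm : 0 < m)
    (h : Gen m x y) (i : ℕ) : (1 - rX m x y i) * (1 - rY m x y i) = (1 - x i) * (1 - y i) := by
  rw [sub_rX hx hy hm h, sub_rY hx hy hm h, hh_rel (y := y) hx i]
  have h1 := hh_sub_ne hx hy hm h i
  have h2 := (hh_ne hx.per hy.per hm h i).2
  have h3 := hy.ne0 i
  field_simp

private lemma op_aux {p q p' b a c u v u' : K} (hp : p ≠ 0) (hq : q ≠ 0) (hp' : p' ≠ 0)
    (hb : b ≠ 0) (hb1 : b + 1 ≠ 0) (ha1 : a + 1 ≠ 0) (hc : c ≠ 0) {q' : K} (hq' : q' ≠ 0)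
    (hp1 : 1 - p ≠ 0) (hq1 : 1 - q ≠ 0) (hp1' : 1 - p' ≠ 0)
    (h1 : p * b = q * (a + 1 - p)) (h2 : p' * c = q' * (b + 1 - p')) :
    ((u - q * a / b * v) / (1 - q * a / b) - p * (b + 1) / (a + 1) *
      ((v - q' * b / c * u') / (1 - q' * b / c))) / (1 - p * (b + 1) / (a + 1)) =
    ((u - p * v) / (1 - p) - q * ((v - p' * u') / (1 - p'))) / (1 - q) := by
  have e1 : a + 1 = p * (b + q) / q := by
    rw [eq_div_iff hq]
    linear_combination -h1
  have hbq : b + q ≠ 0 := by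
    intro h0
    rw [h0, mul_zero, zero_div] at e1
    exact ha1 e1
  have e2 : c = q' * (b + 1 - p') / p' := by
    rw [eq_div_iff hp']
    linear_combination h2
  have hbp : b + 1 - p' ≠ 0 := by
    intro h0
    rw [h0, mul_zero, zero_div] at e2
    exact hc e2
  have f1 : p * (b + 1) / (a + 1) = q * (b + 1) / (b + q) := by
    rw [e1]
    field_simp
  have f2 : q' * b / c = p' * b / (b + 1 - p') := by
    rw [e2]
    field_simp
  have f3 : 1 - q * a / b = (1 - p) * (b + q) / b := by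
    rw [eq_div_iff hb, sub_mul, div_mul_cancel₀ _ hb]
    linear_combination h1
  have f4 : q * a / b = 1 - (1 - p) * (b + q) / b := by
    rw [← f3]
    ring
  have f5 : 1 - q * (b + 1) / (b + q) = b * (1 - q) / (b + q) := by
    field_simp
    ring
  have f6 : 1 - p' * b / (b + 1 - p') = (1 - p') * (b + 1) / (b + 1 - p') := by
    rw [eq_div_iff hbp, sub_mul, div_mul_cancel₀ _ hbp]
    ring
  rw [f3, f4, f1, f2, f5, f6]
  field_simp
  ring

theorem rProp {k : Type} [Field k] (hm : 0 < m) :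
    RProp m (Gen m : (ℕ → k) → (ℕ → k) → Prop) (rX m) (rY m) := by
  intro x y hx hy _ h
  have hA := fun i => (hh_ne hx.per hy.per hm h i).1
  have hB := fun i => (hh_ne hx.per hy.per hm h i).2
  have hC := hh_add hx.per hy.per hm h
  have hD : ∀ i, fl x y 0 (i + m + 1) (fx m x y 0) = fl x y 0 (i + 1) (fx m x y 0) := fun i => by
    rw [add_right_comm]
    exact hC (i + 1)
  have h0 : fl x y 0 m (fx m x y 0) = fl x y 0 0 (fx m x y 0) := by
    have h1 := hC 0
    rwa [Nat.zero_add] at h1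
  refine ⟨⟨fun i => ?_, fun i => ?_, fun i hi => ?_⟩, ⟨fun i => ?_, fun i => ?_, fun i hi => ?_⟩,
    ?_, ?_, fun ψ => ?_⟩
  · rw [rX, rX, hx.per i, hC i, hD i]
  · exact div_ne_zero (mul_ne_zero (hx.ne0 i) (hB (i + 1))) (hB i)
  · have h1 := sub_rX hx hy hm h i
    rw [hi, sub_self] at h1
    exact div_ne_zero (mul_ne_zero (sub_ne_zero.2 (hy.ne1 i).symm) (hh_sub_ne hx hy hm h i))
      (hB i) h1.symm
  · rw [rY, rY, hy.per i, hC i, hD i]
  · exact div_ne_zero (mul_ne_zero (hy.ne0 i) (hA i)) (hA (i + 1))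
  · have h1 := sub_rY hx hy hm h i
    rw [hi, sub_self] at h1
    exact div_ne_zero (mul_ne_zero (mul_ne_zero (hy.ne0 i) (sub_ne_zero.2 (hx.ne1 i).symm))
      (hB i)) (mul_ne_zero (hx.ne0 i) (hA (i + 1))) h1.symm
  · unfold mu
    have h1 : ∀ i, rX m x y i = x i * ((fl x y 0 (i + 1) (fx m x y 0) + 1) /
        (fl x y 0 i (fx m x y 0) + 1)) := fun i => mul_div_assoc _ _ _
    rw [prod_congr rfl fun i _ => h1 i, prod_mul_distrib,
      prod_range_div_of_ne (f := fun i => fl x y 0 i (fx m x y 0) + 1) hB, h0, div_self (hB 0),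
      mul_one]
  · unfold mu
    have h1 : ∀ i, rY m x y i = y i * (fl x y 0 (i + 1) (fx m x y 0) /
        fl x y 0 i (fx m x y 0))⁻¹ := fun i => by
      rw [inv_div, ← mul_div_assoc]
      rfl
    rw [prod_congr rfl fun i _ => h1 i, prod_mul_distrib, prod_inv_distrib,
      prod_range_div_of_ne (f := fun i => fl x y 0 i (fx m x y 0)) hA, h0, div_self (hA 0),
      inv_one, mul_one]
  · funext i
    exact op_aux (hx.ne0 i) (hy.ne0 i) (hx.ne0 (i + 1)) (hA (i + 1)) (hB (i + 1)) (hB i)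
      (hA (i + 2)) (hy.ne0 (i + 1)) (sub_ne_zero.2 (hx.ne1 i).symm)
      (sub_ne_zero.2 (hy.ne1 i).symm) (sub_ne_zero.2 (hx.ne1 (i + 1)).symm)
      (hh_rel hx i) (hh_rel hx (i + 1))

end Pool.Agent.HGF
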