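import Pool.Agent.HGF.CoA

/-!
# Project HGF, core: the curve of the level `l`

`l + 1 < m`. For the parameter `t` let `h_l = t`, `h_i = ph x y i h_{i-1}` for `i > l`, that is
`h_i = fl x y (l + 1) (i - l) t`, and `g = h_{m-1}`. `cX`, `cY` are the coordinates of the pair of
points
with the parameter `t`: for `i < l` they are `x_i`, `y_i`, for `i = l` they are
`x_l (t + 1) / (g + 1)`,
`y_l g / t`, and for `i > l` they are `x_i (h_i + 1) / (h_{i-1} + 1)`, `y_i h_{i-1} / h_i`.

1. `prod_cX`, `prod_cY`: telescoping over `l < i < m`: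
`∏ (h_i + 1) / (h_{i-1} + 1) = (g + 1) / (t + 1)`.
2. `cXY` (`i ≠ l`): for `i > l`, `1 - cX = (1 - y_i) x_i h_i / (y_i (h_{i-1} + 1))` and
`1 - cY = (y_i / x_i) (1 - x_i) (h_{i-1} + 1) / h_i`, from `x_i h_i = y_i (h_{i-1} + 1 - x_i)`.
3. `cXY_l`: with `g = a t + b`, `a = al x y (l + 1) (m - 1 - l)`, `b = be x y (l + 1) (m - 1 - l)`:
`(1 - cX_l) (1 - cY_l) = (g + 1 - x_l (t + 1)) (t - y_l g) / (t (g + 1))`. The difference with
`(1 - x_l) (1 - y_l)` is `q(t) / (t (g + 1))`, where `q` is a polynomial of degree at most two in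
`t` with the
leading coefficient `(a - x_l) (1 - y_l a) - (1 - x_l) (1 - y_l) a = (x_l - y_l a) (a - 1)`. It
vanishes at
`t1 = b / (1 - a)` (there `g = t`, so `cX_l = x_l`, `cY_l = y_l`) and at `t2` with
`x_l t2 = y_l (g(t2) + 1 - x_l)`, that is `(x_l - y_l a) t2 = y_l (b + 1 - x_l)`. Precisely
`q(t) = ((a - 1) t + b) ((x_l - y_l a) t - y_l (b + 1 - x_l))`, a polynomial identity (use
`ring`; checked by computer), and
`(a - 1) t + b = (a - 1) (t - t1)`, `(x_l - y_l a) t - y_l (b + 1 - x_l) = (x_l - y_l a) (t - t2)`.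
In the statement `t1 = fx m x y (l + 1)` and `t2 = fl x y l 1 (fx m x y l)`:
`fx m x y (l + 1) = b / (1 - a)`
because `m - (l + 1) = m - 1 - l`; for `w = fx m x y l`, `t2 = ph x y l w`,
`g(t2) = fl x y l (m - l) w = w`.
4. `cX_one`, `cX_two`: at `t1` and at `t2` the coordinates are those of the states `st` of the
levels
`l + 1` and `l`: `fl x y l (n + 1) w = fl x y (l + 1) n (fl x y l 1 w)` (`fl_add`).
5. `st_ne`: `st x y l (fx m x y l) i ≠ 1` for `i < m`: for `i < l` it is `x_i`, for `i ≥ l` the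
formula in 2 with
`h_i = fl x y l (i + 1 - l) w`, `h_{i-1} = fl x y l (i - l) w`.
-/

set_option autoImplicit false

noncomputable section

namespace Pool.Agent.HGF

open Finset Pool.Agent.ZCyc Pool.Agent.Dess Pool.Agent.GT

section Alg

variable {K : Type*} [Field K] {m : ℕ}

/-- the state of the level `l` -/
def st (x y : ℕ → K) (l : ℕ) (w : K) (i : ℕ) : K :=
  if i < l then x i else x i * (fl x y l (i + 1 - l) w + 1) / (fl x y l (i - l) w + 1)

/-- the first point of the curve of the level `l` -/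
def cX (m : ℕ) (x y : ℕ → K) (l : ℕ) (t : K) (i : ℕ) : K :=
  if i < l then x i
  else if i = l then x l * (t + 1) / (fl x y (l + 1) (m - 1 - l) t + 1)
  else x i * (fl x y (l + 1) (i - l) t + 1) / (fl x y (l + 1) (i - l - 1) t + 1)

/-- the second point of the curve of the level `l` -/
def cY (m : ℕ) (x y : ℕ → K) (l : ℕ) (t : K) (i : ℕ) : K :=
  if i < l then y i
  else if i = l then y l * fl x y (l + 1) (m - 1 - l) t / t
  else y i * fl x y (l + 1) (i - l - 1) t / fl x y (l + 1) (i - l) t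

private theorem tele {f : ℕ → K} {r : ℕ} (h : ∀ n, n ≤ r → f n ≠ 0) :
    ∏ j ∈ range r, f (j + 1) / f j = f r / f 0 := by
  induction r with
  | zero => rw [prod_range_zero, div_self (h 0 le_rfl)]
  | succ r ih =>
    rw [prod_range_succ, ih fun n hn => h n (by omega)]
    have h1 := h r (by omega)
    have h2 := h 0 (by omega)
    field_simp

private theorem prod_split {m l : ℕ} (hl : l + 1 < m) (f : ℕ → K) :
    ∏ i ∈ range m, f i = (∏ i ∈ range l, f i) *
      ((∏ j ∈ range (m - 1 - l), f (l + (j + 1))) * f l) := by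
  have e : m = l + ((m - 1 - l) + 1) := by omega
  have h1 : ∏ i ∈ range m, f i = ∏ i ∈ range (l + ((m - 1 - l) + 1)), f i := by
    rw [← e]
  rw [h1, prod_range_add, prod_range_succ']
  rfl

private theorem fl_step (x y : ℕ → K) (l n : ℕ) (t : K) :
    fl x y l (n + 1) t = y (l + n) / x (l + n) * (fl x y l n t + 1 - x (l + n)) := rfl

private theorem fl_shift (x y : ℕ → K) (l n : ℕ) (w : K) :
    fl x y (l + 1) n (fl x y l 1 w) = fl x y l (n + 1) w := by
  rw [← fl_add, add_comm 1 n]

private theorem fl_fix {x y : ℕ → K} {l : ℕ} (hG : al x y l (m - l) ≠ 1) :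
    fl x y l (m - l) (fx m x y l) = fx m x y l := by
  have h1 : 1 - al x y l (m - l) ≠ 0 := sub_ne_zero.2 hG.symm
  rw [fl_eq]
  unfold fx
  field_simp
  ring

private theorem two_alg {x y H H' : K} (hx : x ≠ 0) (hy : y ≠ 0)
    (hH : H' = y / x * (H + 1 - x)) (h : H' ≠ 0) (h' : H + 1 ≠ 0) :
    (1 - x * (H' + 1) / (H + 1)) * (1 - y * H / H') = (1 - x) * (1 - y) := by
  have e1 : x * H' = y * (H + 1 - x) := by
    rw [hH]
    field_simp
  have e2 : 1 - x * (H' + 1) / (H + 1) = (1 - y) * (H + 1 - x) / (H + 1) := by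
    rw [eq_div_iff h', sub_mul, one_mul, div_mul_cancel₀ _ h']
    linear_combination -e1
  have e3 : x * (1 - y * H / H') = y * (1 - x) * (H + 1) / H' := by
    rw [eq_div_iff h]
    have : x * (1 - y * H / H') * H' = x * H' - x * y * H * (H' / H') := by ring
    rw [this, div_self h]
    linear_combination e1
  have e4 : x * ((1 - x * (H' + 1) / (H + 1)) * (1 - y * H / H')) =
      x * ((1 - x) * (1 - y)) := by
    calc x * ((1 - x * (H' + 1) / (H + 1)) * (1 - y * H / H'))
        = (1 - x * (H' + 1) / (H + 1)) * (x * (1 - y * H / H')) := by ring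
      _ = (1 - y) * (H + 1 - x) / (H + 1) * (y * (1 - x) * (H + 1) / H') := by rw [e2, e3]
      _ = (1 - y) * (1 - x) * (y * (H + 1 - x)) / H' * ((H + 1) / (H + 1)) := by ring
      _ = (1 - y) * (1 - x) * (x * H') / H' := by rw [div_self h', e1, mul_one]
      _ = x * ((1 - x) * (1 - y)) * (H' / H') := by ring
      _ = x * ((1 - x) * (1 - y)) := by rw [div_self h, mul_one]
  exact mul_left_cancel₀ hx e4

theorem prod_cX {x y : ℕ → K} {l : ℕ} (hl : l + 1 < m) {t : K}
    (h : ∀ n, n ≤ m - 1 - l → fl x y (l + 1) n t + 1 ≠ 0) :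
    ∏ i ∈ range m, cX m x y l t i = ∏ i ∈ range m, x i := by
  rw [prod_split hl, prod_split hl]
  have h1 : ∏ i ∈ range l, cX m x y l t i = ∏ i ∈ range l, x i := by
    refine prod_congr rfl fun i hi => ?_
    unfold cX
    rw [if_pos (mem_range.1 hi)]
  have h2 : ∏ j ∈ range (m - 1 - l), cX m x y l t (l + (j + 1)) =
      (∏ j ∈ range (m - 1 - l), x (l + (j + 1))) *
        ((fl x y (l + 1) (m - 1 - l) t + 1) / (t + 1)) := by
    have h3 : ∏ j ∈ range (m - 1 - l), (fl x y (l + 1) (j + 1) t + 1) /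
        (fl x y (l + 1) j t + 1) = (fl x y (l + 1) (m - 1 - l) t + 1) / (t + 1) :=
      tele (f := fun n => fl x y (l + 1) n t + 1) h
    rw [← h3, ← prod_mul_distrib]
    refine prod_congr rfl fun j _ => ?_
    unfold cX
    rw [if_neg (by omega), if_neg (by omega), show l + (j + 1) - l = j + 1 by omega,
      Nat.add_sub_cancel, mul_div_assoc]
  have h5 : cX m x y l t l = x l * ((t + 1) / (fl x y (l + 1) (m - 1 - l) t + 1)) := by
    unfold cX
    rw [if_neg (by omega), if_pos rfl, mul_div_assoc]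
  rw [h1, h2, h5]
  have h6 : fl x y (l + 1) (m - 1 - l) t + 1 ≠ 0 := h _ le_rfl
  have h7 : t + 1 ≠ 0 := h 0 (Nat.zero_le _)
  field_simp

theorem prod_cY {x y : ℕ → K} {l : ℕ} (hl : l + 1 < m) {t : K}
    (h : ∀ n, n ≤ m - 1 - l → fl x y (l + 1) n t ≠ 0) :
    ∏ i ∈ range m, cY m x y l t i = ∏ i ∈ range m, y i := by
  rw [prod_split hl, prod_split hl]
  have h1 : ∏ i ∈ range l, cY m x y l t i = ∏ i ∈ range l, y i := by
    refine prod_congr rfl fun i hi => ?_
    unfold cY
    rw [if_pos (mem_range.1 hi)]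
  have h6 : fl x y (l + 1) (m - 1 - l) t ≠ 0 := h _ le_rfl
  have h7 : t ≠ 0 := h 0 (Nat.zero_le _)
  have h2 : ∏ j ∈ range (m - 1 - l), cY m x y l t (l + (j + 1)) =
      (∏ j ∈ range (m - 1 - l), y (l + (j + 1))) *
        (t / fl x y (l + 1) (m - 1 - l) t) := by
    have h3 : ∏ j ∈ range (m - 1 - l), fl x y (l + 1) (j + 1) t / fl x y (l + 1) j t =
        fl x y (l + 1) (m - 1 - l) t / t :=
      tele (f := fun n => fl x y (l + 1) n t) h
    have h8 : t / fl x y (l + 1) (m - 1 - l) t = ((fl x y (l + 1) (m - 1 - l) t) / t)⁻¹ :=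
      (inv_div _ _).symm
    have h9 : (∏ j ∈ range (m - 1 - l),
        fl x y (l + 1) (j + 1) t / fl x y (l + 1) j t)⁻¹ =
        ∏ j ∈ range (m - 1 - l), fl x y (l + 1) j t / fl x y (l + 1) (j + 1) t := by
      rw [← prod_inv_distrib]
      exact prod_congr rfl fun j _ => inv_div _ _
    rw [h8, ← h3, h9, ← prod_mul_distrib]
    refine prod_congr rfl fun j _ => ?_
    unfold cY
    rw [if_neg (by omega), if_neg (by omega), show l + (j + 1) - l = j + 1 by omega,
      Nat.add_sub_cancel, mul_div_assoc]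
  have h5 : cY m x y l t l = y l * (fl x y (l + 1) (m - 1 - l) t / t) := by
    unfold cY
    rw [if_neg (by omega), if_pos rfl, mul_div_assoc]
  rw [h1, h2, h5]
  field_simp

theorem cXY {x y : ℕ → K} (hx : ∀ i, x i ≠ 0) (hy : ∀ i, y i ≠ 0) {l : ℕ} {t : K}
    (h : ∀ n, n ≤ m - 1 - l → fl x y (l + 1) n t ≠ 0)
    (h' : ∀ n, n ≤ m - 1 - l → fl x y (l + 1) n t + 1 ≠ 0) {i : ℕ} (hi : i < m) (hil : i ≠ l) :
    (1 - cX m x y l t i) * (1 - cY m x y l t i) = (1 - x i) * (1 - y i) := by
  unfold cX cY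
  by_cases h1 : i < l
  · rw [if_pos h1, if_pos h1]
  · rw [if_neg h1, if_neg h1, if_neg hil, if_neg hil]
    obtain ⟨n, hn⟩ : ∃ n, i = l + 1 + n := ⟨i - (l + 1), by omega⟩
    subst hn
    rw [show l + 1 + n - l = n + 1 by omega, Nat.add_sub_cancel]
    exact two_alg (hx _) (hy _) (fl_step x y (l + 1) n t) (h _ (by omega)) (h' _ (by omega))

theorem cXY_l {x y : ℕ → K} (hx : ∀ i, x i ≠ 0) (hy : ∀ i, y i ≠ 0) {l : ℕ}
    (hl : l + 1 < m) (hG : al x y l (m - l) ≠ 1) (hG' : al x y (l + 1) (m - (l + 1)) ≠ 1)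
    {t : K} (ht : t ≠ 0) (hg : fl x y (l + 1) (m - 1 - l) t + 1 ≠ 0) :
    (1 - cX m x y l t l) * (1 - cY m x y l t l) = (1 - x l) * (1 - y l) +
      (x l - y l * al x y (l + 1) (m - 1 - l)) * (al x y (l + 1) (m - 1 - l) - 1) *
        ((t - fx m x y (l + 1)) * (t - fl x y l 1 (fx m x y l))) /
          (t * (fl x y (l + 1) (m - 1 - l) t + 1)) := by
  have hE : m - (l + 1) = m - 1 - l := by omega
  have ha : 1 - al x y (l + 1) (m - 1 - l) ≠ 0 := by
    rw [hE] at hG'
    exact sub_ne_zero.2 hG'.symm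
  have e0 : (1 - al x y (l + 1) (m - 1 - l)) * fx m x y (l + 1) = be x y (l + 1) (m - 1 - l) := by
    unfold fx
    rw [hE, mul_div_cancel₀ _ ha]
  have e1 : fl x y (l + 1) (m - 1 - l) (fl x y l 1 (fx m x y l)) = fx m x y l := by
    rw [fl_shift, show m - 1 - l + 1 = m - l by omega]
    exact fl_fix hG
  have e2 : x l * fl x y l 1 (fx m x y l) = y l * (fx m x y l + 1 - x l) := by
    show x l * (y (l + 0) / x (l + 0) * (fl x y l 0 (fx m x y l) + 1 - x (l + 0))) = _
    show x l * (y l / x l * (fx m x y l + 1 - x l)) = _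
    rw [← mul_assoc, mul_div_cancel₀ _ (hx l)]
  rw [fl_eq] at e1
  have hX : cX m x y l t l = x l * (t + 1) / (fl x y (l + 1) (m - 1 - l) t + 1) := by
    unfold cX
    rw [if_neg (lt_irrefl l), if_pos rfl]
  have hY : cY m x y l t l = y l * fl x y (l + 1) (m - 1 - l) t / t := by
    unfold cY
    rw [if_neg (lt_irrefl l), if_pos rfl]
  rw [hX, hY]
  rw [fl_eq] at hg ⊢
  generalize al x y (l + 1) (m - 1 - l) = a at *
  generalize be x y (l + 1) (m - 1 - l) = b at *
  generalize fl x y l 1 (fx m x y l) = t2 at *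
  generalize fx m x y (l + 1) = t1 at *
  generalize fx m x y l = w at *
  generalize x l = p at *
  generalize y l = q at *
  have e3 : (p - q * a) * (a - 1) * ((t - t1) * (t - t2)) =
      ((a - 1) * t + b) * ((p - q * a) * t - q * (b + 1 - p)) := by
    have e4 : (a - 1) * (t - t1) = (a - 1) * t + b := by linear_combination e0
    have e5 : (p - q * a) * (t - t2) = (p - q * a) * t - q * (b + 1 - p) := by
      linear_combination -e2 + q * e1
    rw [← e4, ← e5]
    ring
  rw [e3]
  have h0 : t * (a * t + b + 1) ≠ 0 := mul_ne_zero ht hg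
  have e6 : (1 - p * (t + 1) / (a * t + b + 1)) * (1 - q * (a * t + b) / t) =
      (a * t + b + 1 - p * (t + 1)) * (t - q * (a * t + b)) / (t * (a * t + b + 1)) := by
    have e7 : 1 - p * (t + 1) / (a * t + b + 1) =
        (a * t + b + 1 - p * (t + 1)) / (a * t + b + 1) := by
      rw [sub_div, div_self hg]
    have e8 : 1 - q * (a * t + b) / t = (t - q * (a * t + b)) / t := by
      rw [sub_div, div_self ht]
    rw [e7, e8, div_mul_div_comm, mul_comm t]
  rw [e6, div_eq_iff h0, add_mul, div_mul_cancel₀ _ h0]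
  ring

/-- the leading coefficient is not zero -/
theorem lead_ne {x y : ℕ → K} (hx : ∀ i, x i ≠ 0) (hy : ∀ i, y i ≠ 0) {l : ℕ}
    (hl : l + 1 < m) (hG : al x y l (m - l) ≠ 1) (hG' : al x y (l + 1) (m - (l + 1)) ≠ 1) :
    (x l - y l * al x y (l + 1) (m - 1 - l)) * (al x y (l + 1) (m - 1 - l) - 1) ≠ 0 := by
  have hE : m - (l + 1) = m - 1 - l := by omega
  refine mul_ne_zero ?_ ?_
  · intro h1
    apply hG
    rw [show m - l = (m - 1 - l) + 1 by omega, al_succ_left, div_mul_eq_mul_div,
      div_eq_one_iff_eq (hx l)]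
    exact (sub_eq_zero.1 h1).symm
  · rw [hE] at hG'
    exact sub_ne_zero.2 hG'

theorem cX_one {x y : ℕ → K} {l : ℕ} (hl : l + 1 < m) (h : Gen m x y) {i : ℕ} (hi : i < m) :
    cX m x y l (fx m x y (l + 1)) i = st x y (l + 1) (fx m x y (l + 1)) i := by
  unfold cX st
  have h1 := h.fl_fx (show l + 1 < m from hl)
  rw [show m - (l + 1) = m - 1 - l by omega] at h1
  rcases lt_trichotomy i l with h2 | h2 | h2
  · rw [if_pos h2, if_pos (by omega)]
  · subst h2
    rw [if_neg (lt_irrefl i), if_pos rfl, if_pos (by omega), h1]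
    have h3 := h.add_one_ne (l := i + 1) (n := 0) hl (by omega)
    exact mul_div_cancel_right₀ _ h3
  · rw [if_neg (by omega), if_neg (by omega), if_neg (by omega),
      show i + 1 - (l + 1) = i - l by omega, show i - (l + 1) = i - l - 1 by omega]

theorem cX_two {x y : ℕ → K} {l : ℕ} (hl : l + 1 < m) (h : Gen m x y) {i : ℕ} (hi : i < m) :
    cX m x y l (fl x y l 1 (fx m x y l)) i = st x y l (fx m x y l) i := by
  unfold cX st
  have h1 := h.fl_fx (show l < m by omega)
  rcases lt_trichotomy i l with h2 | h2 | h2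
  · rw [if_pos h2, if_pos h2]
  · subst h2
    rw [if_neg (lt_irrefl i), if_pos rfl, if_neg (lt_irrefl i), fl_shift,
      show m - 1 - i + 1 = m - i by omega, h1, show i + 1 - i = 1 by omega, Nat.sub_self]
    rfl
  · rw [if_neg (by omega), if_neg (by omega), if_neg (by omega), fl_shift, fl_shift,
      show i - l + 1 = i + 1 - l by omega, show i - l - 1 + 1 = i - l by omega]

theorem st_ne {x y : ℕ → K} (hx : Good m x) (hy : Good m y) {l : ℕ} (hl : l < m)
    (h : Gen m x y) {i : ℕ} (hi : i < m) : st x y l (fx m x y l) i ≠ 1 := by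
  unfold st
  by_cases h1 : i < l
  · rw [if_pos h1]
    exact hx.ne1 i
  · rw [if_neg h1]
    obtain ⟨n, hn⟩ : ∃ n, i = l + n := ⟨i - l, by omega⟩
    subst hn
    rw [show l + n + 1 - l = n + 1 by omega, Nat.add_sub_cancel_left]
    have h2 := h.ne_zero (l := l) (n := n + 1) hl (by omega)
    have h3 := h.add_one_ne (l := l) (n := n) hl (by omega)
    have h4 := fl_step x y l n (fx m x y l)
    intro h5
    rw [div_eq_one_iff_eq h3] at h5
    have h6 : x (l + n) * fl x y l (n + 1) (fx m x y l) =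
        y (l + n) * (fl x y l n (fx m x y l) + 1 - x (l + n)) := by
      rw [h4, ← mul_assoc, mul_div_cancel₀ _ (hx.ne0 _)]
    have h7 : x (l + n) * fl x y l (n + 1) (fx m x y l) * (1 - y (l + n)) = 0 := by
      linear_combination h6 - y (l + n) * h5
    rcases mul_eq_zero.1 h7 with h8 | h8
    · exact mul_ne_zero (hx.ne0 _) h2 h8
    · exact hy.ne1 _ (sub_eq_zero.1 h8).symm

/-- the state of the level `m - 1` is `x` -/
theorem st_last {x y : ℕ → K} (hm : 0 < m) (h : Gen m x y) {i : ℕ} (hi : i < m) :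
    st x y (m - 1) (fx m x y (m - 1)) i = x i := by
  unfold st
  by_cases h1 : i < m - 1
  · rw [if_pos h1]
  · rw [if_neg h1]
    have h2 : i = m - 1 := by omega
    subst h2
    have h3 := h.fl_fx (show m - 1 < m by omega)
    have h4 := h.add_one_ne (l := m - 1) (n := 0) (by omega) (by omega)
    rw [show m - 1 + 1 - (m - 1) = m - (m - 1) by omega, h3, Nat.sub_self]
    exact mul_div_cancel_right₀ _ h4

/-- the nonvanishing at `t1` and `t2` -/
theorem fl_one_ne {x y : ℕ → K} {l : ℕ} (hl : l + 1 < m) (h : Gen m x y) {n : ℕ}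
    (hn : n ≤ m - 1 - l) : fl x y (l + 1) n (fx m x y (l + 1)) ≠ 0 ∧
      fl x y (l + 1) n (fx m x y (l + 1)) + 1 ≠ 0 := by
  exact ⟨h.ne_zero hl (by omega), h.add_one_ne hl (by omega)⟩

theorem fl_two_ne {x y : ℕ → K} {l : ℕ} (hl : l + 1 < m) (h : Gen m x y) {n : ℕ}
    (hn : n ≤ m - 1 - l) : fl x y (l + 1) n (fl x y l 1 (fx m x y l)) ≠ 0 ∧
      fl x y (l + 1) n (fl x y l 1 (fx m x y l)) + 1 ≠ 0 := by
  rw [fl_shift]
  exact ⟨h.ne_zero (by omega) (by omega), h.add_one_ne (by omega) (by omega)⟩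

end Alg

section Place

variable {k : Type} [Field k] {K : Type} [Field K] [Algebra k K] {m : ℕ}

/-- constant sequences: `fl` of the images of `x`, `y` -/
theorem fl_at {v : Place k K} (x y : ℕ → k) (l n : ℕ) {t : K} {c : k} (ht : v.At t c) :
    v.At (fl (fun i => algebraMap k K (x i)) (fun i => algebraMap k K (y i)) l n t)
      (fl x y l n c) := by
  have h1 : v.At (1 : K) (1 : k) := by
    have := Place.at_const (v := v) (1 : k)
    rwa [map_one] at this
  induction n with
  | zero => exact ht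
  | succ n ih =>
    have h2 : v.At (algebraMap k K (y (l + n)) / algebraMap k K (x (l + n)))
        (y (l + n) / x (l + n)) := by
      rw [← map_div₀]
      exact Place.at_const _
    exact h2.mul ((ih.add h1).sub (Place.at_const _))

theorem cX_at {v : Place k K} (x y : ℕ → k) {l : ℕ} {t : K} {c : k} (ht : v.At t c)
    (h : ∀ n, n ≤ m - 1 - l → fl x y (l + 1) n c + 1 ≠ 0) {i : ℕ} (hi : i < m) :
    v.At (cX m (fun i => algebraMap k K (x i)) (fun i => algebraMap k K (y i)) l t i)
      (cX m x y l c i) := by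
  have h1 : v.At (1 : K) (1 : k) := by
    have := Place.at_const (v := v) (1 : k)
    rwa [map_one] at this
  unfold cX
  split_ifs with h2 h3
  · exact Place.at_const _
  · exact ((Place.at_const _).mul (ht.add h1)).div ((fl_at x y _ _ ht).add h1) (h _ le_rfl)
  · exact ((Place.at_const _).mul ((fl_at x y _ _ ht).add h1)).div
      ((fl_at x y _ _ ht).add h1) (h _ (by omega))

/-- the maps commute with the embedding of the constants -/
theorem fl_alg (x y : ℕ → k) (l n : ℕ) (c : k) :
    fl (fun i => algebraMap k K (x i)) (fun i => algebraMap k K (y i)) l n (algebraMap k K c) =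
      algebraMap k K (fl x y l n c) := by
  induction n with
  | zero => rfl
  | succ n ih =>
    show algebraMap k K (y (l + n)) / algebraMap k K (x (l + n)) *
      (fl (fun i => algebraMap k K (x i)) (fun i => algebraMap k K (y i)) l n
        (algebraMap k K c) + 1 - algebraMap k K (x (l + n))) =
      algebraMap k K (y (l + n) / x (l + n) * (fl x y l n c + 1 - x (l + n)))
    rw [ih, map_mul, map_div₀, map_sub, map_add, map_one]

theorem al_alg (x y : ℕ → k) (l n : ℕ) :
    al (fun i => algebraMap k K (x i)) (fun i => algebraMap k K (y i)) l n =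
      algebraMap k K (al x y l n) := by
  unfold al
  rw [map_prod]
  exact prod_congr rfl fun i _ => (map_div₀ _ _ _).symm

theorem fx_alg (x y : ℕ → k) (l : ℕ) :
    fx m (fun i => algebraMap k K (x i)) (fun i => algebraMap k K (y i)) l =
      algebraMap k K (fx m x y l) := by
  have h1 : ∀ n, be (fun i => algebraMap k K (x i)) (fun i => algebraMap k K (y i)) l n =
      algebraMap k K (be x y l n) := by
    intro n
    have h2 := fl_alg (K := K) x y l n 0
    rw [fl_eq, fl_eq, map_zero, mul_zero, mul_zero, zero_add, zero_add] at h2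
    exact h2
  unfold fx
  rw [h1, al_alg, map_div₀, map_sub, map_one]

end Place

end Pool.Agent.HGF
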