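import Pool.Agent.HGF.CoC
import Pool.Agent.HGF.CoE
import Pool.Agent.HGF.CoF

/-!
# Project HGF, core: the chain

**`step`.** Apply `pair_line` with `i0 = l`, `X_i = cX m x y l t i`, `Y_i = cY m x y l t i` (`t =
RatFunc.X`, constants `x_i`, `y_i` in `RatFunc k`), `t1 = fx m x y (l + 1)`, `t2 = fl x y l 1 (fx
m x y l)`, `P_i = (1 - x_i) (1 - y_i)`, `x1 = st x y (l + 1) ..`, `x2 = st x y l ..`, and `u =
lead / (P_l t (g + 1))`, `g = fl x y (l + 1) (m - 1 - l) t`, `lead = (x_l - y_l a) (a - 1)`, `a =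
al x y (l + 1) (m - 1 - l)`. All `h_i`, `h_i + 1` are different from zero in `RatFunc k` (their
values at `t = t1` are not zero; there is a place with `t = t1`, e.g. from `exists_place` or
because an element `fl ..` of `RatFunc k` which is zero has the value zero at a place: use
`fl_eq`: `a' t + b'` with `a' ≠ 0` is not constant). The products over `i : Fin m` are products
over `range m` (`Fin.prod_univ_eq_prod_range`), and `mu m x = lam F (s j)`. `hu₁`, `hu₂`: the
values of `t (g + 1)` at `t1`, `t2` are not zero (`fl_one_ne`, `fl_two_ne`, `fl_at`; `t1`, `t2`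
itself: `n = 0`). `hu₃`: `u⁻¹ = P_l t (g + 1) / lead`, and `g = a t + b` is regular where `t` is
regular.
`hinf`: at a pole of `t` the element `(t - t1) (t - t2) u = lead (1 - t1 / t) (1 - t2 / t) / (P_l
(a + (b + 1) / t))` has the value `lead / (P_l a) ≠ 0`, so `1 + ..` does not have the value `1`.
The values of `X_i` at `t1`, `t2`: `cX_at`, `cX_one`, `cX_two`, not equal to `1` by `st_ne`.

**`chain`.** By induction on `n`: if `w'` is a point whose slot `j` has the row `st x y (m - 1 -
n) ..` (`w' j i ^ M = β_i (1 - st ..)`), the products of the slots `j`, `j'` are `c_i` and the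
other slots are `w0`, then `E (som0 s) (som w) = (-1) ^ n • E (som0 s) (som w')`. `n = 0`:
`st_last` and `eq_of_prod`. For the step choose a point `w''` for the level `m - 1 - n` (roots:
`IsAlgClosed.exists_pow_nat_eq`, `w'' j' i = c_i / w'' j i`) and apply `step`.

**`coreRel`.** `n = m - 1`: the state `st x y 0 ..` is `rX m x y`, `(-1) ^ (m - 1) = (-1) ^ (m +
1)`. The rows are periodic sequences, `row F hm s w i = xx F s w i` for `i < m` (`per_fin`), `w i
^ M = β_i (1 - row ..)` (`pow_of_row`). `Gen m x y` contains `al x y 0 m ≠ 1`.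
-/

set_option autoImplicit false

noncomputable section

namespace Pool.Agent.HGF

open Polynomial Pool.Agent.ZCyc Pool.Agent.Dess Pool.Agent.GT Pool.Agent.TInc
open scoped Classical

variable {k : Type} [Field k] [IsAlgClosed k] [CharZero k] {m : ℕ} {F : Fam k m} {N : ℕ} {W : Type}
  [AddCommGroup W] [Module k W] {E : (Fin N → Option k) → (Fin N → Fin m → Option k) → W}
  {b : Fin m → ℕ}

omit [IsAlgClosed k] [CharZero k] in
private theorem step_ne {T : RatFunc k} (hT : Transcendental k T) {x y : ℕ → k} {l n : ℕ}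
    {t0 : k} (h : fl x y l n t0 ≠ 0) :
    fl (fun i => algebraMap k (RatFunc k) (x i)) (fun i => algebraMap k (RatFunc k) (y i)) l n T ≠
      0 := by
  intro h0
  obtain ⟨v, hv⟩ := exists_place hT t0
  have h1 := fl_at x y l n hv
  rw [h0] at h1
  have h2 := Place.at_const (v := v) (0 : k)
  rw [map_zero] at h2
  exact h (h1.unique h2)

omit [IsAlgClosed k] [CharZero k] in
private theorem step_ne' {T : RatFunc k} (hT : Transcendental k T) {x y : ℕ → k} {l n : ℕ}
    {t0 : k} (h : fl x y l n t0 + 1 ≠ 0) :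
    fl (fun i => algebraMap k (RatFunc k) (x i)) (fun i => algebraMap k (RatFunc k) (y i)) l n T +
      1 ≠ 0 := by
  intro h0
  obtain ⟨v, hv⟩ := exists_place hT t0
  have h3 := Place.at_const (v := v) (1 : k)
  rw [map_one] at h3
  have h1 := (fl_at x y l n hv).add h3
  rw [h0] at h1
  have h2 := Place.at_const (v := v) (0 : k)
  rw [map_zero] at h2
  exact h (h1.unique h2)

omit [IsAlgClosed k] in
/-- the value at infinity -/
private theorem step_inf {v : Place k (RatFunc k)} {T G : RatFunc k} (hT : T ∉ v.ring)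
    {t1 t2 a b lead p : k} (ha : a ≠ 0) (hl : lead ≠ 0) (hp : p ≠ 0)
    (hG : G = algebraMap k (RatFunc k) a * T + algebraMap k (RatFunc k) b) :
    ¬ v.At (1 + (T - algebraMap k (RatFunc k) t1) * (T - algebraMap k (RatFunc k) t2) *
      (algebraMap k (RatFunc k) lead / (algebraMap k (RatFunc k) p * T * (G + 1)))) 1 := by
  intro hat
  have hT0 : T ≠ 0 := fun h0 => hT (h0 ▸ zero_mem v.ring)
  have h0 : v.At T⁻¹ 0 := by
    rw [Place.at_zero_iff]
    exact (v.vanishes_iff_or _).2 (Or.inr (by rwa [inv_inv]))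
  have h1 : v.At (1 : RatFunc k) (1 : k) := by
    have := Place.at_const (v := v) (1 : k)
    rwa [map_one] at this
  have h2 : ∀ c : k, v.At (1 - algebraMap k (RatFunc k) c * T⁻¹) 1 := by
    intro c
    have h3 := h1.sub ((Place.at_const (v := v) c).mul h0)
    rwa [mul_zero, sub_zero] at h3
  have h3 : v.At (algebraMap k (RatFunc k) a + (algebraMap k (RatFunc k) b + 1) * T⁻¹) a := by
    have h4 := (Place.at_const (v := v) a).add (((Place.at_const (v := v) b).add h1).mul h0)
    rwa [mul_zero, add_zero] at h4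
  have h4 := (((Place.at_const (v := v) lead).mul (h2 t1)).mul (h2 t2)).div
    ((Place.at_const (v := v) p).mul h3) (mul_ne_zero hp ha)
  have hp' : algebraMap k (RatFunc k) p ≠ 0 := by
    rw [Ne, map_eq_zero]
    exact hp
  have h5 : G + 1 = T * (algebraMap k (RatFunc k) a +
      (algebraMap k (RatFunc k) b + 1) * T⁻¹) := by
    rw [hG]
    field_simp
    ring
  have h6 : algebraMap k (RatFunc k) a + (algebraMap k (RatFunc k) b + 1) * T⁻¹ ≠ 0 := by
    intro h7
    rw [h7] at h3
    have h8 := Place.at_const (v := v) (0 : k)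
    rw [map_zero] at h8
    exact ha (h3.unique h8)
  have h7 : (T - algebraMap k (RatFunc k) t1) * (T - algebraMap k (RatFunc k) t2) *
      (algebraMap k (RatFunc k) lead / (algebraMap k (RatFunc k) p * T * (G + 1))) =
      algebraMap k (RatFunc k) lead * (1 - algebraMap k (RatFunc k) t1 * T⁻¹) *
        (1 - algebraMap k (RatFunc k) t2 * T⁻¹) / (algebraMap k (RatFunc k) p *
          (algebraMap k (RatFunc k) a + (algebraMap k (RatFunc k) b + 1) * T⁻¹)) := by
    have e : ∀ c : k, T - algebraMap k (RatFunc k) c =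
        T * (1 - algebraMap k (RatFunc k) c * T⁻¹) := by
      intro c
      field_simp
    rw [h5, e t1, e t2]
    generalize algebraMap k (RatFunc k) a + (algebraMap k (RatFunc k) b + 1) * T⁻¹ = D at *
    generalize 1 - algebraMap k (RatFunc k) t1 * T⁻¹ = D1
    generalize 1 - algebraMap k (RatFunc k) t2 * T⁻¹ = D2
    field_simp
  rw [h7] at hat
  have h8 := (h1.add h4).unique hat
  rw [mul_one, mul_one] at h8
  have h9 : lead / (p * a) = 0 := by linear_combination h8
  exact div_ne_zero hl (mul_ne_zero hp ha) h9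

theorem step (hF : F.Adm) (hb : ∀ i, 0 < b i ∧ b i < F.M) (hE : IsCF F E)
    (hEig : IsEig F.M b E) {s : Fin N → k} {j j' : Fin N} (hj : j ≠ j') (hs : Base F (s j))
    (hs' : Base F (s j')) {w0 : Fin N → Fin m → k} (h0 : ∀ l, l ≠ j → l ≠ j' → Int F (s l) (w0 l))
    {x y : ℕ → k} (hx : Good m x) (hy : Good m y) (hmx : mu m x = lam F (s j))
    (hmy : mu m y = lam F (s j')) (hG : Gen m x y) {l : ℕ} (hl : l + 1 < m) {c : Fin m → k}
    (hc : ∀ i, c i ≠ 0)
    (hP : ∀ i : Fin m, c i ^ F.M = aeval (s j) (F.B i) / aeval (s j) (F.C i) *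
      (aeval (s j') (F.B i) / aeval (s j') (F.C i)) * ((1 - x i) * (1 - y i)))
    {w1 w2 : Fin N → Fin m → k} (hw1 : ∀ l, l ≠ j → l ≠ j' → w1 l = w0 l)
    (hw1a : ∀ i : Fin m, w1 j i ^ F.M = aeval (s j) (F.B i) / aeval (s j) (F.C i) *
      (1 - st x y (l + 1) (fx m x y (l + 1)) i))
    (hw1p : ∀ i, w1 j i * w1 j' i = c i)
    (hw2 : ∀ l, l ≠ j → l ≠ j' → w2 l = w0 l)
    (hw2a : ∀ i : Fin m, w2 j i ^ F.M = aeval (s j) (F.B i) / aeval (s j) (F.C i) *
      (1 - st x y l (fx m x y l) i))
    (hw2p : ∀ i, w2 j i * w2 j' i = c i) :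
    E (som0 s) (som w1) + E (som0 s) (som w2) = 0 := by
  have hTt : Transcendental k (RatFunc.X : RatFunc k) := RatFunc.transcendental_X
  have hl' : l < m := by omega
  have hinj : Function.Injective (algebraMap k (RatFunc k)) := (algebraMap k (RatFunc k)).injective
  set X' : ℕ → RatFunc k := fun i => algebraMap k (RatFunc k) (x i) with hX'
  set Y' : ℕ → RatFunc k := fun i => algebraMap k (RatFunc k) (y i) with hY'
  set T : RatFunc k := RatFunc.X with hT
  set t1 : k := fx m x y (l + 1) with ht1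
  set t2 : k := fl x y l 1 (fx m x y l) with ht2
  have hX0 : ∀ i, X' i ≠ 0 := fun i => by
    rw [hX', Ne, map_eq_zero]
    exact hx.ne0 i
  have hY0 : ∀ i, Y' i ≠ 0 := fun i => by
    rw [hY', Ne, map_eq_zero]
    exact hy.ne0 i
  have hne : ∀ n, n ≤ m - 1 - l → fl X' Y' (l + 1) n T ≠ 0 := fun n hn =>
    step_ne hTt (fl_one_ne hl hG hn).1
  have hne' : ∀ n, n ≤ m - 1 - l → fl X' Y' (l + 1) n T + 1 ≠ 0 := fun n hn =>
    step_ne' hTt (fl_one_ne hl hG hn).2
  have hT0 : T ≠ 0 := hne 0 (Nat.zero_le _)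
  have hg := hne' _ le_rfl
  set g : RatFunc k := fl X' Y' (l + 1) (m - 1 - l) T with hg0
  set a : k := al x y (l + 1) (m - 1 - l) with ha0
  set be0 : k := be x y (l + 1) (m - 1 - l) with hbe0
  have ha : a ≠ 0 := al_ne hx.ne0 hy.ne0 _ _
  have hgT : g = algebraMap k (RatFunc k) a * T + algebraMap k (RatFunc k) be0 := by
    have h1 := fl_alg (K := RatFunc k) x y (l + 1) (m - 1 - l) 0
    rw [fl_eq, fl_eq, map_zero, mul_zero, mul_zero, zero_add, zero_add] at h1
    rw [hg0, fl_eq, h1, al_alg]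
  set lead : k := (x l - y l * a) * (a - 1) with hlead
  have hlead0 : lead ≠ 0 := lead_ne hx.ne0 hy.ne0 hl (hG.al_ne_one hl') (hG.al_ne_one hl)
  set P : Fin m → k := fun i => (1 - x i) * (1 - y i) with hP0
  have hPne : ∀ i, P i ≠ 0 := fun i =>
    mul_ne_zero (sub_ne_zero.2 (hx.ne1 _).symm) (sub_ne_zero.2 (hy.ne1 _).symm)
  set p : k := P ⟨l, hl'⟩ with hp0
  have hp : p ≠ 0 := hPne _
  have hpA : algebraMap k (RatFunc k) p ≠ 0 := by
    rw [Ne, map_eq_zero]
    exact hp
  have hleadA : algebraMap k (RatFunc k) lead ≠ 0 := by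
    rw [Ne, map_eq_zero]
    exact hlead0
  set u : RatFunc k := algebraMap k (RatFunc k) lead /
    (algebraMap k (RatFunc k) p * T * (g + 1)) with hu0
  -- the value of `u`
  have huv : ∀ (t0 : k) (v : Place k (RatFunc k)), v.At T t0 → t0 ≠ 0 →
      fl x y (l + 1) (m - 1 - l) t0 + 1 ≠ 0 → ∃ d, d ≠ 0 ∧ v.At u d := by
    intro t0 v hv h1 h2
    have h3 := Place.at_const (v := v) (1 : k)
    rw [map_one] at h3
    refine ⟨lead / (p * t0 * (fl x y (l + 1) (m - 1 - l) t0 + 1)),
      div_ne_zero hlead0 (mul_ne_zero (mul_ne_zero hp h1) h2), ?_⟩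
    exact (Place.at_const lead).div (((Place.at_const p).mul hv).mul ((fl_at x y _ _ hv).add h3))
      (mul_ne_zero (mul_ne_zero hp h1) h2)
  refine pair_line (t1 := t1) (t2 := t2) (u := u) (P := P) (i0 := ⟨l, hl'⟩)
    (X := fun i => cX m X' Y' l T i) (Y := fun i => cY m X' Y' l T i) hF hb hE hEig hj hs hs' h0
    hc hP ?_ ?_ ?_ ?_ ?_ ?_ ?_ ?_ (x1 := fun i => st x y (l + 1) t1 i)
    (x2 := fun i => st x y l (fx m x y l) i) ?_ ?_ ?_ ?_ hw1 hw1a hw1p hw2 hw2a hw2p
  · rw [Fin.prod_univ_eq_prod_range (fun i => cX m X' Y' l T i) m, prod_cX hl hne', ← hmx]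
    exact (map_prod (algebraMap k (RatFunc k)) _ _).symm
  · rw [Fin.prod_univ_eq_prod_range (fun i => cY m X' Y' l T i) m, prod_cY hl hne, ← hmy]
    exact (map_prod (algebraMap k (RatFunc k)) _ _).symm
  · intro i hi
    have hil : (i : ℕ) ≠ l := fun h => hi (Fin.ext h)
    show (1 - cX m X' Y' l T i) * (1 - cY m X' Y' l T i) = _
    rw [cXY hX0 hY0 hne hne' i.isLt hil, hX', hY', hP0]
    beta_reduce
    rw [map_mul, map_sub, map_sub, map_one]
  · show (1 - cX m X' Y' l T l) * (1 - cY m X' Y' l T l) = _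
    have q1 : al X' Y' l (m - l) ≠ 1 := by
      rw [hX', hY', al_alg, ← map_one (algebraMap k (RatFunc k))]
      exact fun h => hG.al_ne_one hl' (hinj h)
    have q2 : al X' Y' (l + 1) (m - (l + 1)) ≠ 1 := by
      rw [hX', hY', al_alg, ← map_one (algebraMap k (RatFunc k))]
      exact fun h => hG.al_ne_one hl (hinj h)
    rw [cXY_l hX0 hY0 hl q1 q2 hT0 hg]
    have q3 : fx m X' Y' (l + 1) = algebraMap k (RatFunc k) t1 := fx_alg x y _
    have q4 : fl X' Y' l 1 (fx m X' Y' l) = algebraMap k (RatFunc k) t2 := by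
      have q5 : fx m X' Y' l = algebraMap k (RatFunc k) (fx m x y l) := fx_alg x y _
      rw [q5]
      exact fl_alg x y _ _ _
    have q6 : al X' Y' (l + 1) (m - 1 - l) = algebraMap k (RatFunc k) a := al_alg x y _ _
    have q7 : (X' l - Y' l * algebraMap k (RatFunc k) a) * (algebraMap k (RatFunc k) a - 1) =
        algebraMap k (RatFunc k) lead := by
      rw [hlead, map_mul, map_sub, map_sub, map_mul, map_one]
    have q8 : (1 - X' l) * (1 - Y' l) = algebraMap k (RatFunc k) p := by
      rw [hp0, hP0]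
      beta_reduce
      rw [map_mul, map_sub, map_sub, map_one]
    rw [q3, q4, q6, q7, q8, hu0]
    change _ = algebraMap k (RatFunc k) p * _
    have hg' : g + 1 ≠ 0 := hg
    rw [← hg0]
    generalize algebraMap k (RatFunc k) lead = L at *
    generalize algebraMap k (RatFunc k) p = p' at *
    generalize g + 1 = g' at *
    generalize T - algebraMap k (RatFunc k) t1 = D1 at *
    generalize T - algebraMap k (RatFunc k) t2 = D2 at *
    field_simp
  · intro v hv
    exact huv t1 v hv (fl_one_ne hl hG (Nat.zero_le _)).1 (fl_one_ne hl hG le_rfl).2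
  · intro v hv
    exact huv t2 v hv (fl_two_ne hl hG (Nat.zero_le _)).1 (fl_two_ne hl hG le_rfl).2
  · intro v hv
    rw [hu0, inv_div, div_eq_mul_inv, ← map_inv₀]
    refine mul_mem (mul_mem (mul_mem (v.const_mem _) hv) (add_mem ?_ (one_mem _)))
      (v.const_mem _)
    rw [hgT]
    exact add_mem (mul_mem (v.const_mem _) hv) (v.const_mem _)
  · intro v hv
    exact step_inf hv ha hlead0 hp hgT
  · intro i v hv
    have h1 := cX_at (m := m) x y (l := l) hv (fun n hn => (fl_one_ne hl hG hn).2) i.isLt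
    rw [cX_one hl hG i.isLt] at h1
    exact h1
  · intro i
    exact st_ne hx hy hl hG i.isLt
  · intro i v hv
    have h1 := cX_at (m := m) x y (l := l) hv (fun n hn => (fl_two_ne hl hG hn).2) i.isLt
    rw [cX_two hl hG i.isLt] at h1
    exact h1
  · intro i
    exact st_ne hx hy hl' hG i.isLt

omit [IsAlgClosed k] [CharZero k] in
/-- the product over all slots -/
private theorem dn_prod {f g : Fin N → k} {j j' : Fin N} (hj : j ≠ j')
    (h : ∀ l, l ≠ j → l ≠ j' → f l = g l) (hp : f j * f j' = g j * g j') :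
    ∏ l, f l = ∏ l, g l := by
  have h1 : ∀ e : Fin N → k, ∏ l, e l =
      e j * e j' * ∏ l ∈ (Finset.univ.erase j).erase j', e l := by
    intro e
    rw [← Finset.mul_prod_erase Finset.univ e (Finset.mem_univ j),
      ← Finset.mul_prod_erase (Finset.univ.erase j) e
        (Finset.mem_erase.2 ⟨hj.symm, Finset.mem_univ j'⟩), mul_assoc]
  rw [h1 f, h1 g, hp]
  congr 1
  refine Finset.prod_congr rfl fun l hl => ?_
  rw [Finset.mem_erase, Finset.mem_erase] at hl
  exact h l hl.2.1 hl.1

private theorem chain (hF : F.Adm) (hb : ∀ i, 0 < b i ∧ b i < F.M) (hE : IsCF F E)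
    (hEig : IsEig F.M b E) {s : Fin N → k} {j j' : Fin N} (hj : j ≠ j')
    {w : Fin N → Fin m → k} (hw : ∀ l, Int F (s l) (w l))
    {x y : ℕ → k} (hx : Good m x) (hy : Good m y) (hmx : mu m x = lam F (s j))
    (hmy : mu m y = lam F (s j')) (hG : Gen m x y)
    (hwx : ∀ i : Fin m, w j i ^ F.M = aeval (s j) (F.B i) / aeval (s j) (F.C i) * (1 - x i))
    (hwy : ∀ i : Fin m, w j' i ^ F.M =
      aeval (s j') (F.B i) / aeval (s j') (F.C i) * (1 - y i)) (n : ℕ) :
    n < m → ∀ w' : Fin N → Fin m → k, (∀ l, l ≠ j → l ≠ j' → w' l = w l) →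
      (∀ i, w' j i * w' j' i = w j i * w j' i) →
      (∀ i : Fin m, w' j i ^ F.M = aeval (s j) (F.B i) / aeval (s j) (F.C i) *
        (1 - st x y (m - 1 - n) (fx m x y (m - 1 - n)) i)) →
      E (som0 s) (som w) = ((-1 : ℤ) ^ n) • E (som0 s) (som w') := by
  have hM := hF.M0
  induction n with
  | zero =>
    intro hn w' h1 h2 h3
    rw [pow_zero, one_smul]
    have h4 : ∀ i, w' j i ^ F.M = w j i ^ F.M := by
      intro i
      rw [h3 i, hwx i, Nat.sub_zero, st_last hn hG i.isLt]
    refine (eq_of_prod hEig (w := w) (w' := w') (fun l i => (hw l).w i) hM ?_ ?_).symm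
    · intro l i
      by_cases hlj : l = j
      · subst hlj
        exact (h4 i).symm
      by_cases hlj' : l = j'
      · subst hlj'
        have h5 := congrArg (· ^ F.M) (h2 i)
        beta_reduce at h5
        rw [mul_pow, mul_pow, h4 i] at h5
        exact (mul_left_cancel₀ (pow_ne_zero _ ((hw j).w i)) h5).symm
      · rw [h1 l hlj hlj']
    · intro i
      exact dn_prod hj (fun l hl hl' => by rw [h1 l hl hl']) (h2 i).symm
  | succ n ih =>
    intro hn w' h1 h2 h3
    have hl : m - 1 - (n + 1) + 1 < m := by omega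
    have e : m - 1 - (n + 1) + 1 = m - 1 - n := by omega
    have hr0 : ∀ i : Fin m, ∃ r : k, r ^ F.M = aeval (s j) (F.B i) / aeval (s j) (F.C i) *
        (1 - st x y (m - 1 - (n + 1) + 1) (fx m x y (m - 1 - (n + 1) + 1)) i) := fun i =>
      IsAlgClosed.exists_pow_nat_eq _ hM
    choose r hr using hr0
    have hrn : ∀ i, r i ≠ 0 := by
      intro i hi
      have h5 := hr i
      rw [hi, zero_pow hM.ne'] at h5
      exact mul_ne_zero (div_ne_zero ((hw j).B i) ((hw j).C i))
        (sub_ne_zero.2 (st_ne hx hy hl hG i.isLt).symm) h5.symm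
    set w1 : Fin N → Fin m → k := fun l i =>
      if l = j then r i else if l = j' then w j i * w j' i / r i else w l i with hw1
    have hw1j : w1 j = r := by
      funext i
      exact if_pos rfl
    have hw1j' : w1 j' = fun i => w j i * w j' i / r i := by
      funext i
      rw [hw1]
      beta_reduce
      rw [if_neg hj.symm, if_pos rfl]
    have hw1l : ∀ l, l ≠ j → l ≠ j' → w1 l = w l := by
      intro l hlj hlj'
      funext i
      rw [hw1]
      beta_reduce
      rw [if_neg hlj, if_neg hlj']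
    have hp1 : ∀ i, w1 j i * w1 j' i = w j i * w j' i := by
      intro i
      rw [hw1j, hw1j']
      exact mul_div_cancel₀ _ (hrn i)
    have h5 := ih (by omega) w1 hw1l hp1 fun i => by
      rw [hw1j, hr i, e]
    have h6 := step hF hb hE hEig hj (hw j).base (hw j').base (w0 := w)
      (fun l _ _ => hw l) hx hy hmx hmy hG hl (c := fun i => w j i * w j' i)
      (fun i => mul_ne_zero ((hw j).w i) ((hw j').w i)) (fun i => by
        rw [mul_pow, hwx, hwy]
        ring) (w1 := w1) (w2 := w') hw1l (fun i => by rw [hw1j, hr i]) hp1 h1 h3 h2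
    rw [h5, eq_neg_of_add_eq_zero_left h6, pow_succ, mul_smul, neg_one_smul]

/-- **The core.** -/
theorem coreRel (hF : F.Adm) (hb : ∀ i, 0 < b i ∧ b i < F.M) (hE : IsCF F E)
    (hEig : IsEig F.M b E) (hm : 0 < m) :
    CoreRel F hm (Gen m : (ℕ → k) → (ℕ → k) → Prop) (rX m) (rY m) E := by
  intro s w w' j j' hj hw hw' h1 h2 _ hG h3 _
  have h4 := chain hF hb hE hEig hj hw ((hw j).good hm) ((hw j').good hm) ((hw j).mu hm)
    ((hw j').mu hm) hG (pow_of_row hm (hw j).base rfl) (pow_of_row hm (hw j').base rfl)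
    (m - 1) (by omega) w' h1 h2 (fun i => by
      rw [pow_of_row hm (hw' j).base h3 i, Nat.sub_self]
      unfold st rX
      rw [if_neg (Nat.not_lt_zero _), Nat.sub_zero, Nat.sub_zero])
  rw [h4]
  congr 1
  obtain ⟨n, rfl⟩ : ∃ n, m = n + 1 := ⟨m - 1, by omega⟩
  rw [Nat.add_sub_cancel, pow_add, pow_add]
  norm_num

end Pool.Agent.HGF
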