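import Pool.Agent.HGF.StA

/-!
# Generic constant states

The sequences of a constant state are constant, `X j i = η j` with `η j ^ m = lam F (s j)`. Here we
find constant states with different parameters, such that all pairs of the `η j` are generic.
-/

set_option autoImplicit false

noncomputable section

namespace Pool.Agent.HGF

open Polynomial Finset

variable {k : Type} [Field k] {m N : ℕ} {F : Fam k m}

/-- a point of the base with a parameter outside of a finite set -/
theorem exists_base [Infinite k] (hF : F.Adm) (L : Finset k) : ∃ s : k, Base F s ∧ lam F s ∉ L := by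
  classical
  set P : k[X] := (∏ i, F.B i) * (∏ i, F.C i) * F.A *
    ∏ c ∈ L, (F.A - Polynomial.C c * ∏ i, F.B i) with hP
  have hP0 : P ≠ 0 := by
    refine mul_ne_zero (mul_ne_zero (mul_ne_zero ?_ ?_) hF.A0) ?_
    · exact prod_ne_zero_iff.2 fun i _ => hF.B0 i
    · exact prod_ne_zero_iff.2 fun i _ => hF.C0 i
    · exact prod_ne_zero_iff.2 fun c _ => sub_ne_zero.2 (hF.indep c)
  obtain ⟨s, hs⟩ := Infinite.exists_notMem_finset P.roots.toFinset
  rw [Multiset.mem_toFinset, mem_roots hP0, IsRoot.def] at hs
  rw [hP, eval_mul, eval_mul, eval_mul, eval_prod, eval_prod, eval_prod] at hs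
  have h1 := left_ne_zero_of_mul hs
  have h2 := right_ne_zero_of_mul hs
  have h3 := left_ne_zero_of_mul h1
  have hA := right_ne_zero_of_mul h1
  have hB := left_ne_zero_of_mul h3
  have hC := right_ne_zero_of_mul h3
  have hB' : ∀ i, aeval s (F.B i) ≠ 0 := fun i => by
    rw [coe_aeval_eq_eval]
    exact prod_ne_zero_iff.1 hB i (mem_univ i)
  refine ⟨s, ⟨hB', fun i => ?_, ?_⟩, fun h => ?_⟩
  · rw [coe_aeval_eq_eval]
    exact prod_ne_zero_iff.1 hC i (mem_univ i)
  · rw [coe_aeval_eq_eval]
    exact hA
  · have h4 := prod_ne_zero_iff.1 h2 _ h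
    apply h4
    rw [eval_sub, eval_mul, eval_C, eval_prod, lam]
    simp only [coe_aeval_eq_eval]
    rw [div_mul_cancel₀, sub_self]
    exact prod_ne_zero_iff.2 fun i _ => by
      have := hB' i
      rwa [coe_aeval_eq_eval] at this

/-- **Generic constant states exist.** -/
theorem exists_consts [IsAlgClosed k] (hF : F.Adm) {Gn : (ℕ → k) → (ℕ → k) → Prop}
    (hc : ∀ a : k, a ≠ 0 → a ≠ 1 → {b : k | ¬ Gn (fun _ => a) fun _ => b}.Finite ∧
      {b : k | ¬ Gn (fun _ => b) fun _ => a}.Finite) :
    ∃ s η : Fin N → k, (∀ j, Base F (s j)) ∧ (Function.Injective fun j => lam F (s j)) ∧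
      (∀ j, η j ≠ 0) ∧ (∀ j, η j ≠ 1) ∧ (∀ j, η j ^ m = lam F (s j)) ∧
      ∀ j j', j ≠ j' → Gn (fun _ => η j) fun _ => η j' := by
  have hm : 0 < m := lt_of_lt_of_le two_pos hF.two
  have : Infinite k := IsAlgClosed.instInfinite
  induction N with
  | zero =>
    exact ⟨fun j => j.elim0, fun j => j.elim0, fun j => j.elim0, fun j => j.elim0,
      fun j => j.elim0, fun j => j.elim0, fun j => j.elim0, fun j => j.elim0⟩
  | succ N ih =>
    obtain ⟨s, η, h1, h2, h3, h4, h5, h6⟩ := ih
    classical
    have hbad : ∀ j, ∃ T : Finset k, ∀ b, b ∉ T → Gn (fun _ => η j) (fun _ => b) ∧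
        Gn (fun _ => b) fun _ => η j := by
      intro j
      obtain ⟨hf1, hf2⟩ := hc (η j) (h3 j) (h4 j)
      refine ⟨hf1.toFinset ∪ hf2.toFinset, fun b hb => ?_⟩
      rw [mem_union, not_or, Set.Finite.mem_toFinset, Set.Finite.mem_toFinset] at hb
      exact ⟨not_not.1 hb.1, not_not.1 hb.2⟩
    choose T hT using hbad
    set L : Finset k := {1} ∪ (univ.image fun j => lam F (s j)) ∪
      (univ.biUnion fun j => (T j).image fun b => b ^ m) with hL
    obtain ⟨s0, hs0, hl0⟩ := exists_base hF L
    obtain ⟨e, he⟩ := IsAlgClosed.exists_pow_nat_eq (lam F s0) hm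
    rw [hL, mem_union, mem_union, not_or, not_or] at hl0
    have hlam0 : lam F s0 ≠ 0 := div_ne_zero hs0.A (prod_ne_zero_iff.2 fun i _ => hs0.B i)
    have he0 : e ≠ 0 := by
      intro h
      rw [h, zero_pow hm.ne'] at he
      exact hlam0 he.symm
    have he1 : e ≠ 1 := by
      intro h
      rw [h, one_pow] at he
      exact hl0.1.1 (by rw [← he]; simp)
    have heT : ∀ j, e ∉ T j := by
      intro j h
      apply hl0.2
      rw [mem_biUnion]
      exact ⟨j, mem_univ _, mem_image.2 ⟨e, h, he⟩⟩
    have hls : ∀ j, lam F (s j) ≠ lam F s0 := fun j h =>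
      hl0.1.2 (mem_image.2 ⟨j, mem_univ _, h⟩)
    refine ⟨Fin.cons s0 s, Fin.cons e η, fun j => ?_, fun i j hij => ?_, fun j => ?_, fun j => ?_,
      fun j => ?_, fun i j hij => ?_⟩
    · refine Fin.cases ?_ (fun j => ?_) j
      · exact hs0
      · exact h1 j
    · revert hij
      refine Fin.cases ?_ (fun i => ?_) i <;> refine Fin.cases ?_ (fun j => ?_) j
      · exact fun _ => rfl
      · intro h
        exact absurd h.symm (hls j)
      · intro h
        exact absurd h (hls i)
      · intro h
        exact congrArg Fin.succ (h2 h)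
    · refine Fin.cases ?_ (fun j => ?_) j
      · exact he0
      · exact h3 j
    · refine Fin.cases ?_ (fun j => ?_) j
      · exact he1
      · exact h4 j
    · refine Fin.cases ?_ (fun j => ?_) j
      · exact he
      · exact h5 j
    · revert hij
      refine Fin.cases ?_ (fun i => ?_) i <;> refine Fin.cases ?_ (fun j => ?_) j
      · exact fun h => absurd rfl h
      · exact fun _ => (hT j e (heT j)).2
      · exact fun _ => (hT i e (heT i)).1
      · intro h
        exact h6 i j fun h' => h (congrArg Fin.succ h')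

end Pool.Agent.HGF
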