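import Pool.Agent.HGF.Lift

/-!
# The factorisations of a product of difference operators

`X` is a tuple of sequences, with different multipliers `mu m (X j)`. `Ords m X O`: for every
permutation `σ`, `O σ` is a factorisation of `opr X` with the multipliers `mu m (X (σ j))`.
-/

set_option autoImplicit false

noncomputable section

namespace Pool.Agent.HGF

open Finset Pool.Agent.ZCyc Pool.Agent.Dess

variable {k K : Type} [Field k] [Field K] [Algebra k K] {m N : ℕ}

/-- `O σ` is a factorisation of `opr X`, the multipliers are those of `X` in the order `σ` -/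
structure Ords {K : Type*} [Field K] (m : ℕ) (X : Fin N → ℕ → K)
    (O : Equiv.Perm (Fin N) → Fin N → ℕ → K) : Prop where
  good : ∀ σ j, Good m (O σ j)
  mu : ∀ σ j, mu m (O σ j) = mu m (X (σ j))
  opr : ∀ σ, opr (O σ) = opr X

lemma good_of_at {v : Place k K} {x : ℕ → K} {x' : ℕ → k} (hx : Per m x) (h : Good m x')
    (hat : ∀ i, v.At (x i) (x' i)) : Good m x where
  per := hx
  ne0 := fun i hi => by
    have h1 := hat i
    rw [hi] at h1
    exact h.ne0 i (h1.unique (at_zero v))
  ne1 := fun i hi => by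
    have h1 := hat i
    rw [hi] at h1
    exact h.ne1 i (h1.unique (at_one v))

lemma per_of_at {v : Place k K} {x : ℕ → K} {x' : ℕ → k} (hx : Per m x)
    (hat : ∀ i, v.At (x i) (x' i)) : Per m x' := fun i => by
  have h1 := hat (i + m)
  rw [hx i] at h1
  exact h1.unique (hat i)

lemma mu_at {v : Place k K} {x : ℕ → K} {x' : ℕ → k} (hat : ∀ i, v.At (x i) (x' i)) :
    v.At (mu m x) (mu m x') := by
  unfold mu
  induction m with
  | zero => simpa using at_one v
  | succ m ih =>
    rw [prod_range_succ, prod_range_succ]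
    exact ih.mul (hat m)

/-- Factorisations over the residue field of a place can be lifted. -/
theorem exists_order [GT.HasRes k K] (v : Place k K) (hm : 0 < m) {X : Fin N → ℕ → K}
    (hX : ∀ j, Per m (X j)) {X' : Fin N → ℕ → k} (hX' : ∀ j, Good m (X' j))
    (hat : ∀ j i, v.At (X j i) (X' j i)) (hinj : Function.Injective fun j => mu m (X' j))
    (σ : Equiv.Perm (Fin N)) {Y' : Fin N → ℕ → k} (hY' : ∀ j, Good m (Y' j))
    (hmu : ∀ j, mu m (Y' j) = mu m (X' (σ j))) (hop : opr Y' = opr X') :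
    ∃ Y : Fin N → ℕ → K, (∀ j, Good m (Y j)) ∧ (∀ j, mu m (Y j) = mu m (X (σ j))) ∧
      opr Y = opr X ∧ ∀ j i, v.At (Y j i) (Y' j i) := by
  have hG : ∀ j, Good m (X j) := fun j => good_of_at (hX j) (hX' j) (hat j)
  have hmuX : ∀ j, v.At (mu m (X j)) (mu m (X' j)) := fun j => mu_at (hat j)
  have hinjK : Function.Injective fun j => mu m (X j) := fun i j hij => hinj (by
    have h1 := hmuX i
    have h2 : mu m (X i) = mu m (X j) := hij
    rw [h2] at h1
    exact h1.unique (hmuX j))
  have key := exists_lift (N := N) (m := m) v hm (t := cor X) (t' := cor X')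
    (μ := fun l => (mu m (X (σ l)))⁻¹) (μ' := fun l => (mu m (X' (σ l)))⁻¹) (X' := Y')
    (fun j => cor_per hX j) (fun i => cor_sum (fun j => (hG j).ne1) i)
    (fun j _ i => cor_at hat (fun j => (hX' j).ne1) j i)
    (fun l => by
      have h1 := (at_one v).div (hmuX (σ l)) (mu_ne (hX' (σ l)))
      rwa [one_div, one_div] at h1)
    (fun i j hij => σ.injective (hinj (inv_injective hij)))
    (fun l => by
      obtain ⟨ψ, h1, h2, h3⟩ := exists_ker hG hinjK (σ l)
      refine ⟨ψ, h1, h2, ?_⟩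
      funext i
      rw [← opr_eq, h3])
    hY' (fun j => by
      rw [hmu j]
      exact inv_mul_cancel₀ (mu_ne (hX' (σ j))))
    (fun ψ => by
      rw [hop]
      funext i
      exact opr_eq X' ψ i)
  obtain ⟨Y, h1, h2, h3, h4⟩ := key
  refine ⟨Y, h1, fun j => ?_, ?_, h4⟩
  · have h5 := h2 j
    have h6 := mu_ne (hG (σ j))
    field_simp at h5
    exact h5
  · funext ψ
    rw [h3]
    funext i
    exact (opr_eq X ψ i).symm

/-- Two factorisations of one operator have values with the same product. -/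
theorem order_at {w : Place k K} {X Y : Fin N → ℕ → K} {X' Y' : Fin N → ℕ → k}
    (hX : ∀ j i, w.At (X j i) (X' j i)) (hY : ∀ j i, w.At (Y j i) (Y' j i))
    (hX1 : ∀ j i, X' j i ≠ 1) (hY1 : ∀ j i, Y' j i ≠ 1) (h : opr Y = opr X) :
    opr Y' = opr X' := by
  have h1 : ∀ j ≤ N, ∀ i, cor Y j i = cor X j i := by
    intro j hj i
    refine ap_inj (N := N) (fun ψ => ?_) hj i
    funext i
    rw [← opr_eq, ← opr_eq, h]
  funext ψ
  funext i
  rw [opr_eq, opr_eq]
  refine congrFun (ap_congr (fun j hj i => ?_) ψ) i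
  have h2 := cor_at hY hY1 j i
  rw [h1 j hj i] at h2
  exact h2.unique (cor_at hX hX1 j i)

/-- all factorisations can be lifted -/
theorem Ords.lift [GT.HasRes k K] (v : Place k K) (hm : 0 < m) {X : Fin N → ℕ → K}
    (hX : ∀ j, Per m (X j)) {X' : Fin N → ℕ → k} (hX' : ∀ j, Good m (X' j))
    (hat : ∀ j i, v.At (X j i) (X' j i)) (hinj : Function.Injective fun j => HGF.mu m (X' j))
    {O' : Equiv.Perm (Fin N) → Fin N → ℕ → k} (hO : Ords m X' O') :
    ∃ O : Equiv.Perm (Fin N) → Fin N → ℕ → K, Ords m X O ∧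
      ∀ σ j i, v.At (O σ j i) (O' σ j i) := by
  have h1 := fun σ => exists_order v hm hX hX' hat hinj σ (hO.good σ) (hO.mu σ) (hO.opr σ)
  choose O h2 h3 h4 h5 using h1
  exact ⟨O, ⟨h2, h3, h4⟩, h5⟩

/-- values of all factorisations -/
theorem Ords.at {w : Place k K} {X : Fin N → ℕ → K} {X' : Fin N → ℕ → k}
    (hX : ∀ j i, w.At (X j i) (X' j i)) (hX1 : ∀ j i, X' j i ≠ 1)
    {O : Equiv.Perm (Fin N) → Fin N → ℕ → K} (hO : Ords m X O)
    {O' : Equiv.Perm (Fin N) → Fin N → ℕ → k} (hat : ∀ σ j i, w.At (O σ j i) (O' σ j i))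
    (h0 : ∀ σ j i, O' σ j i ≠ 0) (h1 : ∀ σ j i, O' σ j i ≠ 1) : Ords m X' O' where
  good := fun σ j => ⟨per_of_at (hO.good σ j).per (hat σ j), h0 σ j, h1 σ j⟩
  mu := fun σ j => by
    have h2 : w.At (HGF.mu m (O σ j)) (HGF.mu m (O' σ j)) := mu_at (hat σ j)
    rw [hO.mu σ j] at h2
    exact h2.unique (mu_at (hX (σ j)))
  opr := fun σ => order_at hX (hat σ) hX1 (h1 σ) (hO.opr σ)

/-- `O 1 = X` -/
theorem Ords.one {K : Type*} [Field K] {X : Fin N → ℕ → K} (hX : ∀ j, Good m (X j))
    (hinj : Function.Injective fun j => HGF.mu m (X j))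
    {O : Equiv.Perm (Fin N) → Fin N → ℕ → K} (hO : Ords m X O) : O 1 = X :=
  (opr_inj hX (hO.good 1) (fun j => (hO.mu 1 j).symm) hinj (hO.opr 1).symm).symm

/-- the factorisation with given multipliers is unique -/
theorem Ords.eq {K : Type*} [Field K] {X : Fin N → ℕ → K}
    (hinj : Function.Injective fun j => HGF.mu m (X j))
    {O : Equiv.Perm (Fin N) → Fin N → ℕ → K} (hO : Ords m X O) {σ : Equiv.Perm (Fin N)}
    {Y : Fin N → ℕ → K} (hY : ∀ j, Good m (Y j)) (hmu : ∀ j, HGF.mu m (Y j) = HGF.mu m (X (σ j)))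
    (hop : HGF.opr Y = HGF.opr X) : Y = O σ :=
  opr_inj hY (hO.good σ) (fun j => by rw [hmu, hO.mu]) (fun i j hij => by
    have h1 : HGF.mu m (X (σ i)) = HGF.mu m (X (σ j)) := by
      rw [← hmu, ← hmu]
      exact hij
    exact σ.injective (hinj h1)) (by rw [hop, hO.opr])

/-! ### Constant sequences -/

lemma good_const {K : Type*} [Field K] {a : K} (h0 : a ≠ 0) (h1 : a ≠ 1) :
    Good m (fun _ => a) := ⟨fun _ => rfl, fun _ => h0, fun _ => h1⟩

lemma mu_const {K : Type*} [Field K] (a : K) : mu m (fun _ => a) = a ^ m := by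
  simp [mu]

lemma op_comm_const {K : Type*} [Field K] (a b : K) (ψ : ℕ → K) :
    op (fun _ => a) (op (fun _ => b) ψ) = op (fun _ => b) (op (fun _ => a) ψ) := by
  funext i
  unfold op
  ring

private lemma swap_const {K : Type*} [Field K] (η : Fin N → K) {j j' : Fin N}
    (hj : (j' : ℕ) = j + 1) :
    opr (fun l (_ : ℕ) => η (Equiv.swap j j' l)) = opr fun l (_ : ℕ) => η l := by
  refine opr_congr_pair hj (fun l h1 h2 => ?_) fun ψ => ?_
  · rw [Equiv.swap_apply_of_ne_of_ne h1 h2]
  · rw [Equiv.swap_apply_left, Equiv.swap_apply_right]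
    exact op_comm_const _ _ _

/-- the operators of constant sequences commute -/
theorem opr_const_perm {K : Type*} [Field K] (η : Fin N → K) (σ : Equiv.Perm (Fin N)) :
    opr (fun l (_ : ℕ) => η (σ l)) = opr fun l (_ : ℕ) => η l := by
  cases N with
  | zero =>
    have h1 : σ = 1 := Subsingleton.elim _ _
    rw [h1]
    rfl
  | succ n =>
    have hσ : σ ∈ Submonoid.closure
        (Set.range fun i : Fin n => Equiv.swap i.castSucc i.succ) := by
      rw [Equiv.Perm.mclosure_swap_castSucc_succ]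
      trivial
    induction hσ using Submonoid.closure_induction generalizing η with
    | mem σ h =>
      obtain ⟨i, rfl⟩ := h
      exact swap_const η (by simp)
    | one => rfl
    | mul σ τ _ _ h1 h2 =>
      have h3 := h2 (fun l => η (σ l))
      have h4 := h1 η
      rw [← h4, ← h3]
      rfl

theorem ords_const {K : Type*} [Field K] {η : Fin N → K} (h0 : ∀ j, η j ≠ 0)
    (h1 : ∀ j, η j ≠ 1) : Ords m (fun j (_ : ℕ) => η j) fun σ j _ => η (σ j) where
  good := fun _ _ => good_const (h0 _) (h1 _)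
  mu := fun _ _ => rfl
  opr := fun σ => opr_const_perm η σ

end Pool.Agent.HGF
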