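import Pool.Agent.HGF.Defs
import Pool.Agent.HGF.Ord

/-!
# States: the rows of the interior points

`row F hm s w` is the periodic sequence of the coordinates `x_i` of the point `(s, w)`. Conversely the
point is determined by `s` and the row, up to the choice of `M`-th roots; the products of the
coordinates `w_i` of several points can be prescribed (`exists_ws`).
-/

set_option autoImplicit false

noncomputable section

namespace Pool.Agent.HGF

open Polynomial Finset

variable {k : Type} [Field k] {m N : ℕ} {F : Fam k m} {K : Type} [Field K] [Algebra k K]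

/-- the sequence of the coordinates `x_i` of the point `(s, w)` -/
def row (F : Fam k m) (hm : 0 < m) (s : K) (w : Fin m → K) : ℕ → K := per (xx F s w) hm

/-- the values of the forms `B_i`, `C_i`, `A` are different from zero -/
structure Base (F : Fam k m) (s : K) : Prop where
  B : ∀ i, aeval s (F.B i) ≠ 0
  C : ∀ i, aeval s (F.C i) ≠ 0
  A : aeval s F.A ≠ 0

lemma Int.base {s : K} {w : Fin m → K} (h : Int F s w) : Base F s := ⟨h.B, h.C, h.A⟩

lemma per_per {α : Type} (x : Fin m → α) (hm : 0 < m) : Per m (per x hm) := by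
  intro i
  unfold per
  congr 1
  exact Fin.ext (Nat.add_mod_right i m)

lemma per_fin {α : Type} (x : Fin m → α) (hm : 0 < m) (i : Fin m) : per x hm i = x i := by
  unfold per
  congr 1
  exact Fin.ext (Nat.mod_eq_of_lt i.isLt)

lemma per_eq {α : Type} {X : ℕ → α} (hX : Per m X) (hm : 0 < m) :
    per (fun i : Fin m => X i) hm = X := by
  have h1 : ∀ (q i : ℕ), X (i + m * q) = X i := by
    intro q
    induction q with
    | zero => intro i; simp
    | succ q ih =>
      intro i
      rw [Nat.mul_succ, ← add_assoc, hX, ih]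
  funext i
  show X (i % m) = X i
  conv_rhs => rw [← Nat.mod_add_div i m]
  rw [h1]

lemma per_ext {α : Type} {X X' : ℕ → α} (hm : 0 < m) (hX : Per m X) (hX' : Per m X')
    (h : ∀ i : Fin m, X i = X' i) : X = X' := by
  rw [← per_eq hX hm, ← per_eq hX' hm]
  congr 1
  funext i
  exact h i

lemma mu_per (x : Fin m → K) (hm : 0 < m) : mu m (per x hm) = ∏ i, x i := by
  unfold mu
  rw [← Fin.prod_univ_eq_prod_range (fun i => per x hm i) m]
  exact prod_congr rfl fun i _ => per_fin x hm i

lemma xx_eq {s : K} {w : Fin m → K} (hB : ∀ i, aeval s (F.B i) ≠ 0) (i : Fin m) :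
    xx F s w i = (aeval s (F.B i) - aeval s (F.C i) * w i ^ F.M) / aeval s (F.B i) := by
  unfold xx
  rw [sub_div, div_self (hB i)]

lemma one_sub_xx (s : K) (w : Fin m → K) (i : Fin m) :
    1 - xx F s w i = aeval s (F.C i) * w i ^ F.M / aeval s (F.B i) := by
  unfold xx
  ring

/-- the `M`-th power of `w_i` -/
lemma pow_eq {s : K} {w : Fin m → K} (h : Base F s) (i : Fin m) :
    w i ^ F.M = aeval s (F.B i) / aeval s (F.C i) * (1 - xx F s w i) := by
  rw [one_sub_xx]
  have h1 := h.B i
  have h2 := h.C i
  field_simp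

lemma Int.good {s : K} {w : Fin m → K} (hm : 0 < m) (h : Int F s w) :
    Good m (row F hm s w) where
  per := per_per _ hm
  ne0 := fun i => by
    show xx F s w _ ≠ 0
    rw [xx_eq h.B]
    refine div_ne_zero (fun h1 => h.A ?_) (h.B _)
    rw [← h.onY]
    exact prod_eq_zero (mem_univ _) h1
  ne1 := fun i => by
    show xx F s w _ ≠ 1
    intro h1
    have h2 := one_sub_xx (F := F) s w ⟨i % m, Nat.mod_lt i hm⟩
    rw [h1, sub_self] at h2
    exact div_ne_zero (mul_ne_zero (h.C _) (pow_ne_zero _ (h.w _))) (h.B _) h2.symm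

lemma Int.mu {s : K} {w : Fin m → K} (hm : 0 < m) (h : Int F s w) :
    mu m (row F hm s w) = lam F s := by
  unfold row lam
  rw [mu_per, ← h.onY, ← prod_div_distrib]
  exact prod_congr rfl fun i _ => xx_eq h.B i

/-- a point is interior if its row is good and has the right multiplier -/
lemma int_of_row {s : K} {w : Fin m → K} (hm : 0 < m) (hM : 0 < F.M) (hs : Base F s)
    (hg : Good m (row F hm s w)) (hmu : HGF.mu m (row F hm s w) = lam F s) : Int F s w where
  onY := by
    unfold row lam at hmu
    rw [mu_per, eq_div_iff (prod_ne_zero_iff.2 fun i _ => hs.B i), ← prod_mul_distrib] at hmu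
    rw [← hmu]
    refine prod_congr rfl fun i _ => ?_
    rw [xx_eq hs.B, div_mul_cancel₀ _ (hs.B i)]
  B := hs.B
  C := hs.C
  A := hs.A
  w := fun i hi => by
    have h1 := hg.ne1 i
    apply h1
    show per (xx F s w) hm i = 1
    rw [per_fin]
    unfold xx
    rw [hi, zero_pow hM.ne', mul_zero, zero_div, sub_zero]

lemma row_of_pow {s : K} {w : Fin m → K} (hm : 0 < m) (hs : Base F s) {X : ℕ → K}
    (hX : Per m X)
    (h : ∀ i : Fin m, w i ^ F.M = aeval s (F.B i) / aeval s (F.C i) * (1 - X i)) :
    row F hm s w = X := by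
  refine per_ext hm (per_per _ hm) hX fun i => ?_
  show per (xx F s w) hm i = X i
  rw [per_fin]
  unfold xx
  rw [h i]
  have h1 := hs.B i
  have h2 := hs.C i
  field_simp
  ring

lemma pow_of_row {s : K} {w : Fin m → K} (hm : 0 < m) (hs : Base F s) {X : ℕ → K}
    (h : row F hm s w = X) (i : Fin m) :
    w i ^ F.M = aeval s (F.B i) / aeval s (F.C i) * (1 - X i) := by
  rw [pow_eq hs, ← h]
  show _ = _ * (1 - per (xx F s w) hm i)
  rw [per_fin]

/-- The points `(s_j, w_j)` are interior, their rows are `X j` and the products of the coordinates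
are `p`. -/
structure IsSt (F : Fam k m) (hm : 0 < m) (s : Fin N → K) (X : Fin N → ℕ → K) (p : Fin m → K)
    (w : Fin N → Fin m → K) : Prop where
  int : ∀ j, Int F (s j) (w j)
  row : ∀ j, row F hm (s j) (w j) = X j
  prod : ∀ i, ∏ j, w j i = p i

/-- the condition for the product of the coordinates -/
def PCond (F : Fam k m) (s : Fin N → K) (X : Fin N → ℕ → K) (p : Fin m → K) : Prop :=
  ∀ i : Fin m, p i ^ F.M =
    (∏ j, (aeval (s j) (F.B i) / aeval (s j) (F.C i))) * ∏ j, (1 - X j i)

lemma IsSt.pcond {hm : 0 < m} {s : Fin N → K} {X : Fin N → ℕ → K} {p : Fin m → K}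
    {w : Fin N → Fin m → K} (h : IsSt F hm s X p w) : PCond F s X p := by
  intro i
  rw [← h.prod, ← prod_pow, ← prod_mul_distrib]
  exact prod_congr rfl fun j _ => pow_of_row hm (h.int j).base (h.row j) i

/-- points with given rows and products -/
theorem exists_ws [IsAlgClosed K] (hm : 0 < m) (hM : 0 < F.M) (hN : 0 < N) {s : Fin N → K}
    (hs : ∀ j, Base F (s j)) {X : Fin N → ℕ → K} (hX : ∀ j, Good m (X j))
    (hmu : ∀ j, mu m (X j) = lam F (s j)) {p : Fin m → K} (hp : PCond F s X p) :
    ∃ w, IsSt F hm s X p w := by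
  have h0 : ∀ (j : Fin N) (i : Fin m), ∃ r : K,
      r ^ F.M = aeval (s j) (F.B i) / aeval (s j) (F.C i) * (1 - X j i) := fun j i =>
    IsAlgClosed.exists_pow_nat_eq _ hM
  choose r hr using h0
  have hr0 : ∀ j i, r j i ≠ 0 := by
    intro j i h
    have h1 := hr j i
    rw [h, zero_pow hM.ne'] at h1
    exact mul_ne_zero (div_ne_zero ((hs j).B i) ((hs j).C i))
      (sub_ne_zero.2 ((hX j).ne1 i).symm) h1.symm
  set j0 : Fin N := ⟨0, hN⟩ with hj0
  set P : Fin m → K := fun i => ∏ j, r j i with hP
  have hP0 : ∀ i, P i ≠ 0 := fun i => prod_ne_zero_iff.2 fun j _ => hr0 j i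
  have hPM : ∀ i, P i ^ F.M = p i ^ F.M := by
    intro i
    rw [hp i, hP, ← prod_pow, ← prod_mul_distrib]
    exact prod_congr rfl fun j _ => hr j i
  set w : Fin N → Fin m → K := fun j i => if j = j0 then r j i * (p i / P i) else r j i with hw
  have hwM : ∀ j i, w j i ^ F.M =
      aeval (s j) (F.B i) / aeval (s j) (F.C i) * (1 - X j i) := by
    intro j i
    rw [← hr j i, hw]
    show (if j = j0 then r j i * (p i / P i) else r j i) ^ F.M = r j i ^ F.M
    split_ifs with h
    · rw [mul_pow, div_pow, hPM, div_self, mul_one]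
      rw [← hPM]
      exact pow_ne_zero _ (hP0 i)
    · rfl
  have hrow : ∀ j, row F hm (s j) (w j) = X j := fun j =>
    row_of_pow hm (hs j) (hX j).per (hwM j)
  refine ⟨w, fun j => ?_, hrow, fun i => ?_⟩
  · refine int_of_row hm hM (hs j) ?_ ?_
    · rw [hrow j]
      exact hX j
    · rw [hrow j, hmu j]
  · have h1 : ∀ j, w j i = r j i * (if j = j0 then p i / P i else 1) := by
      intro j
      show (if j = j0 then r j i * (p i / P i) else r j i) = _
      split_ifs <;> simp
    rw [prod_congr rfl fun j _ => h1 j, prod_mul_distrib, prod_ite_eq' univ j0,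
      if_pos (mem_univ _)]
    exact mul_div_cancel₀ _ (hP0 i)

/-- the product of the `1 - X j i` is the same for all factorisations -/
lemma prod_one_sub {X Y : Fin N → ℕ → K} (h : opr Y = opr X) (i : ℕ) :
    ∏ j, (1 - Y j i) = ∏ j, (1 - X j i) := by
  have h1 : cor Y 0 i = cor X 0 i := by
    refine ap_inj (N := N) (fun ψ => ?_) (Nat.zero_le _) i
    funext i
    rw [← opr_eq, ← opr_eq, h]
  rw [cor_zero, cor_zero, prod_inv_distrib, prod_inv_distrib] at h1
  exact inv_injective h1

/-- the condition for the product is the same for all factorisations -/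
lemma PCond.perm {s : Fin N → K} {X Y : Fin N → ℕ → K} {p : Fin m → K} (hp : PCond F s X p)
    (σ : Equiv.Perm (Fin N)) (h : opr Y = opr X) : PCond F (fun j => s (σ j)) Y p := by
  intro i
  rw [hp i, prod_one_sub h]
  congr 1
  exact (Equiv.prod_comp σ fun j => aeval (s j) (F.B i) / aeval (s j) (F.C i)).symm

end Pool.Agent.HGF
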