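import Pool.Agent.HGF.Roots
import Pool.Agent.HGF.StA

/-!
# The rational curve through a state
-/

set_option autoImplicit false
set_option linter.unusedSectionVars false

set_option maxHeartbeats 400000

noncomputable section

namespace Pool.Agent.HGF

open Finset Polynomial Pool.Agent.ZCyc Pool.Agent.Dess
open Pool.Agent.VFP (Om tt)

variable {k : Type} [Field k] [IsAlgClosed k] [CharZero k] {m N : ℕ}

private lemma per_mod {α : Type} {x : ℕ → α} (hx : Per m x) (i : ℕ) : x (i % m) = x i := by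
  have h1 : ∀ (q i : ℕ), x (i + m * q) = x i := by
    intro q
    induction q with
    | zero => intro i; simp
    | succ q ih =>
      intro i
      rw [Nat.mul_succ, ← add_assoc, hx, ih]
  conv_rhs => rw [← Nat.mod_add_div i m]
  rw [h1]

/-- coefficients are integral if all `(1 - x)⁻¹` are -/
lemma cor_mem {v : Place k (Om k)} {Z : Fin N → ℕ → Om k} (h0 : ∀ j i, Z j i ≠ 1)
    (h : ∀ j i, (1 - Z j i)⁻¹ ∈ v.ring) (j i : ℕ) : cor Z j i ∈ v.ring := by
  induction N generalizing j i with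
  | zero =>
    cases j with
    | zero => exact one_mem _
    | succ j => exact zero_mem _
  | succ N ih =>
    have h2 := ih (Z := fun j => Z j.succ) (fun j => h0 j.succ) (fun j => h j.succ)
    cases j with
    | zero =>
      show cor (fun j => Z j.succ) 0 i / (1 - Z 0 i) ∈ v.ring
      rw [div_eq_mul_inv]
      exact mul_mem (h2 0 i) (h 0 i)
    | succ j =>
      show cor (fun j => Z j.succ) (j + 1) i / (1 - Z 0 (i + (j + 1))) -
        cor (fun j => Z j.succ) j i * Z 0 (i + j) / (1 - Z 0 (i + j)) ∈ v.ring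
      have h3 : 1 - Z 0 (i + j) ≠ 0 := sub_ne_zero.2 (h0 0 _).symm
      have h4 : cor (fun j => Z j.succ) j i * Z 0 (i + j) / (1 - Z 0 (i + j)) =
          cor (fun j => Z j.succ) j i * ((1 - Z 0 (i + j))⁻¹ - 1) := by
        field_simp
        ring
      rw [h4, div_eq_mul_inv]
      exact sub_mem (mul_mem (h2 _ _) (h 0 _)) (mul_mem (h2 _ _) (sub_mem (h 0 _) (one_mem _)))

/-- the values of a polynomial of the deformation -/
def evt (τ : ℕ → ℕ → k[X]) (t : Om k) (j i : ℕ) : Om k := aeval t (τ j i)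

/-- the sum of the row -/
def rs (N : ℕ) (τ : ℕ → ℕ → k[X]) (t : Om k) (i : ℕ) : Om k :=
  ∑ j ∈ range (N + 1), evt τ t j i

section

variable {F : Fam k m} {i0 : Fin m} {s : Fin N → k} {X : Fin N → ℕ → k} {h : k[X]} {g : k}
  {τ : ℕ → ℕ → k[X]} {t : Om k} {S : Fin N → Om k}

private lemma Wn_ne (hX : ∀ j, Good m (X j)) (hs : ∀ j, Base F (s j)) (i : ℕ) :
    Wn F s X i ≠ 0 := by
  refine prod_ne_zero_iff.2 fun j _ => mul_ne_zero ?_ (sub_ne_zero.2 ((hX j).ne1 i).symm)
  split_ifs with hi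
  · have h1 := (hs j).B ⟨i, hi⟩
    rwa [coe_aeval_eq_eval] at h1
  · simp

private lemma ev_at (hD : IsDef F i0 s X h g τ) {v : Place k (Om k)} (hv : v.At t 0) {j : ℕ}
    (hj : j ≤ N) {i : ℕ} (hi : i < m) : v.At (evt τ t j i) (Wn F s X i * cor X j i) := by
  have h1 := VFP.at_evalc hv (τ j i)
  rw [coe_aeval_eq_eval, hD.ev j hj i hi] at h1
  exact h1

private lemma rs_at (hX : ∀ j, Good m (X j)) (hD : IsDef F i0 s X h g τ) {v : Place k (Om k)}
    (hv : v.At t 0) {i : ℕ} (hi : i < m) : v.At (rs N τ t i) (Wn F s X i) := by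
  have h1 : v.At (rs N τ t i) (∑ j ∈ range (N + 1), Wn F s X i * cor X j i) :=
    Place.At.sum fun j hj => ev_at hD hv (by have := mem_range.1 hj; omega) hi
  rwa [← mul_sum, cor_sum fun j => (hX j).ne1, mul_one] at h1

private lemma rs_ne (hX : ∀ j, Good m (X j)) (hs : ∀ j, Base F (s j))
    (hD : IsDef F i0 s X h g τ) (ht : ∃ v : Place k (Om k), v.At t 0) {i : ℕ} (hi : i < m) :
    rs N τ t i ≠ 0 := by
  obtain ⟨v, hv⟩ := ht
  intro h0
  have h1 := rs_at hX hD hv hi
  rw [h0] at h1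
  exact Wn_ne hX hs i (h1.unique (at_zero v))

/-- norms over `Om k` -/
private lemma nm_t (hS : RR s h t = hh S) (G : k[X]) :
    aeval t (nm N G (Hh (hh s) h)) = ∏ j, aeval (S j) G := by
  have h1 := nm_map (N := N) (aeval t : k[X] →ₐ[k] Om k) G (Hh (hh s) h)
  rw [Hh_aeval] at h1
  rw [h1]
  have h2 : (hh s).map (algebraMap k (Om k)) + C t * h.map (algebraMap k (Om k)) =
      ∏ j, (Polynomial.X - C (S j)) := hS
  rw [h2, nm_prod]

private lemma row0_t (hD : IsDef F i0 s X h g τ) (hS : RR s h t = hh S) (i : Fin m) :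
    evt τ t 0 i = ∏ j, aeval (S j) (F.B i) := by
  unfold evt
  rw [hD.row0 i, nm_t hS]

private lemma det_t (hD : IsDef F i0 s X h g τ) (hS : RR s h t = hh S) (θ : Om k) :
    (dm m N (evt τ t) θ).det = ∏ j, (∏ i, aeval (S j) (F.B i) - θ * aeval (S j) F.A) := by
  have h1 : dp m N (evt τ t) =
      ∏ j, (C (∏ i, aeval (S j) (F.B i)) - Polynomial.X * C (aeval (S j) F.A)) := by
    refine eq_of_points (z := fun l : Fin N => algebraMap k (Om k) (((l : ℕ) : k) + 1))
      (natDegree_dp _) (natDegree_lin _ _) ?_ ?_ ?_ ?_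
    · intro l l' hl
      have h2 := (algebraMap k (Om k)).injective hl
      exact Fin.ext (Nat.cast_injective (add_right_cancel h2))
    · intro l
      rw [_root_.map_ne_zero]
      exact Nat.cast_add_one_ne_zero _
    · rw [eval_dp, det_dm_zero, prod_congr rfl fun i _ => row0_t hD hS i, prod_comm, eval_prod]
      refine prod_congr rfl fun j _ => ?_
      rw [eval_sub, eval_C, eval_mul, eval_X, zero_mul, sub_zero]
    · intro l
      rw [eval_dp]
      have h2 := congrArg (aeval t : k[X] →ₐ[k] Om k) (hD.det l)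
      rw [nm_t hS] at h2
      have h3 := det_dm_map (m := m) (N := N) ((aeval t : k[X] →ₐ[k] Om k) : k[X] →+* Om k) τ
        (C (((l : ℕ) : k) + 1))
      have h4 : ((aeval t : k[X] →ₐ[k] Om k) : k[X] →+* Om k) (C (((l : ℕ) : k) + 1)) =
          algebraMap k (Om k) (((l : ℕ) : k) + 1) := aeval_C t _
      rw [h4] at h3
      have h5 : (dm m N (evt τ t) (algebraMap k (Om k) (((l : ℕ) : k) + 1))).det =
          aeval t (dm m N τ (C (((l : ℕ) : k) + 1))).det := h3.symm
      rw [h5, h2, eval_prod]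
      refine prod_congr rfl fun j _ => ?_
      rw [map_sub, map_mul, map_prod, aeval_C, eval_sub, eval_C, eval_mul, eval_X, eval_C]
  rw [← eval_dp, h1, eval_prod]
  refine prod_congr rfl fun j _ => ?_
  rw [eval_sub, eval_C, eval_mul, eval_X, eval_C]

/-- the coefficients of the product over `Om k` -/
private def tn (m N : ℕ) (τ : ℕ → ℕ → k[X]) (t : Om k) (j i : ℕ) : Om k :=
  evt τ t j (i % m) / rs N τ t (i % m)

private lemma tn_per (j : ℕ) : Per m (tn m N τ t j) := by
  intro i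
  unfold tn
  rw [Nat.add_mod_right]

private lemma tn_at (hm : 0 < m) (hX : ∀ j, Good m (X j)) (hs : ∀ j, Base F (s j))
    (hD : IsDef F i0 s X h g τ) {v : Place k (Om k)} (hv : v.At t 0) {j : ℕ} (hj : j ≤ N)
    (i : ℕ) : v.At (tn m N τ t j i) (cor X j i) := by
  have hi := Nat.mod_lt i hm
  have h1 := (ev_at hD hv hj hi).div (rs_at hX hD hv hi) (Wn_ne hX hs _)
  rw [mul_div_cancel_left₀ _ (Wn_ne hX hs _), per_mod (cor_per (fun j => (hX j).per) j)] at h1
  exact h1

private lemma lam_ne {K : Type} [Field K] [Algebra k K] {x : K} (hx : Base F x) :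
    lam F x ≠ 0 := div_ne_zero hx.A (prod_ne_zero_iff.2 fun i _ => hx.B i)

private lemma base_at {v : Place k (Om k)} {x : Om k} {c : k} (h : v.At x c) (hc : Base F c) :
    Base F x := by
  have h1 : ∀ P : k[X], aeval c P ≠ 0 → aeval x P ≠ 0 := by
    intro P hP h0
    have h2 := VFP.at_evalc h P
    rw [h0] at h2
    exact hP (h2.unique (at_zero v))
  exact ⟨fun i => h1 _ (hc.B i), fun i => h1 _ (hc.C i), h1 _ hc.A⟩

/-- **The factorisation over `Om k`.** -/
theorem exists_fact (hm : 0 < m) (hs : ∀ j, Base F (s j))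
    (hinj : Function.Injective fun j => lam F (s j)) (hX : ∀ j, Good m (X j))
    (hmu : ∀ j, mu m (X j) = lam F (s j)) {O : Equiv.Perm (Fin N) → Fin N → ℕ → k}
    (hO : Ords m X O) (hD : IsDef F i0 s X h g τ) (ht : ∃ v : Place k (Om k), v.At t 0)
    (hS : RR s h t = hh S) :
    (∀ j, Base F (S j)) ∧ ∃ Z : Fin N → ℕ → Om k, (∀ j, Good m (Z j)) ∧
      (∀ j, mu m (Z j) = lam F (S j)) ∧
      (∀ j ≤ N, ∀ i < m, cor Z j i * rs N τ t i = evt τ t j i) ∧
      ∀ v : Place k (Om k), v.At t 0 → ∃ σ : Equiv.Perm (Fin N),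
        (∀ j, v.At (S j) (s (σ j))) ∧ ∀ j i, v.At (Z j i) (O σ j i) := by
  have hsinj : Function.Injective s := fun i j hij => hinj (congrArg (lam F) hij)
  have hroot := fun (v : Place k (Om k)) (hv : v.At t 0) => roots_zero hsinj hD.deg hS hv
  have hB : ∀ j, Base F (S j) := by
    intro j
    obtain ⟨v, hv⟩ := ht
    obtain ⟨σ, hσ⟩ := hroot v hv
    exact base_at (hσ j) (hs _)
  refine ⟨hB, ?_⟩
  have hP : ∀ j, ∏ i, aeval (S j) (F.B i) ≠ 0 := fun j => prod_ne_zero_iff.2 fun i _ => (hB j).B i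
  -- kernel vectors
  have hker : ∀ j, ∃ ψ, ψ ≠ 0 ∧ QP m (lam F (S j))⁻¹ ψ ∧ ap N (tn m N τ t) ψ = 0 := by
    intro j
    refine exists_of_det hm (fun j => tn_per j) ?_
    have h1 : (dm m N (tn m N τ t) (lam F (S j))⁻¹).det =
        (dm m N (fun j i => (rs N τ t i)⁻¹ * evt τ t j i) (lam F (S j))⁻¹).det := by
      rw [dm_congr fun j _ i hi => ?_]
      unfold tn
      rw [Nat.mod_eq_of_lt hi, div_eq_inv_mul]
    have h2 : ∏ i, aeval (S j) (F.B i) - (lam F (S j))⁻¹ * aeval (S j) F.A = 0 := by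
      unfold lam
      rw [inv_div, div_mul_cancel₀ _ (hB j).A, sub_self]
    have h3 : ∏ j', (∏ i, aeval (S j') (F.B i) - (lam F (S j))⁻¹ * aeval (S j') F.A) = 0 :=
      prod_eq_zero (mem_univ j) h2
    rw [h1, det_dm_mul (fun i => (rs N τ t i)⁻¹), det_t hD hS, h3, mul_zero]
  have hsum : ∀ i, ∑ j ∈ range (N + 1), tn m N τ t j i = 1 := by
    intro i
    unfold tn
    rw [← sum_div]
    exact div_self (rs_ne hX hs hD ht (Nat.mod_lt i hm))
  -- values of the multipliers
  have hlam : ∀ (v : Place k (Om k)) (σ : Equiv.Perm (Fin N)), (∀ j, v.At (S j) (s (σ j))) →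
      ∀ j, v.At (lam F (S j)) (lam F (s (σ j))) := by
    intro v σ hσ j
    unfold lam
    exact (VFP.at_evalc (hσ j) F.A).div (Place.At.prod fun i _ => VFP.at_evalc (hσ j) (F.B i))
      (prod_ne_zero_iff.2 fun i _ => (hs _).B i)
  have hlift : ∀ v : Place k (Om k), v.At t 0 → ∃ (σ : Equiv.Perm (Fin N))
      (Z : Fin N → ℕ → Om k), (∀ j, v.At (S j) (s (σ j))) ∧ (∀ j, Good m (Z j)) ∧
      (∀ j, mu m (Z j) = lam F (S j)) ∧ (∀ ψ, opr Z ψ = ap N (tn m N τ t) ψ) ∧
      ∀ j i, v.At (Z j i) (O σ j i) := by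
    intro v hv
    obtain ⟨σ, hσ⟩ := hroot v hv
    obtain ⟨Z, h1, h2, h3, h4⟩ := exists_lift v hm (t := tn m N τ t) (t' := cor X)
      (fun j => tn_per j) hsum (fun j hj i => tn_at hm hX hs hD hv hj i)
      (μ := fun j => (lam F (S j))⁻¹) (μ' := fun j => (lam F (s (σ j)))⁻¹)
      (fun j => (hlam v σ hσ j).inv (lam_ne (hs _)))
      (fun i j hij => σ.injective (hinj (inv_injective hij))) hker (X' := O σ) (hO.good σ)
      (fun j => by rw [hO.mu σ j, hmu, inv_mul_cancel₀ (lam_ne (hs _))])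
      (fun ψ => by
        rw [hO.opr σ]
        funext i
        exact opr_eq X ψ i)
    refine ⟨σ, Z, hσ, h1, fun j => ?_, h3, h4⟩
    have h5 := h2 j
    rwa [inv_mul_eq_one₀ (lam_ne (hB j)), eq_comm] at h5
  obtain ⟨v₀, hv₀⟩ := ht
  obtain ⟨σ₀, Z, h1, h2, h3, h4, h5⟩ := hlift v₀ hv₀
  have hinjS : Function.Injective fun j => mu m (Z j) := by
    intro i j hij
    have hij' : lam F (S i) = lam F (S j) := by
      rw [← h3, ← h3]
      exact hij
    have h6 := hlam v₀ σ₀ h1 i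
    rw [hij'] at h6
    exact σ₀.injective (hinj (h6.unique (hlam v₀ σ₀ h1 j)))
  refine ⟨Z, h2, h3, fun j hj i hi => ?_, fun v hv => ?_⟩
  · have h6 : cor Z j i = tn m N τ t j i := by
      refine ap_inj (N := N) (fun ψ => ?_) hj i
      rw [← h4 ψ]
      funext i
      exact (opr_eq Z ψ i).symm
    rw [h6]
    unfold tn
    rw [Nat.mod_eq_of_lt hi]
    exact div_mul_cancel₀ _ (rs_ne hX hs hD ⟨v₀, hv₀⟩ hi)
  · obtain ⟨σ, Z', h6, h7, h8, h9, h10⟩ := hlift v hv
    have h11 : Z = Z' := by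
      refine opr_inj h2 h7 (fun j => by rw [h3, h8]) hinjS ?_
      funext ψ
      rw [h4, h9]
    subst h11
    exact ⟨σ, h6, h10⟩

end

/-- **The rational curve through a state.** -/
theorem exists_curve {F : Fam k m} (hF : F.Adm) {i0 : Fin m}
    (hi : (F.C i0).natDegree < F.d i0) (hm : 0 < m) {s : Fin F.D → k} (hs : ∀ j, Base F (s j))
    (hinj : Function.Injective fun j => lam F (s j)) {X : Fin F.D → ℕ → k}
    {O : Equiv.Perm (Fin F.D) → Fin F.D → ℕ → k} (hX : ∀ j, Good m (X j))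
    (hmu : ∀ j, mu m (X j) = lam F (s j)) (hO : Ords m X O) {p : Fin m → k}
    (hp : PCond F s X p) :
    ∃ (τ η : Om k) (S : Fin F.D → Om k) (Z : Fin F.D → ℕ → Om k), Transcendental k τ ∧ η ≠ 0 ∧
      (∀ j, Base F (S j)) ∧ (∀ j, Good m (Z j)) ∧ (∀ j, mu m (Z j) = lam F (S j)) ∧
      PCond F S Z (fun i => algebraMap k (Om k) (p i) * if i = i0 then η else 1) ∧
      (∀ v : Place k (Om k), v.At τ 0 → v.At η 1 ∧ ∃ σ : Equiv.Perm (Fin F.D),
        (∀ j, v.At (S j) (s (σ j))) ∧ ∀ j i, v.At (Z j i) (O σ j i)) ∧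
      (∀ v : Place k (Om k), v.At τ⁻¹ 0 → (∃ j, S j ∉ v.ring) ∨ v.At η 0 ∨ v.At η⁻¹ 0 ∨
        ∃ (j : Fin F.D) (i : ℕ) (c : k), v.At (S j) c ∧ Base F c ∧ v.At (Z j i) 1) := by
  have hst : IsState F s X := ⟨hX, fun j => (hs j).B, fun j => (hs j).C, fun j => (hs j).A,
    fun j => by
      rw [hmu]
      exact div_mul_cancel₀ _ (prod_ne_zero_iff.2 fun i _ => (hs j).B i),
    fun i j hij => hinj (by
      show lam F (s i) = lam F (s j)
      rw [← hmu, ← hmu]
      exact hij)⟩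
  obtain ⟨h, g, τ, hD⟩ := exists_isDef hm hF.degB hF.degC hF.degA hi le_rfl hst
  -- the parameter
  obtain ⟨η, t, hη, hηt, ht0, htp⟩ : ∃ η t : Om k, η ≠ 0 ∧
      η ^ F.M = 1 + algebraMap k (Om k) g * t ∧
      (∀ v : Place k (Om k), v.At (tt k) 0 → v.At η 1 ∧ v.At t 0) ∧
      (∀ v : Place k (Om k), v.At (tt k)⁻¹ 0 → v.At η⁻¹ 0 ∨ (g = 0 ∧ t ∉ v.ring)) := by
    by_cases hg : g = 0
    · refine ⟨1, tt k, one_ne_zero, by rw [hg]; simp, fun v hv => ⟨at_one v, hv⟩, fun v hv => ?_⟩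
      refine Or.inr ⟨hg, ?_⟩
      have h1 : tt k ≠ 0 := by simpa using VFP.tt_ne (0 : k)
      have h2 := VFP.inv_not_mem hv (inv_ne_zero h1)
      rwa [inv_inv] at h2
    · have hg' : algebraMap k (Om k) g ≠ 0 := (_root_.map_ne_zero _).2 hg
      have h1 : (1 : Om k) + tt k ≠ 0 := by
        intro h1
        apply VFP.tt_ne (-1 : k)
        rw [map_neg, map_one]
        exact (neg_eq_of_add_eq_zero_right h1).symm
      refine ⟨1 + tt k, ((1 + tt k) ^ F.M - 1) / algebraMap k (Om k) g, h1, ?_, fun v hv => ?_,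
        fun v hv => Or.inl ?_⟩
      · field_simp
        ring
      · have h2 : v.At (1 + tt k) (1 : k) := by
          have h3 := (at_one v).add hv
          rwa [add_zero] at h3
        refine ⟨h2, ?_⟩
        have h3 := ((h2.pow F.M).sub (at_one v)).div (Place.at_const (v := v) g) hg
        rwa [one_pow, sub_self, zero_div] at h3
      · have h0 : tt k ≠ 0 := by simpa using VFP.tt_ne (0 : k)
        have h2 := VFP.inv_not_mem hv (inv_ne_zero h0)
        rw [inv_inv] at h2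
        refine VFP.inv_at_of_not_mem fun h3 => h2 ?_
        have h4 : tt k = 1 + tt k - 1 := by ring
        rw [h4]
        exact sub_mem h3 (one_mem _)
  obtain ⟨v₀, hv₀⟩ := ZCyc.exists_place (VFP.tt_transc (k := k)) (0 : k)
  obtain ⟨S, hS⟩ := exists_hh (RR_monic hD.deg t).1 (RR_monic hD.deg t).2
  obtain ⟨hB, Z, h1, h2, h3, h4⟩ := exists_fact hm hs hinj hX hmu hO hD
    ⟨v₀, (ht0 v₀ hv₀).2⟩ hS
  have hrs0 : ∀ i : Fin m, rs F.D τ t i ≠ 0 := fun i =>
    rs_ne hX hs hD ⟨v₀, (ht0 v₀ hv₀).2⟩ i.isLt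
  have hCs : ∀ i, ∏ j, (F.C i).eval (s j) ≠ 0 := fun i => prod_ne_zero_iff.2 fun j _ => by
    have h1 := (hs j).C i
    rwa [coe_aeval_eq_eval] at h1
  -- the sum of a row
  have hrs : ∀ i : Fin m, rs F.D τ t i =
      algebraMap k (Om k) (Wn F s X i / ∏ j, (F.C i).eval (s j)) *
        (∏ j, aeval (S j) (F.C i)) * (if i = i0 then η ^ F.M else 1) := by
    intro i
    have h5 := congrArg (aeval t : k[X] →ₐ[k] Om k) (hD.sum i)
    rw [map_sum, map_mul, map_mul, nm_t hS, aeval_C] at h5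
    have h6 : rs F.D τ t i = ∑ j ∈ range (F.D + 1), aeval t (τ j i) := rfl
    rw [h6, h5]
    congr 1
    split_ifs with h7
    · rw [hηt]
      simp
    · simp
  refine ⟨tt k, η, S, Z, VFP.tt_transc, hη, hB, h1, h2, fun i => ?_, fun v hv => ?_,
    fun v hv => ?_⟩
  · -- the products
    have h6 := h3 0 (Nat.zero_le _) i i.isLt
    rw [cor_zero, row0_t hD hS i, prod_inv_distrib] at h6
    have h7 : ∏ j, (1 - Z j i) ≠ 0 := prod_ne_zero_iff.2 fun j _ =>
      sub_ne_zero.2 ((h1 j).ne1 i).symm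
    have h8 : (∏ j, aeval (S j) (F.B i)) * ∏ j, (1 - Z j i) = rs F.D τ t i := by
      rw [← h6]
      field_simp
    have h9 : ∏ j, aeval (S j) (F.C i) ≠ 0 := prod_ne_zero_iff.2 fun j _ => (hB j).C i
    rw [prod_div_distrib, div_mul_eq_mul_div, h8, hrs i]
    have h10 := hp i
    have h11 : p i ^ F.M = Wn F s X i / ∏ j, (F.C i).eval (s j) := by
      rw [h10]
      unfold Wn
      rw [prod_div_distrib, dif_pos i.isLt, prod_mul_distrib, div_mul_eq_mul_div]
      simp only [coe_aeval_eq_eval]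
    rw [mul_pow, ← map_pow, h11, mul_right_comm, mul_div_cancel_right₀ _ h9]
    congr 1
    split_ifs with h12
    · rfl
    · exact one_pow _
  · exact ⟨(ht0 v hv).1, h4 v (ht0 v hv).2⟩
  · rcases htp v hv with h5 | ⟨hg, h5⟩
    · exact Or.inr (Or.inr (Or.inl h5))
    by_cases hh0 : h = 0
    swap
    · obtain ⟨j, hj⟩ := roots_pole hh0 hS h5
      exact Or.inl ⟨j, hj⟩
    refine Or.inr (Or.inr (Or.inr ?_))
    obtain ⟨j, hj, i, hi', hτ⟩ := (hD.ne.resolve_left fun h6 => h6 hh0).resolve_left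
      fun h6 => h6 hg
    -- the sums of the rows are constant
    have h6 : rs F.D τ t i ∈ v.ring := by
      have h7 : rs F.D τ t i = aeval t (∑ j ∈ range (F.D + 1), τ j i) := by
        rw [map_sum]
        rfl
      have h8 := hD.sum ⟨i, hi'⟩
      have h9 : (if (⟨i, hi'⟩ : Fin m) = i0 then 1 + C g * Polynomial.X else 1 : k[X]) = 1 := by
        rw [hg, map_zero, zero_mul, add_zero, ite_self]
      rw [hh0, nm_zero, h9, mul_one, ← C_mul] at h8
      have h10 : ∑ j ∈ range (F.D + 1), τ j i = C ((Wn F s X i /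
          ∏ j, (F.C ⟨i, hi'⟩).eval (s j)) * algebraMap k k (nm F.D (F.C ⟨i, hi'⟩) (hh s))) := h8
      rw [h7, h10, aeval_C]
      exact (Place.at_const (v := v) _).mem
    have h7 : evt τ t j i ∉ v.ring := by
      refine VFP.aeval_not_mem h5 fun h8 => ?_
      rw [h8, natDegree_C] at hτ
      exact lt_irrefl 0 hτ
    have h8 : cor Z j i ∉ v.ring := by
      intro h9
      apply h7
      rw [← h3 j hj i hi']
      exact mul_mem h9 h6
    obtain ⟨l, i', h9⟩ : ∃ l i', (1 - Z l i')⁻¹ ∉ v.ring := by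
      by_contra hcon
      push Not at hcon
      exact h8 (cor_mem (fun j => (h1 j).ne1) hcon j i)
    have h10 := VFP.inv_at_of_not_mem h9
    rw [inv_inv] at h10
    have h11 : v.At (Z l i') 1 := by
      have h12 := (at_one v).sub h10
      rwa [sub_sub_cancel, sub_zero] at h12
    have h12 : (RR s h t).eval (S l) = 0 := by
      rw [hS, hh_eval]
      exact prod_eq_zero (mem_univ l) (sub_self _)
    have h13 : ∏ j, (S l - algebraMap k (Om k) (s j)) = 0 := by
      unfold RR at h12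
      rw [hh0, Polynomial.map_zero, mul_zero, add_zero] at h12
      unfold hh at h12
      rw [Polynomial.map_prod, eval_prod] at h12
      rw [← h12]
      refine prod_congr rfl fun j _ => ?_
      simp
    obtain ⟨l', -, h14⟩ := prod_eq_zero_iff.1 h13
    refine ⟨l, i', s l', ?_, hs l', h11⟩
    rw [sub_eq_zero.1 h14]
    exact Place.at_const _

end Pool.Agent.HGF
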