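import Mathlib

/-!
# Products of difference operators of order one

Sequences `ψ : ℕ → K`, and periodic sequences `x` with period `m` with values different from `0` and
`1`. The operator `op x` maps `ψ` to the sequence `(ψ i - x i * ψ (i + 1)) / (1 - x i)`. For a tuple `X` of
`N` sequences `opr X` is the product of the operators `op (X j)`; the operator of `X 0` acts
first. `cor X j i`, `j ≤ N`, are the coefficients of the product. `QP m μ` are the sequences which are
multiplied by `μ` under the shift by `m`, `mu m x` is the product of `x` over one period; the kernel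
of `op x` is spanned by a sequence in `QP m (mu m x)⁻¹`.
-/

set_option autoImplicit false

noncomputable section

namespace Pool.Agent.HGF

open Finset

variable {K : Type*} [Field K] {m N : ℕ}

/-- sequences with period `m` -/
def Per (m : ℕ) {α : Type*} (x : ℕ → α) : Prop := ∀ i, x (i + m) = x i

/-- sequences which are multiplied by `μ` under the shift by `m` -/
def QP (m : ℕ) (μ : K) (ψ : ℕ → K) : Prop := ∀ i, ψ (i + m) = μ * ψ i

/-- the product over one period -/
def mu (m : ℕ) (x : ℕ → K) : K := ∏ i ∈ range m, x i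

/-- `x` is a sequence with period `m` and values different from `0` and `1` -/
structure Good (m : ℕ) (x : ℕ → K) : Prop where
  per : Per m x
  ne0 : ∀ i, x i ≠ 0
  ne1 : ∀ i, x i ≠ 1

/-- the operator of a sequence -/
def op (x ψ : ℕ → K) (i : ℕ) : K := (ψ i - x i * ψ (i + 1)) / (1 - x i)

/-- the product of the operators, `X 0` acts first -/
def opr : ∀ {N : ℕ}, (Fin N → ℕ → K) → (ℕ → K) → ℕ → K
  | 0, _, ψ => ψ
  | _ + 1, X, ψ => opr (fun j => X j.succ) (op (X 0) ψ)

/-- the difference operator with the coefficients `t` -/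
def ap (N : ℕ) (t : ℕ → ℕ → K) (ψ : ℕ → K) (i : ℕ) : K :=
  ∑ j ∈ range (N + 1), t j i * ψ (i + j)

/-- the coefficients of the product -/
def cor : ∀ {N : ℕ}, (Fin N → ℕ → K) → ℕ → ℕ → K
  | 0, _, 0, _ => 1
  | 0, _, _ + 1, _ => 0
  | _ + 1, X, 0, i => cor (fun j => X j.succ) 0 i / (1 - X 0 i)
  | _ + 1, X, j + 1, i => cor (fun j => X j.succ) (j + 1) i / (1 - X 0 (i + (j + 1))) -
      cor (fun j => X j.succ) j i * X 0 (i + j) / (1 - X 0 (i + j))

/-- the sequence in the kernel of `op x` -/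
def kr (x : ℕ → K) (i : ℕ) : K := (∏ l ∈ range i, x l)⁻¹

/-! ### One operator -/

lemma QP.eq_zero {μ : K} {ψ : ℕ → K} (hm : 0 < m) (h : QP m μ ψ)
    (h0 : ∀ i < m, ψ i = 0) : ψ = 0 := by
  funext n
  induction n using Nat.strong_induction_on with
  | _ n ih =>
    by_cases hn : n < m
    · exact h0 n hn
    · obtain ⟨l, rfl⟩ : ∃ l, n = l + m := ⟨n - m, by omega⟩
      rw [h l, ih l (by omega)]
      simp

lemma QP.op {x ψ : ℕ → K} {μ : K} (hx : Per m x) (h : QP m μ ψ) : QP m μ (op x ψ) := by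
  intro i
  unfold HGF.op
  have h1 : ψ (i + m + 1) = μ * ψ (i + 1) := by
    rw [add_right_comm]
    exact h (i + 1)
  rw [h i, h1, hx i, ← mul_div_assoc]
  congr 1
  ring

lemma op_one {x : ℕ → K} (hx : ∀ i, x i ≠ 1) : op x (fun _ => 1) = fun _ => 1 := by
  funext i
  unfold op
  rw [mul_one]
  exact div_self (sub_ne_zero.2 (hx i).symm)

lemma op_zero (x : ℕ → K) : op x 0 = 0 := by
  funext i
  simp [op]

/-- in the kernel of `op x` -/
lemma op_eq_zero_iff {x ψ : ℕ → K} (hx : ∀ i, x i ≠ 1) :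
    op x ψ = 0 ↔ ∀ i, ψ i = x i * ψ (i + 1) := by
  constructor
  · intro h i
    have h1 : (ψ i - x i * ψ (i + 1)) / (1 - x i) = 0 := congrFun h i
    rcases div_eq_zero_iff.1 h1 with h2 | h2
    · exact sub_eq_zero.1 h2
    · exact absurd (sub_eq_zero.1 h2).symm (hx i)
  · intro h
    funext i
    show (ψ i - x i * ψ (i + 1)) / (1 - x i) = 0
    rw [← h i, sub_self, zero_div]

lemma ker_prod {x ψ : ℕ → K} (h : ∀ i, ψ i = x i * ψ (i + 1)) (n : ℕ) :
    ψ 0 = (∏ l ∈ range n, x l) * ψ n := by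
  induction n with
  | zero => simp
  | succ n ih => rw [ih, prod_range_succ, mul_assoc, ← h n]

lemma eq_zero_of_op {x φ : ℕ → K} {μ : K} (hx : Good m x) (hφ : QP m μ φ)
    (hμ : μ * mu m x ≠ 1) (h : op x φ = 0) : φ = 0 := by
  have h1 := (op_eq_zero_iff hx.ne1).1 h
  have h0 : φ 0 = 0 := by
    have h2 := ker_prod h1 m
    have h3 := hφ 0
    rw [zero_add] at h3
    rw [h3] at h2
    have h4 : (1 - μ * mu m x) * φ 0 = 0 := by
      unfold mu
      linear_combination h2
    exact (mul_eq_zero.1 h4).resolve_left (sub_ne_zero.2 hμ.symm)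
  funext n
  have h2 := ker_prod h1 n
  rw [h0] at h2
  exact (mul_eq_zero.1 h2.symm).resolve_left (prod_ne_zero_iff.2 fun l _ => hx.ne0 l)

lemma kr_succ {x : ℕ → K} (hx : ∀ i, x i ≠ 0) (i : ℕ) : kr x i = x i * kr x (i + 1) := by
  unfold kr
  rw [prod_range_succ, mul_inv, mul_comm (∏ l ∈ range i, x l)⁻¹, ← mul_assoc,
    mul_inv_cancel₀ (hx i), one_mul]

lemma kr_ne {x : ℕ → K} (hx : ∀ i, x i ≠ 0) (i : ℕ) : kr x i ≠ 0 :=
  inv_ne_zero (prod_ne_zero_iff.2 fun l _ => hx l)

lemma op_kr {x : ℕ → K} (hx : Good m x) : op x (kr x) = 0 :=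
  (op_eq_zero_iff hx.ne1).2 (kr_succ hx.ne0)

lemma kr_ne_zero {x : ℕ → K} (hx : Good m x) : kr x ≠ 0 := fun h =>
  kr_ne hx.ne0 0 (congrFun h 0)

lemma QP.kr {x : ℕ → K} (hx : Good m x) : QP m (mu m x)⁻¹ (kr x) := by
  intro i
  unfold HGF.kr mu
  rw [add_comm i m, prod_range_add, mul_inv]
  congr 2
  refine prod_congr rfl fun l _ => ?_
  rw [add_comm]
  exact hx.per l

lemma mu_ne {x : ℕ → K} (hx : Good m x) : mu m x ≠ 0 := prod_ne_zero_iff.2 fun l _ => hx.ne0 l

/-- solutions of `op x ψ = φ` -/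
private def sol (x φ : ℕ → K) (a : K) : ℕ → K
  | 0 => a
  | i + 1 => (sol x φ a i - (1 - x i) * φ i) / x i

private lemma op_sol {x : ℕ → K} (hx : Good m x) (φ : ℕ → K) (a : K) : op x (sol x φ a) = φ := by
  funext i
  show (sol x φ a i - x i * ((sol x φ a i - (1 - x i) * φ i) / x i)) / (1 - x i) = φ i
  rw [mul_div_cancel₀ _ (hx.ne0 i), sub_sub_cancel, mul_div_cancel_left₀]
  exact sub_ne_zero.2 (hx.ne1 i).symm

private lemma sol_eq {x : ℕ → K} (hx : Good m x) (φ : ℕ → K) (a : K) (n : ℕ) :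
    (∏ l ∈ range n, x l) * sol x φ a n =
      a - ∑ i ∈ range n, (∏ l ∈ range i, x l) * ((1 - x i) * φ i) := by
  induction n with
  | zero => simp [sol]
  | succ n ih =>
    rw [prod_range_succ, sum_range_succ, ← sub_sub, ← ih]
    show (∏ l ∈ range n, x l) * x n * ((sol x φ a n - (1 - x n) * φ n) / x n) = _
    rw [mul_assoc, mul_div_cancel₀ _ (hx.ne0 n)]
    ring

lemma exists_op {x : ℕ → K} (hx : Good m x) (φ : ℕ → K) : ∃ ψ, op x ψ = φ :=
  ⟨sol x φ 0, op_sol hx φ 0⟩

lemma exists_op_QP {x φ : ℕ → K} {μ : K} (hx : Good m x) (hφ : QP m μ φ)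
    (hμ : μ * mu m x ≠ 1) : ∃ ψ, QP m μ ψ ∧ op x ψ = φ := by
  set S := ∑ i ∈ range m, (∏ l ∈ range i, x l) * ((1 - x i) * φ i) with hS
  have h1 : 1 - μ * mu m x ≠ 0 := sub_ne_zero.2 hμ.symm
  set a := S / (1 - μ * mu m x) with ha
  have haS : S = a * (1 - μ * mu m x) := by
    rw [ha, div_mul_cancel₀ _ h1]
  refine ⟨sol x φ a, fun n => ?_, op_sol hx φ a⟩
  induction n with
  | zero =>
    rw [zero_add]
    have h2 := sol_eq hx φ a m
    rw [← hS] at h2
    have h3 : mu m x * sol x φ a m = mu m x * (μ * sol x φ a 0) := by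
      show (∏ l ∈ range m, x l) * sol x φ a m = mu m x * (μ * a)
      rw [h2, haS]
      ring
    exact mul_left_cancel₀ (mu_ne hx) h3
  | succ n ih =>
    rw [add_right_comm]
    show (sol x φ a (n + m) - (1 - x (n + m)) * φ (n + m)) / x (n + m) =
      μ * ((sol x φ a n - (1 - x n) * φ n) / x n)
    rw [ih, hx.per n, hφ n, ← mul_div_assoc]
    congr 1
    ring

/-! ### Products -/

lemma opr_zero (X : Fin N → ℕ → K) : opr X 0 = 0 := by
  induction N with
  | zero => rfl
  | succ N ih =>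
    show opr (fun j => X j.succ) (op (X 0) 0) = 0
    rw [op_zero, ih]

lemma QP.opr {X : Fin N → ℕ → K} {ψ : ℕ → K} {μ : K} (hX : ∀ j, Per m (X j))
    (h : QP m μ ψ) : QP m μ (opr X ψ) := by
  induction N generalizing ψ with
  | zero => exact h
  | succ N ih => exact ih (fun j => hX j.succ) (h.op (hX 0))

lemma opr_one {X : Fin N → ℕ → K} (hX : ∀ j i, X j i ≠ 1) : opr X (fun _ => 1) = fun _ => 1 := by
  induction N with
  | zero => rfl
  | succ N ih =>
    show HGF.opr (fun j => X j.succ) (op (X 0) fun _ => 1) = _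
    rw [op_one (hX 0), ih fun j => hX j.succ]

lemma eq_zero_of_opr {X : Fin N → ℕ → K} {φ : ℕ → K} {μ : K} (hX : ∀ j, Good m (X j))
    (hφ : QP m μ φ) (hμ : ∀ j, μ * mu m (X j) ≠ 1) (h : opr X φ = 0) : φ = 0 := by
  induction N generalizing φ with
  | zero => exact h
  | succ N ih =>
    have h1 := ih (fun j => hX j.succ) (hφ.op (hX 0).per) (fun j => hμ j.succ) h
    exact eq_zero_of_op (hX 0) hφ (hμ 0) h1

/-- the factors are determined by the product and by their (different) multipliers -/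
theorem opr_inj {X X' : Fin N → ℕ → K} (hX : ∀ j, Good m (X j)) (hX' : ∀ j, Good m (X' j))
    (hmu : ∀ j, mu m (X j) = mu m (X' j)) (hinj : Function.Injective fun j => mu m (X j))
    (h : opr X = opr X') : X = X' := by
  induction N with
  | zero =>
    funext j
    exact j.elim0
  | succ N ih =>
    have h1 : op (X' 0) (kr (X 0)) = 0 := by
      refine eq_zero_of_opr (m := m) (X := fun j => X' j.succ) (μ := (mu m (X 0))⁻¹)
        (fun j => hX' j.succ) ((QP.kr (hX 0)).op (hX' 0).per) (fun j hj => ?_) ?_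
      · have h2 : mu m (X' j.succ) = mu m (X 0) := by
          field_simp [mu_ne (hX 0)] at hj
          exact hj
        rw [← hmu] at h2
        exact (Fin.succ_ne_zero j) (hinj h2)
      · have h2 : opr X' (kr (X 0)) = 0 := by
          rw [← h]
          show opr (fun j => X j.succ) (op (X 0) (kr (X 0))) = 0
          rw [op_kr (hX 0), opr_zero]
        exact h2
    have h0 : X 0 = X' 0 := by
      funext i
      have h2 := (op_eq_zero_iff (hX' 0).ne1).1 h1 i
      have h3 := kr_succ (hX 0).ne0 i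
      rw [h3] at h2
      exact mul_right_cancel₀ (kr_ne (hX 0).ne0 (i + 1)) h2
    have h2 : (fun j : Fin N => X j.succ) = fun j => X' j.succ := by
      refine ih (fun j => hX j.succ) (fun j => hX' j.succ) (fun j => hmu j.succ)
        (fun i j hij => Fin.succ_injective _ (hinj hij)) ?_
      funext φ
      obtain ⟨ψ, hψ⟩ := exists_op (hX 0) φ
      have h3 : opr (fun j => X j.succ) (op (X 0) ψ) = opr (fun j => X' j.succ) (op (X' 0) ψ) :=
        congrFun h ψ
      rw [← h0, hψ] at h3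
      exact h3
    funext j
    refine Fin.cases h0 (fun j => ?_) j
    exact congrFun h2 j

/-- kernel vectors for all multipliers -/
theorem exists_ker {X : Fin N → ℕ → K} (hX : ∀ j, Good m (X j))
    (hinj : Function.Injective fun j => mu m (X j)) (k : Fin N) :
    ∃ ψ, ψ ≠ 0 ∧ QP m (mu m (X k))⁻¹ ψ ∧ opr X ψ = 0 := by
  induction N with
  | zero => exact k.elim0
  | succ N ih =>
    refine Fin.cases ?_ (fun k => ?_) k
    · refine ⟨kr (X 0), kr_ne_zero (hX 0), QP.kr (hX 0), ?_⟩
      show opr (fun j => X j.succ) (op (X 0) (kr (X 0))) = 0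
      rw [op_kr (hX 0), opr_zero]
    · obtain ⟨φ, h1, h2, h3⟩ := ih (fun j => hX j.succ)
        (fun i j hij => Fin.succ_injective _ (hinj hij)) k
      obtain ⟨ψ, h4, h5⟩ := exists_op_QP (hX 0) h2 (fun h => by
        have h6 : mu m (X 0) = mu m (X k.succ) := by
          field_simp [mu_ne (hX k.succ)] at h
          exact h
        exact (Fin.succ_ne_zero k) (hinj h6).symm)
      refine ⟨ψ, fun h => h1 ?_, h4, ?_⟩
      · rw [← h5, h, op_zero]
      · show opr (fun j => X j.succ) (op (X 0) ψ) = 0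
        rw [h5, h3]

/-- exchange of two neighbouring factors -/
theorem opr_congr_pair {X X' : Fin N → ℕ → K} {j j' : Fin N} (hj : (j' : ℕ) = j + 1)
    (h : ∀ l, l ≠ j → l ≠ j' → X' l = X l)
    (hp : ∀ ψ, op (X' j') (op (X' j) ψ) = op (X j') (op (X j) ψ)) : opr X' = opr X := by
  induction N with
  | zero => exact j.elim0
  | succ N ih =>
    funext ψ
    show opr (fun j => X' j.succ) (op (X' 0) ψ) = opr (fun j => X j.succ) (op (X 0) ψ)
    by_cases h0 : j = 0
    · subst h0
      rw [Fin.val_zero, zero_add] at hj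
      have hN : 1 ≤ N := by
        have := j'.isLt
        omega
      obtain ⟨M, rfl⟩ : ∃ M, N = M + 1 := ⟨N - 1, by omega⟩
      have hj1 : j' = Fin.succ 0 := Fin.ext (by rw [hj]; rfl)
      subst hj1
      show opr (fun l : Fin M => X' l.succ.succ) (op (X' (Fin.succ 0)) (op (X' 0) ψ)) =
        opr (fun l : Fin M => X l.succ.succ) (op (X (Fin.succ 0)) (op (X 0) ψ))
      rw [hp]
      congr 2
      funext l
      refine h _ (Fin.succ_ne_zero _) fun h1 => ?_
      exact Fin.succ_ne_zero _ (Fin.succ_injective _ h1)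
    · obtain ⟨i, rfl⟩ := Fin.exists_succ_eq.2 h0
      have h0' : j' ≠ 0 := by
        intro h1
        rw [h1] at hj
        simp at hj
      obtain ⟨i', rfl⟩ := Fin.exists_succ_eq.2 h0'
      have h1 := ih (X := fun l => X l.succ) (X' := fun l => X' l.succ) (j := i) (j' := i')
        (by simpa using hj) (fun l hl hl' => h _ (fun h2 => hl (Fin.succ_injective _ h2))
          fun h2 => hl' (Fin.succ_injective _ h2)) hp
      rw [h1, h 0 (Ne.symm h0) (Ne.symm h0')]

/-! ### Coefficients -/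

lemma cor_of_lt (X : Fin N → ℕ → K) {j : ℕ} (hj : N < j) (i : ℕ) : cor X j i = 0 := by
  induction N generalizing j with
  | zero =>
    obtain ⟨j, rfl⟩ : ∃ l, j = l + 1 := ⟨j - 1, by omega⟩
    rfl
  | succ N ih =>
    obtain ⟨j, rfl⟩ : ∃ l, j = l + 1 := ⟨j - 1, by omega⟩
    show cor (fun j => X j.succ) (j + 1) i / _ - cor (fun j => X j.succ) j i * _ / _ = 0
    rw [ih _ (by omega), ih _ (by omega)]
    simp

theorem opr_eq (X : Fin N → ℕ → K) (ψ : ℕ → K) (i : ℕ) : opr X ψ i = ap N (cor X) ψ i := by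
  induction N generalizing ψ with
  | zero => simp [opr, ap, cor]
  | succ N ih =>
    show opr (fun j => X j.succ) (op (X 0) ψ) i = _
    rw [ih]
    unfold ap
    have h1 : ∀ j, cor (fun j => X j.succ) j i * op (X 0) ψ (i + j) =
        cor (fun j => X j.succ) j i / (1 - X 0 (i + j)) * ψ (i + j) -
        cor (fun j => X j.succ) j i * X 0 (i + j) / (1 - X 0 (i + j)) * ψ (i + (j + 1)) := by
      intro j
      unfold op
      rw [← add_assoc]
      ring
    rw [sum_congr rfl fun j _ => h1 j, sum_sub_distrib]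
    rw [sum_range_succ' (fun j => cor X j i * ψ (i + j))]
    have h2 : ∀ j, cor X (j + 1) i * ψ (i + (j + 1)) =
        cor (fun j => X j.succ) (j + 1) i / (1 - X 0 (i + (j + 1))) * ψ (i + (j + 1)) -
        cor (fun j => X j.succ) j i * X 0 (i + j) / (1 - X 0 (i + j)) * ψ (i + (j + 1)) :=
      fun j => sub_mul _ _ _
    rw [sum_congr rfl fun j _ => h2 j, sum_sub_distrib]
    have h3 : ∑ j ∈ range (N + 1), cor (fun j => X j.succ) (j + 1) i /
          (1 - X 0 (i + (j + 1))) * ψ (i + (j + 1)) =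
        ∑ j ∈ range (N + 1), cor (fun j => X j.succ) j i / (1 - X 0 (i + j)) * ψ (i + j) -
          cor (fun j => X j.succ) 0 i / (1 - X 0 (i + 0)) * ψ (i + 0) := by
      rw [sum_range_succ, cor_of_lt _ (Nat.lt_succ_self N),
        sum_range_succ' (fun j => cor (fun j => X j.succ) j i / (1 - X 0 (i + j)) * ψ (i + j))]
      simp
    rw [h3]
    have h4 : cor X 0 i = cor (fun j => X j.succ) 0 i / (1 - X 0 (i + 0)) := rfl
    rw [h4]
    ring

lemma ap_single (t : ℕ → ℕ → K) {j : ℕ} (hj : j ≤ N) (i : ℕ) :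
    ap N t (fun n => if n = i + j then 1 else 0) i = t j i := by
  unfold ap
  rw [sum_eq_single j]
  · simp
  · intro l _ hl
    show t l i * (if i + l = i + j then 1 else 0) = 0
    rw [if_neg (fun h => hl (by omega)), mul_zero]
  · intro h
    exact absurd (mem_range.2 (by omega)) h

lemma ap_inj {t t' : ℕ → ℕ → K} (h : ∀ ψ, ap N t ψ = ap N t' ψ) {j : ℕ} (hj : j ≤ N) (i : ℕ) :
    t j i = t' j i := by
  rw [← ap_single t hj i, h, ap_single t' hj i]

lemma ap_congr {t t' : ℕ → ℕ → K} (h : ∀ j ≤ N, ∀ i, t j i = t' j i) (ψ : ℕ → K) :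
    ap N t ψ = ap N t' ψ := by
  funext i
  exact sum_congr rfl fun j hj => by rw [h j (by have := mem_range.1 hj; omega)]

lemma cor_zero (X : Fin N → ℕ → K) (i : ℕ) : cor X 0 i = ∏ j, (1 - X j i)⁻¹ := by
  induction N with
  | zero => simp [cor]
  | succ N ih =>
    show cor (fun j => X j.succ) 0 i / (1 - X 0 i) = _
    rw [ih, Fin.prod_univ_succ, div_eq_mul_inv, mul_comm]

lemma cor_per {X : Fin N → ℕ → K} (hX : ∀ j, Per m (X j)) (j : ℕ) : Per m (cor X j) := by
  induction N generalizing j with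
  | zero =>
    intro i
    cases j <;> rfl
  | succ N ih =>
    intro i
    have hX' : ∀ j : Fin N, Per m (X j.succ) := fun j => hX j.succ
    cases j with
    | zero =>
      show cor (fun j => X j.succ) 0 (i + m) / (1 - X 0 (i + m)) =
        cor (fun j => X j.succ) 0 i / (1 - X 0 i)
      rw [ih hX' 0 i, hX 0 i]
    | succ j =>
      show cor (fun j => X j.succ) (j + 1) (i + m) / (1 - X 0 (i + m + (j + 1))) -
          cor (fun j => X j.succ) j (i + m) * X 0 (i + m + j) / (1 - X 0 (i + m + j)) =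
        cor (fun j => X j.succ) (j + 1) i / (1 - X 0 (i + (j + 1))) -
          cor (fun j => X j.succ) j i * X 0 (i + j) / (1 - X 0 (i + j))
      rw [ih hX' (j + 1) i, ih hX' j i, show i + m + (j + 1) = i + (j + 1) + m by ring,
        show i + m + j = i + j + m by ring, hX 0 (i + (j + 1)), hX 0 (i + j)]

lemma cor_sum {X : Fin N → ℕ → K} (hX : ∀ j i, X j i ≠ 1) (i : ℕ) :
    ∑ j ∈ range (N + 1), cor X j i = 1 := by
  have h1 := congrFun (opr_one hX) i
  rw [opr_eq] at h1
  simpa [ap] using h1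

/-! ### Division -/

/-- the coefficients of the quotient by `op x` -/
def dv (t : ℕ → ℕ → K) (x : ℕ → K) : ℕ → ℕ → K
  | 0, i => t 0 i * (1 - x i)
  | j + 1, i => (1 - x (i + (j + 1))) * (t (j + 1) i + dv t x j i * x (i + j) / (1 - x (i + j)))

lemma dv_per {t : ℕ → ℕ → K} {x : ℕ → K} (ht : ∀ j, Per m (t j)) (hx : Per m x) (j : ℕ) :
    Per m (dv t x j) := by
  induction j with
  | zero =>
    intro i
    show t 0 (i + m) * (1 - x (i + m)) = t 0 i * (1 - x i)
    rw [ht 0 i, hx i]
  | succ j ih =>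
    intro i
    show (1 - x (i + m + (j + 1))) * (t (j + 1) (i + m) + dv t x j (i + m) * x (i + m + j) /
      (1 - x (i + m + j))) = (1 - x (i + (j + 1))) * (t (j + 1) i + dv t x j i * x (i + j) /
      (1 - x (i + j)))
    rw [ih i, ht (j + 1) i, show i + m + (j + 1) = i + (j + 1) + m by ring,
      show i + m + j = i + j + m by ring, hx (i + (j + 1)), hx (i + j)]

private lemma dv_op {t : ℕ → ℕ → K} {x : ℕ → K} (hx : ∀ i, x i ≠ 1) (φ : ℕ → K) (i : ℕ) :
    ap N (dv t x) (op x φ) i = ap N t φ i -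
      dv t x N i * x (i + N) / (1 - x (i + N)) * φ (i + (N + 1)) := by
  have hx1 : ∀ i, 1 - x i ≠ 0 := fun i => sub_ne_zero.2 (hx i).symm
  unfold ap
  induction N with
  | zero =>
    simp only [zero_add, sum_range_one, add_zero, op]
    show t 0 i * (1 - x i) * ((φ i - x i * φ (i + 1)) / (1 - x i)) = t 0 i * φ i -
      t 0 i * (1 - x i) * x i / (1 - x i) * φ (i + 1)
    have := hx1 i
    field_simp
  | succ N ih =>
    rw [sum_range_succ, ih, sum_range_succ _ (N + 1)]
    have h1 : dv t x (N + 1) i = (1 - x (i + (N + 1))) * (t (N + 1) i + dv t x N i * x (i + N) /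
      (1 - x (i + N))) := rfl
    rw [h1]
    unfold op
    have h2 := hx1 (i + (N + 1))
    have h3 := hx1 (i + N)
    rw [show i + (N + 1) + 1 = i + (N + 1 + 1) by ring]
    field_simp
    ring

/-- division by `op x` -/
theorem ap_dv {t : ℕ → ℕ → K} {x ψ : ℕ → K} (hx : ∀ i, x i ≠ 1) (hψ : ∀ i, ψ i ≠ 0)
    (h : ∀ i, ψ i = x i * ψ (i + 1)) (h0 : ap (N + 1) t ψ = 0) (φ : ℕ → K) :
    ap (N + 1) t φ = ap N (dv t x) (op x φ) := by
  have h1 : ∀ (φ : ℕ → K) (i : ℕ), ap (N + 1) t φ i - ap N (dv t x) (op x φ) i =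
      (t (N + 1) i + dv t x N i * x (i + N) / (1 - x (i + N))) * φ (i + (N + 1)) := by
    intro φ i
    rw [dv_op hx]
    unfold ap
    rw [sum_range_succ]
    ring
  funext i
  have h2 := h1 ψ i
  rw [(op_eq_zero_iff hx).2 h, h0] at h2
  have h3 : ap N (dv t x) 0 i = 0 := by simp [ap]
  rw [h3, Pi.zero_apply, sub_zero] at h2
  have h4 := (mul_eq_zero.1 h2.symm).resolve_right (hψ _)
  have h5 := h1 φ i
  rw [h4, zero_mul] at h5
  exact sub_eq_zero.1 h5

end Pool.Agent.HGF
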