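import Pool.Agent.HYG.CVal
import Pool.Agent.HGF.Seq

/-!
# Zero-cycles on the hypersurfaces `∏ (B_i(s) - C_i(s) u_i ^ M) = A(s)`: definitions

`k` is an algebraically closed field of characteristic zero. A point of the projective line over a field
`K` is an element of `Option K` (`none` is the point at infinity). The hypersurface `Y` lies in the
product of the projective line with the coordinate `s` and of `m` projective lines with the coordinates
`u_i`. The polynomials `B_i`, `C_i` stand for forms of degree `d_i`, the polynomial `A` stands for a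
form of degree `∑ d_i`.

1. `OnY F s u`: the point `(s, u)` lies on the hypersurface.
2. `vlo v x`: the value of a point `x` of the projective line over `K` at a place `v` of `K`.
3. Class functions `E s u` of `N` points `(s_j, u_j)` of `Y` (`IsCF`), which are eigenfunctions for the
multiplication of the coordinates `u_i` by roots of unity (`IsEig`).
-/

set_option autoImplicit false

noncomputable section

namespace Pool.Agent.HGF

open Polynomial Pool.Agent.ZCyc Pool.Agent.Dess Pool.Agent.GT Pool.Agent.TInc
open Pool.Agent.HYG (vl)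
open scoped Classical

variable {k : Type} [Field k] {m : ℕ}

/-- the data of a hypersurface `∏ (B_i(s) - C_i(s) u_i ^ M) = A(s)` of degree `(∑ d_i, M, ..., M)` -/
structure Fam (k : Type) [Field k] (m : ℕ) where
  /-- the forms `B_i` -/
  B : Fin m → k[X]
  /-- the forms `C_i` -/
  C : Fin m → k[X]
  /-- the form `A` -/
  A : k[X]
  /-- the degrees of `B_i` and `C_i` -/
  d : Fin m → ℕ
  /-- the exponent -/
  M : ℕ

/-- the degree of the form `A` -/
def Fam.D (F : Fam k m) : ℕ := ∑ i, F.d i

/-- the assumptions: there are at least two coordinates `u_i`, the degrees are as required, all forms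
are different from zero and `A` is not a multiple of `∏ B_i` -/
structure Fam.Adm (F : Fam k m) : Prop where
  two : 2 ≤ m
  M0 : 0 < F.M
  degB : ∀ i, (F.B i).natDegree ≤ F.d i
  degC : ∀ i, (F.C i).natDegree ≤ F.d i
  degA : F.A.natDegree ≤ F.D
  B0 : ∀ i, F.B i ≠ 0
  C0 : ∀ i, F.C i ≠ 0
  A0 : F.A ≠ 0
  indep : ∀ c : k, F.A ≠ Polynomial.C c * ∏ i, F.B i

/-- the first homogeneous coordinate of the point `x` of the projective line -/
def fst {K : Type} [Field K] (x : Option K) : K := x.getD 1

/-- the second homogeneous coordinate of the point `x` of the projective line -/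
def snd {K : Type} [Field K] (x : Option K) : K := if x = none then 0 else 1

/-- the value of the form of degree `d` with the coefficients of `P` at the point `s` -/
def form (d : ℕ) (P : k[X]) {K : Type} [Field K] [Algebra k K] (s : Option K) : K :=
  ∑ j ∈ Finset.range (d + 1), algebraMap k K (P.coeff j) * (fst s ^ j * snd s ^ (d - j))

/-- the points of the hypersurface over an extension field -/
def OnY (F : Fam k m) {K : Type} [Field K] [Algebra k K] (s : Option K) (u : Fin m → Option K) :
    Prop :=
  ∏ i, (form (F.d i) (F.B i) s * snd (u i) ^ F.M - form (F.d i) (F.C i) s * fst (u i) ^ F.M) =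
    form F.D F.A s * ∏ i, snd (u i) ^ F.M

/-- the value at the place `v` of a point of the projective line over `K` -/
def vlo {K : Type} [Field K] [Algebra k K] (v : Place k K) (x : Option K) : Option k :=
  x.bind (vl v)

/-- `E` is a class function of `N` points of the hypersurface -/
def IsCF [IsAlgClosed k] [CharZero k] (F : Fam k m) {N : ℕ} {W : Type} [AddCommGroup W]
    (E : (Fin N → Option k) → (Fin N → Fin m → Option k) → W) : Prop :=
  ∀ (K : Type) [Field K] [Algebra k K] (hK : IsCurve k K) (s : Fin N → Option K)
    (u : Fin N → Fin m → Option K) (f : K), f ≠ 0 → (∀ j, OnY F (s j) (u j)) →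
    ((TInc.dv hK f).sum fun v a => a • E (fun j => vlo v (s j)) (fun j i => vlo v (u j i))) = 0

/-- the coordinate `u_i` of the point with the number `j` is multiplied by `ζ` -/
def rot {N : ℕ} (j : Fin N) (i : Fin m) (ζ : k) (u : Fin N → Fin m → Option k) :
    Fin N → Fin m → Option k :=
  Function.update u j (Function.update (u j) i ((u j i).map fun w => ζ * w))

/-- `E` is an eigenfunction: the factor is `ζ ^ b_i` if a coordinate `u_i` is multiplied by `ζ` -/
def IsEig (M : ℕ) (b : Fin m → ℕ) {N : ℕ} {W : Type} [AddCommGroup W] [Module k W]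
    (E : (Fin N → Option k) → (Fin N → Fin m → Option k) → W) : Prop :=
  ∀ s u j i (ζ : k), ζ ^ M = 1 → E s (rot j i ζ u) = ζ ^ b i • E s u

/-- The alternating sum (`m` even) or the symmetric sum (`m` odd) over the permutations of the
points. -/
def AE {N : ℕ} {W : Type} [AddCommGroup W]
    (E : (Fin N → Option k) → (Fin N → Fin m → Option k) → W) (s : Fin N → Option k)
    (u : Fin N → Fin m → Option k) : W :=
  ∑ π : Equiv.Perm (Fin N), ((Equiv.Perm.sign π : ℤ) ^ (m + 1)) •
    E (fun j => s (π j)) fun j => u (π j)

/-- **Vanishing theorem** for `N = ∑ d_i` points: this is what sections 1-6 and 8 prove. -/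
def Vanish [IsAlgClosed k] [CharZero k] (F : Fam k m) : Prop :=
  ∀ (W : Type) [AddCommGroup W] [Module k W] (b : Fin m → ℕ)
    (E : (Fin F.D → Option k) → (Fin F.D → Fin m → Option k) → W),
    (∀ i, 0 < b i ∧ b i < F.M) → IsCF F E → IsEig F.M b E →
    ∀ s u, (∀ j, OnY F (s j) (u j)) → AE E s u = 0

/-! ### Interior points -/

/-- the interior points of `Y`: the `B_i(s)`, `C_i(s)`, `A(s)` and the `u_i` are finite and different
from zero -/
structure Int (F : Fam k m) {K : Type} [Field K] [Algebra k K] (s : K) (w : Fin m → K) : Prop where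
  onY : ∏ i, (aeval s (F.B i) - aeval s (F.C i) * w i ^ F.M) = aeval s F.A
  B : ∀ i, aeval s (F.B i) ≠ 0
  C : ∀ i, aeval s (F.C i) ≠ 0
  A : aeval s F.A ≠ 0
  w : ∀ i, w i ≠ 0

/-- the coordinates `x_i = 1 - C_i(s) u_i ^ M / B_i(s)` -/
def xx (F : Fam k m) {K : Type} [Field K] [Algebra k K] (s : K) (w : Fin m → K) (i : Fin m) : K :=
  1 - aeval s (F.C i) * w i ^ F.M / aeval s (F.B i)

/-- the parameter `A(s) / ∏ B_i(s)` -/
def lam (F : Fam k m) {K : Type} [Field K] [Algebra k K] (s : K) : K :=
  aeval s F.A / ∏ i, aeval s (F.B i)

/-- the periodic sequence with the values of `x` -/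
def per {α : Type} (x : Fin m → α) (hm : 0 < m) (i : ℕ) : α := x ⟨i % m, Nat.mod_lt i hm⟩

end Pool.Agent.HGF
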