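import Pool.Agent.HGF.Mov
import Pool.Agent.HGF.Eig

/-!
# Project HGF: independence of a point

Let the class function `E` be invariant under the rotations of the coordinate `u_i` of the point
`j`. Then `E s u` does not depend on the point `j` of `Y`: notation `e(q)`, `q = (s_j, u_j)`, the
other points are fixed (constant points over `Om k`, `onY_const`).

**`ind_coord`: `q` and `q'` differ only in the coordinate `u_i`.** The equation of `Y` is
`α * snd (u_i) ^ M = β * fst (u_i) ^ M` with `β = C_i(s) g`,
`α = B_i(s) g - A(s) ∏_{l ≠ i} snd (u_l) ^ M`,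
`g = ∏_{l ≠ i} (B_l(s) snd (u_l) ^ M - C_l(s) fst (u_l) ^ M)` (values of the forms; `α`, `β` do not
depend on `u_i`).
(a) `(α, β) ≠ (0, 0)`. If `β = 0` then `snd (u_i) = 0`, for both points: `u_i = none`, `q = q'`.
If `β ≠ 0` then `snd (u_i) ≠ 0` for both points, the coordinates are `some w`, `some w'` with
`w ^ M = w' ^ M = α / β`, so `w' = ζ w` with `ζ ^ M = 1` (if `w = 0` then `w' = 0`), and
`e(q) = e(q')` by the invariance.
(b) `α = β = 0`: all values of `u_i` are allowed. The point over `Om k` with `u_i = some (tt k)`,
all other coordinates constant, lies on `Y`; the values above `t = c` have `u_i = some c`. So `e`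
has the same value for all finite `u_i` (`bridge`). For `u_i = none` compare with the point with
`u_i = some ((tt k)⁻¹)`: the values above `t = 0` have `u_i = none`, above `t = 1` they have
`u_i = some 1`.

**`ind_path`: `q'` has finite coordinates `s' = some σ`, `u'_l = some w_l`, and `C_l(σ) ≠ 0` for
all `l`, `A(σ) ≠ 0`** (so all factors `B_l(σ) - C_l(σ) w_l ^ M` are different from zero). `q` is
arbitrary. For a point `x : Option k` and `c : k` let `x(t) = (1 - t) a + t c` if `x = some a` and
`x(t) = c + (1 - t) / t` if `x = none`, in `Om k`, `t = tt k`. Its value at a place above `t = 0`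
is `x`, its value above `t = 1` is `some c`. Let `s(t)`, `u_l(t)` (`l ≠ i`) be the paths from the
coordinates of `q` to those of `q'`, `f_l = B_l(s(t)) - C_l(s(t)) u_l(t) ^ M`. The elements
`C_i(s(t))`, `f_l` (`l ≠ i`) of `Om k` are not zero, because their values at a place above `t = 1`
are not zero (places above `t = 1` exist). Let `u_i(t)` be an `M`-th root of
`(B_i(s(t)) - A(s(t)) / ∏_{l ≠ i} f_l) / C_i(s(t))`. This is a point of `Y` over `Om k`
(`onY_some`). At every place above `t = 0` its value is a point of `Y` (`onY_vlo`) which differs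
from `q` only in the coordinate `u_i`, so `e = e(q)` by `ind_coord`; above `t = 1` similarly
`e = e(q')`. `bridge`.

**`ind`**: there is a point `q'` as in `ind_path`: choose `σ` with `A(σ) ≠ 0`, `C_l(σ) ≠ 0` for all
`l` (finitely many roots), `w_l` for `l ≠ i` with `B_l(σ) - C_l(σ) w_l ^ M ≠ 0`, and `w_i` an
`M`-th root of `(B_i(σ) - A(σ) / ∏ ..) / C_i(σ)`. Then `e(q) = e(q') = e(q'')`.
-/

set_option autoImplicit false

noncomputable section

namespace Pool.Agent.HGF

open Polynomial Pool.Agent.ZCyc Pool.Agent.Dess Pool.Agent.GT Pool.Agent.TInc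
open Pool.Agent.VFP (Om tt)
open scoped Classical

variable {k : Type} [Field k] [IsAlgClosed k] [CharZero k] {m : ℕ} {F : Fam k m} {N : ℕ} {W : Type}
  [AddCommGroup W] [Module k W] {E : (Fin N → Option k) → (Fin N → Fin m → Option k) → W}

/-! ### The equation for one coordinate -/

private def gg_Ind (F : Fam k m) {K : Type} [Field K] [Algebra k K] (i : Fin m) (s : Option K)
    (u : Fin m → Option K) : K :=
  ∏ l ∈ Finset.univ.erase i, (form (F.d l) (F.B l) s * snd (u l) ^ F.M -
    form (F.d l) (F.C l) s * fst (u l) ^ F.M)

private def al_Ind (F : Fam k m) {K : Type} [Field K] [Algebra k K] (i : Fin m) (s : Option K)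
    (u : Fin m → Option K) : K :=
  form (F.d i) (F.B i) s * gg_Ind F i s u -
    form F.D F.A s * ∏ l ∈ Finset.univ.erase i, snd (u l) ^ F.M

private def be_Ind (F : Fam k m) {K : Type} [Field K] [Algebra k K] (i : Fin m) (s : Option K)
    (u : Fin m → Option K) : K :=
  form (F.d i) (F.C i) s * gg_Ind F i s u

omit [IsAlgClosed k] [CharZero k] in
private lemma onY_upd_Ind {K : Type} [Field K] [Algebra k K] (i : Fin m) (s : Option K)
    (u : Fin m → Option K) (y : Option K) : OnY F s (Function.update u i y) ↔
      al_Ind F i s u * snd y ^ F.M = be_Ind F i s u * fst y ^ F.M := by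
  have h1 : ∏ l ∈ Finset.univ.erase i, (form (F.d l) (F.B l) s *
      snd (Function.update u i y l) ^ F.M - form (F.d l) (F.C l) s *
      fst (Function.update u i y l) ^ F.M) = gg_Ind F i s u :=
    Finset.prod_congr rfl fun l hl => by
      rw [Function.update_of_ne (Finset.ne_of_mem_erase hl)]
  have h2 : ∏ l ∈ Finset.univ.erase i, snd (Function.update u i y l) ^ F.M =
      ∏ l ∈ Finset.univ.erase i, snd (u l) ^ F.M :=
    Finset.prod_congr rfl fun l hl => by
      rw [Function.update_of_ne (Finset.ne_of_mem_erase hl)]
  unfold OnY al_Ind be_Ind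
  rw [← Finset.mul_prod_erase Finset.univ _ (Finset.mem_univ i),
    ← Finset.mul_prod_erase Finset.univ (fun l => snd (Function.update u i y l) ^ F.M)
      (Finset.mem_univ i), h1, h2, Function.update_self]
  constructor <;> intro h <;> linear_combination h

omit [IsAlgClosed k] [CharZero k] in
private lemma form_om_Ind (d : ℕ) (P : k[X]) (s : Option k) :
    form d P (s.map (algebraMap k (Om k))) = algebraMap k (Om k) (form d P s) :=
  form_map (Algebra.ofId k (Om k)) d P s

omit [IsAlgClosed k] [CharZero k] in
private lemma fst_om_Ind (x : Option k) :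
    fst (x.map (algebraMap k (Om k))) = algebraMap k (Om k) (fst x) :=
  fst_map (Algebra.ofId k (Om k)) x

omit [IsAlgClosed k] [CharZero k] in
private lemma snd_om_Ind (x : Option k) :
    snd (x.map (algebraMap k (Om k))) = algebraMap k (Om k) (snd x) :=
  snd_map (Algebra.ofId k (Om k)) x

omit [IsAlgClosed k] [CharZero k] in
private lemma al_om_Ind (i : Fin m) (s : Option k) (u : Fin m → Option k) :
    al_Ind F i (s.map (algebraMap k (Om k))) (fun l => (u l).map (algebraMap k (Om k))) =
      algebraMap k (Om k) (al_Ind F i s u) := by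
  unfold al_Ind gg_Ind
  simp only [form_om_Ind, fst_om_Ind, snd_om_Ind, map_sub, map_mul, map_prod, map_pow]

omit [IsAlgClosed k] [CharZero k] in
private lemma be_om_Ind (i : Fin m) (s : Option k) (u : Fin m → Option k) :
    be_Ind F i (s.map (algebraMap k (Om k))) (fun l => (u l).map (algebraMap k (Om k))) =
      algebraMap k (Om k) (be_Ind F i s u) := by
  unfold be_Ind gg_Ind
  simp only [form_om_Ind, fst_om_Ind, snd_om_Ind, map_sub, map_mul, map_prod, map_pow]

/-! ### Paths -/

/-- comparison of two values of a path in `Y`, the other points are constant -/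
private lemma path_Ind (hE : IsCF F E) {s : Fin N → Option k} {u : Fin N → Fin m → Option k}
    (h : ∀ l, OnY F (s l) (u l)) (j : Fin N) {S : Option (Om k)} {U : Fin m → Option (Om k)}
    (hSU : OnY F S U) {c₀ c₁ : k} {C₀ C₁ : W}
    (h₀ : ∀ v : Place k (Om k), v.At (tt k) c₀ →
      E (Function.update s j (vlo v S)) (Function.update u j fun i => vlo v (U i)) = C₀)
    (h₁ : ∀ v : Place k (Om k), v.At (tt k) c₁ →
      E (Function.update s j (vlo v S)) (Function.update u j fun i => vlo v (U i)) = C₁) :
    C₀ = C₁ := by
  have key : ∀ v : Place k (Om k),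
      E (fun l => vlo v (Function.update (fun l => (s l).map (algebraMap k (Om k))) j S l))
        (fun l i => vlo v (Function.update
          (fun l i => (u l i).map (algebraMap k (Om k))) j U l i)) =
      E (Function.update s j (vlo v S)) (Function.update u j fun i => vlo v (U i)) := by
    intro v
    congr 1
    · funext l
      by_cases hl : l = j
      · subst hl
        rw [Function.update_self, Function.update_self]
      · rw [Function.update_of_ne hl, Function.update_of_ne hl]
        exact vlo_const v _
    · funext l i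
      by_cases hl : l = j
      · subst hl
        rw [Function.update_self, Function.update_self]
      · rw [Function.update_of_ne hl, Function.update_of_ne hl]
        exact vlo_const v _
  refine bridge hE (s := Function.update (fun l => (s l).map (algebraMap k (Om k))) j S)
    (u := Function.update (fun l i => (u l i).map (algebraMap k (Om k))) j U)
    (c₀ := c₀) (c₁ := c₁) ?_ (fun v hv => ?_) (fun v hv => ?_)
  · intro l
    by_cases hl : l = j
    · subst hl
      rw [Function.update_self, Function.update_self]
      exact hSU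
    · rw [Function.update_of_ne hl, Function.update_of_ne hl]
      exact (onY_const (s l) (u l)).2 (h l)
  · rw [key]
    exact h₀ v hv
  · rw [key]
    exact h₁ v hv

omit [IsAlgClosed k] [CharZero k] in
private lemma one_at_Ind (v : Place k (Om k)) : v.At (1 : Om k) (1 : k) := by
  have h1 := Place.at_const (v := v) (1 : k)
  rwa [map_one] at h1

private lemma tt_ne_Ind : tt k ≠ 0 := by
  intro h0
  obtain ⟨v', hv'⟩ := HYG.exists_place_tt (k := k) 1
  rw [h0] at hv'
  have h1 : v'.At (0 : Om k) 0 := Place.at_zero_iff.2 v'.vanishes_zero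
  exact one_ne_zero (hv'.unique h1)

private lemma inv_tt_Ind {v : Place k (Om k)} (hv : v.At (tt k) 0) :
    vlo v (some (tt k)⁻¹) = none := by
  rw [vlo_some, HYG.vl_none_om]
  rcases (v.vanishes_iff_or _).1 (Place.at_zero_iff.1 hv) with h1 | h1
  · exact absurd h1 tt_ne_Ind
  · exact h1

/-- the path from `x` to `c` -/
private def pth_Ind (x : Option k) (c : k) : Om k :=
  match x with
  | some a => (1 - tt k) * algebraMap k (Om k) a + tt k * algebraMap k (Om k) c
  | none => algebraMap k (Om k) c + (1 - tt k) / tt k

private lemma pth_zero_Ind {v : Place k (Om k)} (hv : v.At (tt k) 0) (x : Option k) (c : k) :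
    vlo v (some (pth_Ind x c)) = x := by
  have h1 : v.At (1 - tt k) 1 := by
    have h2 := (one_at_Ind v).sub hv
    rwa [sub_zero] at h2
  cases x with
  | some a =>
    apply vlo_at
    have h2 := (h1.mul (Place.at_const (v := v) a)).add (hv.mul (Place.at_const (v := v) c))
    rw [one_mul, zero_mul, add_zero] at h2
    exact h2
  | none =>
    rw [vlo_some, HYG.vl_none_om]
    intro h2
    have h3 : (1 - tt k) / tt k ∉ v.ring :=
      HYG.none_ratio h1 one_ne_zero (Place.at_zero_iff.1 hv) tt_ne_Ind
    apply h3
    have h4 := sub_mem h2 (v.const_mem c)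
    have h5 : pth_Ind (none : Option k) c - algebraMap k (Om k) c = (1 - tt k) / tt k := by
      unfold pth_Ind
      ring
    rwa [h5] at h4

omit [IsAlgClosed k] [CharZero k] in
private lemma pth_one_Ind {v : Place k (Om k)} (hv : v.At (tt k) 1) (x : Option k) (c : k) :
    v.At (pth_Ind x c) c := by
  have h1 : v.At (1 - tt k) 0 := by
    have h2 := (one_at_Ind v).sub hv
    rwa [sub_self] at h2
  cases x with
  | some a =>
    have h2 := (h1.mul (Place.at_const (v := v) a)).add (hv.mul (Place.at_const (v := v) c))
    rw [one_mul, zero_mul, zero_add] at h2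
    exact h2
  | none =>
    have h2 := (Place.at_const (v := v) c).add (h1.div hv one_ne_zero)
    rw [zero_div, add_zero] at h2
    exact h2

omit [IsAlgClosed k] [CharZero k] in
private lemma aeval_at_Ind {v : Place k (Om k)} {f : Om k} {c : k} (h : v.At f c) (P : k[X]) :
    v.At (aeval f P) (aeval c P) := by
  have h1 := h.aeval P
  rwa [← coe_aeval_eq_eval] at h1

/-! ### The theorems -/

theorem ind_coord (hF : F.Adm) (hE : IsCF F E) {j : Fin N} {i : Fin m}
    (hinv : ∀ s u (ζ : k), ζ ^ F.M = 1 → E s (rot j i ζ u) = E s u) {s : Fin N → Option k}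
    {u u' : Fin N → Fin m → Option k} (h : ∀ l, OnY F (s l) (u l))
    (h' : ∀ l, OnY F (s l) (u' l)) (heq : ∀ l i', ¬(l = j ∧ i' = i) → u l i' = u' l i') :
    E s u = E s u' := by
  obtain ⟨x', hx'⟩ : ∃ x', u' j i = x' := ⟨_, rfl⟩
  have hu' : u' = Function.update u j (Function.update (u j) i x') := by
    funext l i'
    by_cases hl : l = j
    · subst hl
      rw [Function.update_self]
      by_cases hi : i' = i
      · subst hi
        rw [Function.update_self, hx']
      · rw [Function.update_of_ne hi]
        exact (heq l i' fun hc => hi hc.2).symm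
    · rw [Function.update_of_ne hl]
      exact (heq l i' fun hc => hl hc.1).symm
  have hu : u = Function.update u j (Function.update (u j) i (u j i)) := by
    rw [Function.update_eq_self, Function.update_eq_self]
  have e1 : al_Ind F i (s j) (u j) * snd (u j i) ^ F.M =
      be_Ind F i (s j) (u j) * fst (u j i) ^ F.M := by
    rw [← onY_upd_Ind, Function.update_eq_self]
    exact h j
  have e2 : al_Ind F i (s j) (u j) * snd x' ^ F.M =
      be_Ind F i (s j) (u j) * fst x' ^ F.M := by
    rw [← onY_upd_Ind]
    have h1 := h' j
    rw [hu', Function.update_self] at h1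
    exact h1
  by_cases hb : be_Ind F i (s j) (u j) = 0
  · by_cases ha : al_Ind F i (s j) (u j) = 0
    · have hall : ∀ y : Option (Om k), OnY F ((s j).map (algebraMap k (Om k)))
          (Function.update (fun l => (u j l).map (algebraMap k (Om k))) i y) := by
        intro y
        rw [onY_upd_Ind, al_om_Ind, be_om_Ind, ha, hb, map_zero, zero_mul, zero_mul]
      obtain ⟨e, he⟩ : ∃ e : Option k → W,
          ∀ z, e z = E s (Function.update u j (Function.update (u j) i z)) := ⟨_, fun _ => rfl⟩
      have hval : ∀ (y : Option (Om k)) (v : Place k (Om k)),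
          E (Function.update s j (vlo v ((s j).map (algebraMap k (Om k)))))
            (Function.update u j fun l => vlo v
              (Function.update (fun l => (u j l).map (algebraMap k (Om k))) i y l)) =
          e (vlo v y) := by
        intro y v
        rw [vlo_const, Function.update_eq_self, he]
        have h1 : (fun l => vlo v
            (Function.update (fun l => (u j l).map (algebraMap k (Om k))) i y l)) =
            Function.update (u j) i (vlo v y) := by
          funext l
          by_cases hl : l = i
          · subst hl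
            rw [Function.update_self, Function.update_self]
          · rw [Function.update_of_ne hl, Function.update_of_ne hl]
            exact vlo_const v _
        rw [h1]
      have hpath : ∀ (y : Option (Om k)) (c₀ c₁ : k) (z₀ z₁ : Option k),
          (∀ v : Place k (Om k), v.At (tt k) c₀ → vlo v y = z₀) →
          (∀ v : Place k (Om k), v.At (tt k) c₁ → vlo v y = z₁) → e z₀ = e z₁ := by
        intro y c₀ c₁ z₀ z₁ h0 h1
        refine path_Ind hE h j (hall y) (c₀ := c₀) (c₁ := c₁) (fun v hv => ?_) (fun v hv => ?_)
        · rw [hval, h0 v hv]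
        · rw [hval, h1 v hv]
      have hfin : ∀ c c' : k, e (some c) = e (some c') := fun c c' =>
        hpath (some (tt k)) c c' _ _ (fun v hv => vlo_at hv) (fun v hv => vlo_at hv)
      have hinf : e none = e (some 1) :=
        hpath (some (tt k)⁻¹) 0 1 _ _ (fun v hv => inv_tt_Ind hv) (fun v hv => vlo_at (by
          have h1 := hv.inv one_ne_zero
          rwa [inv_one] at h1))
      have hz : ∀ z, e z = e (some 1) := by
        intro z
        cases z with
        | none => exact hinf
        | some c => exact hfin c 1
      rw [hu', hu, ← he]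
      have h1 : E s (Function.update (Function.update u j (Function.update (u j) i (u j i))) j
          (Function.update (Function.update u j (Function.update (u j) i (u j i)) j) i x')) =
          e x' := by
        rw [← hu, he]
      rw [h1, hz, hz x']
    · have hn : ∀ x : Option k, al_Ind F i (s j) (u j) * snd x ^ F.M =
          be_Ind F i (s j) (u j) * fst x ^ F.M → x = none := by
        intro x hx
        rw [hb, zero_mul] at hx
        cases x with
        | none => rfl
        | some w =>
          rw [snd_some, one_pow, mul_one] at hx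
          exact absurd hx ha
      have h1 : u' = u := by
        rw [hu', hn x' e2, ← hn _ e1, Function.update_eq_self, Function.update_eq_self]
      rw [h1]
  · have hsm : ∀ x : Option k, al_Ind F i (s j) (u j) * snd x ^ F.M =
        be_Ind F i (s j) (u j) * fst x ^ F.M →
        ∃ w, x = some w ∧ al_Ind F i (s j) (u j) = be_Ind F i (s j) (u j) * w ^ F.M := by
      intro x hx
      cases x with
      | none =>
        rw [snd_none, fst_none, zero_pow hF.M0.ne', mul_zero, one_pow, mul_one] at hx
        exact absurd hx.symm hb
      | some w =>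
        refine ⟨w, rfl, ?_⟩
        rwa [snd_some, fst_some, one_pow, mul_one] at hx
    obtain ⟨w, hw, h1⟩ := hsm _ e1
    obtain ⟨w', hw', h2⟩ := hsm _ e2
    have h3 : w ^ F.M = w' ^ F.M := mul_left_cancel₀ hb (h1.symm.trans h2)
    by_cases hw0 : w = 0
    · have hw0' : w' = 0 := by
        rw [hw0, zero_pow hF.M0.ne'] at h3
        exact eq_zero_of_pow_eq_zero h3.symm
      have h4 : u' = u := by
        rw [hu', hw', hw0', ← hw0, ← hw, Function.update_eq_self, Function.update_eq_self]
      rw [h4]
    · have hr : u' = rot j i (w' / w) u := by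
        unfold rot
        rw [hu', hw', hw, Option.map_some, div_mul_cancel₀ _ hw0]
      rw [hr]
      refine (hinv s u _ ?_).symm
      rw [div_pow, ← h3, div_self (pow_ne_zero _ hw0)]

theorem ind_path (hF : F.Adm) (hE : IsCF F E) {j : Fin N} {i : Fin m}
    (hinv : ∀ s u (ζ : k), ζ ^ F.M = 1 → E s (rot j i ζ u) = E s u) {s s' : Fin N → Option k}
    {u u' : Fin N → Fin m → Option k} (h : ∀ l, OnY F (s l) (u l))
    (h' : ∀ l, OnY F (s' l) (u' l)) (hs : ∀ l, l ≠ j → s l = s' l)
    (hu : ∀ l, l ≠ j → u l = u' l) {σ : k} {w : Fin m → k} (hσ : s' j = some σ)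
    (hw : u' j = fun i' => some (w i')) (hA : aeval σ F.A ≠ 0)
    (hC : ∀ i', aeval σ (F.C i') ≠ 0) : E s u = E s' u' := by
  have hy : ∏ l, (aeval σ (F.B l) - aeval σ (F.C l) * w l ^ F.M) = aeval σ F.A := by
    rw [← onY_some hF, ← hσ, ← hw]
    exact h' j
  have hfσ : ∀ l, aeval σ (F.B l) - aeval σ (F.C l) * w l ^ F.M ≠ 0 := by
    intro l hl
    rw [Finset.prod_eq_zero (Finset.mem_univ l) hl] at hy
    exact hA hy.symm
  set S : Om k := pth_Ind (s j) σ with hS
  set V : Fin m → Om k := fun l => pth_Ind (u j l) (w l) with hV
  set f : Fin m → Om k := fun l => aeval S (F.B l) - aeval S (F.C l) * V l ^ F.M with hf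
  have hfat : ∀ (v : Place k (Om k)), v.At (tt k) 1 → ∀ l,
      v.At (f l) (aeval σ (F.B l) - aeval σ (F.C l) * w l ^ F.M) := by
    intro v hv l
    have h1 : v.At S σ := pth_one_Ind hv _ _
    have h2 : v.At (V l) (w l) := pth_one_Ind hv _ _
    exact (aeval_at_Ind h1 _).sub ((aeval_at_Ind h1 _).mul (h2.pow _))
  obtain ⟨v₁, hv₁⟩ := HYG.exists_place_tt (k := k) 1
  have hne : ∀ {g : Om k} {c : k}, v₁.At g c → c ≠ 0 → g ≠ 0 := by
    intro g c h1 hc h0
    rw [h0] at h1
    exact hc (h1.unique (Place.at_zero_iff.2 v₁.vanishes_zero))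
  have hf0 : ∀ l, f l ≠ 0 := fun l => hne (hfat v₁ hv₁ l) (hfσ l)
  have hC0 : aeval S (F.C i) ≠ 0 := hne (aeval_at_Ind (pth_one_Ind hv₁ _ _) _) (hC i)
  obtain ⟨r, hr⟩ := HYG.exists_root_om hF.M0
    ((aeval S (F.B i) - aeval S F.A / ∏ l ∈ Finset.univ.erase i, f l) / aeval S (F.C i))
  have hP0 : ∏ l ∈ Finset.univ.erase i, f l ≠ 0 := Finset.prod_ne_zero_iff.2 fun l _ => hf0 l
  have hY : OnY F (some S) fun l => some (Function.update V i r l) := by
    rw [onY_some hF, ← Finset.mul_prod_erase Finset.univ _ (Finset.mem_univ i),
      Function.update_self, hr]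
    have h1 : ∏ l ∈ Finset.univ.erase i, (aeval S (F.B l) - aeval S (F.C l) *
        Function.update V i r l ^ F.M) = ∏ l ∈ Finset.univ.erase i, f l :=
      Finset.prod_congr rfl fun l hl => by
        rw [Function.update_of_ne (Finset.ne_of_mem_erase hl)]
    rw [h1]
    field_simp
    ring
  have hother : ∀ (x : Option k) (y : Fin m → Option k), OnY F x y → ∀ l,
      OnY F (Function.update s j x l) (Function.update u j y l) := by
    intro x y hxy l
    by_cases hl : l = j
    · subst hl
      rw [Function.update_self, Function.update_self]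
      exact hxy
    · rw [Function.update_of_ne hl, Function.update_of_ne hl]
      exact h l
  refine path_Ind hE h j hY (c₀ := 0) (c₁ := 1) (fun v hv => ?_) (fun v hv => ?_)
  · have hSv : vlo v (some S) = s j := pth_zero_Ind hv _ _
    have hYv := onY_vlo v hY
    have h1 := hother _ _ hYv
    rw [hSv, Function.update_eq_self] at h1 ⊢
    refine (ind_coord hF hE hinv h h1 fun l i' hli => ?_).symm
    by_cases hl : l = j
    · subst hl
      rw [Function.update_self]
      have hi : i' ≠ i := fun hc => hli ⟨rfl, hc⟩
      rw [Function.update_of_ne hi]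
      exact (pth_zero_Ind hv _ _).symm
    · rw [Function.update_of_ne hl]
  · have hSv : vlo v (some S) = some σ := vlo_at (pth_one_Ind hv _ _)
    have hYv := onY_vlo v hY
    have h1 := hother _ _ hYv
    have h2 : Function.update s j (vlo v (some S)) = s' := by
      funext l
      by_cases hl : l = j
      · subst hl
        rw [Function.update_self, hSv, hσ]
      · rw [Function.update_of_ne hl]
        exact hs l hl
    rw [h2] at h1 ⊢
    refine (ind_coord hF hE hinv h1 h' fun l i' hli => ?_)
    by_cases hl : l = j
    · subst hl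
      rw [Function.update_self, hw]
      have hi : i' ≠ i := fun hc => hli ⟨rfl, hc⟩
      rw [Function.update_of_ne hi]
      exact vlo_at (pth_one_Ind hv _ _)
    · rw [Function.update_of_ne hl, hu l hl]

/-- `E` does not depend on the point `j` -/
theorem ind (hF : F.Adm) (hE : IsCF F E) {j : Fin N} {i : Fin m}
    (hinv : ∀ s u (ζ : k), ζ ^ F.M = 1 → E s (rot j i ζ u) = E s u) {s s' : Fin N → Option k}
    {u u' : Fin N → Fin m → Option k} (h : ∀ l, OnY F (s l) (u l))
    (h' : ∀ l, OnY F (s' l) (u' l)) (hs : ∀ l, l ≠ j → s l = s' l)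
    (hu : ∀ l, l ≠ j → u l = u' l) : E s u = E s' u' := by
  -- the value of the parameter
  have hP : F.A * ∏ l, F.C l ≠ 0 :=
    mul_ne_zero hF.A0 (Finset.prod_ne_zero_iff.2 fun l _ => hF.C0 l)
  obtain ⟨σ, hσ⟩ : ∃ σ : k, (F.A * ∏ l, F.C l).eval σ ≠ 0 := by
    by_contra hcon
    push Not at hcon
    exact hP (Polynomial.funext fun x => by rw [hcon x, eval_zero])
  rw [eval_mul, eval_prod] at hσ
  have hA : aeval σ F.A ≠ 0 := by
    rw [coe_aeval_eq_eval]
    exact left_ne_zero_of_mul hσ
  have hC : ∀ l, aeval σ (F.C l) ≠ 0 := by
    intro l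
    rw [coe_aeval_eq_eval]
    exact Finset.prod_ne_zero_iff.1 (right_ne_zero_of_mul hσ) l (Finset.mem_univ l)
  -- the coordinates
  have hex : ∀ l, ∃ w : k, aeval σ (F.B l) - aeval σ (F.C l) * w ^ F.M ≠ 0 := by
    intro l
    obtain ⟨w, hw⟩ := IsAlgClosed.exists_pow_nat_eq (aeval σ (F.B l) / aeval σ (F.C l) + 1)
      hF.M0
    refine ⟨w, ?_⟩
    have h1 : aeval σ (F.B l) - aeval σ (F.C l) * w ^ F.M = -aeval σ (F.C l) := by
      have h2 := hC l
      rw [hw]
      field_simp
      ring
    rw [h1]
    exact neg_ne_zero.2 (hC l)
  choose w hw using hex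
  obtain ⟨r, hr⟩ := IsAlgClosed.exists_pow_nat_eq ((aeval σ (F.B i) - aeval σ F.A /
    ∏ l ∈ Finset.univ.erase i, (aeval σ (F.B l) - aeval σ (F.C l) * w l ^ F.M)) /
      aeval σ (F.C i)) hF.M0
  have hY : OnY F (some σ) fun l => some (Function.update w i r l) := by
    rw [onY_some hF, ← Finset.mul_prod_erase Finset.univ _ (Finset.mem_univ i),
      Function.update_self, hr]
    have h1 : ∏ l ∈ Finset.univ.erase i, (aeval σ (F.B l) - aeval σ (F.C l) *
        Function.update w i r l ^ F.M) =
        ∏ l ∈ Finset.univ.erase i, (aeval σ (F.B l) - aeval σ (F.C l) * w l ^ F.M) :=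
      Finset.prod_congr rfl fun l hl => by
        rw [Function.update_of_ne (Finset.ne_of_mem_erase hl)]
    rw [h1]
    have h2 : ∏ l ∈ Finset.univ.erase i, (aeval σ (F.B l) - aeval σ (F.C l) * w l ^ F.M) ≠ 0 :=
      Finset.prod_ne_zero_iff.2 fun l _ => hw l
    have h3 := hC i
    field_simp
    ring
  have h0 : ∀ l, OnY F (Function.update s j (some σ) l)
      (Function.update u j (fun l => some (Function.update w i r l)) l) := by
    intro l
    by_cases hl : l = j
    · subst hl
      rw [Function.update_self, Function.update_self]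
      exact hY
    · rw [Function.update_of_ne hl, Function.update_of_ne hl]
      exact h l
  have e1 : E s u = E (Function.update s j (some σ))
      (Function.update u j fun l => some (Function.update w i r l)) :=
    ind_path hF hE hinv h h0 (fun l hl => (Function.update_of_ne hl _ _).symm)
      (fun l hl => (Function.update_of_ne hl _ _).symm) (Function.update_self _ _ _)
      (Function.update_self _ _ _) hA hC
  have e2 : E s' u' = E (Function.update s j (some σ))
      (Function.update u j fun l => some (Function.update w i r l)) :=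
    ind_path hF hE hinv h' h0
      (fun l hl => by rw [Function.update_of_ne hl]; exact (hs l hl).symm)
      (fun l hl => by rw [Function.update_of_ne hl]; exact (hu l hl).symm)
      (Function.update_self _ _ _) (Function.update_self _ _ _) hA hC
  rw [e1, e2]

end Pool.Agent.HGF
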