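import Pool.Agent.HGF.KGlue
import Pool.Agent.EFP.Kos

/-!
# Project HGF, block K: the relation for the permutations of equal factors

`altP`: the sum over the permutations of `D` equal factors with the same nontrivial exponents is
zero, from the vanishing theorem. `alt_fix`: the same for the permutations of a subset of `Fin l`.
-/

set_option autoImplicit false

noncomputable section

namespace Pool.Agent.HGF

open Pool.Agent.ZCyc Pool.Agent.Dess Pool.Agent.GT Pool.Agent.TInc
open Pool.Agent.ZIso (fixing)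
open scoped Classical

variable {k : Type} [Field k] [IsAlgClosed k] [CharZero k] {r : ℕ} {X : Fin r → Hyp k} {W : Type}
  [AddCommGroup W] [Module k W] {T : (Fin r → Crd k) → W}

theorem altP {Z : Hyp k} (hV : Vanish Z.F) (hT : IsCFP X T) {β : Fin r → ℕ → ℕ}
    (hβT : IsEigP X β T) {e : Fin Z.F.D → Fin r} (he : Function.Injective e)
    (hX : ∀ j, X (e j) = Z) {b : Fin Z.m → ℕ} (hb0 : ∀ i, 0 < b i ∧ b i < Z.F.M)
    (hb : ∀ j (i : Fin Z.m), β (e j) i = b i) {x0 : Fin r → Crd k} (h0 : OnP X x0)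
    {q : Fin Z.F.D → Crd k} (hq : ∀ j, Z.On (q j)) :
    ∑ π : Equiv.Perm (Fin Z.F.D), ((Equiv.Perm.sign π : ℤ) ^ (Z.m + 1)) •
      T (glue e x0 fun j => q (π j)) = 0 := by
  have h1 := hV W b _ hb0 (isCF_glueP hT he hX h0) (isEig_glueP hβT he hX hb x0)
    (fun j => (q j).1) (fun j i => (q j).2 i) fun j => (hq j).1
  unfold AE at h1
  rw [← h1]
  refine Finset.sum_congr rfl fun π _ => ?_
  congr 2
  congr 1
  funext j
  exact (crd_of_on (hq (π j))).symm

theorem mem_fixing_K {l : ℕ} {J : Finset (Fin l)} {π : Equiv.Perm (Fin l)} :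
    π ∈ fixing J ↔ ∀ i ∉ J, π i = i := by
  simp [fixing]

/-- the permutations of `J` are the permutations of `Fin D`, if `ι` is an embedding with the image
`J` -/
theorem sum_fixing {l D : ℕ} {V : Type*} [AddCommMonoid V] (ι : Fin D ↪ Fin l)
    {J : Finset (Fin l)} (hJ : ∀ i, i ∈ J ↔ i ∈ Set.range ι) (G : Equiv.Perm (Fin l) → V) :
    ∑ π ∈ fixing J, G π = ∑ ρ : Equiv.Perm (Fin D), G (ρ.viaEmbedding ι) := by
  symm
  refine Finset.sum_nbij (fun ρ => ρ.viaEmbedding ι) ?_ ?_ ?_ fun _ _ => rfl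
  · intro ρ _
    rw [mem_fixing_K]
    intro i hi
    rw [hJ] at hi
    exact Equiv.Perm.viaEmbedding_apply_of_notMem _ _ _ hi
  · intro ρ _ ρ' _ h
    ext a
    have h1 := congrArg (fun e : Equiv.Perm (Fin l) => e (ι a)) h
    simp only [Equiv.Perm.viaEmbedding_apply] at h1
    exact congrArg Fin.val (ι.injective h1)
  · intro π hπ
    rw [Finset.mem_coe, mem_fixing_K] at hπ
    have h1 : ∀ a : Fin D, ∃ b, ι b = π (ι a) := by
      intro a
      have h2 : π (ι a) ∈ J := by
        by_contra hcon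
        have h3 : π (ι a) = ι a := π.injective (hπ _ hcon)
        rw [h3] at hcon
        exact hcon ((hJ _).2 ⟨a, rfl⟩)
      exact (hJ _).1 h2
    choose t ht using h1
    have hti : Function.Injective t := by
      intro a b hab
      have h2 : π (ι a) = π (ι b) := by rw [← ht, ← ht, hab]
      exact ι.injective (π.injective h2)
    let σ : Equiv.Perm (Fin D) := Equiv.ofBijective t (Finite.injective_iff_bijective.1 hti)
    have hσ : ∀ a, ι (σ a) = π (ι a) := ht
    refine ⟨σ, Finset.mem_coe.2 (Finset.mem_univ _), ?_⟩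
    apply Equiv.ext
    intro i
    by_cases hr : i ∈ Set.range ι
    · obtain ⟨a, rfl⟩ := hr
      show (σ.viaEmbedding ι) (ι a) = _
      rw [Equiv.Perm.viaEmbedding_apply, hσ]
    · show (σ.viaEmbedding ι) i = _
      rw [Equiv.Perm.viaEmbedding_apply_of_notMem _ _ _ hr, hπ i fun h => hr ((hJ _).1 h)]

theorem sign_via {l D : ℕ} (ι : Fin D ↪ Fin l) (ρ : Equiv.Perm (Fin D)) :
    Equiv.Perm.sign (ρ.viaEmbedding ι) = Equiv.Perm.sign ρ := by
  unfold Equiv.Perm.viaEmbedding
  exact @Equiv.Perm.sign_extendDomain _ _ _ _ _ _ ρ _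
    (fun _ => Classical.propDecidable _) _

/-- The relation in the form of the second fundamental theorem: `y τ` is the point with the factor
`oJ b` equal to `q (τ b)`, and `w` outside of the image of `oJ`. -/
theorem alt_fix (hT : IsCFP X T) {β : Fin r → ℕ → ℕ} (hβT : IsEigP X β T) {l : ℕ}
    {oJ : Fin l → Fin r} (hoJ : Function.Injective oJ) {q : Fin l → Crd k} {w : Fin r → Crd k}
    (τ : Equiv.Perm (Fin l)) (hw : OnP X (glue oJ w fun b => q (τ b)))
    {Z : Hyp k} (hV : Vanish Z.F) {b0 : ℕ → ℕ} (hb0 : ∀ i < Z.m, 0 < b0 i ∧ b0 i < Z.F.M)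
    {J : Finset (Fin l)} (hJ : ∀ i ∈ J, X (oJ i) = Z ∧ β (oJ i) = b0) (hc : J.card = Z.F.D) :
    ∑ π ∈ fixing J, (((Equiv.Perm.sign π : ℤ) : k) *
      (EFP.kos (fun b => (X (oJ b)).m) (τ * π) : k)) •
        T (glue oJ w fun b => q ((τ * π) b)) = 0 := by
  set ι : Fin Z.F.D ↪ Fin l := (J.orderEmbOfFin hc).toEmbedding with hι
  have hιJ : ∀ i, i ∈ J ↔ i ∈ Set.range ι := by
    intro i
    have h1 := J.range_orderEmbOfFin hc
    rw [← Finset.mem_coe, ← h1]
    rfl
  have hmem : ∀ a, ι a ∈ J := fun a => (hιJ _).2 ⟨a, rfl⟩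
  rw [sum_fixing ι hιJ]
  have hinj : Function.Injective fun a => oJ (ι a) := hoJ.comp ι.injective
  have h1 := altP (X := X) hV hT hβT (e := fun a => oJ (ι a)) hinj
    (fun a => (hJ _ (hmem a)).1) (b := fun i => b0 i) (fun i => hb0 i i.isLt)
    (fun a i => by rw [(hJ _ (hmem a)).2]) hw (q := fun a => q (τ (ι a))) (fun a => by
      have h2 := hw (oJ (ι a))
      rw [glue_apply hoJ, (hJ _ (hmem a)).1] at h2
      exact h2)
  have h2 := congrArg (fun z => ((EFP.kos (fun b => (X (oJ b)).m) τ : ℤ) : k) • z) h1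
  beta_reduce at h2
  rw [smul_zero, Finset.smul_sum] at h2
  rw [← h2]
  refine Finset.sum_congr rfl fun ρ _ => ?_
  have hfix : ρ.viaEmbedding ι ∈ fixing J := by
    rw [mem_fixing_K]
    intro i hi
    rw [hιJ] at hi
    exact Equiv.Perm.viaEmbedding_apply_of_notMem _ _ _ hi
  have hkos := EFP.kos_mul (fun b => (X (oJ b)).m) τ (J := J) (e := Z.m)
    (fun i hi => by rw [(hJ i hi).1]) hfix
  rw [hkos, sign_via, ← Int.cast_smul_eq_zsmul k, smul_smul]
  have h3 : glue oJ w (fun b => q ((τ * ρ.viaEmbedding ι) b)) =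
      glue (fun a => oJ (ι a)) (glue oJ w fun b => q (τ b)) fun a => q (τ (ι (ρ a))) := by
    funext a
    by_cases ha : ∃ b, oJ b = a
    · obtain ⟨b, rfl⟩ := ha
      rw [glue_apply hoJ]
      by_cases hb : b ∈ Set.range ι
      · obtain ⟨c, rfl⟩ := hb
        rw [glue_apply (e := fun a => oJ (ι a)) hinj, Equiv.Perm.mul_apply,
          Equiv.Perm.viaEmbedding_apply]
      · rw [glue_of (e := fun a => oJ (ι a)) _ _ fun c hc => hb ⟨c, hoJ hc⟩, glue_apply hoJ,
          Equiv.Perm.mul_apply, Equiv.Perm.viaEmbedding_apply_of_notMem _ _ _ hb]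
    · push Not at ha
      rw [glue_of _ _ ha, glue_of (e := fun a => oJ (ι a)) _ _ fun c => ha _, glue_of _ _ ha]
  rw [h3]
  congr 1
  push_cast
  ring

end Pool.Agent.HGF
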