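import Pool.Agent.HGF.Defs

/-!
# Products of hypersurfaces: morphisms, the filtration, holomorphic forms

A hypersurface `Z : Hyp k` is `∏ (B_i(s) - C_i(s) u_i ^ M) = A(s)` with coordinates `s` and `u_i`,
`i < Z.m`. In order to compare the points of different hypersurfaces, the coordinates `u_i` are
indexed by natural numbers, and `u_i = none` for `i ≥ Z.m`.

1. `RatP X R`: the zero-cycles on the product of the hypersurfaces `X a` which are rationally
equivalent to zero.
2. `Mor X Y`: morphisms of products. Every component is constant, or it is a factor of `X` (equal to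
the factor of `Y`), with the coordinates `u_i` multiplied by roots of unity of order `M`.
3. `Fil X ν`: the cycles which are killed by all projections to subproducts of dimension `< ν`.
4. Holomorphic forms. The hypersurface `Z` has dimension `Z.m`; the forms of degree `Z.m` are
`ω_(j,a) = s ^ j ∏ u_i ^ (a_i - 1) ds du_0 ... du_(m-1) / dΦ` (residues), where `j < D - 1` and
`0 < a_i < M`. On a product: exterior products of these forms for some of the factors. The form is
given by a label `(j, a)` for every factor, and the label `0` for the factors without a form.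
-/

set_option autoImplicit false

noncomputable section

namespace Pool.Agent.HGF

open Pool.Agent.ZCyc Pool.Agent.Dess Pool.Agent.GT Pool.Agent.TInc
open scoped Classical

variable {k : Type} [Field k]

/-- a hypersurface with the coordinates `s` and `u_i`, `i < m` -/
structure Hyp (k : Type) [Field k] where
  /-- the number of the coordinates `u_i`, the dimension of the hypersurface -/
  m : ℕ
  /-- the equation -/
  F : Fam k m

/-- the coordinates `s` and `u_i` of a point, `i : ℕ` -/
abbrev Crd (K : Type) : Type := Option K × (ℕ → Option K)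

/-- the point with the coordinates `p` lies on the hypersurface, `u_i = none` for `i ≥ m` -/
def Hyp.On (Z : Hyp k) {K : Type} [Field K] [Algebra k K] (p : Crd K) : Prop :=
  OnY Z.F p.1 (fun i => p.2 i) ∧ ∀ i, Z.m ≤ i → p.2 i = none

/-- the value of a point at a place -/
def vlc {K : Type} [Field K] [Algebra k K] (v : Place k K) (p : Crd K) : Crd k :=
  (vlo v p.1, fun i => vlo v (p.2 i))

section Products

variable {r r' : ℕ}

/-- the points of the product of the hypersurfaces `X a` -/
def OnP (X : Fin r → Hyp k) {K : Type} [Field K] [Algebra k K] (x : Fin r → Crd K) : Prop :=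
  ∀ a, (X a).On (x a)

/-- The zero-cycles on the product, with coefficients in `R`, which are rationally equivalent to
zero: the span of the push-forwards of the divisors `D` of all rational functions `f` on all smooth
projective curves (with the function field `K`) by all maps `x` to the product. -/
def RatP [IsAlgClosed k] [CharZero k] (X : Fin r → Hyp k) (R : Type) [Field R] :
    Submodule R ((Fin r → Crd k) →₀ R) :=
  Submodule.span R {z | ∃ (K : Type) (_ : Field K) (_ : Algebra k K) (_ : IsCurve k K)
    (x : Fin r → Crd K) (f : K) (D : Place k K →₀ ℤ),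
    f ≠ 0 ∧ OnP X x ∧ (∀ v, HasOrd v f (D v)) ∧
    z = D.sum fun v a => Finsupp.single (fun j => vlc v (x j)) (a : R)}

/-- a component of a morphism from the product of the `X a` to `Z` -/
inductive Comp (X : Fin r → Hyp k) (Z : Hyp k)
  /-- a constant map -/
  | const (w : Crd k) (hw : Z.On w)
  /-- a factor of the product, multiplication of `u_i` by `ζ i` -/
  | fac (a : Fin r) (h : X a = Z) (ζ : ℕ → k) (hζ : ∀ i, ζ i ^ Z.F.M = 1)

/-- the component of the image of a point -/
def Comp.app {X : Fin r → Hyp k} {Z : Hyp k} : Comp X Z → (Fin r → Crd k) → Crd k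
  | .const w _, _ => w
  | .fac a _ ζ _, x => ((x a).1, fun i => ((x a).2 i).map fun t => ζ i * t)

/-- the factor of `X` -/
def Comp.src {X : Fin r → Hyp k} {Z : Hyp k} : Comp X Z → Option (Fin r)
  | .const _ _ => none
  | .fac a _ _ _ => some a

/-- the roots of unity (`1` for a constant component) -/
def Comp.rts {X : Fin r → Hyp k} {Z : Hyp k} : Comp X Z → ℕ → k
  | .const _ _ => fun _ => 1
  | .fac _ _ ζ _ => ζ

/-- morphisms of products -/
def Mor (X : Fin r → Hyp k) (Y : Fin r' → Hyp k) : Type := ∀ b, Comp X (Y b)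

/-- the image of a point -/
def Mor.app {X : Fin r → Hyp k} {Y : Fin r' → Hyp k} (f : Mor X Y) (x : Fin r → Crd k) :
    Fin r' → Crd k := fun b => (f b).app x

/-- the push-forward of cycles by a combination of morphisms -/
def pushM {X : Fin r → Hyp k} {Y : Fin r' → Hyp k} (γ : Mor X Y →₀ ℚ) :
    ((Fin r → Crd k) →₀ ℚ) →ₗ[ℚ] ((Fin r' → Crd k) →₀ ℚ) :=
  γ.sum fun f c => c • Finsupp.lmapDomain ℚ ℚ f.app

/-- the identity on the factors in `U`, constant on the other factors -/
def prj (U : Finset (Fin r)) (w x : Fin r → Crd k) : Fin r → Crd k :=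
  fun a => if a ∈ U then x a else w a

/-- the dimension of a subproduct -/
def dimS (X : Fin r → Hyp k) (U : Finset (Fin r)) : ℕ := ∑ a ∈ U, (X a).m

/-- The filtration: the cycles which are killed by all projections to subproducts of dimension
`< ν`. (The subproduct is embedded into the product with fixed coordinates `w a` for the other
factors.) -/
def Fil [IsAlgClosed k] [CharZero k] (X : Fin r → Hyp k) (ν : ℕ) :
    Submodule ℚ ((Fin r → Crd k) →₀ ℚ) where
  carrier := {z | (∀ x ∈ z.support, OnP X x) ∧ ∀ U, dimS X U < ν → ∀ w, OnP X w →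
    Finsupp.mapDomain (prj U w) z ∈ RatP X ℚ}
  zero_mem' := ⟨by simp, fun U _ w _ => by rw [Finsupp.mapDomain_zero]; exact zero_mem _⟩
  add_mem' := fun {z z'} h h' => ⟨fun x hx => by
    rcases Finset.mem_union.1 (Finsupp.support_add hx) with h1 | h1
    · exact h.1 x h1
    · exact h'.1 x h1, fun U hU w hw => by
    rw [Finsupp.mapDomain_add]
    exact add_mem (h.2 U hU w hw) (h'.2 U hU w hw)⟩
  smul_mem' := fun c z h => ⟨fun x hx => h.1 x (Finsupp.support_smul hx), fun U hU w hw => by
    rw [Finsupp.mapDomain_smul]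
    exact Submodule.smul_mem _ _ (h.2 U hU w hw)⟩

/-! ### Forms -/

/-- the labels `(j, a)` of the forms -/
abbrev Lab : Type := ℕ × (ℕ → ℕ)

/-- the label `0`, or `(j, a)` with `j < D - 1` and `0 < a_i < M` for `i < m` -/
def AdmLab (Z : Hyp k) (c : Lab) : Prop :=
  c = 0 ∨ (c.1 < Z.F.D - 1 ∧ (∀ i < Z.m, 0 < c.2 i ∧ c.2 i < Z.F.M) ∧
    ∀ i, Z.m ≤ i → c.2 i = 0)

/-- the degree of the form -/
def degL (X : Fin r → Hyp k) (c : Fin r → Lab) : ℕ :=
  ∑ a ∈ Finset.univ.filter (fun a => c a ≠ 0), (X a).m

variable {X : Fin r → Hyp k} {Y : Fin r' → Hyp k}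

/-- The pull-back of the form with the labels `c` by `f` is a multiple of the form with the labels
`c'`. (In the other cases the pull-back is zero: if a factor of `Y` with a form is mapped
constantly, or if two factors of `Y` with forms are the same factor of `X`.) -/
def IsPull (f : Mor X Y) (c : Fin r' → Lab) (c' : Fin r → Lab) : Prop :=
  (∀ b, c b ≠ 0 → ∃ a, (f b).src = some a ∧ c' a = c b) ∧
    ∀ a, c' a ≠ 0 → ∃! b, c b ≠ 0 ∧ (f b).src = some a

/-- the sign of the permutation of the forms -/
def sgnF (f : Mor X Y) (c : Fin r' → Lab) : ℤ :=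
  ∏ b, ∏ b' with b < b' ∧ c b ≠ 0 ∧ c b' ≠ 0 ∧
    (∃ a a', (f b).src = some a ∧ (f b').src = some a' ∧ a' < a), (-1) ^ ((Y b).m * (Y b').m)

/-- the factor `∏ ζ_i ^ a_i` -/
def fct (f : Mor X Y) (c : Fin r' → Lab) : k :=
  ∏ b, ∏ i ∈ Finset.range (Y b).m, (f b).rts i ^ (c b).2 i

/-- the combination `γ` of morphisms kills the holomorphic forms of degree `ν` -/
def KillsForms (γ : Mor X Y →₀ ℚ) (ν : ℕ) : Prop :=
  ∀ c : Fin r' → Lab, (∀ b, AdmLab (Y b) (c b)) → degL Y c = ν → ∀ c' : Fin r → Lab,
    ∑ f ∈ γ.support.filter (fun f => IsPull f c c'), (γ f : k) * (sgnF f c : k) * fct f c = 0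

/-- `E` is a class function of the points of the product -/
def IsCFP [IsAlgClosed k] [CharZero k] (X : Fin r → Hyp k) {W : Type} [AddCommGroup W]
    (E : (Fin r → Crd k) → W) : Prop :=
  ∀ (K : Type) [Field K] [Algebra k K] (hK : IsCurve k K) (x : Fin r → Crd K) (f : K),
    f ≠ 0 → OnP X x → ((TInc.dv hK f).sum fun v a => a • E fun j => vlc v (x j)) = 0

/-- the coordinate `u_i` of the factor `a` is multiplied by `ζ` -/
def rotc (a : Fin r) (i : ℕ) (ζ : k) (x : Fin r → Crd k) : Fin r → Crd k :=
  Function.update x a ((x a).1, Function.update (x a).2 i (((x a).2 i).map fun t => ζ * t))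

/-- `E` is an eigenfunction for the rotations of the coordinate `u_i` of the factor `a` -/
def EigAt (X : Fin r → Hyp k) {W : Type} [AddCommGroup W] [Module k W] (a : Fin r) (i e : ℕ)
    (E : (Fin r → Crd k) → W) : Prop :=
  ∀ x (ζ : k), ζ ^ (X a).F.M = 1 → E (rotc a i ζ x) = ζ ^ e • E x

/-- `E` is an eigenfunction with the exponents `β` -/
def IsEigP (X : Fin r → Hyp k) {W : Type} [AddCommGroup W] [Module k W] (β : Fin r → ℕ → ℕ)
    (E : (Fin r → Crd k) → W) : Prop :=
  ∀ a i, i < (X a).m → EigAt X a i (β a i) E

/-- `E` depends only on the factors in `U` -/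
def DepOn (X : Fin r → Hyp k) {W : Type} (U : Finset (Fin r)) (E : (Fin r → Crd k) → W) : Prop :=
  ∀ x x', OnP X x → OnP X x' → (∀ a ∈ U, x a = x' a) → E x = E x'

end Products

end Pool.Agent.HGF
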