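import Pool.Agent.HGF.KDefs
import Pool.Agent.HGF.Chr

/-!
# Project HGF, block K: class functions on products are sums of eigenfunctions

`part X a i ω c E` is the eigenfunction with the exponent `c` in `E`, for the rotations of the
coordinate `u_i` of the factor `a`: `M⁻¹ ∑_{t < M} ω⁻¹ ^ (c t) E (rotc a i (ω ^ t) x)`, `ω` a
primitive root of unity of order `M = (X a).F.M`.

1. `sum_part`: exchange the sums; `∑_{c < M} ω⁻¹ ^ (c t)` is `M` for `t = 0` and `0` for `0 < t <
M` (geometric sum; compare `chr_geom` in `Chr.lean`); `rotc a i 1 x = x`.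
2. `eigAt_part`: every `ζ` with `ζ ^ M = 1` is `ω ^ t'` (`IsPrimitiveRoot.eq_pow_of_pow_eq_one`);
`rotc a i (ω ^ t) (rotc a i (ω ^ t') x) = rotc a i (ω ^ (t + t')) x`; reindex the sum over `t`
modulo `M` (compare `isEigS_chr`).
3. `eigAt_part_of`: rotations of different coordinates commute: `rotc a i ζ (rotc a' i' ζ' x) =
rotc a' i' ζ' (rotc a i ζ x)` if `(a, i) ≠ (a', i')`.
-/

set_option autoImplicit false

noncomputable section

namespace Pool.Agent.HGF

open Pool.Agent.ZCyc Pool.Agent.Dess Pool.Agent.GT Pool.Agent.TInc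
open scoped Classical

variable {k : Type} [Field k] {r : ℕ} {X : Fin r → Hyp k} {W : Type} [AddCommGroup W]
  [Module k W] {E : (Fin r → Crd k) → W}

/-- the eigenfunction with the exponent `c` in `E` -/
def part (X : Fin r → Hyp k) (a : Fin r) (i : ℕ) (ω : k) (c : ℕ) (E : (Fin r → Crd k) → W)
    (x : Fin r → Crd k) : W :=
  (((X a).F.M : k)⁻¹) • ∑ t ∈ Finset.range (X a).F.M,
    ((ω⁻¹) ^ (c * t)) • E (rotc a i (ω ^ t) x)

private theorem rotc_fst_KEig (a : Fin r) (i : ℕ) (ζ : k) (x : Fin r → Crd k) (b : Fin r) :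
    (rotc a i ζ x b).1 = (x b).1 := by
  unfold rotc
  by_cases hb : b = a
  · subst hb
    rw [Function.update_self]
  · rw [Function.update_of_ne hb]

private theorem rotc_snd_KEig (a : Fin r) (i : ℕ) (ζ : k) (x : Fin r → Crd k) (b : Fin r)
    (l : ℕ) : (rotc a i ζ x b).2 l =
      if b = a ∧ l = i then ((x b).2 l).map fun t => ζ * t else (x b).2 l := by
  unfold rotc
  by_cases hb : b = a
  · subst hb
    rw [Function.update_self]
    by_cases hl : l = i
    · subst hl
      rw [if_pos ⟨rfl, rfl⟩]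
      exact Function.update_self _ _ _
    · rw [if_neg fun h => hl h.2]
      exact Function.update_of_ne hl _ _
  · rw [Function.update_of_ne hb, if_neg fun h => hb h.1]

private theorem ext_KEig {x y : Fin r → Crd k} (h1 : ∀ b, (x b).1 = (y b).1)
    (h2 : ∀ b l, (x b).2 l = (y b).2 l) : x = y := by
  funext b
  exact Prod.ext (h1 b) (funext fun l => h2 b l)

theorem rotc_one (a : Fin r) (i : ℕ) (x : Fin r → Crd k) : rotc a i 1 x = x := by
  refine ext_KEig (fun b => rotc_fst_KEig _ _ _ _ _) fun b l => ?_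
  rw [rotc_snd_KEig]
  split_ifs with h
  · cases (x b).2 l with
    | none => rfl
    | some w => rw [Option.map_some, one_mul]
  · rfl

theorem rotc_rotc (a : Fin r) (i : ℕ) (ζ ζ' : k) (x : Fin r → Crd k) :
    rotc a i ζ (rotc a i ζ' x) = rotc a i (ζ * ζ') x := by
  refine ext_KEig (fun b => ?_) fun b l => ?_
  · rw [rotc_fst_KEig, rotc_fst_KEig, rotc_fst_KEig]
  · rw [rotc_snd_KEig, rotc_snd_KEig, rotc_snd_KEig]
    split_ifs with h
    · cases (x b).2 l with
      | none => rfl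
      | some w => rw [Option.map_some, Option.map_some, Option.map_some, mul_assoc]
    · rfl

theorem rotc_comm {a a' : Fin r} {i i' : ℕ} (h : a = a' → i ≠ i') (ζ ζ' : k)
    (x : Fin r → Crd k) : rotc a i ζ (rotc a' i' ζ' x) = rotc a' i' ζ' (rotc a i ζ x) := by
  refine ext_KEig (fun b => ?_) fun b l => ?_
  · rw [rotc_fst_KEig, rotc_fst_KEig, rotc_fst_KEig, rotc_fst_KEig]
  · rw [rotc_snd_KEig, rotc_snd_KEig, rotc_snd_KEig, rotc_snd_KEig]
    by_cases h1 : b = a ∧ l = i
    · have h2 : ¬ (b = a' ∧ l = i') := fun h2 => h (h1.1.symm.trans h2.1) (h1.2.symm.trans h2.2)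
      rw [if_pos h1, if_neg h2, if_neg h2]
      rw [if_pos h1]
    · rw [if_neg h1]
      by_cases h2 : b = a' ∧ l = i'
      · rw [if_pos h2, if_pos h2, if_neg h1]
      · rw [if_neg h2, if_neg h2, if_neg h1]

theorem onP_rotc {a : Fin r} {i : ℕ} (hi : i < (X a).m) {ζ : k} (hζ : ζ ^ (X a).F.M = 1)
    {x : Fin r → Crd k} (h : OnP X x) : OnP X (rotc a i ζ x) := by
  intro b
  by_cases hb : b = a
  · subst hb
    obtain ⟨h1, h2⟩ := h b
    constructor
    · rw [rotc_fst_KEig]
      have h3 := onY_mul hζ (⟨i, hi⟩ : Fin (X b).m) h1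
      convert h3 using 1
      funext l
      rw [rotc_snd_KEig]
      by_cases hl : (l : ℕ) = i
      · have hl' : l = ⟨i, hi⟩ := Fin.ext hl
        subst hl'
        rw [if_pos ⟨rfl, rfl⟩, Function.update_self]
      · have hl' : l ≠ ⟨i, hi⟩ := fun h' => hl (congrArg Fin.val h')
        rw [if_neg fun h' => hl h'.2, Function.update_of_ne hl']
    · intro l hl
      rw [rotc_snd_KEig, if_neg fun h' => by omega]
      exact h2 l hl
  · have h1 : rotc a i ζ x b = x b := by
      unfold rotc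
      rw [Function.update_of_ne hb]
    rw [h1]
    exact h b

private theorem geom_KEig {M : ℕ} {ω : k} (hω : IsPrimitiveRoot ω M) {t : ℕ} (ht : t < M) :
    ∑ c ∈ Finset.range M, (ω⁻¹) ^ (c * t) = if t = 0 then (M : k) else 0 := by
  have h1 : ∀ c : ℕ, (ω⁻¹) ^ (c * t) = ((ω⁻¹) ^ t) ^ c := by
    intro c
    rw [mul_comm, pow_mul]
  rw [Finset.sum_congr rfl fun (c : ℕ) _ => h1 c]
  split_ifs with hx
  · rw [hx]
    simp
  · obtain ⟨y, hy⟩ : ∃ y, y = (ω⁻¹) ^ t := ⟨_, rfl⟩
    rw [← hy]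
    have hy1 : y - 1 ≠ 0 := by
      intro h
      have h2 : (ω⁻¹) ^ t = 1 := hy ▸ sub_eq_zero.1 h
      rw [hω.inv.pow_eq_one_iff_dvd] at h2
      have h3 := Nat.le_of_dvd (Nat.pos_of_ne_zero hx) h2
      omega
    have hyM : y ^ M = 1 := by
      rw [hy, ← pow_mul, mul_comm, pow_mul, hω.inv.pow_eq_one, one_pow]
    have h2 := geom_sum_mul y M
    rw [hyM, sub_self] at h2
    exact (mul_eq_zero.1 h2).resolve_right hy1

theorem sum_part [CharZero k] {a : Fin r} (hM : 0 < (X a).F.M) {ω : k}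
    (hω : IsPrimitiveRoot ω (X a).F.M) (i : ℕ) (x : Fin r → Crd k) :
    ∑ c ∈ Finset.range (X a).F.M, part X a i ω c E x = E x := by
  unfold part
  rw [← Finset.smul_sum, Finset.sum_comm]
  have h1 : ∀ t ∈ Finset.range (X a).F.M, ∑ c ∈ Finset.range (X a).F.M,
      ((ω⁻¹) ^ (c * t)) • E (rotc a i (ω ^ t) x) =
      (if t = 0 then ((X a).F.M : k) else 0) • E (rotc a i (ω ^ t) x) := by
    intro t ht
    rw [← Finset.sum_smul, geom_KEig hω (Finset.mem_range.1 ht)]
  rw [Finset.sum_congr rfl h1, Finset.sum_eq_single 0]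
  · rw [if_pos rfl, pow_zero, rotc_one, smul_smul, inv_mul_cancel₀ (Nat.cast_ne_zero.2 hM.ne'),
      one_smul]
  · intro t _ ht
    rw [if_neg ht, zero_smul]
  · intro h
    exact absurd (Finset.mem_range.2 hM) h

private theorem shift_KEig {V : Type} [AddCommGroup V] {g : ℕ → V} {M : ℕ}
    (hg : ∀ t, g (t + M) = g t) (t₀ : ℕ) :
    ∑ t ∈ Finset.range M, g (t + t₀) = ∑ t ∈ Finset.range M, g t := by
  induction t₀ with
  | zero => rfl
  | succ n ih =>
    rw [← ih]
    have h1 := Finset.sum_range_succ (fun t => g (t + n)) M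
    have h2 := Finset.sum_range_succ' (fun t => g (t + n)) M
    rw [h1] at h2
    have h3 : g (M + n) = g (0 + n) := by
      rw [Nat.add_comm M n, hg, Nat.zero_add]
    rw [h3] at h2
    have h4 := add_right_cancel h2
    rw [h4]
    refine Finset.sum_congr rfl fun t _ => ?_
    congr 1
    omega

theorem eigAt_part {a : Fin r} (hM : 0 < (X a).F.M) {ω : k}
    (hω : IsPrimitiveRoot ω (X a).F.M) (i c : ℕ) : EigAt X a i c (part X a i ω c E) := by
  have hne : NeZero (X a).F.M := ⟨hM.ne'⟩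
  intro x ζ hζ
  obtain ⟨t₀, ht₀, rfl⟩ := hω.eq_pow_of_pow_eq_one hζ
  unfold part
  rw [smul_comm]
  congr 1
  rw [Finset.smul_sum]
  rw [← shift_KEig (g := fun t => (ω ^ t₀) ^ c • (ω⁻¹) ^ (c * t) • E (rotc a i (ω ^ t) x)) ?_ t₀]
  · refine Finset.sum_congr rfl fun t _ => ?_
    rw [rotc_rotc, ← pow_add, smul_smul]
    congr 1
    have hω0 : ω ≠ 0 := hω.ne_zero hM.ne'
    rw [← pow_mul, mul_add, pow_add, mul_left_comm, mul_comm t₀ c, ← mul_pow,
      mul_inv_cancel₀ hω0, one_pow, mul_one]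
  · intro t
    have h1 : ω ^ (t + (X a).F.M) = ω ^ t := by
      rw [pow_add, hω.pow_eq_one, mul_one]
    have h2 : (ω⁻¹) ^ (c * (t + (X a).F.M)) = (ω⁻¹) ^ (c * t) := by
      rw [mul_add, pow_add, mul_comm c (X a).F.M, pow_mul _ (X a).F.M, hω.inv.pow_eq_one,
        one_pow, mul_one]
    simp only [h1, h2]

theorem eigAt_part_of {a a' : Fin r} {i i' e : ℕ} (h : a = a' → i ≠ i') {ω : k} (c : ℕ)
    (hE : EigAt X a' i' e E) : EigAt X a' i' e (part X a i ω c E) := by
  intro x ζ hζ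
  unfold part
  rw [smul_comm]
  congr 1
  rw [Finset.smul_sum]
  refine Finset.sum_congr rfl fun t _ => ?_
  rw [rotc_comm h, hE _ ζ hζ, smul_comm]

end Pool.Agent.HGF
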