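import Pool.Agent.HGF.KEig

/-!
# Project HGF, block K: class functions on products are sums of eigenfunctions (2)

4. `isCFP_part`: as `isCF_chr`: for a curve `K` and a `K`-point `x` the point with the coordinate
`u_i` of the factor `a` multiplied by `algebraMap k K (ω ^ t)` lies on the product (`onY_mul` in
`Val.lean`; for `i ≥ (X a).m` the coordinate is `none`, but only `i < (X a).m` is needed), and its
value at `v` is `rotc a i (ω ^ t) (value of x)` (`vlo_mul`).
5. `depOn_part`: if `x`, `x'` agree on `U` then the rotated points agree on `U`; rotated points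
lie on the product (`onP_rotc`).
6. `eig_induction`: induction over the finite set `P` of the pairs `(a, i)`, `i < (X a).m` (a
sigma type `Σ a : Fin r, Fin (X a).m`, `Finset.induction_on` for the subsets `P` of
`Finset.univ`): the statement `∀ E, IsCFP X E → DepOn X U E → (∀ (a, i) ∉ P, ∃ e < M, EigAt X a i
e E) → Φ E`. For `P = ∅`: choose the exponents `β` (zero for `i ≥ (X a).m`), `heig`. Step from `P`
to `insert (a, i) P`: `E = ∑_{c < M} part X a i ω c E` (`sum_part`), the parts satisfy the
hypotheses for `P`, and `Φ` is closed under finite sums (`h0`, `hadd`).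
-/

set_option autoImplicit false

noncomputable section

namespace Pool.Agent.HGF

open Pool.Agent.ZCyc Pool.Agent.Dess Pool.Agent.GT Pool.Agent.TInc
open scoped Classical

variable {k : Type} [Field k] {r : ℕ} {X : Fin r → Hyp k} {W : Type} [AddCommGroup W]
  [Module k W] {E : (Fin r → Crd k) → W}

private theorem keigb_pow {M : ℕ} {ω : k} (hω : ω ^ M = 1) (t : ℕ) : (ω ^ t) ^ M = 1 := by
  rw [← pow_mul, mul_comm, pow_mul, hω, one_pow]

private theorem keigb_onP {K : Type} [Field K] [Algebra k K] {a : Fin r} {i : ℕ}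
    (hi : i < (X a).m) {η : K} (hη : η ^ (X a).F.M = 1) {x : Fin r → Crd K} (h : OnP X x) :
    OnP X (Function.update x a
      ((x a).1, Function.update (x a).2 i (((x a).2 i).map fun w => η * w))) := by
  intro j
  by_cases hj : j = a
  · subst hj
    rw [Function.update_self]
    refine ⟨?_, ?_⟩
    · have h1 := onY_mul hη (⟨i, hi⟩ : Fin (X j).m) (h j).1
      have h2 : (fun i' : Fin (X j).m =>
          Function.update (x j).2 i (((x j).2 i).map fun w => η * w) i') =
          Function.update (fun i' : Fin (X j).m => (x j).2 i') ⟨i, hi⟩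
            (((x j).2 i).map fun w => η * w) := by
        funext i'
        by_cases h3 : i' = ⟨i, hi⟩
        · rw [h3, Function.update_self, Function.update_self]
        · have h4 : (i' : ℕ) ≠ i := fun h5 => h3 (Fin.ext h5)
          rw [Function.update_of_ne h4, Function.update_of_ne h3]
      show OnY (X j).F (x j).1 (fun i' : Fin (X j).m =>
          Function.update (x j).2 i (((x j).2 i).map fun w => η * w) i')
      rw [h2]
      exact h1
    · intro i' hi'
      have h4 : i' ≠ i := by omega
      show Function.update (x j).2 i _ i' = none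
      rw [Function.update_of_ne h4]
      exact (h j).2 i' hi'
  · rw [Function.update_of_ne hj]
    exact h j

private theorem keigb_val {K : Type} [Field K] [Algebra k K] (v : Place k K) {a : Fin r} {i : ℕ}
    {ζ : k} (hζ : ζ ≠ 0) (x : Fin r → Crd K) :
    (fun j => vlc v (Function.update x a
      ((x a).1, Function.update (x a).2 i (((x a).2 i).map fun w => algebraMap k K ζ * w)) j)) =
      rotc a i ζ fun j => vlc v (x j) := by
  funext j
  unfold rotc
  by_cases hj : j = a
  · subst hj
    rw [Function.update_self, Function.update_self]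
    unfold vlc
    refine Prod.ext rfl ?_
    funext i'
    show vlo v (Function.update (x j).2 i _ i') =
      Function.update (fun i => vlo v ((x j).2 i)) i _ i'
    by_cases hi : i' = i
    · subst hi
      rw [Function.update_self, Function.update_self, vlo_mul v hζ]
    · rw [Function.update_of_ne hi, Function.update_of_ne hi]
  · rw [Function.update_of_ne hj, Function.update_of_ne hj]

theorem isCFP_part [IsAlgClosed k] [CharZero k] {a : Fin r} {i : ℕ} (hi : i < (X a).m) {ω : k}
    (hω : ω ^ (X a).F.M = 1) (c : ℕ) (hE : IsCFP X E) : IsCFP X (part X a i ω c E) := by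
  intro K _ _ hK x f hf hx
  rcases Nat.eq_zero_or_pos (X a).F.M with hM | hM
  · unfold part Finsupp.sum
    rw [hM]
    simp
  have hω0 : ω ≠ 0 := by
    rintro rfl
    rw [zero_pow hM.ne'] at hω
    exact zero_ne_one hω
  have hterm : ∀ t : ℕ, ((TInc.dv hK f).sum fun v e => e • E (rotc a i (ω ^ t)
      fun j => vlc v (x j))) = 0 := by
    intro t
    have hη : (algebraMap k K (ω ^ t)) ^ (X a).F.M = 1 := by
      rw [← map_pow, keigb_pow hω, map_one]
    have h1 := hE K hK _ f hf (keigb_onP hi hη hx)
    simp only [keigb_val _ (pow_ne_zero t hω0)] at h1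
    exact h1
  unfold part
  unfold Finsupp.sum at hterm ⊢
  have h5 : ∀ v ∈ (TInc.dv hK f).support, (TInc.dv hK f) v •
      ((((X a).F.M : k)⁻¹) • ∑ t ∈ Finset.range (X a).F.M,
        ((ω⁻¹) ^ (c * t)) • E (rotc a i (ω ^ t) fun j => vlc v (x j))) =
      (((X a).F.M : k)⁻¹) • ∑ t ∈ Finset.range (X a).F.M,
        ((ω⁻¹) ^ (c * t)) • ((TInc.dv hK f) v •
          E (rotc a i (ω ^ t) fun j => vlc v (x j))) := by
    intro v _
    rw [smul_comm, Finset.smul_sum]
    congr 1
    refine Finset.sum_congr rfl fun t _ => ?_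
    rw [smul_comm]
  rw [Finset.sum_congr rfl h5, ← Finset.smul_sum, Finset.sum_comm]
  rw [Finset.sum_eq_zero fun t _ => ?_, smul_zero]
  rw [← Finset.smul_sum, hterm t, smul_zero]

theorem depOn_part {U : Finset (Fin r)} {a : Fin r} {i : ℕ} (hi : i < (X a).m) {ω : k}
    (hω : ω ^ (X a).F.M = 1) (c : ℕ) (hE : DepOn X U E) : DepOn X U (part X a i ω c E) := by
  intro x x' hx hx' h
  unfold part
  congr 1
  refine Finset.sum_congr rfl fun t _ => ?_
  congr 1
  refine hE _ _ (onP_rotc hi (keigb_pow hω t) hx) (onP_rotc hi (keigb_pow hω t) hx') ?_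
  intro a' ha'
  unfold rotc
  by_cases h1 : a' = a
  · subst h1
    rw [Function.update_self, Function.update_self, h a' ha']
  · rw [Function.update_of_ne h1, Function.update_of_ne h1]
    exact h a' ha'

private theorem keigb_sum {Φ : ((Fin r → Crd k) → W) → Prop} (h0 : Φ fun _ => 0)
    (hadd : ∀ E E', Φ E → Φ E' → Φ fun x => E x + E' x) (G : ℕ → (Fin r → Crd k) → W)
    (T : Finset ℕ) (h : ∀ c ∈ T, Φ (G c)) : Φ fun x => ∑ c ∈ T, G c x := by
  induction T using Finset.induction_on with
  | empty => simpa using h0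
  | insert c T hc ih =>
    have h1 : (fun x => ∑ c ∈ insert c T, G c x) = fun x => G c x + ∑ c ∈ T, G c x := by
      funext x
      rw [Finset.sum_insert hc]
    rw [h1]
    exact hadd _ _ (h c (Finset.mem_insert_self c T))
      (ih fun c' hc' => h c' (Finset.mem_insert_of_mem hc'))

private theorem keigb_step [IsAlgClosed k] [CharZero k] (hX : ∀ a, 0 < (X a).F.M)
    {Φ : ((Fin r → Crd k) → W) → Prop} (h0 : Φ fun _ => 0)
    (hadd : ∀ E E', Φ E → Φ E' → Φ fun x => E x + E' x) {U : Finset (Fin r)}
    (heig : ∀ (β : Fin r → ℕ → ℕ) (T : (Fin r → Crd k) → W),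
      (∀ a i, i < (X a).m → β a i < (X a).F.M) → (∀ a i, (X a).m ≤ i → β a i = 0) →
      IsCFP X T → DepOn X U T → IsEigP X β T → Φ T) (S : Finset (Fin r × ℕ)) :
    (∀ p ∈ S, p.2 < (X p.1).m) → ∀ E : (Fin r → Crd k) → W, IsCFP X E → DepOn X U E →
      (∀ a i, i < (X a).m → (a, i) ∉ S → ∃ e < (X a).F.M, EigAt X a i e E) → Φ E := by
  induction S using Finset.induction_on with
  | empty =>
    intro _ E hE hU h
    have h1 : ∀ (a : Fin r) (i : ℕ), ∃ e : ℕ, (i < (X a).m → e < (X a).F.M ∧ EigAt X a i e E) ∧
        ((X a).m ≤ i → e = 0) := by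
      intro a i
      by_cases hi : i < (X a).m
      · obtain ⟨e, he, hE'⟩ := h a i hi (by simp)
        exact ⟨e, fun _ => ⟨he, hE'⟩, fun h2 => absurd hi (by omega)⟩
      · exact ⟨0, fun h2 => absurd h2 hi, fun _ => rfl⟩
    choose β hβ using h1
    exact heig β E (fun a i hi => ((hβ a i).1 hi).1) (fun a i hi => (hβ a i).2 hi) hE hU
      fun a i hi => ((hβ a i).1 hi).2
  | insert p S hp ih =>
    intro hS E hE hU h
    obtain ⟨a, i⟩ := p
    have hi : i < (X a).m := hS (a, i) (Finset.mem_insert_self _ _)
    have : NeZero ((X a).F.M : k) := ⟨Nat.cast_ne_zero.2 (hX a).ne'⟩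
    obtain ⟨ω, hω⟩ := HasEnoughRootsOfUnity.exists_primitiveRoot k (X a).F.M
    have h1 : ∀ c ∈ Finset.range (X a).F.M, Φ (part X a i ω c E) := by
      intro c hc
      refine ih (fun p hp' => hS p (Finset.mem_insert_of_mem hp')) _
        (isCFP_part hi hω.pow_eq_one c hE) (depOn_part hi hω.pow_eq_one c hU) ?_
      intro a' i' hi' hn
      by_cases he : a = a' ∧ i = i'
      · obtain ⟨rfl, rfl⟩ := he
        exact ⟨c, Finset.mem_range.1 hc, eigAt_part (hX a) hω i c⟩
      · obtain ⟨e, he', hE'⟩ := h a' i' hi' (by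
          rw [Finset.mem_insert]
          rintro (h2 | h2)
          · exact he ⟨(congrArg Prod.fst h2).symm, (congrArg Prod.snd h2).symm⟩
          · exact hn h2)
        exact ⟨e, he', eigAt_part_of (fun h2 h3 => he ⟨h2, h3⟩) c hE'⟩
    have h2 := keigb_sum h0 hadd (fun c => part X a i ω c E) _ h1
    have h3 : (fun x => ∑ c ∈ Finset.range (X a).F.M, part X a i ω c E x) = E := by
      funext x
      exact sum_part (hX a) hω i x
    rw [h3] at h2
    exact h2

/-- a property which is closed under sums and true for all eigenfunctions is true for all class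
functions -/
theorem eig_induction [IsAlgClosed k] [CharZero k] (hX : ∀ a, 0 < (X a).F.M)
    {Φ : ((Fin r → Crd k) → W) → Prop} (h0 : Φ fun _ => 0)
    (hadd : ∀ E E', Φ E → Φ E' → Φ fun x => E x + E' x) {U : Finset (Fin r)}
    (heig : ∀ (β : Fin r → ℕ → ℕ) (T : (Fin r → Crd k) → W),
      (∀ a i, i < (X a).m → β a i < (X a).F.M) → (∀ a i, (X a).m ≤ i → β a i = 0) →
      IsCFP X T → DepOn X U T → IsEigP X β T → Φ T)
    (hE : IsCFP X E) (hU : DepOn X U E) : Φ E := by
  refine keigb_step hX h0 hadd heig
    (Finset.univ.biUnion fun a : Fin r => (Finset.range (X a).m).image fun i => (a, i)) ?_ E hE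
    hU ?_
  · intro p hp
    simp only [Finset.mem_biUnion, Finset.mem_univ, true_and, Finset.mem_image,
      Finset.mem_range] at hp
    obtain ⟨a, i, hi, rfl⟩ := hp
    exact hi
  · intro a i hi hn
    exfalso
    apply hn
    simp only [Finset.mem_biUnion, Finset.mem_univ, true_and, Finset.mem_image,
      Finset.mem_range]
    exact ⟨a, i, hi, rfl⟩

end Pool.Agent.HGF
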