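import Pool.Agent.HGF.KSum
import Pool.Agent.HGF.KEigB

/-!
# Project HGF, block K: the filtration and class functions

`evl E z` is the value of a class function on a cycle.
1. Class functions are zero on the cycles which are rationally equivalent to zero.
2. `evl_fil`: a class function which depends only on the factors in `S` is zero on `Fil X ν` if
the subproduct of the factors in `S` has dimension `< ν`.
3. `evl_low`, `evl_top`: the same for class functions on `Y` and the images under morphisms.
-/

set_option autoImplicit false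

noncomputable section

namespace Pool.Agent.HGF

open Pool.Agent.ZCyc Pool.Agent.Dess Pool.Agent.GT Pool.Agent.TInc
open scoped Classical

variable {k : Type} [Field k] [CharZero k] {r r' : ℕ} {X : Fin r → Hyp k} {Y : Fin r' → Hyp k}
  {W : Type} [AddCommGroup W] [Module k W]

/-- the value of `E` on a cycle -/
def evl {S : Type} (E : S → W) : (S →₀ ℚ) →+ W :=
  Finsupp.liftAddHom fun x =>
    { toFun := fun c => (c : k) • E x
      map_zero' := by rw [Rat.cast_zero, zero_smul]
      map_add' := fun a b => by rw [Rat.cast_add, add_smul] }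

theorem evl_single {S : Type} (E : S → W) (x : S) (c : ℚ) :
    evl (k := k) E (Finsupp.single x c) = (c : k) • E x := by
  unfold evl
  rw [Finsupp.liftAddHom_apply_single]
  rfl

theorem evl_apply {S : Type} (E : S → W) (z : S →₀ ℚ) :
    evl (k := k) E z = ∑ x ∈ z.support, (z x : k) • E x := by
  unfold evl
  rw [Finsupp.liftAddHom_apply]
  rfl

theorem evl_smul {S : Type} (E : S → W) (q : ℚ) (z : S →₀ ℚ) :
    evl (k := k) E (q • z) = (q : k) • evl (k := k) E z := by
  induction z using Finsupp.induction_linear with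
  | zero => rw [smul_zero, map_zero, smul_zero]
  | add f g hf hg => rw [smul_add, map_add, map_add, hf, hg, smul_add]
  | single a b =>
    rw [Finsupp.smul_single, evl_single, evl_single, smul_eq_mul, Rat.cast_mul, mul_smul]

theorem evl_map {S S' : Type} (E : S' → W) (g : S → S') (z : S →₀ ℚ) :
    evl (k := k) E (z.mapDomain g) = evl (k := k) (fun x => E (g x)) z := by
  induction z using Finsupp.induction_linear with
  | zero => rw [Finsupp.mapDomain_zero, map_zero, map_zero]
  | add f g' hf hg => rw [Finsupp.mapDomain_add, map_add, map_add, hf, hg]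
  | single a b => rw [Finsupp.mapDomain_single, evl_single, evl_single]

theorem evl_congr {S : Type} {E E' : S → W} {z : S →₀ ℚ} (h : ∀ x ∈ z.support, E x = E' x) :
    evl (k := k) E z = evl (k := k) E' z := by
  rw [evl_apply, evl_apply]
  exact Finset.sum_congr rfl fun x hx => by rw [h x hx]

theorem evl_add {S : Type} (E E' : S → W) (z : S →₀ ℚ) :
    evl (k := k) (fun x => E x + E' x) z = evl (k := k) E z + evl (k := k) E' z := by
  rw [evl_apply, evl_apply, evl_apply, ← Finset.sum_add_distrib]
  exact Finset.sum_congr rfl fun x _ => smul_add _ _ _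

theorem evl_zero {S : Type} (z : S →₀ ℚ) : evl (k := k) (fun _ => (0 : W)) z = 0 := by
  rw [evl_apply]
  exact Finset.sum_eq_zero fun x _ => smul_zero _

/-- the factors of `X` which occur in the components of `f` in `U` -/
def srcs (f : Mor X Y) (U : Finset (Fin r')) : Finset (Fin r) :=
  Finset.univ.filter fun a => ∃ b ∈ U, (f b).src = some a

omit [CharZero k] in
theorem mem_srcs {f : Mor X Y} {U : Finset (Fin r')} {a : Fin r} :
    a ∈ srcs f U ↔ ∃ b ∈ U, (f b).src = some a := by
  unfold srcs
  rw [Finset.mem_filter]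
  exact ⟨fun h => h.2, fun h => ⟨Finset.mem_univ _, h⟩⟩

omit [CharZero k] in
theorem dim_srcs (f : Mor X Y) (U : Finset (Fin r')) : dimS X (srcs f U) ≤ dimS Y U := by
  unfold dimS
  rcases (srcs f U).eq_empty_or_nonempty with h0 | ⟨a₀, h0⟩
  · rw [h0, Finset.sum_empty]
    exact Nat.zero_le _
  have h1 : ∀ a ∈ srcs f U, ∃ b ∈ U, (f b).src = some a := fun a ha => mem_srcs.1 ha
  have hne : Nonempty (Fin r') := ⟨(h1 a₀ h0).choose⟩
  choose! t ht1 ht2 using h1
  have hinj : Set.InjOn t (srcs f U : Set (Fin r)) := by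
    intro a ha a' ha' h
    have h3 := ht2 a ha
    have h4 := ht2 a' ha'
    rw [h, h4] at h3
    exact (Option.some.inj h3).symm
  calc ∑ a ∈ srcs f U, (X a).m = ∑ a ∈ srcs f U, (Y (t a)).m := by
        refine Finset.sum_congr rfl fun a ha => ?_
        rw [Comp.src_eq (ht2 a ha)]
    _ = ∑ b ∈ (srcs f U).image t, (Y b).m := by
        rw [Finset.sum_image hinj]
    _ ≤ ∑ b ∈ U, (Y b).m := by
        refine Finset.sum_le_sum_of_subset fun b hb => ?_
        obtain ⟨a, ha, rfl⟩ := Finset.mem_image.1 hb
        exact ht1 a ha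

omit [CharZero k] in
/-- a morphism which is not injective on `U` -/
theorem not_injU {f : Mor X Y} {U : Finset (Fin r')} (h : ¬ InjU f U) :
    ∃ b ∈ U, srcs f U ⊆ srcs f (U.erase b) := by
  by_cases h1 : ∀ b ∈ U, ∃ a, (f b).src = some a
  · have h2 : ∃ b ∈ U, ∃ b' ∈ U, (f b).src = (f b').src ∧ b ≠ b' := by
      by_contra h2
      push Not at h2
      exact h ⟨h1, fun b hb b' hb' hbb => h2 b hb b' hb' hbb⟩
    obtain ⟨b, hb, b', hb', h3, h4⟩ := h2
    refine ⟨b, hb, fun a ha => ?_⟩
    obtain ⟨c, hc, hca⟩ := mem_srcs.1 ha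
    by_cases hcb : c = b
    · subst hcb
      exact mem_srcs.2 ⟨b', Finset.mem_erase.2 ⟨h4.symm, hb'⟩, h3 ▸ hca⟩
    · exact mem_srcs.2 ⟨c, Finset.mem_erase.2 ⟨hcb, hc⟩, hca⟩
  · push Not at h1
    obtain ⟨b, hb, h2⟩ := h1
    refine ⟨b, hb, fun a ha => ?_⟩
    obtain ⟨c, hc, hca⟩ := mem_srcs.1 ha
    refine mem_srcs.2 ⟨c, Finset.mem_erase.2 ⟨?_, hc⟩, hca⟩
    rintro rfl
    exact h2 a hca

omit [CharZero k] in
theorem dim_erase {U : Finset (Fin r')} {b : Fin r'} (hb : b ∈ U) (hm : 0 < (Y b).m) :
    dimS Y (U.erase b) < dimS Y U := by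
  unfold dimS
  rw [← Finset.add_sum_erase _ _ hb]
  omega

omit [CharZero k] [AddCommGroup W] [Module k W] in
theorem depOn_comp {E : (Fin r' → Crd k) → W} {U : Finset (Fin r')} (hU : DepOn Y U E)
    (f : Mor X Y) : DepOn X (srcs f U) fun x => E (f.app x) := by
  intro x x' hx hx' h
  refine hU _ _ (f.app_on hx) (f.app_on hx') fun b hb => ?_
  show (f b).app x = (f b).app x'
  cases h1 : (f b).src with
  | none => exact Comp.app_of_none h1 _ _
  | some a => rw [Comp.app_of_src h1, Comp.app_of_src h1, h a (mem_srcs.2 ⟨b, hb, h1⟩)]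

omit [CharZero k] in
theorem on_prj {U : Finset (Fin r)} {w x : Fin r → Crd k} (hw : OnP X w) (hx : OnP X x) :
    OnP X (prj U w x) := by
  intro a
  unfold prj
  split_ifs
  · exact hx a
  · exact hw a

omit [CharZero k] [AddCommGroup W] [Module k W] in
theorem depOn_mono {E : (Fin r → Crd k) → W} {U U' : Finset (Fin r)} (h : U ⊆ U')
    (hU : DepOn X U E) : DepOn X U' E :=
  fun x x' hx hx' h' => hU x x' hx hx' fun a ha => h' a (h ha)

omit [CharZero k] in
theorem dimS_mono {U U' : Finset (Fin r)} (h : U ⊆ U') : dimS X U ≤ dimS X U' :=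
  Finset.sum_le_sum_of_subset h

variable [IsAlgClosed k]

/-- class functions are zero on the cycles which are rationally equivalent to zero -/
theorem evl_ratP {E : (Fin r → Crd k) → W} (hE : IsCFP X E) {z : (Fin r → Crd k) →₀ ℚ}
    (hz : z ∈ RatP X ℚ) : evl (k := k) E z = 0 := by
  unfold RatP at hz
  induction hz using Submodule.span_induction with
  | mem z hz =>
    obtain ⟨K, i1, i2, hK, x, f, D, hf, hx, hD, rfl⟩ := hz
    have h1 : D = TInc.dv hK f := by
      ext v
      exact Dess4.hasOrd_unique hK hf (hD v) (ord_hasOrd hK v hf)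
    have h2 := hE K hK x f hf hx
    rw [← h1] at h2
    rw [← h2, map_finsuppSum]
    refine Finsupp.sum_congr fun v _ => ?_
    rw [evl_single, Rat.cast_intCast, Int.cast_smul_eq_zsmul]
  | zero => exact map_zero _
  | add x y _ _ hx hy => rw [map_add, hx, hy, add_zero]
  | smul a x _ hx => rw [evl_smul, hx, smul_zero]

/-- class functions which depend on the factors in `S` are zero on the filtration -/
theorem evl_fil {E : (Fin r → Crd k) → W} (hE : IsCFP X E) {S : Finset (Fin r)}
    (hS : DepOn X S E) {ν : ℕ} (hν : dimS X S < ν) {z : (Fin r → Crd k) →₀ ℚ}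
    (hz : z ∈ Fil X ν) : evl (k := k) E z = 0 := by
  by_cases h0 : z.support = ∅
  · rw [Finsupp.support_eq_empty.1 h0, map_zero]
  obtain ⟨w, hw⟩ := Finset.nonempty_iff_ne_empty.2 h0
  have hwP := hz.1 w hw
  have h1 := evl_ratP hE (hz.2 S hν w hwP)
  rw [evl_map] at h1
  rw [← h1]
  refine evl_congr fun x hx => ?_
  refine hS _ _ (hz.1 x hx) (on_prj hwP (hz.1 x hx)) fun a ha => ?_
  unfold prj
  rw [if_pos ha]

omit [Module k W] in
/-- the composition with a morphism is a class function -/
theorem isCFP_comp {E : (Fin r' → Crd k) → W} (hM : ∀ b, 0 < (Y b).F.M) (hE : IsCFP Y E)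
    (f : Mor X Y) : IsCFP X fun x => E (f.app x) := by
  intro K _ _ hK x g hg hx
  -- the image of the `K`-point
  have h1 : ∀ b, ∃ y : Crd K, (Y b).On y ∧ ∀ v : Place k K,
      vlc v y = (f b).app fun j => vlc v (x j) := by
    intro b
    cases h : f b with
    | const w hw =>
      refine ⟨(w.1.map (algebraMap k K), fun i => (w.2 i).map (algebraMap k K)),
        ⟨(onY_const _ _).2 hw.1, fun i hi => ?_⟩, fun v => ?_⟩
      · show (w.2 i).map (algebraMap k K) = none
        rw [hw.2 i hi]
        rfl
      · unfold vlc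
        show ((vlo v (w.1.map (algebraMap k K))),
          fun i => vlo v ((w.2 i).map (algebraMap k K))) = w
        simp only [vlo_const]
    | fac a h' ζ hζ =>
      refine ⟨mulc (fun i => algebraMap k K (ζ i)) (x a), ?_, fun v => ?_⟩
      · have h2 := hx a
        rw [h'] at h2
        refine on_mulc (fun i => ?_) h2
        rw [← map_pow, hζ, map_one]
      · unfold vlc mulc
        show (vlo v (x a).1, fun i => vlo v (((x a).2 i).map fun t => algebraMap k K (ζ i) * t)) =
          (vlo v (x a).1, fun i => (vlo v ((x a).2 i)).map fun t => ζ i * t)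
        have h2 : ∀ i, ζ i ≠ 0 := by
          intro i h3
          have h4 := hζ i
          rw [h3, zero_pow (hM b).ne'] at h4
          exact zero_ne_one h4
        simp only [vlo_mul v (h2 _)]
  choose y hy1 hy2 using h1
  have h2 := hE K hK y g hg hy1
  rw [← h2]
  refine Finsupp.sum_congr fun v _ => ?_
  congr 1
  refine congrArg E ?_
  funext b
  exact (hy2 b v).symm

/-- class functions on `Y` which depend on few factors, at the images of cycles in the
filtration -/
theorem evl_low {E : (Fin r' → Crd k) → W} (hM : ∀ b, 0 < (Y b).F.M) (hE : IsCFP Y E)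
    (f : Mor X Y) {U : Finset (Fin r')} (hU : DepOn Y U E) {ν : ℕ}
    (hν : dimS X (srcs f U) < ν) {z : (Fin r → Crd k) →₀ ℚ} (hz : z ∈ Fil X ν) :
    evl (k := k) (fun x => E (f.app x)) z = 0 :=
  evl_fil (isCFP_comp hM hE f) (depOn_comp hU f) hν hz

/-- **A combination of morphisms which kills the holomorphic forms of degree `ν`** -/
theorem evl_top (hV : ∀ b, Vanish (Y b).F) (hY : ∀ b, (Y b).F.Adm)
    {E : (Fin r' → Crd k) → W} (hE : IsCFP Y E) {U : Finset (Fin r')} (hU : DepOn Y U E)
    {γ : Mor X Y →₀ ℚ} (hγ : KillsForms γ (dimS Y U)) {z : (Fin r → Crd k) →₀ ℚ}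
    (hz : z ∈ Fil X (dimS Y U)) :
    ∑ f ∈ γ.support, (γ f : k) • evl (k := k) (fun x => E (f.app x)) z = 0 := by
  have hM : ∀ b, 0 < (Y b).F.M := fun b => (hY b).M0
  have hm : ∀ b, 0 < (Y b).m := fun b => lt_of_lt_of_le two_pos (hY b).two
  refine eig_induction (X := Y) hM (Φ := fun E => ∑ f ∈ γ.support,
    (γ f : k) • evl (k := k) (fun x => E (f.app x)) z = 0) ?_ ?_ (U := U) ?_ hE hU
  · refine Finset.sum_eq_zero fun f _ => ?_
    rw [evl_zero, smul_zero]
  · intro E E' h h'
    rw [← add_zero (0 : W)]
    nth_rewrite 1 [← h]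
    rw [← h', ← Finset.sum_add_distrib]
    refine Finset.sum_congr rfl fun f _ => ?_
    rw [evl_add, smul_add]
  intro β T hβM hβ2 hT hUT hβT
  by_cases hβ1 : ∀ b ∈ U, ∀ i < (Y b).m, 0 < β b i
  · -- nontrivial exponents
    rw [← Finset.sum_filter_add_sum_filter_not _ (fun f => InjU f U)]
    have h1 : ∑ f ∈ γ.support.filter (fun f => ¬ InjU f U),
        (γ f : k) • evl (k := k) (fun x => T (f.app x)) z = 0 := by
      refine Finset.sum_eq_zero fun f hf => ?_
      obtain ⟨b, hb, h2⟩ := not_injU (Finset.mem_filter.1 hf).2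
      rw [evl_low hM hT f hUT (lt_of_le_of_lt ((dimS_mono h2).trans (dim_srcs f _))
        (dim_erase hb (hm b))) hz, smul_zero]
    have h2 : ∑ f ∈ γ.support.filter (fun f => InjU f U),
        (γ f : k) • evl (k := k) (fun x => T (f.app x)) z = 0 := by
      simp only [evl_apply, Finset.smul_sum]
      rw [Finset.sum_comm]
      refine Finset.sum_eq_zero fun x hx => ?_
      have h3 := sum_inj hV hY hT hβT hUT (fun b hb i hi => ⟨hβ1 b hb i hi, hβM b i hi⟩) hβ2 hγ
        (hz.1 x hx)
      have h4 : ∑ f ∈ γ.support.filter (fun f => InjU f U), (γ f : k) • (z x : k) •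
          T (f.app x) = (z x : k) • ∑ f ∈ γ.support.filter (fun f => InjU f U),
            (γ f : k) • T (f.app x) := by
        rw [Finset.smul_sum]
        exact Finset.sum_congr rfl fun f _ => smul_comm _ _ _
      rw [h4, h3, smul_zero]
    rw [h1, h2, add_zero]
  · -- the function does not depend on one of the factors
    push Not at hβ1
    obtain ⟨b, hb, i, hi, h0⟩ := hβ1
    have h0' : β b i = 0 := Nat.le_zero.1 h0
    have hdep : DepOn Y (U.erase b) T := by
      intro x x' hx hx' h
      have hy : OnP Y (Function.update x b (x' b)) := by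
        intro c
        by_cases hc : c = b
        · subst hc
          rw [Function.update_self]
          exact hx' c
        · rw [Function.update_of_ne hc]
          exact hx c
      have hE0 : EigAt Y b i 0 T := h0' ▸ hβT b i hi
      have h1 : T x = T (Function.update x b (x' b)) :=
        indP hT (hY b) hi hE0 hx hy fun c hc => (Function.update_of_ne hc _ _).symm
      have h2 : T (Function.update x b (x' b)) = T x' := by
        refine hUT _ _ hy hx' fun c hc => ?_
        by_cases hcb : c = b
        · subst hcb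
          rw [Function.update_self]
        · rw [Function.update_of_ne hcb]
          exact h c (Finset.mem_erase.2 ⟨hcb, hc⟩)
      rw [h1, h2]
    refine Finset.sum_eq_zero fun f _ => ?_
    rw [evl_low hM hT f hdep (lt_of_le_of_lt (dim_srcs f _) (dim_erase hb (hm b))) hz, smul_zero]

end Pool.Agent.HGF
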