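import Pool.Agent.HGF.Val

/-!
# Project HGF: restriction of class functions to a subset of the points

`glue e s0 s`: the function on `Fin N` which is `s` on the image of the injective map `e` and `s0`
elsewhere. The values of `glue e (constants) (s over K)` are `glue e s0 (values)`.
-/

set_option autoImplicit false

noncomputable section

namespace Pool.Agent.HGF

open Polynomial Pool.Agent.ZCyc Pool.Agent.Dess Pool.Agent.GT Pool.Agent.TInc
open scoped Classical

variable {k : Type} [Field k] {m : ℕ} {F : Fam k m} {n N : ℕ} {W : Type} [AddCommGroup W]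

/-- `s` on the image of `e`, and `s0` elsewhere -/
def glue {α : Type} (e : Fin n → Fin N) (s0 : Fin N → α) (s : Fin n → α) (j : Fin N) : α :=
  if h : ∃ a, e a = j then s h.choose else s0 j

theorem glue_apply {α : Type} {e : Fin n → Fin N} (he : Function.Injective e) (s0 : Fin N → α)
    (s : Fin n → α) (a : Fin n) : glue e s0 s (e a) = s a := by
  have h : ∃ b, e b = e a := ⟨a, rfl⟩
  unfold glue
  rw [dif_pos h]
  exact congrArg s (he h.choose_spec)

theorem glue_of {α : Type} {e : Fin n → Fin N} (s0 : Fin N → α)
    (s : Fin n → α) {j : Fin N} (hj : ∀ a, e a ≠ j) : glue e s0 s j = s0 j := by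
  unfold glue
  rw [dif_neg]
  rintro ⟨a, ha⟩
  exact hj a ha

theorem glue_self {α : Type} {e : Fin n → Fin N} (he : Function.Injective e) (s0 : Fin N → α) :
    glue e s0 (fun a => s0 (e a)) = s0 := by
  funext j
  by_cases h : ∃ a, e a = j
  · obtain ⟨a, rfl⟩ := h
    exact glue_apply he s0 _ a
  · exact glue_of s0 _ fun a ha => h ⟨a, ha⟩

/-- In `IsCF F E` take the constant points `s0`, `u0` (`Option.map (algebraMap k K)`) outside of the
image of `e`; use `vlo_const`, `onY_const`. -/
theorem isCF_glue [IsAlgClosed k] [CharZero k]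
    {E : (Fin N → Option k) → (Fin N → Fin m → Option k) → W} (hE : IsCF F E)
    {e : Fin n → Fin N} (he : Function.Injective e) {s0 : Fin N → Option k}
    {u0 : Fin N → Fin m → Option k} (h0 : ∀ j, OnY F (s0 j) (u0 j)) :
    IsCF F fun (s : Fin n → Option k) (u : Fin n → Fin m → Option k) =>
      E (glue e s0 s) (glue e u0 u) := by
  intro K _ _ hK s u f hf hs
  have key := hE K hK (glue e (fun j => (s0 j).map (algebraMap k K)) s)
    (glue e (fun j i => (u0 j i).map (algebraMap k K)) u) f hf ?_
  · have e1 : ∀ v : Place k K,
        (fun j => vlo v (glue e (fun j => (s0 j).map (algebraMap k K)) s j)) =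
          glue e s0 fun a => vlo v (s a) := by
      intro v
      funext j
      by_cases h : ∃ a, e a = j
      · obtain ⟨a, rfl⟩ := h
        rw [glue_apply he, glue_apply he]
      · have h' : ∀ a, e a ≠ j := fun a ha => h ⟨a, ha⟩
        rw [glue_of _ _ h', glue_of _ _ h', vlo_const]
    have e2 : ∀ v : Place k K,
        (fun j i => vlo v (glue e (fun j i => (u0 j i).map (algebraMap k K)) u j i)) =
          glue e u0 fun a i => vlo v (u a i) := by
      intro v
      funext j
      by_cases h : ∃ a, e a = j
      · obtain ⟨a, rfl⟩ := h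
        rw [glue_apply he, glue_apply he]
      · have h' : ∀ a, e a ≠ j := fun a ha => h ⟨a, ha⟩
        rw [glue_of _ _ h', glue_of _ _ h']
        funext i
        rw [vlo_const]
    simp only [e1, e2] at key
    exact key
  · intro j
    by_cases h : ∃ a, e a = j
    · obtain ⟨a, rfl⟩ := h
      rw [glue_apply he, glue_apply he]
      exact hs a
    · have h' : ∀ a, e a ≠ j := fun a ha => h ⟨a, ha⟩
      rw [glue_of _ _ h', glue_of _ _ h']
      exact (onY_const _ _).2 (h0 j)

theorem isEig_glue [Module k W] {E : (Fin N → Option k) → (Fin N → Fin m → Option k) → W}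
    {M : ℕ} {b : Fin m → ℕ} (hE : IsEig M b E) {e : Fin n → Fin N}
    (he : Function.Injective e) (s0 : Fin N → Option k) (u0 : Fin N → Fin m → Option k) :
    IsEig M b fun (s : Fin n → Option k) (u : Fin n → Fin m → Option k) =>
      E (glue e s0 s) (glue e u0 u) := by
  intro s u j i ζ hζ
  have key := hE (glue e s0 s) (glue e u0 u) (e j) i ζ hζ
  have e1 : rot (e j) i ζ (glue e u0 u) = glue e u0 (rot j i ζ u) := by
    funext l
    by_cases h : ∃ a, e a = l
    · obtain ⟨a, rfl⟩ := h
      rw [glue_apply he]
      unfold rot
      by_cases haj : a = j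
      · subst haj
        rw [Function.update_self, Function.update_self, glue_apply he]
      · rw [Function.update_of_ne haj, Function.update_of_ne fun h => haj (he h),
          glue_apply he]
    · have h' : ∀ a, e a ≠ l := fun a ha => h ⟨a, ha⟩
      rw [glue_of _ _ h']
      unfold rot
      rw [Function.update_of_ne fun h => h' j h.symm, glue_of _ _ h']
  rw [e1] at key
  exact key

/-- linear combinations and compositions -/
theorem isCF_sub [IsAlgClosed k] [CharZero k]
    {E E' : (Fin N → Option k) → (Fin N → Fin m → Option k) → W} (hE : IsCF F E)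
    (hE' : IsCF F E') : IsCF F fun s u => E s u - E' s u := by
  intro K _ _ hK s u f hf hs
  have h1 := hE K hK s u f hf hs
  have h2 := hE' K hK s u f hf hs
  simp only [Finsupp.sum, smul_sub, Finset.sum_sub_distrib] at h1 h2 ⊢
  rw [h1, h2, sub_zero]

end Pool.Agent.HGF
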