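import Pool.Agent.HGF.KDefs
import Pool.Agent.HGF.Ind
import Pool.Agent.HGF.Slot

/-!
# Project HGF, block K: restriction of class functions on products to some factors

`crd s u` are the coordinates (indexed by natural numbers) of the point `(s, u)` of a
hypersurface. `glue e x0 q` (see `Slot.lean`) is the point of the product with the factors `e j`
replaced by `q j`.

1. `on_crd`, `crd_of_on`, `vlc_crd`: definitions (`funext`, `dif_pos`, `dif_neg`).
2. `onP_glue`: if `a = e j` then `glue e x0 q a = q j` (`glue_apply`) lies on `Z = X a`; otherwise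
`glue_of`.
3. `isCF_glueP`: let `K` be the function field of a curve, `s`, `u` a tuple of `K`-points of `Z`.
The `K`-point `glue e (constant point) (fun j => crd (s j) (u j))` lies on the product
(`onY_const` for the constant coordinates), its value at `v` is `glue e x0 (fun j => crd (vlo v (s
j)) (vlo v (u j i)))` (`vlo_const`, `vlc_crd`). So the relation for `T` gives the relation.
Compare `isCF_glue` in `Slot.lean`.
4. `isEig_glueP`: `crd (s j) (rot j i ζ u j) = ` the coordinates with `u_i` multiplied by `ζ`, so
the argument of `T` is `rotc (e j) i ζ (..)`. Compare `isEig_glue`.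
5. `indP`: let `x`, `x'` be points of the product which agree outside of `a`. Take `N = 1`, `e =
fun _ => a`, `Z = X a` in `isCF_glueP`, `x0 = x`: the class function of one point of `X a` is
invariant under the rotations of the coordinate `i`, so it is constant (`ind` for `N = 1`); its
values at the coordinates of `x a` and of `x' a` are `T x` and `T x'` (`crd_of_on`).
6. `zeroP`: by `indP` the function `T` does not depend on the factor `a`; `T (rotc a i' ζ x) = ζ ^
e T x` and `rotc a i' ζ x` is a point of the product (`onY_mul`) which agrees with `x` outside of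
`a`, so `(ζ ^ e - 1) T x = 0`; take a primitive root of unity `ζ` of order `M`, `ζ ^ e ≠ 1` as `0
< e < M` (`IsPrimitiveRoot.pow_eq_one_iff_dvd`; existence as in `zero_of`, `Eig.lean`).
-/

set_option autoImplicit false

noncomputable section

namespace Pool.Agent.HGF

open Pool.Agent.ZCyc Pool.Agent.Dess Pool.Agent.GT Pool.Agent.TInc
open scoped Classical

variable {k : Type} [Field k] {r : ℕ} {X : Fin r → Hyp k} {W : Type} [AddCommGroup W]
  [Module k W] {T : (Fin r → Crd k) → W}

/-- the coordinates of a point, indexed by natural numbers -/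
def crd {K : Type} {m : ℕ} (s : Option K) (u : Fin m → Option K) : Crd K :=
  (s, fun i => if h : i < m then u ⟨i, h⟩ else none)

theorem crd_snd {K : Type} {m : ℕ} (s : Option K) (u : Fin m → Option K) (i : Fin m) :
    (crd s u).2 i = u i := dif_pos i.2

private theorem crd_none_KGlue {K : Type} {m : ℕ} (s : Option K) (u : Fin m → Option K) {i : ℕ}
    (hi : m ≤ i) : (crd s u).2 i = none := dif_neg (Nat.not_lt.2 hi)

theorem on_crd (Z : Hyp k) {K : Type} [Field K] [Algebra k K] {s : Option K}
    {u : Fin Z.m → Option K} : Z.On (crd s u) ↔ OnY Z.F s u := by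
  have h1 : (fun i : Fin Z.m => (crd s u).2 i) = u := funext fun i => crd_snd s u i
  constructor
  · intro h
    have h2 := h.1
    rw [h1] at h2
    exact h2
  · intro h
    refine ⟨?_, fun i hi => crd_none_KGlue s u hi⟩
    rw [h1]
    exact h

theorem crd_of_on {Z : Hyp k} {K : Type} [Field K] [Algebra k K] {p : Crd K} (h : Z.On p) :
    crd p.1 (fun i : Fin Z.m => p.2 i) = p := by
  refine Prod.ext rfl (funext fun i => ?_)
  by_cases hi : i < Z.m
  · exact crd_snd p.1 (fun i : Fin Z.m => p.2 i) ⟨i, hi⟩
  · rw [crd_none_KGlue _ _ (Nat.not_lt.1 hi), h.2 i (Nat.not_lt.1 hi)]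

theorem vlc_crd {K : Type} [Field K] [Algebra k K] (v : Place k K) {m : ℕ} (s : Option K)
    (u : Fin m → Option K) : vlc v (crd s u) = crd (vlo v s) fun i => vlo v (u i) := by
  refine Prod.ext rfl (funext fun i => ?_)
  show vlo v ((crd s u).2 i) = _
  by_cases hi : i < m
  · rw [show i = ((⟨i, hi⟩ : Fin m) : ℕ) from rfl, crd_snd, crd_snd]
  · rw [crd_none_KGlue _ _ (Nat.not_lt.1 hi), crd_none_KGlue _ _ (Nat.not_lt.1 hi), vlo_none]

theorem onP_glue {N : ℕ} {Z : Hyp k} {e : Fin N → Fin r} (he : Function.Injective e)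
    (hX : ∀ j, X (e j) = Z) {K : Type} [Field K] [Algebra k K] {x0 : Fin r → Crd K}
    (h0 : OnP X x0) {q : Fin N → Crd K} (hq : ∀ j, Z.On (q j)) : OnP X (glue e x0 q) := by
  intro a
  by_cases h : ∃ j, e j = a
  · obtain ⟨j, rfl⟩ := h
    rw [glue_apply he, hX j]
    exact hq j
  · rw [glue_of _ _ fun j hj => h ⟨j, hj⟩]
    exact h0 a

/-- values of points of the product -/
theorem onP_vlc [IsAlgClosed k] {K : Type} [Field K] [Algebra k K] [HasRes k K] (v : Place k K)
    {x : Fin r → Crd K} (h : OnP X x) : OnP X fun a => vlc v (x a) := by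
  intro a
  refine ⟨onY_vlo v (h a).1, fun i hi => ?_⟩
  show vlo v ((x a).2 i) = none
  rw [(h a).2 i hi, vlo_none]

private theorem onP_const_KGlue {K : Type} [Field K] [Algebra k K] {x : Fin r → Crd k}
    (h : OnP X x) : OnP X fun a =>
      ((x a).1.map (algebraMap k K), fun i => ((x a).2 i).map (algebraMap k K)) := by
  intro a
  refine ⟨(onY_const _ _).2 (h a).1, fun i hi => ?_⟩
  show ((x a).2 i).map (algebraMap k K) = none
  rw [(h a).2 i hi, Option.map_none]

private theorem glue_rot_KGlue {N m : ℕ} {e : Fin N → Fin r} (he : Function.Injective e)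
    (x0 : Fin r → Crd k) (s : Fin N → Option k) (u : Fin N → Fin m → Option k) (j : Fin N)
    (i : Fin m) (ζ : k) : glue e x0 (fun j' => crd (s j') (rot j i ζ u j')) =
      rotc (e j) i ζ (glue e x0 fun j' => crd (s j') (u j')) := by
  funext l
  unfold rotc
  by_cases hl : ∃ j', e j' = l
  · obtain ⟨j', rfl⟩ := hl
    rw [glue_apply he]
    by_cases hj : j' = j
    · subst hj
      rw [Function.update_self, glue_apply he]
      refine Prod.ext rfl (funext fun i' => ?_)
      show (crd (s j') (rot j' i ζ u j')).2 i' = Function.update (crd (s j') (u j')).2 (i : ℕ)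
        (((crd (s j') (u j')).2 i).map fun t => ζ * t) i'
      unfold rot
      rw [Function.update_self]
      by_cases hi : i' < m
      · rw [show i' = ((⟨i', hi⟩ : Fin m) : ℕ) from rfl, crd_snd]
        by_cases h2 : (⟨i', hi⟩ : Fin m) = i
        · rw [h2, Function.update_self, Function.update_self, crd_snd]
        · rw [Function.update_of_ne h2, Function.update_of_ne fun h => h2 (Fin.ext h), crd_snd]
      · have h2 : i' ≠ (i : ℕ) := fun h => hi (h ▸ i.2)
        rw [Function.update_of_ne h2, crd_none_KGlue _ _ (Nat.not_lt.1 hi),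
          crd_none_KGlue _ _ (Nat.not_lt.1 hi)]
    · rw [Function.update_of_ne fun h => hj (he h), glue_apply he]
      unfold rot
      rw [Function.update_of_ne hj]
  · have h' : ∀ a, e a ≠ l := fun a ha => hl ⟨a, ha⟩
    rw [glue_of _ _ h', Function.update_of_ne fun h => h' j h.symm, glue_of _ _ h']

omit [Module k W] in
theorem isCF_glueP [IsAlgClosed k] [CharZero k] (hT : IsCFP X T) {N : ℕ} {Z : Hyp k}
    {e : Fin N → Fin r} (he : Function.Injective e) (hX : ∀ j, X (e j) = Z)
    {x0 : Fin r → Crd k} (h0 : OnP X x0) :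
    IsCF Z.F fun (s : Fin N → Option k) (u : Fin N → Fin Z.m → Option k) =>
      T (glue e x0 fun j => crd (s j) (u j)) := by
  intro K _ _ hK s u f hf hs
  have key := hT K hK (glue e (fun a => ((x0 a).1.map (algebraMap k K),
    fun i => ((x0 a).2 i).map (algebraMap k K))) fun j => crd (s j) (u j)) f hf
    (onP_glue he hX (onP_const_KGlue h0) fun j => (on_crd Z).2 (hs j))
  have e1 : ∀ v : Place k K, (fun j => vlc v (glue e (fun a => ((x0 a).1.map (algebraMap k K),
      fun i => ((x0 a).2 i).map (algebraMap k K))) (fun j => crd (s j) (u j)) j)) =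
        glue e x0 fun j => crd (vlo v (s j)) fun i => vlo v (u j i) := by
    intro v
    funext a
    by_cases h : ∃ j, e j = a
    · obtain ⟨j, rfl⟩ := h
      rw [glue_apply he, glue_apply he, vlc_crd]
    · have h' : ∀ j, e j ≠ a := fun j hj => h ⟨j, hj⟩
      rw [glue_of _ _ h', glue_of _ _ h']
      refine Prod.ext (vlo_const v _) (funext fun i => ?_)
      exact vlo_const v _
  simp only [e1] at key
  exact key

theorem isEig_glueP {β : Fin r → ℕ → ℕ} (hT : IsEigP X β T) {N : ℕ} {Z : Hyp k}
    {e : Fin N → Fin r} (he : Function.Injective e) (hX : ∀ j, X (e j) = Z) {b : Fin Z.m → ℕ}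
    (hb : ∀ j (i : Fin Z.m), β (e j) i = b i) (x0 : Fin r → Crd k) :
    IsEig Z.F.M b fun (s : Fin N → Option k) (u : Fin N → Fin Z.m → Option k) =>
      T (glue e x0 fun j => crd (s j) (u j)) := by
  intro s u j i ζ hζ
  have h1 : (X (e j)).F.M = Z.F.M := by rw [hX j]
  have h2 : (i : ℕ) < (X (e j)).m := by
    rw [hX j]
    exact i.2
  beta_reduce
  rw [glue_rot_KGlue he, hT (e j) i h2 _ ζ (by rw [h1]; exact hζ), hb]

/-- a class function which is invariant under the rotations of a coordinate of the factor `a` does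
not depend on the factor `a` -/
theorem indP [IsAlgClosed k] [CharZero k] (hT : IsCFP X T) {a : Fin r} (ha : (X a).F.Adm)
    {i : ℕ} (hi : i < (X a).m) (hβ : EigAt X a i 0 T) {x x' : Fin r → Crd k} (hx : OnP X x)
    (hx' : OnP X x') (h : ∀ b, b ≠ a → x b = x' b) : T x = T x' := by
  have he : Function.Injective (fun _ : Fin 1 => a) := fun p q _ => Subsingleton.elim p q
  have hgl : ∀ y : Fin r → Crd k, (X a).On (y a) → (∀ b, b ≠ a → x b = y b) →
      glue (fun _ : Fin 1 => a) x (fun _ => crd (y a).1 fun i : Fin (X a).m => (y a).2 i) = y := by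
    intro y hy hxy
    funext b
    by_cases hb : b = a
    · subst hb
      rw [crd_of_on hy]
      exact glue_apply he _ _ (0 : Fin 1)
    · rw [glue_of _ _ fun _ hc => hb hc.symm]
      exact hxy b hb
  have h1 := ind ha (isCF_glueP hT he (fun _ => rfl) hx) (j := 0) (i := ⟨i, hi⟩)
    (fun s u ζ hζ => by
      rw [glue_rot_KGlue he, hβ _ ζ hζ, pow_zero, one_smul])
    (s := fun _ => (x a).1) (u := fun _ i => (x a).2 i)
    (s' := fun _ => (x' a).1) (u' := fun _ i => (x' a).2 i)
    (fun _ => (hx a).1) (fun _ => (hx' a).1)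
    (fun l hl => absurd (Subsingleton.elim l 0) hl) (fun l hl => absurd (Subsingleton.elim l 0) hl)
  beta_reduce at h1
  rw [hgl x (hx a) fun _ _ => rfl, hgl x' (hx' a) h] at h1
  exact h1

theorem zeroP [IsAlgClosed k] [CharZero k] (hT : IsCFP X T) {a : Fin r} (ha : (X a).F.Adm)
    {i i' e : ℕ} (hi : i < (X a).m) (hi' : i' < (X a).m) (hβ : EigAt X a i 0 T)
    (hβ' : EigAt X a i' e T) (he0 : 0 < e) (he : e < (X a).F.M) {x : Fin r → Crd k}
    (hx : OnP X x) : T x = 0 := by
  have hM : (X a).F.M ≠ 0 := by omega
  have : NeZero ((X a).F.M : k) := ⟨Nat.cast_ne_zero.2 hM⟩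
  obtain ⟨ζ, hζ⟩ := HasEnoughRootsOfUnity.exists_primitiveRoot k (X a).F.M
  have hx' : OnP X (rotc a i' ζ x) := by
    intro b
    by_cases hb : b = a
    · subst hb
      unfold rotc
      rw [Function.update_self]
      refine ⟨?_, fun l hl => ?_⟩
      · have h1 := onY_mul (F := (X b).F) (K := k) hζ.pow_eq_one ⟨i', hi'⟩ (hx b).1
        have h2 : (fun l : Fin (X b).m => Function.update (x b).2 i'
            (((x b).2 i').map fun t => ζ * t) l) =
              Function.update (fun l : Fin (X b).m => (x b).2 l) ⟨i', hi'⟩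
                (((x b).2 i').map fun t => ζ * t) := by
          funext l
          by_cases hl : l = ⟨i', hi'⟩
          · subst hl
            rw [Function.update_self, Function.update_self]
          · rw [Function.update_of_ne hl, Function.update_of_ne fun h => hl (Fin.ext h)]
        show OnY (X b).F (x b).1 (fun l : Fin (X b).m => Function.update (x b).2 i'
            (((x b).2 i').map fun t => ζ * t) l)
        rw [h2]
        exact h1
      · show Function.update (x b).2 i' _ l = none
        rw [Function.update_of_ne (by omega)]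
        exact (hx b).2 l hl
    · unfold rotc
      rw [Function.update_of_ne hb]
      exact hx b
  have h1 := indP hT ha hi hβ hx hx' fun b hb => by
    unfold rotc
    rw [Function.update_of_ne hb]
  rw [hβ' _ ζ hζ.pow_eq_one] at h1
  have h4 : (ζ ^ e - 1) • T x = 0 := by rw [sub_smul, one_smul, ← h1, sub_self]
  rcases smul_eq_zero.1 h4 with h5 | h5
  · exfalso
    have h6 := (hζ.pow_eq_one_iff_dvd e).1 (sub_eq_zero.1 h5)
    have h7 := Nat.le_of_dvd he0 h6
    omega
  · exact h5

end Pool.Agent.HGF
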