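import Pool.Agent.HGF.KGlue

/-!
# Project HGF, block K: morphisms of products

Images of points under morphisms; an eigenfunction at a point with all coordinates multiplied by
roots of unity.
-/

set_option autoImplicit false

noncomputable section

namespace Pool.Agent.HGF

open Pool.Agent.ZCyc Pool.Agent.Dess Pool.Agent.GT Pool.Agent.TInc
open scoped Classical

variable {k : Type} [Field k] {r r' : ℕ} {X : Fin r → Hyp k} {Y : Fin r' → Hyp k} {W : Type}
  [AddCommGroup W] [Module k W] {T : (Fin r' → Crd k) → W}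

lemma Comp.src_eq {Z : Hyp k} {f : Comp X Z} {a : Fin r} (h : f.src = some a) : X a = Z := by
  cases f with
  | const w hw => simp [Comp.src] at h
  | fac a' h' ζ hζ =>
    simp only [Comp.src, Option.some.injEq] at h
    subst h
    exact h'

/-- all coordinates `u_i` are multiplied -/
def mulc {K : Type} [Field K] (ζ : ℕ → K) (p : Crd K) : Crd K :=
  (p.1, fun i => (p.2 i).map fun t => ζ i * t)

lemma Comp.app_of_src {Z : Hyp k} {f : Comp X Z} {a : Fin r} (h : f.src = some a)
    (x : Fin r → Crd k) : f.app x = mulc f.rts (x a) := by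
  cases f with
  | const w hw => simp [Comp.src] at h
  | fac a' h' ζ hζ =>
    simp only [Comp.src, Option.some.injEq] at h
    subst h
    rfl

lemma Comp.app_of_none {Z : Hyp k} {f : Comp X Z} (h : f.src = none)
    (x x' : Fin r → Crd k) : f.app x = f.app x' := by
  cases f with
  | const w hw => rfl
  | fac a' h' ζ hζ => simp [Comp.src] at h

lemma Comp.rts_pow {Z : Hyp k} (f : Comp X Z) (i : ℕ) : f.rts i ^ Z.F.M = 1 := by
  cases f with
  | const w hw => exact one_pow _
  | fac a' h' ζ hζ => exact hζ i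

lemma mulc_one {K : Type} [Field K] (p : Crd K) : mulc (fun _ => 1) p = p := by
  unfold mulc
  refine Prod.ext rfl ?_
  funext i
  show (p.2 i).map (fun t => 1 * t) = p.2 i
  cases p.2 i with
  | none => rfl
  | some t => simp

lemma on_mulc {Z : Hyp k} {K : Type} [Field K] [Algebra k K] {ζ : ℕ → K}
    (hζ : ∀ i, ζ i ^ Z.F.M = 1) {p : Crd K} (h : Z.On p) : Z.On (mulc ζ p) := by
  refine ⟨?_, fun i hi => ?_⟩
  · have h1 := h.1
    unfold OnY at h1 ⊢
    have h2 : ∀ i, snd ((mulc ζ p).2 i) = snd (p.2 i) := by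
      intro i
      unfold mulc
      show snd ((p.2 i).map fun t => ζ i * t) = snd (p.2 i)
      cases p.2 i with
      | none => rfl
      | some t => rfl
    have h3 : ∀ i, fst ((mulc ζ p).2 i) ^ Z.F.M = fst (p.2 i) ^ Z.F.M := by
      intro i
      unfold mulc
      show fst ((p.2 i).map fun t => ζ i * t) ^ Z.F.M = fst (p.2 i) ^ Z.F.M
      cases p.2 i with
      | none => rfl
      | some t =>
        show (ζ i * t) ^ Z.F.M = t ^ Z.F.M
        rw [mul_pow, hζ, one_mul]
    simp only [h2, h3]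
    exact h1
  · show ((p.2 i).map fun t => ζ i * t) = none
    rw [h.2 i hi]
    rfl

lemma Comp.app_on {Z : Hyp k} (f : Comp X Z) {x : Fin r → Crd k} (hx : OnP X x) :
    Z.On (f.app x) := by
  cases h : f.src with
  | none =>
    cases f with
    | const w hw => exact hw
    | fac a' h' ζ hζ => simp [Comp.src] at h
  | some a =>
    rw [Comp.app_of_src h]
    have h1 := hx a
    rw [Comp.src_eq h] at h1
    exact on_mulc f.rts_pow h1

lemma Mor.app_on (f : Mor X Y) {x : Fin r → Crd k} (hx : OnP X x) : OnP Y (f.app x) :=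
  fun b => (f b).app_on hx

/-- the coordinates with the numbers in `P` are multiplied -/
private def mulS_KMor (P : Finset (Σ _ : Fin r', ℕ)) (ζ : Fin r' → ℕ → k) (x : Fin r' → Crd k) :
    Fin r' → Crd k := fun b => ((x b).1, fun i =>
  if (⟨b, i⟩ : Σ _ : Fin r', ℕ) ∈ P then ((x b).2 i).map fun t => ζ b i * t else (x b).2 i)

private lemma mulS_insert_KMor {P : Finset (Σ _ : Fin r', ℕ)} {ζ : Fin r' → ℕ → k}
    {x : Fin r' → Crd k} {b : Fin r'} {i : ℕ} (h : (⟨b, i⟩ : Σ _ : Fin r', ℕ) ∉ P) :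
    mulS_KMor (insert ⟨b, i⟩ P) ζ x = rotc b i (ζ b i) (mulS_KMor P ζ x) := by
  funext b'
  unfold rotc
  by_cases hb : b' = b
  · subst hb
    rw [Function.update_self]
    refine Prod.ext rfl ?_
    funext i'
    show _ = Function.update (mulS_KMor P ζ x b').2 i _ i'
    by_cases hi : i' = i
    · subst hi
      rw [Function.update_self]
      unfold mulS_KMor
      dsimp only
      rw [if_pos (Finset.mem_insert_self _ _), if_neg h]
    · rw [Function.update_of_ne hi]
      unfold mulS_KMor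
      dsimp only
      have h1 : (⟨b', i'⟩ : Σ _ : Fin r', ℕ) ∈ insert ⟨b', i⟩ P ↔
          (⟨b', i'⟩ : Σ _ : Fin r', ℕ) ∈ P := by
        rw [Finset.mem_insert]
        constructor
        · rintro (h2 | h2)
          · simp only [Sigma.mk.injEq, heq_eq_eq, true_and] at h2
            exact absurd h2 hi
          · exact h2
        · exact Or.inr
      simp only [h1]
  · rw [Function.update_of_ne hb]
    refine Prod.ext rfl ?_
    funext i'
    show (if (⟨b', i'⟩ : Σ _ : Fin r', ℕ) ∈ insert ⟨b, i⟩ P then _ else _) =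
      if (⟨b', i'⟩ : Σ _ : Fin r', ℕ) ∈ P then _ else _
    have h1 : (⟨b', i'⟩ : Σ _ : Fin r', ℕ) ∈ insert ⟨b, i⟩ P ↔
        (⟨b', i'⟩ : Σ _ : Fin r', ℕ) ∈ P := by
      rw [Finset.mem_insert]
      constructor
      · rintro (h2 | h2)
        · simp only [Sigma.mk.injEq, heq_eq_eq] at h2
          exact absurd h2.1 hb
        · exact h2
      · exact Or.inr
    simp only [h1]

private lemma eig_mulS_KMor {β : Fin r' → ℕ → ℕ} (hT : IsEigP Y β T) {ζ : Fin r' → ℕ → k}
    (hζ : ∀ b i, ζ b i ^ (Y b).F.M = 1) (x : Fin r' → Crd k) (P : Finset (Σ _ : Fin r', ℕ))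
    (hP : ∀ p ∈ P, p.2 < (Y p.1).m) :
    T (mulS_KMor P ζ x) = (∏ p ∈ P, ζ p.1 p.2 ^ β p.1 p.2) • T x := by
  induction P using Finset.induction_on with
  | empty =>
    rw [Finset.prod_empty, one_smul]
    congr 1
  | insert p P hp ih =>
    obtain ⟨b, i⟩ := p
    rw [mulS_insert_KMor hp, hT b i (hP _ (Finset.mem_insert_self _ _)) _ _ (hζ b i),
      ih fun p hp => hP p (Finset.mem_insert_of_mem hp), Finset.prod_insert hp, mul_smul]

/-- an eigenfunction at a point with multiplied coordinates -/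
theorem eigP_mul {β : Fin r' → ℕ → ℕ} (hT : IsEigP Y β T) {ζ : Fin r' → ℕ → k}
    (hζ : ∀ b i, ζ b i ^ (Y b).F.M = 1) {x : Fin r' → Crd k} (hx : OnP Y x) :
    T (fun b => mulc (ζ b) (x b)) =
      (∏ b, ∏ i ∈ Finset.range (Y b).m, ζ b i ^ β b i) • T x := by
  have h1 := eig_mulS_KMor hT hζ x (Finset.univ.sigma fun b => Finset.range (Y b).m)
    fun p hp => Finset.mem_range.1 (Finset.mem_sigma.1 hp).2
  rw [Finset.prod_sigma] at h1
  rw [← h1]
  congr 1
  funext b
  refine Prod.ext rfl ?_
  funext i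
  unfold mulS_KMor mulc
  dsimp only
  have h2 : (⟨b, i⟩ : Σ _ : Fin r', ℕ) ∈ Finset.univ.sigma (fun b => Finset.range (Y b).m) ↔
      i < (Y b).m := by
    rw [Finset.mem_sigma, Finset.mem_range]
    exact ⟨fun h => h.2, fun h => ⟨Finset.mem_univ _, h⟩⟩
  by_cases hi : i < (Y b).m
  · rw [if_pos (h2.2 hi)]
  · rw [if_neg (fun h => hi (h2.1 h)), (hx b).2 i (not_lt.1 hi)]
    rfl

end Pool.Agent.HGF
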