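import Pool.Agent.HGF.VanC
import Pool.Agent.HGF.CoD

/-!
# The vanishing theorem
-/

set_option autoImplicit false

noncomputable section

namespace Pool.Agent.HGF

open Polynomial Finset Pool.Agent.ZCyc Pool.Agent.Dess Pool.Agent.GT Pool.Agent.TInc
open Pool.Agent.VFP (Om tt)
open scoped Classical

variable {k : Type} [Field k] [IsAlgClosed k] [CharZero k] {m : ℕ} {F : Fam k m}

omit [CharZero k] in
theorem openGen : OpenGen m (Gen m : (ℕ → k) → (ℕ → k) → Prop) := by
  intro x y v x' y' hx' hy' _ hx hy hG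
  refine ⟨univ.image fun q => gn m x y q, fun h => ?_, fun w x'' y'' hw hx'' _ _ hxw hyw q => ?_⟩
  · obtain ⟨q, -, hq⟩ := mem_image.1 h
    have h1 := gn_at hx hy hx'.ne0 q
    rw [hq] at h1
    exact hG q (h1.unique (at_zero v))
  · have h0 : gn m x y q ≠ 0 := by
      intro h
      have h1 := gn_at hx hy hx'.ne0 q
      rw [h] at h1
      exact hG q (h1.unique (at_zero v))
    have h1 := hw _ (mem_image_of_mem _ (mem_univ q))
    obtain ⟨c, hc0, hc⟩ := unit_at h0 h1.1 h1.2
    rw [(gn_at hxw hyw hx''.ne0 q).unique hc]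
    exact hc0

/-- **The vanishing theorem.** -/
theorem vanish (hF : F.Adm) {i0 : Fin m} (hi0 : (F.C i0).natDegree < F.d i0) : Vanish F := by
  have hm : 0 < m := lt_of_lt_of_le two_pos hF.two
  exact vanish_of hF hm hi0 (rProp hm) openGen (fun a h0 h1 => gn_const h0 h1)
    (fun N W _ _ b E hb hE hEig => coreRel hF hb hE hEig hm) (curveThm hF hm hi0)

end Pool.Agent.HGF
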