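import Pool.Agent.HGF.KFil
import Pool.Agent.HGF.Cng
import Pool.Agent.HGF.VanD

/-!
# Project HGF, block K: the properties of the filtration
-/

set_option autoImplicit false

noncomputable section

namespace Pool.Agent.HGF

open Pool.Agent.ZCyc Pool.Agent.Dess Pool.Agent.GT Pool.Agent.TInc
open scoped Classical

variable {k : Type} [Field k] [IsAlgClosed k] [CharZero k] {r r' : ℕ} {X : Fin r → Hyp k}
  {Y : Fin r' → Hyp k}

/-- the class of a point -/
def clsP (X : Fin r → Hyp k) (x : Fin r → Crd k) : ((Fin r → Crd k) →₀ k) ⧸ RatP X k :=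
  Submodule.Quotient.mk (Finsupp.single x 1)

theorem isCFP_cls : IsCFP X (clsP X) := by
  intro K _ _ hK x f hf hx
  have h : ((TInc.dv hK f).sum fun v a => Finsupp.single (fun j => vlc v (x j)) (a : k)) ∈
      RatP X k :=
    Submodule.subset_span ⟨K, _, _, hK, x, f, TInc.dv hK f, hf, hx,
      fun v => ord_hasOrd hK v hf, rfl⟩
  have h2 : (RatP X k).mkQ ((TInc.dv hK f).sum fun v a => Finsupp.single
      (fun j => vlc v (x j)) (a : k)) = 0 := by
    rw [Submodule.mkQ_apply, Submodule.Quotient.mk_eq_zero]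
    exact h
  rw [map_finsuppSum] at h2
  rw [← h2]
  refine Finsupp.sum_congr fun v _ => ?_
  unfold clsP
  rw [Submodule.mkQ_apply, ← Int.cast_smul_eq_zsmul k, ← Submodule.Quotient.mk_smul,
    Finsupp.smul_single', mul_one]

omit [IsAlgClosed k] in
private theorem exists_ret_KRat : ∃ p : k →ₗ[ℚ] ℚ, ∀ q : ℚ, p (algebraMap ℚ k q) = q := by
  obtain ⟨p, hp⟩ := LinearMap.exists_leftInverse_of_injective (Algebra.linearMap ℚ k)
    (LinearMap.ker_eq_bot.2 (algebraMap ℚ k).injective)
  exact ⟨p, fun q => by simpa using LinearMap.congr_fun hp q⟩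

private theorem ret_mem_KRat (p : k →ₗ[ℚ] ℚ) {z : (Fin r → Crd k) →₀ k}
    (h : z ∈ RatP X k) : ∀ c : k, Finsupp.mapRange.linearMap p (c • z) ∈ RatP X ℚ := by
  unfold RatP at h
  induction h using Submodule.span_induction with
  | mem z hz =>
    intro c
    obtain ⟨K, i1, i2, hK, x, f, D, hf, hx, hD, rfl⟩ := hz
    have h1 : Finsupp.mapRange.linearMap p (c • (D.sum fun v a => Finsupp.single
        (fun j => vlc v (x j)) (a : k))) =
        p c • (D.sum fun v a => Finsupp.single (fun j => vlc v (x j)) (a : ℚ)) := by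
      rw [Finsupp.smul_sum, Finsupp.smul_sum, map_finsuppSum]
      refine Finsupp.sum_congr fun v _ => ?_
      rw [Finsupp.smul_single', Finsupp.smul_single', Finsupp.mapRange.linearMap_apply,
        Finsupp.mapRange_single]
      congr 1
      rw [mul_comm c, ← zsmul_eq_mul, map_zsmul, zsmul_eq_mul, mul_comm]
    rw [h1]
    exact Submodule.smul_mem _ _ (Submodule.subset_span
      ⟨K, i1, i2, hK, x, f, D, hf, hx, hD, rfl⟩)
  | zero =>
    intro c
    rw [smul_zero, map_zero]
    exact Submodule.zero_mem _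
  | add x y _ _ hx hy =>
    intro c
    rw [smul_add, map_add]
    exact Submodule.add_mem _ (hx c) (hy c)
  | smul a x _ hx =>
    intro c
    rw [smul_smul]
    exact hx _

private theorem evl_cls_KRat (z : (Fin r → Crd k) →₀ ℚ) :
    evl (k := k) (clsP X) z = (RatP X k).mkQ (z.mapRange (algebraMap ℚ k) (map_zero _)) := by
  induction z using Finsupp.induction_linear with
  | zero => rw [map_zero, Finsupp.mapRange_zero, map_zero]
  | add f g hf hg =>
    rw [map_add, Finsupp.mapRange_add (fun a b => map_add _ a b), map_add, hf, hg]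
  | single a b =>
    rw [evl_single, Finsupp.mapRange_single]
    unfold clsP
    rw [Submodule.mkQ_apply, ← Submodule.Quotient.mk_smul, Finsupp.smul_single', mul_one]
    rfl

/-- the cycle is rationally equivalent to zero if its class is zero -/
theorem ratP_of_evl {z : (Fin r → Crd k) →₀ ℚ} (h : evl (k := k) (clsP X) z = 0) :
    z ∈ RatP X ℚ := by
  rw [evl_cls_KRat, Submodule.mkQ_apply, Submodule.Quotient.mk_eq_zero] at h
  obtain ⟨p, hp⟩ := exists_ret_KRat (k := k)
  have h1 := ret_mem_KRat p h 1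
  rw [one_smul, Finsupp.mapRange.linearMap_apply] at h1
  convert h1 using 1
  ext x
  rw [Finsupp.mapRange_apply, Finsupp.mapRange_apply, hp]

/-- the projection as a morphism -/
private def prjM_KRat (U : Finset (Fin r')) (w : Fin r' → Crd k) (hw : OnP Y w) : Mor Y Y :=
  fun b => if b ∈ U then .fac b rfl (fun _ => 1) (fun _ => one_pow _) else .const (w b) (hw b)

omit [IsAlgClosed k] [CharZero k] in
private theorem prjM_app_KRat (U : Finset (Fin r')) (w : Fin r' → Crd k) (hw : OnP Y w)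
    (y : Fin r' → Crd k) : (prjM_KRat U w hw).app y = prj U w y := by
  funext b
  unfold Mor.app prjM_KRat prj
  by_cases hb : b ∈ U
  · rw [if_pos hb, if_pos hb]
    exact mulc_one (y b)
  · rw [if_neg hb, if_neg hb]
    rfl

/-- the class of the projection is a class function -/
theorem isCFP_prj (hM : ∀ b, 0 < (Y b).F.M) (U : Finset (Fin r')) {w : Fin r' → Crd k}
    (hw : OnP Y w) : IsCFP Y fun y => clsP Y (prj U w y) := by
  have h := isCFP_comp hM isCFP_cls (prjM_KRat U w hw)
  simp only [prjM_app_KRat] at h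
  exact h

omit [IsAlgClosed k] [CharZero k] in
private theorem depOn_prj_KRat {V : Type} (E : (Fin r' → Crd k) → V) (U : Finset (Fin r'))
    (w : Fin r' → Crd k) : DepOn Y U fun y => E (prj U w y) := by
  intro y y' _ _ h
  refine congrArg E ?_
  funext b
  unfold prj
  by_cases hb : b ∈ U
  · rw [if_pos hb, if_pos hb, h b hb]
  · rw [if_neg hb, if_neg hb]

omit [IsAlgClosed k] in
private theorem evl_push_KRat {W : Type} [AddCommGroup W] [Module k W]
    (E : (Fin r' → Crd k) → W) (γ : Mor X Y →₀ ℚ) (z : (Fin r → Crd k) →₀ ℚ) :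
    evl (k := k) E (pushM γ z) =
      ∑ f ∈ γ.support, (γ f : k) • evl (k := k) (fun x => E (f.app x)) z := by
  unfold pushM
  rw [Finsupp.sum, LinearMap.sum_apply, map_sum]
  refine Finset.sum_congr rfl fun f _ => ?_
  rw [LinearMap.smul_apply, Finsupp.lmapDomain_apply, evl_smul, evl_map]

omit [IsAlgClosed k] [CharZero k] in
private theorem supp_push_KRat (γ : Mor X Y →₀ ℚ) {z : (Fin r → Crd k) →₀ ℚ}
    (hz : ∀ x ∈ z.support, OnP X x) : ∀ y ∈ (pushM γ z).support, OnP Y y := by
  unfold pushM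
  rw [Finsupp.sum, LinearMap.sum_apply]
  intro y hy
  obtain ⟨f, -, hf⟩ := Finset.mem_biUnion.1 (Finsupp.support_finsetSum hy)
  rw [LinearMap.smul_apply, Finsupp.lmapDomain_apply] at hf
  obtain ⟨x, hx, rfl⟩ := Finset.mem_image.1 (Finsupp.mapDomain_support
    (Finsupp.support_smul hf))
  exact f.app_on (hz x hx)

/-- correspondences respect the filtration -/
theorem fil_map (hY : ∀ b, (Y b).F.Adm) (γ : Mor X Y →₀ ℚ) {ν : ℕ}
    {z : (Fin r → Crd k) →₀ ℚ} (hz : z ∈ Fil X ν) : pushM γ z ∈ Fil Y ν := by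
  refine ⟨supp_push_KRat γ hz.1, fun U hU w hw => ratP_of_evl ?_⟩
  rw [evl_map, evl_push_KRat]
  refine Finset.sum_eq_zero fun f _ => ?_
  rw [evl_low (fun b => (hY b).M0) (isCFP_prj (fun b => (hY b).M0) U hw) f
    (depOn_prj_KRat _ U w) (lt_of_le_of_lt (dim_srcs f U) hU) hz, smul_zero]

/-- **a correspondence which is zero on the forms of degree `ν` is zero on `gr^ν`** -/
theorem fil_grad (hV : ∀ b, Vanish (Y b).F) (hY : ∀ b, (Y b).F.Adm) {γ : Mor X Y →₀ ℚ}
    {ν : ℕ} (hγ : KillsForms γ ν) {z : (Fin r → Crd k) →₀ ℚ} (hz : z ∈ Fil X ν) :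
    pushM γ z ∈ Fil Y (ν + 1) := by
  refine ⟨supp_push_KRat γ hz.1, fun U hU w hw => ?_⟩
  rcases Nat.lt_succ_iff_lt_or_eq.1 hU with h | h
  · exact (fil_map hY γ hz).2 U h w hw
  · apply ratP_of_evl
    rw [evl_map, evl_push_KRat]
    subst h
    exact evl_top hV hY (isCFP_prj (fun b => (hY b).M0) U hw) (depOn_prj_KRat _ U w) hγ hz

theorem fil_anti (ν : ℕ) : Fil X (ν + 1) ≤ Fil X ν :=
  fun _ hz => ⟨hz.1, fun U hU w hw => hz.2 U (Nat.lt_succ_of_lt hU) w hw⟩

theorem fil_zero {z : (Fin r → Crd k) →₀ ℚ} : z ∈ Fil X 0 ↔ ∀ x ∈ z.support, OnP X x :=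
  ⟨fun h => h.1, fun h => ⟨h, fun _ hU => absurd hU (Nat.not_lt_zero _)⟩⟩

private theorem supp_rat_KRat {z : (Fin r → Crd k) →₀ ℚ} (hz : z ∈ RatP X ℚ) :
    ∀ x ∈ z.support, OnP X x := by
  unfold RatP at hz
  induction hz using Submodule.span_induction with
  | mem z hz =>
    obtain ⟨K, i1, i2, hK, x, f, D, hf, hx, hD, rfl⟩ := hz
    intro y hy
    obtain ⟨v, -, hv⟩ := Finset.mem_biUnion.1 (Finsupp.support_finsetSum hy)
    have h1 := Finsupp.support_single_subset hv
    rw [Finset.mem_singleton] at h1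
    rw [h1]
    have : HasRes k K := hasRes_of_isCurve hK
    exact onP_vlc v hx
  | zero =>
    intro x hx
    simp at hx
  | add a b _ _ ha hb =>
    intro x hx
    rcases Finset.mem_union.1 (Finsupp.support_add hx) with h1 | h1
    · exact ha x h1
    · exact hb x h1
  | smul a x _ hx => exact fun y hy => hx y (Finsupp.support_smul hy)

theorem ratP_fil (hX : ∀ a, (X a).F.Adm) (ν : ℕ) : RatP X ℚ ≤ Fil X ν := by
  intro z hz
  refine ⟨supp_rat_KRat hz, fun U _ w hw => ratP_of_evl ?_⟩
  rw [evl_map]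
  exact evl_ratP (isCFP_prj (fun b => (hX b).M0) U hw) hz

/-- `F ^ (dim + 1) = 0` -/
theorem fil_top (hX : ∀ a, (X a).F.Adm) : Fil X ((∑ a, (X a).m) + 1) = RatP X ℚ := by
  refine le_antisymm (fun z hz => ?_) (ratP_fil hX _)
  by_cases h0 : z.support = ∅
  · rw [Finsupp.support_eq_empty.1 h0]
    exact zero_mem _
  obtain ⟨w, hw⟩ := Finset.nonempty_iff_ne_empty.2 h0
  have h1 := hz.2 Finset.univ (Nat.lt_succ_self _) w (hz.1 w hw)
  have h2 : prj Finset.univ w = id := by
    funext x a
    unfold prj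
    rw [if_pos (Finset.mem_univ _)]
    rfl
  rwa [h2, Finsupp.mapDomain_id] at h1

private theorem deg_rat_KRat {z : (Fin r → Crd k) →₀ ℚ} (hz : z ∈ RatP X ℚ) :
    (z.sum fun _ c => c) = 0 := by
  have hE : IsCFP X fun _ : Fin r → Crd k => (1 : k) := by
    intro K _ _ hK x f hf _
    have h1 := TInc.deg_dv hK f
    unfold TInc.deg at h1
    have h2 := congrArg (fun n : ℤ => (n : k)) h1
    beta_reduce at h2
    rw [Int.cast_zero] at h2
    rw [← h2]
    unfold Finsupp.sum
    push_cast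
    refine Finset.sum_congr rfl fun v _ => ?_
    rw [zsmul_eq_mul, mul_one]
  have h1 := evl_ratP hE hz
  rw [evl_apply] at h1
  have h2 : ((z.sum fun _ c => c : ℚ) : k) = 0 := by
    rw [← h1]
    unfold Finsupp.sum
    push_cast
    refine Finset.sum_congr rfl fun v _ => ?_
    rw [smul_eq_mul, mul_one]
  exact_mod_cast h2

/-- `F¹ = F²` is the part of degree zero -/
theorem fil_one (hX : ∀ a, (X a).F.Adm) {ν : ℕ} (h1 : 0 < ν) (h2 : ν ≤ 2)
    {z : (Fin r → Crd k) →₀ ℚ} :
    z ∈ Fil X ν ↔ (∀ x ∈ z.support, OnP X x) ∧ (z.sum fun _ c => c) = 0 := by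
  have hmap : ∀ w : Fin r → Crd k, Finsupp.mapDomain (prj ∅ w) z =
      Finsupp.single w (z.sum fun _ c => c) := by
    intro w
    have h3 : prj ∅ w = fun _ => w := by
      funext x a
      unfold prj
      rw [if_neg (Finset.notMem_empty _)]
    rw [h3]
    unfold Finsupp.mapDomain Finsupp.sum
    rw [Finsupp.single_finsetSum]
  constructor
  · intro hz
    refine ⟨hz.1, ?_⟩
    by_cases h0 : z.support = ∅
    · rw [Finsupp.support_eq_empty.1 h0, Finsupp.sum_zero_index]
    obtain ⟨w, hw⟩ := Finset.nonempty_iff_ne_empty.2 h0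
    have h3 := hz.2 ∅ (by unfold dimS; rwa [Finset.sum_empty]) w (hz.1 w hw)
    rw [hmap] at h3
    have h4 := deg_rat_KRat h3
    rwa [Finsupp.sum_single_index rfl] at h4
  · rintro ⟨h3, h4⟩
    refine ⟨h3, fun U hU w _ => ?_⟩
    have h5 : U = ∅ := by
      by_contra h5
      obtain ⟨a, ha⟩ := Finset.nonempty_iff_ne_empty.2 h5
      have h6 := Finset.single_le_sum (f := fun a => (X a).m) (fun _ _ => Nat.zero_le _) ha
      have h7 := (hX a).two
      unfold dimS at hU
      omega
    rw [h5, hmap, h4, Finsupp.single_zero]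
    exact zero_mem _

end Pool.Agent.HGF
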