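import Pool.Agent.HGF.Chr

/-!
# Project HGF: words with nontrivial exponents

`T β` is a class function of `n` points and an eigenfunction with the exponents `β j i` for the
coordinate `i` of the point `j`. The exponents `β j` of the point `x j` are nontrivial: `0 < β j i <
M`. There are `(M - 1) ^ m` possible values of `β j`, so if `n > (D - 1) (M - 1) ^ m` then there are
a value `b` and a set `J ⊆ Fin n` of `D` elements with `β j = b` for `j ∈ J` (pigeonhole:
`Fintype.exists_lt_card_fiber_of_mul_lt_card` or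
`Finset.exists_lt_card_fiber_of_mul_lt_card_of_maps_to`, then `Finset.exists_subset_card_eq`).

For a permutation `ρ` of `Fin n` which is the identity outside of `J`: `β ∘ ρ = β`. So, with `ε(τ) =
sign(τ) ^ (m + 1)`, `S = ∑_τ ε(τ) T(β ∘ τ)(x ∘ τ)`, and `R` = the permutations which fix the
complement of `J`, `|R| • S = ∑_{ρ ∈ R} ∑_τ ε(ρ τ) T(β ∘ ρ ∘ τ)(x ∘ ρ ∘ τ) = ∑_τ ε(τ) ∑_{ρ ∈ R} ε(ρ)
T(β ∘ τ)(x ∘ ρ ∘ τ)` (as in `KMix.Abs`, `abs_alt`). For fixed `τ` the inner sum is zero by `Vanish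
F`: the function `T(β ∘ τ)` has the exponents `b` at the positions `τ⁻¹ j`, `j ∈ J`. Let `e : Fin D
→ Fin n` be the injection with image `τ⁻¹ J`, `e a = τ⁻¹ (f a)` for a bijection `f : Fin D ≃ J`. The
elements of `R` correspond to the permutations `π` of `Fin D` (`Equiv.Perm.ofSubtype`,
`Equiv.permCongr`; the sign is the same), and `x ∘ ρ ∘ τ` is `glue e (x ∘ τ) (fun a => x (f (π
a)))`. Use `isCF_glue`, `isEig_glueS` and `AE`. -/

set_option autoImplicit false

noncomputable section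

namespace Pool.Agent.HGF

open Polynomial
open scoped Classical

variable {k : Type} [Field k] [IsAlgClosed k] [CharZero k] {m : ℕ} {F : Fam k m} {n : ℕ} {W : Type}
  [AddCommGroup W] [Module k W]

private theorem words_pigeon {M D n m : ℕ} (hD : 0 < D) (hn : (D - 1) * (M - 1) ^ m < n)
    {β : Fin n → Fin m → Fin M} (hβ : ∀ j i, 0 < (β j i : ℕ)) :
    ∃ (b : Fin m → Fin M) (ι : Fin D ↪ Fin n), ∀ a, β (ι a) = b := by
  have h1 : ∀ j ∈ (Finset.univ : Finset (Fin n)), β j ∈
      Fintype.piFinset fun _ : Fin m => Finset.univ.filter fun c : Fin M => 0 < (c : ℕ) := by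
    intro j _
    rw [Fintype.mem_piFinset]
    intro i
    exact Finset.mem_filter.2 ⟨Finset.mem_univ _, hβ j i⟩
  have h2 : (Finset.univ.filter fun c : Fin M => 0 < (c : ℕ)).card ≤ M - 1 := by
    have h3 : (Finset.univ.filter fun c : Fin M => 0 < (c : ℕ)).card ≤
        (Finset.Ico 1 M).card := by
      refine Finset.card_le_card_of_injOn (fun c : Fin M => (c : ℕ)) (fun c hc => ?_)
        fun c _ c' _ h => Fin.ext h
      have h4 := (Finset.mem_filter.1 (Finset.mem_coe.1 hc)).2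
      rw [Finset.mem_coe, Finset.mem_Ico]
      exact ⟨h4, c.2⟩
    rwa [Nat.card_Ico] at h3
  have h3 : (Fintype.piFinset fun _ : Fin m =>
      Finset.univ.filter fun c : Fin M => 0 < (c : ℕ)).card * (D - 1) <
      (Finset.univ : Finset (Fin n)).card := by
    rw [Fintype.card_piFinset_const, Finset.card_univ, Fintype.card_fin]
    refine lt_of_le_of_lt ?_ hn
    rw [mul_comm]
    exact Nat.mul_le_mul_left _ (Nat.pow_le_pow_left h2 m)
  obtain ⟨b, -, hb⟩ := Finset.exists_lt_card_fiber_of_mul_lt_card_of_maps_to h1 h3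
  obtain ⟨J, hJ, hJc⟩ := Finset.exists_subset_card_eq (n := D)
    (s := {x ∈ (Finset.univ : Finset (Fin n)) | β x = b}) (by omega)
  refine ⟨b, (J.orderEmbOfFin hJc).toEmbedding, fun a => ?_⟩
  exact (Finset.mem_filter.1 (hJ (J.orderEmbOfFin_mem hJc a))).2

theorem words (hV : Vanish F) (hD : 0 < F.D) (hn : (F.D - 1) * (F.M - 1) ^ m < n)
    {T : (Fin n → Fin m → Fin F.M) → (Fin n → Option k) → (Fin n → Fin m → Option k) → W}
    (hT : ∀ β, IsCF F (T β)) (hT' : ∀ β, IsEigS F.M (fun j i => (β j i : ℕ)) (T β))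
    {β : Fin n → Fin m → Fin F.M} (hβ : ∀ j i, 0 < (β j i : ℕ)) {s : Fin n → Option k}
    {u : Fin n → Fin m → Option k} (h : ∀ j, OnY F (s j) (u j)) :
    ∑ τ : Equiv.Perm (Fin n), ((Equiv.Perm.sign τ : ℤ) ^ (m + 1)) •
      T (fun j => β (τ j)) (fun j => s (τ j)) (fun j => u (τ j)) = 0 := by
  obtain ⟨b, ι, hb⟩ := words_pigeon hD hn hβ
  set S := ∑ τ : Equiv.Perm (Fin n), ((Equiv.Perm.sign τ : ℤ) ^ (m + 1)) •
      T (fun j => β (τ j)) (fun j => s (τ j)) (fun j => u (τ j)) with hS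
  -- multiplication by a permutation of the positions with the exponents `b`
  have hβρ : ∀ (ρ : Equiv.Perm (Fin F.D)) j, β (ρ.viaEmbedding ι j) = β j := by
    intro ρ j
    by_cases hj : j ∈ Set.range ι
    · obtain ⟨a, rfl⟩ := hj
      rw [Equiv.Perm.viaEmbedding_apply, hb, hb]
    · rw [Equiv.Perm.viaEmbedding_apply_of_notMem _ _ _ hj]
  have hsgn : ∀ ρ : Equiv.Perm (Fin F.D),
      Equiv.Perm.sign (ρ.viaEmbedding ι) = Equiv.Perm.sign ρ := by
    intro ρ
    unfold Equiv.Perm.viaEmbedding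
    exact @Equiv.Perm.sign_extendDomain _ _ _ _ _ _ ρ _
      (fun _ => Classical.propDecidable _) _
  have h1 : ∀ ρ : Equiv.Perm (Fin F.D), ∑ τ : Equiv.Perm (Fin n),
      ((Equiv.Perm.sign ρ : ℤ) ^ (m + 1)) • ((Equiv.Perm.sign τ : ℤ) ^ (m + 1)) •
      T (fun j => β (τ j)) (fun j => s (ρ.viaEmbedding ι (τ j)))
        (fun j => u (ρ.viaEmbedding ι (τ j))) = S := by
    intro ρ
    symm
    rw [hS, ← Equiv.sum_comp (Equiv.mulLeft (ρ.viaEmbedding ι))]
    refine Finset.sum_congr rfl fun τ _ => ?_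
    rw [Equiv.coe_mulLeft, Equiv.Perm.sign_mul, hsgn, smul_smul]
    simp only [Equiv.Perm.mul_apply, hβρ]
    congr 1
    push_cast
    rw [mul_pow]
  have h2 : ∀ τ : Equiv.Perm (Fin n), ∑ ρ : Equiv.Perm (Fin F.D),
      ((Equiv.Perm.sign ρ : ℤ) ^ (m + 1)) • T (fun j => β (τ j))
        (fun j => s (ρ.viaEmbedding ι (τ j))) (fun j => u (ρ.viaEmbedding ι (τ j))) = 0 := by
    intro τ
    have he : Function.Injective fun a : Fin F.D => τ.symm (ι a) :=
      τ.symm.injective.comp ι.injective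
    have hbb : ∀ (a : Fin F.D) (i : Fin m),
        ((β (τ (τ.symm (ι a))) i : Fin F.M) : ℕ) = (b i : ℕ) := by
      intro a i
      rw [Equiv.apply_symm_apply, hb]
    have h3 := hV W (fun i => (b i : ℕ))
      (fun (s1 : Fin F.D → Option k) (u1 : Fin F.D → Fin m → Option k) =>
        T (fun j => β (τ j)) (glue (fun a : Fin F.D => τ.symm (ι a)) (fun j => s (τ j)) s1)
          (glue (fun a : Fin F.D => τ.symm (ι a)) (fun j => u (τ j)) u1))
      (fun i => ⟨by
        have h4 := hβ (ι ⟨0, hD⟩) i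
        rwa [hb] at h4, (b i).2⟩)
      (isCF_glue (hT _) he fun j => h (τ j))
      (isEig_glueS (hT' _) he hbb _ _)
      (fun a => s (ι a)) (fun a => u (ι a)) fun a => h (ι a)
    unfold AE at h3
    rw [← h3]
    refine Finset.sum_congr rfl fun ρ _ => ?_
    have hglue : ∀ {α : Type} (g : Fin n → α), (fun j => g (ρ.viaEmbedding ι (τ j))) =
        glue (fun a : Fin F.D => τ.symm (ι a)) (fun j => g (τ j)) fun a => g (ι (ρ a)) := by
      intro α g
      funext j
      by_cases hj : τ j ∈ Set.range ι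
      · obtain ⟨a, ha⟩ := hj
        have hj' : j = (fun a : Fin F.D => τ.symm (ι a)) a := by
          beta_reduce
          rw [ha, Equiv.symm_apply_apply]
        conv_rhs => rw [hj']
        rw [glue_apply he, ← ha, Equiv.Perm.viaEmbedding_apply]
      · rw [Equiv.Perm.viaEmbedding_apply_of_notMem _ _ _ hj, glue_of]
        intro a ha
        exact hj ⟨a, by rw [← ha, Equiv.apply_symm_apply]⟩
    rw [hglue s, hglue u]
  have h3 : ∑ _ρ : Equiv.Perm (Fin F.D), S = 0 := by
    rw [← Finset.sum_congr rfl fun ρ _ => h1 ρ, Finset.sum_comm]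
    refine Finset.sum_eq_zero fun τ _ => ?_
    have h4 := congrArg (fun x => ((Equiv.Perm.sign τ : ℤ) ^ (m + 1)) • x) (h2 τ)
    beta_reduce at h4
    rw [smul_zero, Finset.smul_sum] at h4
    rw [← h4]
    refine Finset.sum_congr rfl fun ρ _ => ?_
    rw [smul_comm]
  rw [Finset.sum_const, Finset.card_univ, Fintype.card_perm, Fintype.card_fin,
    ← Nat.cast_smul_eq_nsmul k] at h3
  exact (smul_eq_zero.1 h3).resolve_left (Nat.cast_ne_zero.2 (Nat.factorial_ne_zero _))

end Pool.Agent.HGF
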