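import Pool.Agent.HGF.Ind
import Pool.Agent.HGF.Words

/-!
# Project HGF: zero-cycles of degree zero

`ev E z` is the value of the class function `E` on the product `z_1 × ... × z_n` of zero-cycles.

**`ev_zero`.** If `E` is a class function, invariant under the rotations of the coordinate `i`
of the point `j`, and `z j` has degree zero then `ev E z = 0`: the set `piFinset` of the `x`
splits as (choice of `x j`) × (choice of the other `x l`) (`Fintype.piFinset`,
`Finset.sum_comm`, e.g. `Fin.consEquiv`, `Equiv.piSplitAt`, or `Finset.sum_fiberwise`), `E x`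
does not depend on `x j` (`ind`), the coefficient is `z j (x j)` times a factor which does not
depend on `x j`, and `∑_{p ∈ supp} z j p = 0`. (Alternative: show `ev E z = ∑_{x} (∏ ..) • E(x
with x j replaced by a fixed point of Y)`; if `z j` has no point then it is zero and the sum is
empty.)

**`kill`.** Let `ω` be a primitive `M`-th root of unity. `E = ∑_β chr F.M ω β E` (`sum_chr`), so
`∑_τ ε(τ) ev E (z ∘ τ) = ∑_β ∑_τ ε(τ) ev (chr β E) (z ∘ τ)`. If `β j i = 0` for some `(j, i)`
then `ev (chr β E) (z ∘ τ) = 0` for all `τ` (`ev_zero`, `isCF_chr`, `isEigS_chr`). The other `β`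
(all `β j i > 0`): replace `β` by `β ∘ τ` in the sum over these `β` (for every `τ`; a
bijection), so the sum is `∑_β ∑_τ ε(τ) ev (chr (β ∘ τ) E) (z ∘ τ)`, and `ev (chr (β ∘ τ) E) (z
∘ τ) = ∑_{x, x_j ∈ supp z_j} ∏_j z_j(x_j) chr (β ∘ τ) E (x ∘ τ)` (reindex the sum over
`piFinset` by `x ↦ x ∘ τ`, and the product by `τ`). For fixed `β` and `x` the sum over `τ` is
zero by `words`. `0 < F.D`: otherwise all `B_i` and `A` are constant and `A` is a multiple of `∏
B_i`. If `F.M = 1` then every `β` is zero (`m > 0`) and `n > 0`.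
-/

set_option autoImplicit false

noncomputable section

namespace Pool.Agent.HGF

open Polynomial
open scoped Classical

variable {k : Type} [Field k] {m : ℕ} {F : Fam k m} {n : ℕ} {W : Type}
  [AddCommGroup W] [Module k W]

/-- the value of `E` on the product of the zero-cycles `z j` -/
def ev (E : (Fin n → Option k) → (Fin n → Fin m → Option k) → W)
    (z : Fin n → (Option k × (Fin m → Option k)) →₀ k) : W :=
  ∑ x ∈ Fintype.piFinset fun j => (z j).support,
    (∏ j, z j (x j)) • E (fun j => (x j).1) fun j => (x j).2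

/-- the sum over the products of finite sets, one coordinate separated -/
private theorem kill_split {α : Type} [DecidableEq α] (S : Fin n → Finset α) (c : Fin n → α → k)
    (G : (Fin n → α) → W) (j : Fin n) (hG : ∀ x ∈ Fintype.piFinset S, ∀ p ∈ S j,
      G (Function.update x j p) = G x) (h0 : ∑ p ∈ S j, c j p = 0) :
    ∑ x ∈ Fintype.piFinset S, (∏ l, c l (x l)) • G x = 0 := by
  rcases (S j).eq_empty_or_nonempty with he | ⟨p0, hp0⟩
  · refine Finset.sum_eq_zero fun x hx => ?_
    have h1 := Fintype.mem_piFinset.1 hx j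
    rw [he] at h1
    exact absurd h1 (Finset.notMem_empty _)
  have hmaps : ∀ x ∈ Fintype.piFinset S, Function.update x j p0 ∈ Fintype.piFinset S := by
    intro x hx
    rw [Fintype.mem_piFinset]
    intro l
    by_cases hl : l = j
    · subst hl
      rw [Function.update_self]
      exact hp0
    · rw [Function.update_of_ne hl]
      exact Fintype.mem_piFinset.1 hx l
  rw [← Finset.sum_fiberwise_of_maps_to hmaps]
  refine Finset.sum_eq_zero fun y hy => ?_
  by_cases hyj : y j = p0
  · have h1 : ∑ x ∈ Fintype.piFinset S with Function.update x j p0 = y,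
        (∏ l, c l (x l)) • G x =
        ∑ p ∈ S j, (c j p * ∏ l ∈ Finset.univ.erase j, c l (y l)) • G y := by
      symm
      refine Finset.sum_bij (fun p _ => Function.update y j p) ?_ ?_ ?_ ?_
      · intro p hp
        rw [Finset.mem_filter, Fintype.mem_piFinset]
        refine ⟨fun l => ?_, ?_⟩
        · by_cases hl : l = j
          · subst hl
            rw [Function.update_self]
            exact hp
          · rw [Function.update_of_ne hl]
            exact Fintype.mem_piFinset.1 hy l
        · rw [Function.update_idem, ← hyj, Function.update_eq_self]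
      · intro p _ q _ hpq
        have h2 := congrFun hpq j
        rwa [Function.update_self, Function.update_self] at h2
      · intro x hx
        obtain ⟨hx1, hx2⟩ := Finset.mem_filter.1 hx
        refine ⟨x j, Fintype.mem_piFinset.1 hx1 j, ?_⟩
        rw [← hx2, Function.update_idem, Function.update_eq_self]
      · intro p hp
        rw [hG y hy p hp, ← Finset.mul_prod_erase Finset.univ _ (Finset.mem_univ j),
          Function.update_self]
        congr 2
        refine Finset.prod_congr rfl fun l hl => ?_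
        rw [Function.update_of_ne (Finset.ne_of_mem_erase hl)]
    rw [h1, ← Finset.sum_smul, ← Finset.sum_mul, h0, zero_mul, zero_smul]
  · refine Finset.sum_eq_zero fun x hx => ?_
    exfalso
    apply hyj
    rw [← (Finset.mem_filter.1 hx).2, Function.update_self]

theorem ev_zero [IsAlgClosed k] [CharZero k] (hF : F.Adm)
    {E : (Fin n → Option k) → (Fin n → Fin m → Option k) → W} (hE : IsCF F E) {j : Fin n}
    {i : Fin m} (hinv : ∀ s u (ζ : k), ζ ^ F.M = 1 → E s (rot j i ζ u) = E s u)
    {z : Fin n → (Option k × (Fin m → Option k)) →₀ k}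
    (hz : ∀ l, ∀ p ∈ (z l).support, OnY F p.1 p.2) (hd : ((z j).sum fun _ a => a) = 0) :
    ev E z = 0 := by
  unfold ev
  refine kill_split (fun l => (z l).support) (fun l p => z l p)
    (fun x => E (fun l => (x l).1) fun l => (x l).2) j ?_ hd
  intro x hx p hp
  have hx1 : ∀ l, OnY F (x l).1 (x l).2 := fun l => hz l _ (Fintype.mem_piFinset.1 hx l)
  refine ind hF hE hinv (j := j) (fun l => ?_) hx1 (fun l hl => ?_) fun l hl => ?_
  · by_cases hl : l = j
    · subst hl
      rw [Function.update_self]
      exact hz l _ hp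
    · rw [Function.update_of_ne hl]
      exact hx1 l
  · rw [Function.update_of_ne hl]
  · rw [Function.update_of_ne hl]

theorem Fam.Adm.D_pos (hF : F.Adm) : 0 < F.D := by
  by_contra hD
  have hD0 : F.D = 0 := by omega
  have hd0 : ∀ i, F.d i = 0 := by
    intro i
    have h1 : F.d i ≤ F.D := Finset.single_le_sum (fun _ _ => Nat.zero_le _) (Finset.mem_univ i)
    omega
  have hB : ∀ i, F.B i = Polynomial.C ((F.B i).coeff 0) := fun i =>
    eq_C_of_natDegree_le_zero ((hF.degB i).trans (hd0 i).le)
  have hA : F.A = Polynomial.C (F.A.coeff 0) :=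
    eq_C_of_natDegree_le_zero (hF.degA.trans hD0.le)
  have hb0 : ∀ i, (F.B i).coeff 0 ≠ 0 := by
    intro i h
    have h1 := hB i
    rw [h, map_zero] at h1
    exact hF.B0 i h1
  apply hF.indep (F.A.coeff 0 / ∏ i, (F.B i).coeff 0)
  have h2 : ∏ i, F.B i = Polynomial.C (∏ i, (F.B i).coeff 0) := by
    rw [map_prod]
    exact Finset.prod_congr rfl fun i _ => hB i
  rw [h2, ← map_mul, div_mul_cancel₀ _ (Finset.prod_ne_zero_iff.2 fun i _ => hb0 i)]
  exact hA

private theorem kill_ev_sum {ι : Type} (S : Finset ι)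
    (T : ι → (Fin n → Option k) → (Fin n → Fin m → Option k) → W)
    (z : Fin n → (Option k × (Fin m → Option k)) →₀ k)
    {E : (Fin n → Option k) → (Fin n → Fin m → Option k) → W}
    (h : ∀ s u, ∑ b ∈ S, T b s u = E s u) : ev E z = ∑ b ∈ S, ev (T b) z := by
  unfold ev
  rw [Finset.sum_comm]
  refine Finset.sum_congr rfl fun x _ => ?_
  rw [← h, Finset.smul_sum]

/-- the value on permuted cycles -/
private theorem kill_ev_perm (T : (Fin n → Option k) → (Fin n → Fin m → Option k) → W)
    (z : Fin n → (Option k × (Fin m → Option k)) →₀ k) (τ : Equiv.Perm (Fin n)) :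
    ev T (fun j => z (τ j)) = ∑ x ∈ Fintype.piFinset fun j => (z j).support,
      (∏ j, z j (x j)) • T (fun j => (x (τ j)).1) fun j => (x (τ j)).2 := by
  unfold ev
  symm
  refine Finset.sum_bij' (fun x _ j => x (τ j)) (fun x _ j => x (τ.symm j)) ?_ ?_ ?_ ?_ ?_
  · intro x hx
    rw [Fintype.mem_piFinset] at hx ⊢
    exact fun j => hx (τ j)
  · intro x hx
    rw [Fintype.mem_piFinset] at hx ⊢
    intro j
    have h1 : x (τ.symm j) ∈ (z (τ (τ.symm j))).support := hx (τ.symm j)
    rwa [Equiv.apply_symm_apply] at h1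
  · intro x _
    funext j
    beta_reduce
    rw [Equiv.apply_symm_apply]
  · intro x _
    funext j
    beta_reduce
    rw [Equiv.symm_apply_apply]
  · intro x _
    rw [← Equiv.prod_comp τ fun j => z j (x j)]

theorem kill [IsAlgClosed k] [CharZero k] (hF : F.Adm) (hV : Vanish F)
    (hn : (F.D - 1) * (F.M - 1) ^ m < n)
    {E : (Fin n → Option k) → (Fin n → Fin m → Option k) → W} (hE : IsCF F E)
    {z : Fin n → (Option k × (Fin m → Option k)) →₀ k}
    (hz : ∀ l, ∀ p ∈ (z l).support, OnY F p.1 p.2) (hd : ∀ j, ((z j).sum fun _ a => a) = 0) :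
    ∑ τ : Equiv.Perm (Fin n), ((Equiv.Perm.sign τ : ℤ) ^ (m + 1)) •
      ev E (fun j => z (τ j)) = 0 := by
  have hMne : NeZero (F.M : k) := ⟨Nat.cast_ne_zero.2 hF.M0.ne'⟩
  have hMne' : NeZero F.M := ⟨hF.M0.ne'⟩
  obtain ⟨ω, hω⟩ := HasEnoughRootsOfUnity.exists_primitiveRoot k F.M
  have h1 : ∀ τ : Equiv.Perm (Fin n), ev E (fun j => z (τ j)) =
      ∑ β : Fin n → Fin m → Fin F.M, ev (chr F.M ω (fun j => β (τ j)) E) fun j => z (τ j) := by
    intro τ
    rw [kill_ev_sum Finset.univ (fun β : Fin n → Fin m → Fin F.M => chr F.M ω β E)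
      (fun j => z (τ j)) (E := E) fun s u => sum_chr hF.M0 hω s u]
    exact (Equiv.sum_comp (Equiv.arrowCongr τ.symm (Equiv.refl (Fin m → Fin F.M)))
      fun β => ev (chr F.M ω β E) fun j => z (τ j)).symm
  have h2 : ∑ τ : Equiv.Perm (Fin n), ((Equiv.Perm.sign τ : ℤ) ^ (m + 1)) •
      ev E (fun j => z (τ j)) = ∑ β : Fin n → Fin m → Fin F.M, ∑ τ : Equiv.Perm (Fin n),
        ((Equiv.Perm.sign τ : ℤ) ^ (m + 1)) •
          ev (chr F.M ω (fun j => β (τ j)) E) fun j => z (τ j) := by
    rw [Finset.sum_comm]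
    refine Finset.sum_congr rfl fun τ _ => ?_
    rw [h1, Finset.smul_sum]
  rw [h2]
  refine Finset.sum_eq_zero fun β _ => ?_
  by_cases hβ : ∀ j i, 0 < (β j i : ℕ)
  · have h3 : ∀ τ : Equiv.Perm (Fin n), ((Equiv.Perm.sign τ : ℤ) ^ (m + 1)) •
          ev (chr F.M ω (fun j => β (τ j)) E) (fun j => z (τ j)) =
        ∑ x ∈ Fintype.piFinset fun j => (z j).support, (∏ j, z j (x j)) •
          ((Equiv.Perm.sign τ : ℤ) ^ (m + 1)) • chr F.M ω (fun j => β (τ j)) E
            (fun j => (x (τ j)).1) fun j => (x (τ j)).2 := by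
      intro τ
      rw [kill_ev_perm, Finset.smul_sum]
      refine Finset.sum_congr rfl fun x _ => ?_
      rw [smul_comm]
    rw [Finset.sum_congr rfl fun τ _ => h3 τ, Finset.sum_comm]
    refine Finset.sum_eq_zero fun x hx => ?_
    rw [← Finset.smul_sum, words hV hF.D_pos hn (T := fun β => chr F.M ω β E)
      (fun β => isCF_chr hF.M0 hω hE β) (fun β => isEigS_chr hF.M0 hω β) hβ
      (s := fun j => (x j).1) (u := fun j => (x j).2)
      (fun j => hz j _ (Fintype.mem_piFinset.1 hx j)), smul_zero]
  · push Not at hβ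
    obtain ⟨j0, i0, h0⟩ := hβ
    refine Finset.sum_eq_zero fun τ _ => ?_
    have h4 : ev (chr F.M ω (fun j => β (τ j)) E) (fun j => z (τ j)) = 0 := by
      refine ev_zero hF (isCF_chr hF.M0 hω hE _) (j := τ.symm j0) (i := i0) ?_
        (fun l => hz (τ l)) (hd _)
      intro s u ζ hζ
      have h5 := isEigS_chr hF.M0 hω (fun j => β (τ j)) (E := E) s u (τ.symm j0) i0 ζ hζ
      rw [h5]
      beta_reduce
      rw [Equiv.apply_symm_apply, Nat.le_zero.1 h0, pow_zero, one_smul]
    rw [h4, smul_zero]

end Pool.Agent.HGF
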