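import Pool.Agent.HGF.KAlt
import Pool.Agent.HGF.KMor
import Pool.Agent.HGF.Kill
import Pool.Agent.EFP.SFT

/-!
# Project HGF, block K: combinations of morphisms which are zero on the forms

`sum_inj`: let `T` be a class function on the product of the `Y b`, an eigenfunction with nontrivial
exponents, which depends only on the factors in `U`. If a combination of morphisms kills the forms
of degree `dim U` then the sum of the values of `T` at the images of a point, for the morphisms
which map different factors of `X` to the factors in `U`, is zero. This follows from the second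
fundamental theorem (coloured version) and the vanishing theorem.
-/

set_option autoImplicit false

noncomputable section

namespace Pool.Agent.HGF

open Pool.Agent.ZCyc Pool.Agent.Dess Pool.Agent.GT Pool.Agent.TInc
open Pool.Agent.ZIso (fixing)
open Pool.Agent.EFP (kos kos_sq kos_mul second_fundamental_col)
open scoped Classical

variable {k : Type} [Field k] {r r' : ℕ} {X : Fin r → Hyp k} {Y : Fin r' → Hyp k}

/-- the factors `b ∈ U` with the exponents `β b` are the factors of `X` with the exponents `φ` -/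
def Cmp (f : Mor X Y) (U : Finset (Fin r')) (β : Fin r' → ℕ → ℕ) (φ : Fin r → ℕ → ℕ) : Prop :=
  (∀ b ∈ U, ∃ a, (f b).src = some a ∧ φ a = β b) ∧
    ∀ a, φ a ≠ 0 → ∃! b, b ∈ U ∧ (f b).src = some a

/-- the components in `U` are different factors of `X` -/
def InjU (f : Mor X Y) (U : Finset (Fin r')) : Prop :=
  (∀ b ∈ U, ∃ a, (f b).src = some a) ∧ ∀ b ∈ U, ∀ b' ∈ U, (f b).src = (f b').src → b = b'

/-- the permutation given by a morphism -/
private theorem per_KSum {l : ℕ} {U : Finset (Fin r')} {β : Fin r' → ℕ → ℕ}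
    {φ : Fin r → ℕ → ℕ} (hβ : ∀ b ∈ U, β b ≠ 0) {oI : Fin l → Fin r} {oJ : Fin l → Fin r'}
    (hoJ : Function.Injective oJ) (hI : ∀ i, φ i ≠ 0 → ∃ a, oI a = i) (hJ : ∀ a, oJ a ∈ U)
    {f : Mor X Y} (hf : Cmp f U β φ) :
    ∃ τ : Equiv.Perm (Fin l), ∀ a, (f (oJ a)).src = some (oI (τ a)) := by
  have h1 : ∀ a, ∃ b, (f (oJ a)).src = some (oI b) := by
    intro a
    obtain ⟨i, h2, h3⟩ := hf.1 (oJ a) (hJ a)
    obtain ⟨b, rfl⟩ := hI i (h3 ▸ hβ _ (hJ a))
    exact ⟨b, h2⟩
  choose t ht using h1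
  have hti : Function.Injective t := by
    intro a b hab
    obtain ⟨i, h2, h3⟩ := hf.1 (oJ a) (hJ a)
    obtain ⟨j, -, hj⟩ := hf.2 i (h3 ▸ hβ _ (hJ a))
    apply hoJ
    rw [hj (oJ a) ⟨hJ a, h2⟩, hj (oJ b) ⟨hJ b, ?_⟩]
    rw [ht b, ← hab, ← ht a, h2]
  exact ⟨Equiv.ofBijective t (Finite.injective_iff_bijective.1 hti), ht⟩

/-- the sign of the permutation -/
private theorem sgn_KSum {l : ℕ} {oI : Fin l → Fin r} (hoI : StrictMono oI)
    {oJ : Fin l → Fin r'} (hoJ : StrictMono oJ) {c : Fin r' → Lab}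
    (hJ' : ∀ j, c j ≠ 0 → ∃ a, oJ a = j) (hJ : ∀ a, c (oJ a) ≠ 0) {f : Mor X Y}
    {τ : Equiv.Perm (Fin l)} (hτ : ∀ a, (f (oJ a)).src = some (oI (τ a))) :
    sgnF f c = kos (fun a => (Y (oJ a)).m) τ := by
  unfold sgnF kos
  symm
  refine Fintype.prod_of_injective oJ hoJ.injective _ _ ?_ ?_
  · intro j hj
    apply Finset.prod_eq_one
    intro j' hj'
    exfalso
    simp only [Finset.mem_filter, Finset.mem_univ, true_and] at hj'
    exact hj (hJ' j hj'.2.1)
  · intro a
    rw [Finset.prod_filter, Finset.prod_filter]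
    refine Fintype.prod_of_injective oJ hoJ.injective _ _ ?_ ?_
    · intro j' hj'
      rw [if_neg]
      rintro ⟨-, -, h, -⟩
      exact hj' (hJ' j' h)
    · intro b
      have hc : (a < b ∧ τ b < τ a) ↔ (oJ a < oJ b ∧ c (oJ a) ≠ 0 ∧ c (oJ b) ≠ 0 ∧
          ∃ i i', (f (oJ a)).src = some i ∧ (f (oJ b)).src = some i' ∧ i' < i) := by
        constructor
        · rintro ⟨h1, h2⟩
          exact ⟨hoJ h1, hJ a, hJ b, _, _, hτ a, hτ b, hoI h2⟩
        · rintro ⟨h1, -, -, i, i', h2, h3, h4⟩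
          rw [hτ a, Option.some.injEq] at h2
          rw [hτ b, Option.some.injEq] at h3
          subst h2 h3
          exact ⟨hoJ.lt_iff_lt.1 h1, hoI.lt_iff_lt.1 h4⟩
      exact if_congr hc rfl rfl

/-- the product of the roots of unity -/
private def rtU_KSum (U : Finset (Fin r')) (β : Fin r' → ℕ → ℕ) (f : Mor X Y) : k :=
  ∏ b, ∏ i ∈ Finset.range (Y b).m, (if b ∈ U then (f b).rts i else 1) ^ β b i

private theorem fct_KSum {U : Finset (Fin r')} {β : Fin r' → ℕ → ℕ} {c : Fin r' → Lab}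
    (hU : ∀ b ∈ U, (c b).2 = β b) (hU' : ∀ b ∉ U, c b = 0) (f : Mor X Y) :
    fct f c = rtU_KSum U β f := by
  unfold fct rtU_KSum
  refine Finset.prod_congr rfl fun b _ => Finset.prod_congr rfl fun i _ => ?_
  by_cases hb : b ∈ U
  · rw [if_pos hb, hU b hb]
  · rw [if_neg hb, hU' b hb, one_pow]
    exact pow_zero _

variable [IsAlgClosed k] [CharZero k] {W : Type} [AddCommGroup W] [Module k W]
  {T : (Fin r' → Crd k) → W}

omit [IsAlgClosed k] [CharZero k] in
private theorem base_KSum {β : Fin r' → ℕ → ℕ} (hβT : IsEigP Y β T)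
    {U : Finset (Fin r')} (hU : DepOn Y U T) {l : ℕ} {oJ : Fin l → Fin r'}
    (hoJ : Function.Injective oJ) (hJ2 : ∀ j ∈ U, ∃ a, oJ a = j) {oI : Fin l → Fin r}
    {f : Mor X Y} {τ : Equiv.Perm (Fin l)} (hτ : ∀ a, (f (oJ a)).src = some (oI (τ a)))
    {x : Fin r → Crd k} (hx : OnP X x) {w : Fin r' → Crd k}
    (hy : OnP Y (glue oJ w fun b => x (oI (τ b)))) :
    T (f.app x) = rtU_KSum U β f • T (glue oJ w fun b => x (oI (τ b))) := by
  have hζ : ∀ b i, (if b ∈ U then (f b).rts i else 1 : k) ^ (Y b).F.M = 1 := by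
    intro b i
    split_ifs
    · exact (f b).rts_pow i
    · exact one_pow _
  have h1 := eigP_mul hβT (ζ := fun b i => if b ∈ U then (f b).rts i else 1) hζ hy
  unfold rtU_KSum
  rw [← h1]
  refine hU _ _ (f.app_on hx) (fun b => on_mulc (hζ b) (hy b)) fun b hb => ?_
  obtain ⟨a, rfl⟩ := hJ2 b hb
  show (f (oJ a)).app x = _
  rw [Comp.app_of_src (hτ a), glue_apply hoJ]
  simp only [if_pos hb]

theorem sum_cmp (hV : ∀ b, Vanish (Y b).F) (hY : ∀ b, (Y b).F.Adm)
    (hT : IsCFP Y T) {β : Fin r' → ℕ → ℕ} (hβT : IsEigP Y β T) {U : Finset (Fin r')}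
    (hU : DepOn Y U T) (hβ1 : ∀ b ∈ U, ∀ i < (Y b).m, 0 < β b i ∧ β b i < (Y b).F.M)
    (hβ2 : ∀ b i, (Y b).m ≤ i → β b i = 0) {γ : Mor X Y →₀ ℚ}
    (hγ : KillsForms γ (dimS Y U)) (φ : Fin r → ℕ → ℕ) {x : Fin r → Crd k} (hx : OnP X x) :
    ∑ f ∈ γ.support.filter (fun f => Cmp f U β φ), (γ f : k) • T (f.app x) = 0 := by
  by_cases hex : ∃ f : Mor X Y, Cmp f U β φ
  swap
  · rw [Finset.filter_false_of_mem, Finset.sum_empty]
    intro f _ hf
    exact hex ⟨f, hf⟩
  obtain ⟨f₀, hf₀⟩ := hex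
  have hβ0 : ∀ b ∈ U, β b ≠ 0 := by
    intro b hb h
    have h1 := (hβ1 b hb 0 (lt_of_lt_of_le two_pos (hY b).two)).1
    rw [h] at h1
    exact lt_irrefl _ h1
  -- the enumerations
  set I : Finset (Fin r) := Finset.univ.filter fun i => φ i ≠ 0 with hIdef
  have hmI : ∀ i, i ∈ I ↔ φ i ≠ 0 := fun i => by simp [hIdef]
  have hcard : U.card = I.card := by
    refine Finset.card_bij (fun j hj => (hf₀.1 j hj).choose) ?_ ?_ ?_
    · intro j hj
      rw [hmI, (hf₀.1 j hj).choose_spec.2]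
      exact hβ0 j hj
    · intro j hj j' hj' hjj
      have e1 := (hf₀.1 j hj).choose_spec
      have e2 := (hf₀.1 j' hj').choose_spec
      obtain ⟨j₁, -, h3⟩ := hf₀.2 _ (e1.2 ▸ hβ0 j hj)
      rw [h3 j ⟨hj, e1.1⟩, h3 j' ⟨hj', hjj ▸ e2.1⟩]
    · intro i hi
      obtain ⟨j, ⟨h3, h4⟩, -⟩ := hf₀.2 i ((hmI i).1 hi)
      refine ⟨j, h3, ?_⟩
      have e1 := (hf₀.1 j h3).choose_spec.1
      exact Option.some.inj (e1.symm.trans h4)
  obtain ⟨l, hl⟩ : ∃ l, I.card = l := ⟨_, rfl⟩
  have hlJ : U.card = l := hcard.trans hl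
  set oI := I.orderEmbOfFin hl with hoIdef
  set oJ := U.orderEmbOfFin hlJ with hoJdef
  have hI1 : ∀ a, φ (oI a) ≠ 0 := fun a => (hmI _).1 (I.orderEmbOfFin_mem hl a)
  have hJ1 : ∀ a, oJ a ∈ U := fun a => U.orderEmbOfFin_mem hlJ a
  have hI2 : ∀ i, φ i ≠ 0 → ∃ a, oI a = i := by
    intro i hi
    have h3 : i ∈ Set.range oI := by
      rw [hoIdef, Finset.range_orderEmbOfFin]
      exact (hmI i).2 hi
    exact h3
  have hJ2 : ∀ j ∈ U, ∃ a, oJ a = j := by
    intro j hj
    have h3 : j ∈ Set.range oJ := by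
      rw [hoJdef, Finset.range_orderEmbOfFin]
      exact hj
    exact h3
  have hoI : StrictMono oI := oI.strictMono
  have hoJ : StrictMono oJ := oJ.strictMono
  -- the permutation of a morphism
  have hper0 : ∀ f : Mor X Y, ∃ τ : Equiv.Perm (Fin l), Cmp f U β φ →
      ∀ a, (f (oJ a)).src = some (oI (τ a)) := by
    intro f
    by_cases hf : Cmp f U β φ
    · obtain ⟨τ, hτ⟩ := per_KSum hβ0 hoJ.injective hI2 hJ1 hf
      exact ⟨τ, fun _ => hτ⟩
    · exact ⟨1, fun h => absurd h hf⟩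
  choose per hper using hper0
  -- the point with permuted factors
  set w : Fin r' → Crd k := f₀.app x with hw
  set xt : Equiv.Perm (Fin l) → Fin r' → Crd k := fun τ => glue oJ w fun b => x (oI (τ b))
    with hxt
  set c : Fin l → Hyp k × (ℕ → ℕ) := fun a => (X (oI a), φ (oI a)) with hc
  set c' : Fin l → Hyp k × (ℕ → ℕ) := fun a => (Y (oJ a), β (oJ a)) with hc'
  set d : Hyp k × (ℕ → ℕ) → ℕ := fun p => p.1.F.D - 1 with hd
  set n : Fin l → ℕ := fun a => (Y (oJ a)).m with hn
  have hcomp : ∀ f : Mor X Y, Cmp f U β φ → ∀ a, c (per f a) = c' a := by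
    intro f hf a
    have h3 := hper f hf a
    obtain ⟨i, h4, h5⟩ := hf.1 (oJ a) (hJ1 a)
    rw [h3, Option.some.injEq] at h4
    subst h4
    exact Prod.ext (Comp.src_eq h3) h5
  have hxtP : ∀ τ : Equiv.Perm (Fin l), (∀ a, c (τ a) = c' a) → OnP Y (xt τ) := by
    intro τ hτ j
    by_cases hj : ∃ a, oJ a = j
    · obtain ⟨a, rfl⟩ := hj
      rw [hxt]
      simp only
      rw [glue_apply hoJ.injective]
      have h3 : X (oI (τ a)) = Y (oJ a) := congrArg Prod.fst (hτ a)
      rw [← h3]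
      exact hx _
    · push Not at hj
      rw [hxt]
      simp only
      rw [glue_of _ _ hj]
      exact f₀.app_on hx j
  set β' : Equiv.Perm (Fin l) → k := fun τ =>
    ∑ f ∈ γ.support, if Cmp f U β φ ∧ per f = τ then
      (γ f : k) * (kos n τ : k) * rtU_KSum U β f else 0 with hβdef
  set g : Equiv.Perm (Fin l) → W := fun τ => ((kos n τ : ℤ) : k) • T (xt τ) with hg
  -- the conclusion of the second fundamental theorem
  have key : ∑ τ, β' τ • g τ = 0 := by
    refine second_fundamental_col c c' d ?_ ?_ ?_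
    · rintro τ hτ J₀ ⟨Z, b0⟩ hJ₀ hJc
      have hne : J₀.Nonempty := by
        rw [← Finset.card_pos, hJc]
        exact Nat.succ_pos _
      obtain ⟨a₀, ha₀⟩ := hne
      have hcol : ∀ a ∈ J₀, Y (oJ a) = Z ∧ β (oJ a) = b0 := by
        intro a ha
        have h3 := hJ₀ a ha
        exact ⟨congrArg Prod.fst h3, congrArg Prod.snd h3⟩
      have hZ : Y (oJ a₀) = Z := (hcol a₀ ha₀).1
      have hb0 : β (oJ a₀) = b0 := (hcol a₀ ha₀).2
      have hVZ : Vanish Z.F := hZ ▸ hV (oJ a₀)
      have hDZ : 0 < Z.F.D := hZ ▸ (hY (oJ a₀)).D_pos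
      have hbZ : ∀ i < Z.m, 0 < b0 i ∧ b0 i < Z.F.M := by
        have h3 := hβ1 (oJ a₀) (hJ1 a₀)
        rw [hZ, hb0] at h3
        exact h3
      have hJD : J₀.card = Z.F.D := by
        rw [hJc, hd]
        simp only
        omega
      have halt := alt_fix hT hβT hoJ.injective (q := fun b => x (oI b)) (w := w) τ (hxtP τ hτ)
        hVZ hbZ hcol hJD
      rw [← halt]
      refine Finset.sum_congr rfl fun π _ => ?_
      rw [hg]
      simp only
      rw [smul_smul]
    · intro τ hτ a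
      rw [hβdef] at hτ
      simp only at hτ
      obtain ⟨f, -, hf⟩ := Finset.exists_ne_zero_of_sum_ne_zero hτ
      by_cases hc1 : Cmp f U β φ ∧ per f = τ
      · rw [← hc1.2]
        exact hcomp f hc1.1 a
      · rw [if_neg hc1] at hf
        exact absurd rfl hf
    · intro w1 w1' hw1 hw1'
      set aa : Fin r → Lab := glue oI (fun _ => 0) (fun a => (w1 a, φ (oI a))) with haa
      set bb : Fin r' → Lab := glue oJ (fun _ => 0) (fun a => (w1' a, β (oJ a))) with hbb
      have haa1 : ∀ a, aa (oI a) = (w1 a, φ (oI a)) := fun a => glue_apply hoI.injective _ _ a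
      have hbb1 : ∀ a, bb (oJ a) = (w1' a, β (oJ a)) := fun a => glue_apply hoJ.injective _ _ a
      have haa2 : ∀ i, φ i = 0 → aa i = 0 := by
        intro i hi
        rw [haa, glue_of]
        rintro a rfl
        exact hI1 a hi
      have hbb2 : ∀ j, j ∉ U → bb j = 0 := by
        intro j hj
        rw [hbb, glue_of]
        rintro a rfl
        exact hj (hJ1 a)
      have hne : ∀ j, bb j ≠ 0 ↔ j ∈ U := by
        intro j
        constructor
        · intro h
          by_contra hj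
          exact h (hbb2 j hj)
        · intro hj h
          obtain ⟨a, rfl⟩ := hJ2 j hj
          rw [hbb1] at h
          exact hβ0 _ hj (congrArg Prod.snd h)
      have hneI : ∀ i, aa i ≠ 0 ↔ φ i ≠ 0 := by
        intro i
        constructor
        · intro h hi
          exact h (haa2 i hi)
        · intro hi h
          obtain ⟨a, rfl⟩ := hI2 i hi
          rw [haa1] at h
          exact hi (congrArg Prod.snd h)
      have hadm : ∀ b, AdmLab (Y b) (bb b) := by
        intro b
        by_cases hb : b ∈ U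
        · right
          obtain ⟨a, rfl⟩ := hJ2 b hb
          rw [hbb1]
          exact ⟨hw1' a, hβ1 _ hb, hβ2 _⟩
        · left
          exact hbb2 b hb
      have hdeg : degL Y bb = dimS Y U := by
        unfold degL dimS
        refine Finset.sum_congr ?_ fun _ _ => rfl
        ext b
        rw [Finset.mem_filter, hne]
        simp
      have hk := hγ bb hadm hdeg aa
      rw [← hk, hβdef]
      simp only
      rw [Finset.sum_comm, Finset.sum_filter (s := γ.support)]
      refine Finset.sum_congr rfl fun f _ => ?_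
      have hcond : IsPull f bb aa ↔ (Cmp f U β φ ∧ w1 ∘ ⇑(per f) = w1') := by
        constructor
        · rintro ⟨h3, h4⟩
          have hB : Cmp f U β φ := by
            refine ⟨fun j hj => ?_, fun i hi => ?_⟩
            · obtain ⟨i, h5, h6⟩ := h3 j ((hne j).2 hj)
              refine ⟨i, h5, ?_⟩
              have hi : φ i ≠ 0 := by
                intro hi
                rw [haa2 i hi] at h6
                exact (hne j).2 hj h6.symm
              obtain ⟨a, rfl⟩ := hI2 i hi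
              obtain ⟨b, rfl⟩ := hJ2 j hj
              rw [haa1, hbb1] at h6
              exact congrArg Prod.snd h6
            · obtain ⟨b, ⟨h5, h6⟩, h7⟩ := h4 i ((hneI i).2 hi)
              refine ⟨b, ⟨(hne b).1 h5, h6⟩, fun b' hb' => h7 b' ⟨(hne b').2 hb'.1, hb'.2⟩⟩
          refine ⟨hB, ?_⟩
          funext b
          obtain ⟨i, h5, h6⟩ := h3 (oJ b) ((hne _).2 (hJ1 b))
          rw [hper f hB b, Option.some.injEq] at h5
          rw [← h5, haa1, hbb1] at h6
          exact congrArg Prod.fst h6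
        · rintro ⟨hB, h3⟩
          refine ⟨fun j hj => ?_, fun i hi => ?_⟩
          · obtain ⟨b, rfl⟩ := hJ2 j ((hne j).1 hj)
            obtain ⟨i, h5, h6⟩ := hB.1 (oJ b) (hJ1 b)
            refine ⟨i, h5, ?_⟩
            rw [hper f hB b, Option.some.injEq] at h5
            rw [← h5, haa1, hbb1]
            refine Prod.ext (congrFun h3 b) ?_
            show φ (oI (per f b)) = _
            rw [h5, h6]
          · obtain ⟨b, ⟨h5, h6⟩, h7⟩ := hB.2 i ((hneI i).1 hi)
            exact ⟨b, ⟨(hne b).2 h5, h6⟩, fun b' hb' => h7 b' ⟨(hne b').1 hb'.1, hb'.2⟩⟩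
      by_cases hB : Cmp f U β φ ∧ w1 ∘ ⇑(per f) = w1'
      · rw [if_pos (hcond.2 hB)]
        rw [Finset.sum_eq_single (per f)]
        · rw [if_pos ⟨hB.1, rfl⟩, sgn_KSum hoI hoJ (c := bb)
            (fun j hj => hJ2 j ((hne j).1 hj)) (fun a => (hne _).2 (hJ1 a)) (hper f hB.1),
            fct_KSum (U := U) (β := β) (c := bb) (fun b hb => by
              obtain ⟨a, rfl⟩ := hJ2 b hb
              rw [hbb1]) hbb2 f]
        · intro τ _ hτ
          rw [if_neg fun h => hτ h.2.symm]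
        · intro hcon
          exfalso
          apply hcon
          simp only [Finset.mem_filter, Finset.mem_univ, true_and]
          exact hB.2
      · rw [if_neg fun h => hB (hcond.1 h)]
        refine Finset.sum_eq_zero fun τ hτ => ?_
        rw [if_neg]
        rintro ⟨h3, rfl⟩
        exact hB ⟨h3, by simpa using hτ⟩
  rw [← key, hβdef]
  simp only [Finset.sum_smul]
  rw [Finset.sum_comm, Finset.sum_filter]
  refine Finset.sum_congr rfl fun f _ => ?_
  by_cases hB : Cmp f U β φ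
  · rw [if_pos hB, Finset.sum_eq_single (per f)]
    · rw [if_pos ⟨hB, rfl⟩, base_KSum hβT hU hoJ.injective hJ2 (hper f hB) hx (w := w)
        (hxtP _ (hcomp f hB)), hg]
      simp only
      rw [smul_smul, smul_smul]
      congr 1
      have h3 : ((kos n (per f) : ℤ) : k) * ((kos n (per f) : ℤ) : k) = 1 := by
        rw [← Int.cast_mul, kos_sq, Int.cast_one]
      linear_combination -((γ f : k) * rtU_KSum U β f) * h3
    · intro τ _ hτ
      rw [if_neg fun h => hτ h.2.symm, zero_smul]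
    · intro hcon
      exact absurd (Finset.mem_univ _) hcon
  · rw [if_neg hB]
    symm
    refine Finset.sum_eq_zero fun τ _ => ?_
    rw [if_neg fun h => hB h.1, zero_smul]

/-- **The combination of the morphisms which are injective on `U`** -/
theorem sum_inj (hV : ∀ b, Vanish (Y b).F) (hY : ∀ b, (Y b).F.Adm)
    (hT : IsCFP Y T) {β : Fin r' → ℕ → ℕ} (hβT : IsEigP Y β T) {U : Finset (Fin r')}
    (hU : DepOn Y U T) (hβ1 : ∀ b ∈ U, ∀ i < (Y b).m, 0 < β b i ∧ β b i < (Y b).F.M)
    (hβ2 : ∀ b i, (Y b).m ≤ i → β b i = 0) {γ : Mor X Y →₀ ℚ}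
    (hγ : KillsForms γ (dimS Y U)) {x : Fin r → Crd k} (hx : OnP X x) :
    ∑ f ∈ γ.support.filter (fun f => InjU f U), (γ f : k) • T (f.app x) = 0 := by
  have hβ0 : ∀ b ∈ U, β b ≠ 0 := by
    intro b hb h
    have h1 := (hβ1 b hb 0 (lt_of_lt_of_le two_pos (hY b).two)).1
    rw [h] at h1
    exact lt_irrefl _ h1
  have hpat : ∀ f : Mor X Y, ∃ φ : Fin r → ℕ → ℕ, InjU f U → ∀ φ', Cmp f U β φ' ↔ φ' = φ := by
    intro f
    by_cases hf : InjU f U
    swap
    · exact ⟨0, fun h => absurd h hf⟩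
    refine ⟨fun a => if h : ∃ b, b ∈ U ∧ (f b).src = some a then β h.choose else 0,
      fun _ φ' => ?_⟩
    constructor
    · intro h
      funext a
      by_cases ha : ∃ b, b ∈ U ∧ (f b).src = some a
      · rw [dif_pos ha]
        obtain ⟨a', h1, h2⟩ := h.1 ha.choose ha.choose_spec.1
        rw [← h2]
        rw [ha.choose_spec.2, Option.some.injEq] at h1
        rw [h1]
      · rw [dif_neg ha]
        by_contra h1
        obtain ⟨b, hb, -⟩ := h.2 a h1
        exact ha ⟨b, hb⟩
    · rintro rfl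
      refine ⟨fun b hb => ?_, fun a ha => ?_⟩
      · obtain ⟨a, ha⟩ := hf.1 b hb
        have h1 : ∃ b, b ∈ U ∧ (f b).src = some a := ⟨b, hb, ha⟩
        refine ⟨a, ha, ?_⟩
        beta_reduce
        rw [dif_pos h1]
        have h2 := h1.choose_spec
        rw [hf.2 _ h2.1 b hb (h2.2.trans ha.symm)]
      · have h1 : ∃ b, b ∈ U ∧ (f b).src = some a := by
          by_contra h1
          exact ha (dif_neg h1)
        obtain ⟨b, hb, hba⟩ := h1
        exact ⟨b, ⟨hb, hba⟩, fun b' hb' => hf.2 _ hb'.1 b hb (hb'.2.trans hba.symm)⟩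
  choose pat hp using hpat
  have hinj : ∀ (f : Mor X Y) (φ : Fin r → ℕ → ℕ), Cmp f U β φ → InjU f U := by
    intro f φ h
    refine ⟨fun b hb => ?_, fun b hb b' hb' hbb => ?_⟩
    · obtain ⟨a, ha, -⟩ := h.1 b hb
      exact ⟨a, ha⟩
    · obtain ⟨a, ha, hφ⟩ := h.1 b hb
      obtain ⟨b1, -, h1⟩ := h.2 a (hφ ▸ hβ0 b hb)
      rw [h1 b ⟨hb, ha⟩, h1 b' ⟨hb', hbb ▸ ha⟩]
  rw [← Finset.sum_fiberwise_of_maps_to (s := γ.support.filter fun f => InjU f U)
    (t := (γ.support.filter fun f => InjU f U).image pat) (g := pat)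
    (fun f hf => Finset.mem_image_of_mem _ hf)]
  refine Finset.sum_eq_zero fun φ _ => ?_
  rw [← sum_cmp hV hY hT hβT hU hβ1 hβ2 hγ φ hx]
  refine Finset.sum_congr ?_ fun _ _ => rfl
  ext f
  simp only [Finset.mem_filter]
  constructor
  · rintro ⟨⟨h1, h2⟩, h3⟩
    exact ⟨h1, (hp f h2 φ).2 h3.symm⟩
  · rintro ⟨h1, h2⟩
    have h3 := hinj f φ h2
    exact ⟨⟨h1, h3⟩, ((hp f h3 φ).1 h2).symm⟩

end Pool.Agent.HGF
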