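import Mathlib

/-!
# Norms of polynomials

For a polynomial `F` over an algebraically closed field `k` and a monic polynomial `H` of degree `N` with the
roots `s j` the product of the `F (s j)` is `lc(F) ^ N * ∏ (-1) ^ N * H(r)`, where `r` runs over the roots
of `F`. For `H = h₀ + t h` this is a polynomial in `t` of degree at most `deg F`.
-/

set_option autoImplicit false

noncomputable section

namespace Pool.Agent.HGF

open Finset Polynomial

variable {k : Type*} [Field k] {S S' : Type*} [CommRing S] [Algebra k S] [CommRing S']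
  [Algebra k S'] {N : ℕ}

/-- the norm of `F` with respect to `H` -/
def nm (N : ℕ) (F : k[X]) (H : S[X]) : S :=
  algebraMap k S (F.leadingCoeff ^ N) *
    (F.roots.map fun r => (-1) ^ N * H.eval (algebraMap k S r)).prod

lemma nm_map (φ : S →ₐ[k] S') (F : k[X]) (H : S[X]) :
    φ (nm N F H) = nm N F (H.map (φ : S →+* S')) := by
  unfold nm
  rw [map_mul, AlgHom.commutes, map_multiset_prod, Multiset.map_map]
  congr 3
  funext r
  rw [Function.comp_apply, map_mul, map_pow, map_neg, map_one]
  congr 1
  have h := Polynomial.hom_eval₂ H (RingHom.id S) (φ : S →+* S') (algebraMap k S r)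
  rw [RingHom.comp_id] at h
  have h2 : (φ : S →+* S') (algebraMap k S r) = algebraMap k S' r := φ.commutes r
  rw [h2, ← Polynomial.eval_map, Polynomial.map_id] at h
  rw [Polynomial.eval_map]
  exact h

/-- the product of the values at the roots -/
theorem nm_prod [IsAlgClosed k] {K : Type*} [Field K] [Algebra k K] (F : k[X]) (s : Fin N → K) :
    nm N F (∏ j, (X - C (s j))) = ∏ j, aeval (s j) F := by
  unfold nm
  by_cases hF : F = 0
  · subst hF
    rcases Nat.eq_zero_or_pos N with rfl | hN
    · simp
    · simp only [leadingCoeff_zero, map_zero, zero_pow hN.ne', zero_mul]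
      rw [prod_const, card_univ, Fintype.card_fin, zero_pow hN.ne']
  have h1 : ∀ x : K, aeval x F = algebraMap k K F.leadingCoeff *
      (F.roots.map fun r => x - algebraMap k K r).prod := by
    intro x
    conv_lhs => rw [(IsAlgClosed.splits F).eq_prod_roots]
    rw [map_mul, aeval_C, map_multiset_prod, Multiset.map_map]
    congr 3
    funext r
    simp
  rw [prod_congr rfl fun j _ => h1 (s j), prod_mul_distrib, prod_const, card_univ,
    Fintype.card_fin, map_pow]
  congr 1
  have h2 : ∀ (M : Multiset k), (M.map fun r => (-1 : K) ^ N *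
      (∏ j, (X - C (s j))).eval (algebraMap k K r)).prod =
      ∏ j, (M.map fun r => s j - algebraMap k K r).prod := by
    intro M
    induction M using Multiset.induction_on with
    | empty => simp
    | cons r M ih =>
      simp only [Multiset.map_cons, Multiset.prod_cons]
      rw [ih, prod_mul_distrib]
      congr 1
      rw [eval_prod]
      have h3 : ((-1 : K)) ^ N = ∏ _j : Fin N, (-1 : K) := by
        rw [prod_const, card_univ, Fintype.card_fin]
      rw [h3, ← prod_mul_distrib]
      refine prod_congr rfl fun j _ => ?_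
      rw [eval_sub, eval_X, eval_C]
      ring
  exact h2 F.roots

/-- the polynomial `h₀ + t h`, the coefficients are polynomials in `t` -/
def Hh (h₀ : k[X]) (h : S[X]) : S[X][X] := h₀.map (algebraMap k S[X]) + C X * h.map C

lemma Hh_eval (h₀ : k[X]) (h : S[X]) (r : k) : (Hh h₀ h).eval (algebraMap k S[X] r) =
    C (algebraMap k S (h₀.eval r)) + X * C (h.eval (algebraMap k S r)) := by
  unfold Hh
  rw [eval_add, eval_mul, eval_C]
  congr 1
  · rw [eval_map]
    exact (hom_eval₂ h₀ (RingHom.id k) (algebraMap k S[X]) r).symm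
  · rw [eval_map]
    congr 1
    exact (hom_eval₂ h (RingHom.id S) C (algebraMap k S r)).symm

lemma natDegree_nm (h₀ : k[X]) (h : S[X]) (F : k[X]) :
    (nm N F (Hh h₀ h)).natDegree ≤ F.natDegree := by
  unfold nm
  have h1 : ∀ r : k, ((-1) ^ N * (Hh h₀ h).eval (algebraMap k S[X] r)).natDegree ≤ 1 := by
    intro r
    rw [Hh_eval]
    have h2 : ((-1 : S[X]) ^ N * (C (algebraMap k S (h₀.eval r)) +
        X * C (h.eval (algebraMap k S r)))) = C ((-1 : S) ^ N) *
        (C (algebraMap k S (h₀.eval r)) + X * C (h.eval (algebraMap k S r))) := by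
      rw [C_pow, C_neg, C_1]
    rw [h2]
    refine (natDegree_C_mul_le _ _).trans ((natDegree_add_le _ _).trans ?_)
    rw [natDegree_C]
    exact max_le (Nat.zero_le _) ((natDegree_mul_C_le _ _).trans natDegree_X_le)
  have h2 : algebraMap k S[X] (F.leadingCoeff ^ N) = C (algebraMap k S (F.leadingCoeff ^ N)) := rfl
  rw [h2]
  refine (natDegree_C_mul_le _ _).trans ((natDegree_multiset_prod_le _).trans ?_)
  rw [Multiset.map_map]
  have h3 : ∀ M : Multiset k, (M.map (natDegree ∘ fun r =>
      (-1) ^ N * (Hh h₀ h).eval (algebraMap k S[X] r))).sum ≤ M.card := by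
    intro M
    induction M using Multiset.induction_on with
    | empty => simp
    | cons r M ih =>
      rw [Multiset.map_cons, Multiset.sum_cons, Multiset.card_cons, add_comm]
      exact add_le_add ih (h1 r)
  exact (h3 _).trans (card_roots' F)

/-- change of the ring of parameters -/
lemma Hh_map (φ : S →ₐ[k] S') (h₀ : k[X]) (h : S[X]) :
    (Hh h₀ h).map (mapAlgHom φ : S[X] →+* S'[X]) = Hh h₀ (h.map (φ : S →+* S')) := by
  unfold Hh
  rw [Polynomial.map_add, Polynomial.map_mul, Polynomial.map_C, Polynomial.map_map,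
    Polynomial.map_map, Polynomial.map_map]
  congr 1
  · congr 1
    ext r
    simp
  · congr 1
    · congr 1
      simp
    · congr 1
      ext r
      simp

/-- specialisation of `t` -/
lemma Hh_aeval (τ : S) (h₀ h : k[X]) :
    (Hh h₀ h).map ((aeval τ : k[X] →ₐ[k] S) : k[X] →+* S) =
      h₀.map (algebraMap k S) + C τ * h.map (algebraMap k S) := by
  unfold Hh
  rw [Polynomial.map_add, Polynomial.map_mul, Polynomial.map_C, Polynomial.map_map,
    Polynomial.map_map]
  congr 1
  · congr 1
    ext r
    simp
  · congr 1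
    · congr 1
      simp
    · congr 1
      ext r
      simp

/-- the case `h = 0` -/
lemma Hh_zero (h₀ : k[X]) : Hh h₀ (0 : S[X]) = h₀.map (algebraMap k S[X]) := by
  unfold Hh
  rw [Polynomial.map_zero, mul_zero, add_zero]

/-- for `h = 0` the norms are constant -/
lemma nm_zero (h₀ : k[X]) (F : k[X]) : nm N F (Hh h₀ (0 : S[X])) =
    C (algebraMap k S (nm N F h₀)) := by
  rw [Hh_zero]
  have h := nm_map (S := k) (S' := S[X]) (N := N) (Algebra.ofId k S[X]) F h₀
  exact h.symm

/-- the value at `t = 0` -/
lemma nm_eval_zero (h₀ h : k[X]) (F : k[X]) : (nm N F (Hh h₀ h)).eval 0 = nm N F h₀ := by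
  have h1 := nm_map (S := k[X]) (S' := k) (N := N) (aeval (0 : k)) F (Hh h₀ h)
  rw [Hh_aeval] at h1
  rw [← coe_aeval_eq_eval, h1]
  simp

end Pool.Agent.HGF
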