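import Pool.Agent.HGF.Mat
import Pool.Agent.HGF.Norm
import Pool.Agent.HGF.Defs
import Pool.Agent.ZIso.Krull

/-!
# Deformations of a state

`N = ∑ d_i` points in the fibres over `s_0, ..., s_(N-1)`, the product of the operators has the coefficients
`T j i`. We look for deformations with the parameter `t`: `h₀ + t h` is the polynomial with the roots
`s_j(t)`, the coefficients of the row `i`, multiplied by a factor, are polynomials `τ j i` in `t` of degree at
most `d_i`. The unknowns are the `N` coefficients of `h`, a number `g`, and the coefficients of `τ j i` for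
`1 ≤ j ≤ N`; the determinant is given by `h` (`N D` equations), and the sum of the row `i` is the norm of
`C_i`, up to the factor `1 + g t` for `i = i0` (`D` equations). There is one unknown more than there are
equations, so there is a nonzero solution.
-/

set_option autoImplicit false
set_option linter.unusedSectionVars false

noncomputable section

namespace Pool.Agent.HGF

open Finset Polynomial

/-- The points `s j` are finite and general, `X j` are the coordinates `x` of points of the fibres over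
`s j` (divided by the `B_i(s_j)`), and the multipliers are different. -/
structure IsState {k : Type} [Field k] {m : ℕ} (F : Fam k m) {K : Type} [Field K] [Algebra k K]
    {N : ℕ} (s : Fin N → K) (X : Fin N → ℕ → K) : Prop where
  good : ∀ j, Good m (X j)
  B : ∀ j i, aeval (s j) (F.B i) ≠ 0
  C : ∀ j i, aeval (s j) (F.C i) ≠ 0
  A : ∀ j, aeval (s j) F.A ≠ 0
  mul : ∀ j, mu m (X j) * ∏ i, aeval (s j) (F.B i) = aeval (s j) F.A
  inj : Function.Injective fun j => mu m (X j)

/-- the unknowns -/
abbrev Unk {k : Type} [Field k] {m : ℕ} (F : Fam k m) (N : ℕ) : Type :=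
  Fin N ⊕ (Unit ⊕ (Fin N × Σ i : Fin m, Fin (F.d i)))

/-- the equations -/
abbrev Eqs {k : Type} [Field k] {m : ℕ} (F : Fam k m) (N : ℕ) : Type :=
  (Fin N × Fin F.D) ⊕ (Σ i : Fin m, Fin (F.d i))

section universal

variable {k : Type} [Field k] {S S' : Type} [CommRing S] [Algebra k S] [CommRing S']
  [Algebra k S'] {m N : ℕ} (F : Fam k m) (i0 : Fin m) (T : ℕ → ℕ → k) (κ : Fin m → k)
  (h₀ : k[X])

/-- the polynomial `h` -/
def hx (x : Unk F N → S) : S[X] := ∑ n : Fin N, C (x (Sum.inl n)) * X ^ (n : ℕ)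

/-- the row polynomials, `T j i` are the values at `t = 0` -/
def tx (x : Unk F N → S) (j i : ℕ) : S[X] :=
  if hi : i < m then
    if j = 0 then nm N (F.B ⟨i, hi⟩) (Hh h₀ (hx F x))
    else if hj : j - 1 < N then C (algebraMap k S (T j i)) + ∑ r : Fin (F.d ⟨i, hi⟩),
      C (x (Sum.inr (Sum.inr (⟨j - 1, hj⟩, ⟨⟨i, hi⟩, r⟩)))) * X ^ ((r : ℕ) + 1)
    else 0
  else 0

/-- the equation for the determinant at `θ` -/
def EA (x : Unk F N → S) (θ : k) : S[X] :=
  (dm m N (tx F T h₀ x) (C (algebraMap k S θ))).det -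
    nm N (∏ i, F.B i - C θ * F.A) (Hh h₀ (hx F x))

/-- the equation for the sum of the row -/
def GA (x : Unk F N → S) (i : Fin m) : S[X] :=
  ∑ j ∈ range (N + 1), tx F T h₀ x j i - C (algebraMap k S (κ i)) *
    nm N (F.C i) (Hh h₀ (hx F x)) *
    (if i = i0 then 1 + C (x (Sum.inr (Sum.inl ()))) * X else 1)

variable (φ : S →ₐ[k] S') (x : Unk F N → S)

private lemma hx_map : (hx F x).map (φ : S →+* S') = hx F fun e => φ (x e) := by
  unfold hx
  simp [Polynomial.map_sum]

private lemma nmx_map (G : k[X]) : (nm N G (Hh h₀ (hx F x))).map (φ : S →+* S') =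
    nm N G (Hh h₀ (hx F fun e => φ (x e))) := by
  have h := nm_map (N := N) (mapAlgHom φ) G (Hh h₀ (hx F x))
  rw [Hh_map, hx_map] at h
  exact h

private lemma tx_map (j i : ℕ) : (tx F T h₀ x j i).map (φ : S →+* S') =
    tx F T h₀ (fun e => φ (x e)) j i := by
  unfold tx
  split_ifs with h1 h2 h3
  · exact nmx_map F h₀ φ x _
  · simp [Polynomial.map_sum]
  · simp
  · simp

private lemma EA_map (θ : k) : (EA F T h₀ x θ).map (φ : S →+* S') =
    EA F T h₀ (fun e => φ (x e)) θ := by
  unfold EA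
  rw [Polynomial.map_sub, nmx_map]
  congr 1
  have h := det_dm_map (m := m) (N := N) (mapRingHom (φ : S →+* S')) (tx F T h₀ x)
    (C (algebraMap k S θ))
  rw [coe_mapRingHom] at h
  rw [h]
  congr 2
  · funext j i
    exact tx_map F T h₀ φ x j i
  · simp

private lemma GA_map (i : Fin m) : (GA F i0 T κ h₀ x i).map (φ : S →+* S') =
    GA F i0 T κ h₀ (fun e => φ (x e)) i := by
  unfold GA
  rw [Polynomial.map_sub, Polynomial.map_mul, Polynomial.map_mul, nmx_map, Polynomial.map_sum]
  congr 1
  · exact sum_congr rfl fun j _ => tx_map F T h₀ φ x j i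
  · congr 1
    · congr 1
      simp
    · split_ifs
      · simp
      · simp

/-! ### Degrees -/

private lemma tx_deg (hB : ∀ i, (F.B i).natDegree ≤ F.d i) (j : ℕ) (i : Fin m) :
    (tx F T h₀ x j i).natDegree ≤ F.d i := by
  unfold tx
  rw [dif_pos i.isLt]
  split_ifs with h2 h3
  · exact (natDegree_nm h₀ _ _).trans (hB i)
  · refine (natDegree_add_le _ _).trans (max_le (by rw [natDegree_C]; exact Nat.zero_le _) ?_)
    refine natDegree_sum_le_of_forall_le _ _ fun r _ => ?_
    exact (natDegree_C_mul_X_pow_le _ _).trans r.isLt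
  · simp

private lemma EA_deg (hB : ∀ i, (F.B i).natDegree ≤ F.d i) (hA : F.A.natDegree ≤ F.D) (θ : k) :
    (EA F T h₀ x θ).natDegree ≤ F.D := by
  unfold EA
  refine (natDegree_sub_le _ _).trans (max_le ?_ ?_)
  · exact natDegree_det_dm (fun j _ i => tx_deg F T h₀ x hB j i) _
  · refine (natDegree_nm h₀ _ _).trans ((natDegree_sub_le _ _).trans (max_le ?_ ?_))
    · exact (natDegree_prod_le _ _).trans (sum_le_sum fun i _ => hB i)
    · exact (natDegree_C_mul_le _ _).trans hA

private lemma GA_deg (hB : ∀ i, (F.B i).natDegree ≤ F.d i)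
    (hC : ∀ i, (F.C i).natDegree ≤ F.d i) (h0 : (F.C i0).natDegree < F.d i0) (i : Fin m) :
    (GA F i0 T κ h₀ x i).natDegree ≤ F.d i := by
  unfold GA
  refine (natDegree_sub_le _ _).trans (max_le ?_ ?_)
  · exact natDegree_sum_le_of_forall_le _ _ fun j _ => tx_deg F T h₀ x hB j i
  · have h1 : (C (algebraMap k S (κ i)) * nm N (F.C i) (Hh h₀ (hx F x))).natDegree ≤
        (F.C i).natDegree := (natDegree_C_mul_le _ _).trans (natDegree_nm h₀ _ _)
    split_ifs with hi
    · subst hi
      refine natDegree_mul_le.trans ?_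
      have h2 : (1 + C (x (Sum.inr (Sum.inl ()))) * X : S[X]).natDegree ≤ 1 := by
        refine (natDegree_add_le _ _).trans (max_le (by rw [natDegree_one]; exact Nat.zero_le _) ?_)
        exact (natDegree_C_mul_le _ _).trans natDegree_X_le
      omega
    · rw [mul_one]
      exact h1.trans (hC i)

/-! ### The trivial solution -/

private lemma hx_zero : hx F (0 : Unk F N → S) = 0 := by
  unfold hx
  simp

private lemma tx_zero (j i : ℕ) : ∃ c : S, tx F T h₀ (0 : Unk F N → S) j i = C c := by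
  unfold tx
  split_ifs with h1 h2 h3
  · exact ⟨_, by rw [hx_zero, nm_zero]⟩
  · exact ⟨algebraMap k S (T j i), by simp⟩
  · exact ⟨0, by simp⟩
  · exact ⟨0, by simp⟩

private lemma EA_zero (θ : k) : ∃ c : S, EA F T h₀ (0 : Unk F N → S) θ = C c := by
  choose c hc using tx_zero (S := S) F (N := N) T h₀
  have h1 : tx F T h₀ (0 : Unk F N → S) = fun j i => C (c j i) := by
    funext j i
    exact hc j i
  unfold EA
  rw [h1, ← det_dm_map (C : S →+* S[X]), hx_zero, nm_zero, ← C_sub]
  exact ⟨_, rfl⟩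

private lemma GA_zero (i : Fin m) : ∃ c : S, GA F i0 T κ h₀ (0 : Unk F N → S) i = C c := by
  choose c hc using tx_zero (S := S) F (N := N) T h₀
  unfold GA
  rw [sum_congr rfl fun j _ => hc j i, ← map_sum, hx_zero, nm_zero]
  have h2 : (if i = i0 then 1 + C ((0 : Unk F N → S) (Sum.inr (Sum.inl ()))) * X else 1 : S[X]) =
      1 := by
    split_ifs
    · simp
    · rfl
  rw [h2, mul_one, ← C_mul, ← C_sub]
  exact ⟨_, rfl⟩

/-- a polynomial with vanishing coefficients -/
private lemma poly_zero {P : S[X]} {n : ℕ} (hd : P.natDegree ≤ n)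
    (hc : ∀ r < n, P.coeff (r + 1) = 0) (h0 : P.eval 0 = 0) : P = 0 := by
  ext r
  rw [coeff_zero]
  rcases Nat.eq_zero_or_pos r with rfl | hr
  · rw [coeff_zero_eq_eval_zero, h0]
  · by_cases hrn : r ≤ n
    · have h := hc (r - 1) (by omega)
      rwa [Nat.sub_add_cancel hr] at h
    · exact coeff_eq_zero_of_natDegree_lt (by omega)

end universal

variable {k : Type} [Field k] {m N : ℕ}

/-- the polynomial with the roots `s j` -/
def hh {K : Type} [Field K] (s : Fin N → K) : K[X] := ∏ j, (X - C (s j))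

/-- the factor of the row -/
def Wn (F : Fam k m) (s : Fin N → k) (X : Fin N → ℕ → k) (i : ℕ) : k :=
  ∏ j, ((if hi : i < m then F.B ⟨i, hi⟩ else 1).eval (s j) * (1 - X j i))

/-- the determinant of the product -/
theorem det_state {F : Fam k m} (hm : 0 < m) {s : Fin N → k} {X : Fin N → ℕ → k}
    (h : IsState F s X) (θ : k) : (dm m N (fun j i => Wn F s X i * cor X j i) θ).det =
      ∏ j, (∏ i, (F.B i).eval (s j) - θ * F.A.eval (s j)) := by
  have hB : ∀ j i, (F.B i).eval (s j) ≠ 0 := fun j i => by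
    have h1 := h.B j i
    rwa [coe_aeval_eq_eval] at h1
  have hA : ∀ j, F.A.eval (s j) ≠ 0 := fun j => by
    have h1 := h.A j
    rwa [coe_aeval_eq_eval] at h1
  have hmul : ∀ j, mu m (X j) * ∏ i, (F.B i).eval (s j) = F.A.eval (s j) := fun j => by
    have h1 := h.mul j
    simpa only [coe_aeval_eq_eval] using h1
  have hP : ∀ j, ∏ i, (F.B i).eval (s j) ≠ 0 := fun j => prod_ne_zero_iff.2 fun i _ => hB j i
  have hq : ∀ j, (∏ i, (F.B i).eval (s j)) / F.A.eval (s j) = (mu m (X j))⁻¹ := by
    intro j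
    rw [← hmul j, mul_comm (mu m (X j)), ← div_div, div_self (hP j), one_div]
  refine det_eq_prod hA hP ?_ ?_ ?_ θ
  · intro j l hjl
    have hjl' : (mu m (X j))⁻¹ = (mu m (X l))⁻¹ := by
      rw [← hq, ← hq]
      exact hjl
    exact h.inj (inv_injective hjl')
  · rw [prod_comm]
    refine prod_congr rfl fun i _ => ?_
    rw [cor_zero]
    unfold Wn
    rw [dif_pos i.isLt, ← prod_mul_distrib]
    refine prod_congr rfl fun j _ => ?_
    rw [mul_assoc, mul_inv_cancel₀ (sub_ne_zero.2 ((h.good j).ne1 i).symm), mul_one]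
  · intro j
    rw [det_dm_mul, hq j]
    obtain ⟨ψ, h1, h2, h3⟩ := exists_ker h.good h.inj j
    rw [det_of_ker hm h1 h2 (by
      funext i
      rw [← opr_eq, h3]), mul_zero]

/-- the deformation given by a solution of the equations -/
structure IsDef (F : Fam k m) (i0 : Fin m) (s : Fin N → k) (X : Fin N → ℕ → k) (h : k[X])
    (g : k) (τ : ℕ → ℕ → k[X]) : Prop where
  deg : h.degree < N
  ne : h ≠ 0 ∨ g ≠ 0 ∨ ∃ j ≤ N, ∃ i < m, 0 < (τ j i).natDegree
  ev : ∀ j ≤ N, ∀ i < m, (τ j i).eval 0 = Wn F s X i * cor X j i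
  row0 : ∀ i : Fin m, τ 0 i = nm N (F.B i) (Hh (hh s) h)
  sum : ∀ i : Fin m, ∑ j ∈ range (N + 1), τ j i =
    C (Wn F s X i / ∏ j, (F.C i).eval (s j)) * nm N (F.C i) (Hh (hh s) h) *
      (if i = i0 then 1 + C g * Polynomial.X else 1)
  det : ∀ l : Fin N, (dm m N τ (C (((l : ℕ) : k) + 1))).det =
    nm N (∏ i, F.B i - C (((l : ℕ) : k) + 1) * F.A) (Hh (hh s) h)

/-- **There is a nontrivial deformation.** -/
theorem exists_isDef [IsAlgClosed k] {F : Fam k m} (hm : 0 < m)
    (hB : ∀ i, (F.B i).natDegree ≤ F.d i) (hC : ∀ i, (F.C i).natDegree ≤ F.d i)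
    (hA : F.A.natDegree ≤ F.D) {i0 : Fin m} (h0 : (F.C i0).natDegree < F.d i0)
    (hN : F.D ≤ N) {s : Fin N → k} {X : Fin N → ℕ → k} (hX : IsState F s X) :
    ∃ (h : k[X]) (g : k) (τ : ℕ → ℕ → k[X]), IsDef F i0 s X h g τ := by
  classical
  set T : ℕ → ℕ → k := fun j i => Wn F s X i * cor X j i with hT
  set κ : Fin m → k := fun i => Wn F s X i / ∏ j, (F.C i).eval (s j) with hκ
  -- norms at `t = 0`
  have hnm : ∀ G : k[X], nm N G (hh s) = ∏ j, G.eval (s j) := by
    intro G
    unfold hh
    rw [nm_prod]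
    exact prod_congr rfl fun j _ => by rw [coe_aeval_eq_eval]
  have hCs : ∀ i, ∏ j, (F.C i).eval (s j) ≠ 0 := fun i => prod_ne_zero_iff.2 fun j _ => by
    have h1 := hX.C j i
    rwa [coe_aeval_eq_eval] at h1
  have hW0 : ∀ i : Fin m, Wn F s X i * cor X 0 i = ∏ j, (F.B i).eval (s j) := by
    intro i
    rw [cor_zero]
    unfold Wn
    rw [dif_pos i.isLt, ← prod_mul_distrib]
    refine prod_congr rfl fun j _ => ?_
    rw [mul_assoc, mul_inv_cancel₀ (sub_ne_zero.2 ((hX.good j).ne1 i).symm), mul_one]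
  -- the equations
  let y : Unk F N → MvPolynomial (Unk F N) k := MvPolynomial.X
  let f : Eqs F N → MvPolynomial (Unk F N) k := fun e => match e with
    | Sum.inl (l, r) => (EA F T (hh s) y (((l : ℕ) : k) + 1)).coeff (r + 1)
    | Sum.inr ⟨i, r⟩ => (GA F i0 T κ (hh s) y i).coeff (r + 1)
  have hf1 : ∀ (x : Unk F N → k) (l : Fin N) (r : Fin F.D),
      MvPolynomial.eval x (f (Sum.inl (l, r))) =
        (EA F T (hh s) x (((l : ℕ) : k) + 1)).coeff (r + 1) := by
    intro x l r
    have h1 := EA_map F T (hh s) (MvPolynomial.aeval x : MvPolynomial (Unk F N) k →ₐ[k] k) y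
      (((l : ℕ) : k) + 1)
    have h2 : (fun e => (MvPolynomial.aeval x : MvPolynomial (Unk F N) k →ₐ[k] k) (y e)) = x := by
      funext e
      exact MvPolynomial.aeval_X x e
    rw [h2] at h1
    rw [← h1, coeff_map, ← MvPolynomial.coe_aeval_eq_eval]
  have hf2 : ∀ (x : Unk F N → k) (i : Fin m) (r : Fin (F.d i)),
      MvPolynomial.eval x (f (Sum.inr ⟨i, r⟩)) = (GA F i0 T κ (hh s) x i).coeff (r + 1) := by
    intro x i r
    have h1 := GA_map F i0 T κ (hh s)
      (MvPolynomial.aeval x : MvPolynomial (Unk F N) k →ₐ[k] k) y i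
    have h2 : (fun e => (MvPolynomial.aeval x : MvPolynomial (Unk F N) k →ₐ[k] k) (y e)) = x := by
      funext e
      exact MvPolynomial.aeval_X x e
    rw [h2] at h1
    rw [← h1, coeff_map, ← MvPolynomial.coe_aeval_eq_eval]
  obtain ⟨x, hx0, hx1⟩ := ZIso.exists_ne_zero (ι := Unk F N) (κ := Eqs F N) (by
    simp only [Fintype.card_sum, Fintype.card_prod, Fintype.card_sigma, Fintype.card_fin,
      Fintype.card_unit]
    show N * F.D + F.D < N + (1 + N * F.D)
    omega) f (by
    rintro (⟨l, r⟩ | ⟨i, r⟩)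
    · obtain ⟨c, hc⟩ := EA_zero (S := k) F (N := N) T (hh s) (((l : ℕ) : k) + 1)
      rw [hf1, hc, coeff_C_succ]
    · obtain ⟨c, hc⟩ := GA_zero (S := k) F i0 (N := N) T κ (hh s) i
      rw [hf2, hc, coeff_C_succ])
  -- values at `t = 0`
  have hev : ∀ j ≤ N, ∀ i < m, (tx F T (hh s) x j i).eval 0 = Wn F s X i * cor X j i := by
    intro j hj i hi
    unfold tx
    rw [dif_pos hi]
    split_ifs with h1 h2
    · subst h1
      rw [nm_eval_zero, hnm, ← hW0 ⟨i, hi⟩]
    · rw [eval_add, eval_C, eval_finsetSum]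
      have h3 : ∑ r : Fin (F.d ⟨i, hi⟩), (C (x (Sum.inr (Sum.inr (⟨j - 1, h2⟩, ⟨⟨i, hi⟩, r⟩)))) *
          Polynomial.X ^ ((r : ℕ) + 1)).eval 0 = 0 := sum_eq_zero fun r _ => by simp
      rw [h3, add_zero]
      rfl
    · exact absurd (by omega) h2
  refine ⟨hx F x, x (Sum.inr (Sum.inl ())), tx F T (hh s) x, ?_, ?_, hev, ?_, ?_, ?_⟩
  · unfold hx
    refine (degree_sum_le _ _).trans_lt ((Finset.sup_lt_iff (WithBot.bot_lt_coe N)).2
      fun n _ => ?_)
    exact (degree_C_mul_X_pow_le _ _).trans_lt (Nat.cast_lt.2 n.isLt)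
  · by_contra hcon
    push Not at hcon
    obtain ⟨h1, h2, h3⟩ := hcon
    apply hx0
    funext e
    rcases e with n | ⟨⟩ | ⟨j, i, r⟩
    · have h4 : (hx F x).coeff n = x (Sum.inl n) := by
        unfold hx
        rw [finsetSum_coeff, sum_eq_single n]
        · simp
        · intro l _ hl
          rw [coeff_C_mul, coeff_X_pow, if_neg, mul_zero]
          intro h5
          exact hl (Fin.ext h5.symm)
        · intro h5
          exact absurd (mem_univ _) h5
      rw [h1, coeff_zero] at h4
      exact h4.symm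
    · exact h2
    · have h4 := h3 (j + 1) (by omega) i i.isLt
      have h5 : (tx F T (hh s) x (j + 1) i).coeff (r + 1) =
          x (Sum.inr (Sum.inr (j, ⟨i, r⟩))) := by
        unfold tx
        rw [dif_pos i.isLt, if_neg (Nat.succ_ne_zero _), dif_pos (show (j : ℕ) + 1 - 1 < N by
          have := j.isLt
          omega), coeff_add, coeff_C_succ, zero_add, finsetSum_coeff, sum_eq_single r]
        · simp
        · intro l _ hl
          rw [coeff_C_mul, coeff_X_pow, if_neg, mul_zero]
          intro h5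
          exact hl (Fin.ext (by omega))
        · intro h5
          exact absurd (mem_univ _) h5
      rw [coeff_eq_zero_of_natDegree_lt (by omega)] at h5
      exact h5.symm
  · intro i
    unfold tx
    rw [dif_pos i.isLt, if_pos rfl]
  · intro i
    have h1 : GA F i0 T κ (hh s) x i = 0 := by
      refine poly_zero (GA_deg F i0 T κ (hh s) x hB hC h0 i) (fun r hr => ?_) ?_
      · have h2 := hx1 (Sum.inr ⟨i, ⟨r, hr⟩⟩)
        rw [hf2] at h2
        exact h2
      · unfold GA
        rw [eval_sub, eval_finsetSum, sum_congr rfl fun j hj => hev j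
          (by have := mem_range.1 hj; omega) i i.isLt, ← mul_sum,
          cor_sum fun j => (hX.good j).ne1, mul_one, eval_mul, eval_mul, nm_eval_zero, hnm]
        have h2 : (if i = i0 then 1 + C (x (Sum.inr (Sum.inl ()))) * Polynomial.X
            else 1 : k[X]).eval 0 = 1 := by
          split_ifs <;> simp
        rw [h2, mul_one, Algebra.algebraMap_self, RingHom.id_apply, eval_C,
          div_mul_cancel₀ _ (hCs i), sub_self]
    exact sub_eq_zero.1 h1
  · intro l
    have h1 : EA F T (hh s) x (((l : ℕ) : k) + 1) = 0 := by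
      refine poly_zero (EA_deg F T (hh s) x hB hA _) (fun r hr => ?_) ?_
      · have h2 := hx1 (Sum.inl (l, ⟨r, hr⟩))
        rw [hf1] at h2
        exact h2
      · unfold EA
        rw [eval_sub, nm_eval_zero, hnm]
        have h2 := det_dm_map (m := m) (N := N) (evalRingHom (0 : k)) (tx F T (hh s) x)
          (C (algebraMap k k (((l : ℕ) : k) + 1)))
        rw [coe_evalRingHom] at h2
        rw [h2, eval_C, dm_congr hev, Algebra.algebraMap_self, RingHom.id_apply,
          det_state hm hX, sub_eq_zero]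
        refine prod_congr rfl fun j _ => ?_
        rw [eval_sub, eval_mul, eval_C, eval_prod]
    exact sub_eq_zero.1 h1

end Pool.Agent.HGF
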