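import Pool.Agent.HGF.Seq
import Pool.Agent.GT.Val

/-!
# Lifting of factorisations from the residue field of a place
-/

set_option autoImplicit false

noncomputable section

namespace Pool.Agent.HGF

open Finset Pool.Agent.ZCyc Pool.Agent.Dess

variable {k K : Type} [Field k] [Field K] [Algebra k K] {m N : ℕ}

lemma at_one (v : Place k K) : v.At (1 : K) (1 : k) := by
  have h := Place.at_const (v := v) (1 : k)
  rwa [map_one] at h

lemma at_zero (v : Place k K) : v.At (0 : K) (0 : k) := by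
  have h := Place.at_const (v := v) (0 : k)
  rwa [map_zero] at h

lemma op_at {v : Place k K} {x ψ : ℕ → K} {x' ψ' : ℕ → k} (hx : ∀ i, v.At (x i) (x' i))
    (h1 : ∀ i, x' i ≠ 1) (hψ : ∀ i, v.At (ψ i) (ψ' i)) (i : ℕ) :
    v.At (op x ψ i) (op x' ψ' i) :=
  ((hψ i).sub ((hx i).mul (hψ (i + 1)))).div ((at_one v).sub (hx i)) (sub_ne_zero.2 (h1 i).symm)

lemma cor_at {v : Place k K} {X : Fin N → ℕ → K} {X' : Fin N → ℕ → k}
    (hX : ∀ j i, v.At (X j i) (X' j i)) (h1 : ∀ j i, X' j i ≠ 1) (j i : ℕ) :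
    v.At (cor X j i) (cor X' j i) := by
  induction N generalizing j i with
  | zero =>
    cases j with
    | zero => exact at_one v
    | succ j => exact at_zero v
  | succ N ih =>
    have h2 := ih (X := fun j => X j.succ) (X' := fun j => X' j.succ) (fun j => hX j.succ)
      (fun j => h1 j.succ)
    have h3 : ∀ i, v.At (1 - X 0 i) (1 - X' 0 i) := fun i => (at_one v).sub (hX 0 i)
    have h4 : ∀ i, 1 - X' 0 i ≠ 0 := fun i => sub_ne_zero.2 (h1 0 i).symm
    cases j with
    | zero => exact (h2 0 i).div (h3 _) (h4 _)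
    | succ j =>
      exact ((h2 (j + 1) i).div (h3 _) (h4 _)).sub (((h2 j i).mul (hX 0 _)).div (h3 _) (h4 _))

lemma dv_at {v : Place k K} {t : ℕ → ℕ → K} {t' : ℕ → ℕ → k} {x : ℕ → K} {x' : ℕ → k}
    (ht : ∀ j ≤ N, ∀ i, v.At (t j i) (t' j i)) (hx : ∀ i, v.At (x i) (x' i))
    (h1 : ∀ i, x' i ≠ 1) : ∀ j ≤ N, ∀ i, v.At (dv t x j i) (dv t' x' j i) := by
  intro j hj
  have h3 : ∀ i, v.At (1 - x i) (1 - x' i) := fun i => (at_one v).sub (hx i)
  have h4 : ∀ i, 1 - x' i ≠ 0 := fun i => sub_ne_zero.2 (h1 i).symm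
  induction j with
  | zero => exact fun i => (ht 0 (Nat.zero_le _) i).mul (h3 i)
  | succ j ih =>
    intro i
    exact (h3 _).mul ((ht (j + 1) hj i).add (((ih (by omega) i).mul (hx _)).div (h3 _) (h4 _)))

/-- quasi-periodic sequences have quasi-periodic values, up to a factor -/
theorem exists_scale_QP [GT.HasRes k K] (v : Place k K) (hm : 0 < m) {μ : K} {μ' : k}
    (hμ : v.At μ μ') {ψ : ℕ → K} (hψ : QP m μ ψ) (h0 : ψ ≠ 0) :
    ∃ (l : K) (y : ℕ → k), l ≠ 0 ∧ y ≠ 0 ∧ QP m μ' y ∧ ∀ i, v.At (l * ψ i) (y i) := by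
  have h1 : (fun i : Fin m => ψ i) ≠ 0 := fun h => h0 (hψ.eq_zero hm fun i hi =>
    congrFun h ⟨i, hi⟩)
  obtain ⟨l, y, hl, hy, h⟩ := GT.exists_scale v (fun i : Fin m => ψ i) h1
  have h2 : ∀ i, ∃ c : k, v.At (l * ψ i) c := by
    intro n
    induction n using Nat.strong_induction_on with
    | _ n ih =>
      by_cases hn : n < m
      · exact ⟨_, h ⟨n, hn⟩⟩
      · obtain ⟨r, rfl⟩ : ∃ r, n = r + m := ⟨n - m, by omega⟩
        obtain ⟨c, hc⟩ := ih r (by omega)
        refine ⟨μ' * c, ?_⟩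
        rw [hψ r, show l * (μ * ψ r) = μ * (l * ψ r) by ring]
        exact hμ.mul hc
  choose z hz using h2
  refine ⟨l, z, hl, fun h3 => hy ?_, fun i => ?_, hz⟩
  · funext i
    have h4 := (h i).unique (hz i)
    rw [h4, h3]
    rfl
  · have h3 := hz (i + m)
    rw [hψ i, show l * (μ * ψ i) = μ * (l * ψ i) by ring] at h3
    exact h3.unique (hμ.mul (hz i))

/-- **Lifting of factorisations.** -/
theorem exists_lift [GT.HasRes k K] (v : Place k K) (hm : 0 < m) {t : ℕ → ℕ → K}
    {t' : ℕ → ℕ → k} (ht : ∀ j, Per m (t j))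
    (h1 : ∀ i, ∑ j ∈ range (N + 1), t j i = 1)
    (hat : ∀ j ≤ N, ∀ i, v.At (t j i) (t' j i)) {μ : Fin N → K} {μ' : Fin N → k}
    (hμ : ∀ l, v.At (μ l) (μ' l)) (hinj : Function.Injective μ')
    (hker : ∀ l, ∃ ψ, ψ ≠ 0 ∧ QP m (μ l) ψ ∧ ap N t ψ = 0) {X' : Fin N → ℕ → k}
    (hX' : ∀ j, Good m (X' j)) (hmu : ∀ j, μ' j * mu m (X' j) = 1)
    (hop : ∀ ψ, opr X' ψ = ap N t' ψ) :
    ∃ X : Fin N → ℕ → K, (∀ j, Good m (X j)) ∧ (∀ j, μ j * mu m (X j) = 1) ∧
      (∀ ψ, opr X ψ = ap N t ψ) ∧ ∀ j i, v.At (X j i) (X' j i) := by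
  induction N generalizing t t' with
  | zero =>
    refine ⟨fun j => j.elim0, fun j => j.elim0, fun j => j.elim0, fun ψ => ?_, fun j => j.elim0⟩
    funext i
    have h2 := h1 i
    rw [zero_add, sum_range_one] at h2
    simp [opr, ap, h2]
  | succ N ih =>
    obtain ⟨ψ, hψ0, hψ, hT⟩ := hker 0
    obtain ⟨l, y, hl, hy, hyQ, hyv⟩ := exists_scale_QP v hm (hμ 0) hψ hψ0
    -- `y` is in the kernel of `X' 0`
    have hty : ap (N + 1) t' y = 0 := by
      funext i
      have h2 : v.At (∑ j ∈ range (N + 1 + 1), t j i * (l * ψ (i + j)))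
          (∑ j ∈ range (N + 1 + 1), t' j i * y (i + j)) :=
        Place.At.sum fun j hj => (hat j (by have := mem_range.1 hj; omega) i).mul (hyv _)
      have h3 : ∑ j ∈ range (N + 1 + 1), t j i * (l * ψ (i + j)) = 0 := by
        have h4 : ∑ j ∈ range (N + 1 + 1), t j i * ψ (i + j) = 0 := congrFun hT i
        have h5 : ∑ j ∈ range (N + 1 + 1), t j i * (l * ψ (i + j)) =
            l * ∑ j ∈ range (N + 1 + 1), t j i * ψ (i + j) := by
          rw [mul_sum]
          exact sum_congr rfl fun j _ => by ring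
        rw [h5, h4, mul_zero]
      rw [h3] at h2
      exact h2.unique (at_zero v)
    have hy1 : op (X' 0) y = 0 := by
      refine eq_zero_of_opr (m := m) (X := fun j : Fin N => X' j.succ) (μ := μ' 0)
        (fun j => hX' j.succ) (hyQ.op (hX' 0).per) (fun j hj => ?_) ?_
      · have h2 := hmu j.succ
        have h3 := mul_right_cancel₀ (mu_ne (hX' j.succ)) (hj.trans h2.symm)
        exact (Fin.succ_ne_zero j) (hinj h3).symm
      · exact (hop y).trans hty
    have hy2 := (op_eq_zero_iff (hX' 0).ne1).1 hy1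
    have hy3 : ∀ i, y i ≠ 0 := by
      have h4 : y 0 ≠ 0 := by
        intro h5
        apply hy
        funext n
        have h6 := ker_prod hy2 n
        rw [h5] at h6
        exact (mul_eq_zero.1 h6.symm).resolve_left
          (prod_ne_zero_iff.2 fun l _ => (hX' 0).ne0 l)
      intro n h5
      apply h4
      rw [ker_prod hy2 n, h5, mul_zero]
    have hne : ∀ i, ψ i ≠ 0 := by
      intro i h2
      have h3 := hyv i
      rw [h2, mul_zero] at h3
      exact hy3 i (h3.unique (at_zero v))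
    -- the first factor
    set x : ℕ → K := fun i => ψ i / ψ (i + 1) with hx
    have hxv : ∀ i, v.At (x i) (X' 0 i) := by
      intro i
      have h2 := (hyv i).div (hyv (i + 1)) (hy3 _)
      have h3 : l * ψ i / (l * ψ (i + 1)) = x i := by
        rw [hx, mul_div_mul_left _ _ hl]
      have h4 : y i / y (i + 1) = X' 0 i := by
        rw [hy2 i, mul_div_cancel_right₀ _ (hy3 _)]
      rwa [h3, h4] at h2
    have hx0 : ∀ i, x i ≠ 0 := fun i => div_ne_zero (hne _) (hne _)
    have hx1 : ∀ i, x i ≠ 1 := by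
      intro i h2
      have h3 := hxv i
      rw [h2] at h3
      exact (hX' 0).ne1 i (h3.unique (at_one v))
    have hμ0 : μ 0 ≠ 0 := by
      intro h2
      have h3 := hψ 0
      rw [h2, zero_mul] at h3
      exact hne _ h3
    have hxper : Per m x := by
      intro i
      show ψ (i + m) / ψ (i + m + 1) = ψ i / ψ (i + 1)
      rw [add_right_comm, hψ i, hψ (i + 1), mul_div_mul_left _ _ hμ0]
    have hxψ : ∀ i, ψ i = x i * ψ (i + 1) := fun i => (div_mul_cancel₀ _ (hne _)).symm
    have hxG : Good m x := ⟨hxper, hx0, hx1⟩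
    have hxmu : μ 0 * mu m x = 1 := by
      have h2 := ker_prod hxψ m
      have h3 := hψ 0
      rw [zero_add] at h3
      rw [h3] at h2
      have h4 : (μ 0 * mu m x) * ψ 0 = 1 * ψ 0 := by
        rw [one_mul]
        unfold mu
        linear_combination -h2
      exact mul_right_cancel₀ (hne 0) h4
    have hdiv : ∀ φ, ap (N + 1) t φ = ap N (dv t x) (op x φ) := ap_dv hx1 hne hxψ hT
    have hdiv' : ∀ φ, ap (N + 1) t' φ = ap N (dv t' (X' 0)) (op (X' 0) φ) :=
      ap_dv (hX' 0).ne1 hy3 hy2 hty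
    obtain ⟨Y, hY1, hY2, hY3, hY4⟩ := ih (t := dv t x) (t' := dv t' (X' 0))
      (μ := fun j => μ j.succ) (μ' := fun j => μ' j.succ) (X' := fun j => X' j.succ)
      (dv_per ht hxper) (fun i => by
        have h2 := congrFun (hdiv fun _ => 1) i
        rw [op_one hx1] at h2
        simp only [ap, mul_one] at h2
        rw [← h2]
        exact h1 i)
      (dv_at (fun j hj => hat j (by omega)) hxv (hX' 0).ne1) (fun j => hμ j.succ)
      (fun i j hij => Fin.succ_injective _ (hinj hij)) (fun j => by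
        obtain ⟨φ, h2, h3, h4⟩ := hker j.succ
        refine ⟨op x φ, fun h5 => h2 ?_, h3.op hxper, ?_⟩
        · refine eq_zero_of_op hxG h3 (fun h6 => ?_) h5
          have h7 := mul_right_cancel₀ (mu_ne hxG) (h6.trans hxmu.symm)
          have h8 := hμ j.succ
          rw [h7] at h8
          exact (Fin.succ_ne_zero j) (hinj (h8.unique (hμ 0)))
        · rw [← hdiv, h4])
      (fun j => hX' j.succ) (fun j => hmu j.succ) (fun φ => by
        obtain ⟨φ', hφ'⟩ := exists_op (hX' 0) φ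
        have h2 := hop φ'
        rw [hdiv', hφ'] at h2
        rw [← h2]
        show opr (fun j => X' j.succ) φ = opr (fun j => X' j.succ) (op (X' 0) φ')
        rw [hφ'])
    refine ⟨Fin.cons x Y, fun j => ?_, fun j => ?_, fun φ => ?_, fun j => ?_⟩
    · refine Fin.cases ?_ (fun j => ?_) j
      · exact hxG
      · exact hY1 j
    · refine Fin.cases ?_ (fun j => ?_) j
      · exact hxmu
      · exact hY2 j
    · rw [hdiv, ← hY3]
      rfl
    · refine Fin.cases ?_ (fun j => ?_) j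
      · exact hxv
      · exact hY4 j

end Pool.Agent.HGF
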