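import Pool.Agent.HGF.Lift
import Mathlib.LinearAlgebra.Lagrange

/-!
# The matrix of a difference operator on the quasi-periodic sequences
-/

set_option autoImplicit false

noncomputable section

namespace Pool.Agent.HGF

open Finset Polynomial

section ring

variable {R S : Type*} [CommRing R] [CommRing S] {m N : ℕ}

/-- the matrix of the difference operator with the coefficients `t` on the sequences which are
multiplied by `θ` under the shift by `m` -/
def dm (m N : ℕ) (t : ℕ → ℕ → R) (θ : R) : Matrix (Fin m) (Fin m) R :=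
  Matrix.of fun i c => ∑ j ∈ range (N + 1),
    if ((i : ℕ) + j) % m = c then t j i * θ ^ (((i : ℕ) + j) / m) else 0

lemma dm_apply (t : ℕ → ℕ → R) (θ : R) (i c : Fin m) : dm m N t θ i c =
    ∑ j ∈ range (N + 1), if ((i : ℕ) + j) % m = c then t j i * θ ^ (((i : ℕ) + j) / m) else 0 :=
  rfl

lemma det_dm_map (φ : R →+* S) (t : ℕ → ℕ → R) (θ : R) :
    φ (dm m N t θ).det = (dm m N (fun j i => φ (t j i)) (φ θ)).det := by
  rw [RingHom.map_det]
  congr 1
  ext i c
  rw [RingHom.mapMatrix_apply, Matrix.map_apply, dm_apply, dm_apply, map_sum]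
  refine sum_congr rfl fun j _ => ?_
  split_ifs with h
  · rw [map_mul, map_pow]
  · exact map_zero φ

/-- only the coefficients `t j i` with `j ≤ N`, `i < m` matter -/
lemma dm_congr {t t' : ℕ → ℕ → R} (h : ∀ j ≤ N, ∀ i < m, t j i = t' j i) (θ : R) :
    dm m N t θ = dm m N t' θ := by
  ext i c
  rw [dm_apply, dm_apply]
  refine sum_congr rfl fun j hj => ?_
  rw [h j (by have := mem_range.1 hj; omega) i i.isLt]

/-- rows can be multiplied by factors -/
lemma det_dm_mul (w : ℕ → R) (t : ℕ → ℕ → R) (θ : R) :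
    (dm m N (fun j i => w i * t j i) θ).det = (∏ i : Fin m, w i) * (dm m N t θ).det := by
  rw [← Matrix.det_mul_column]
  congr 1
  ext i c
  rw [Matrix.of_apply, dm_apply, dm_apply, mul_sum]
  refine sum_congr rfl fun j _ => ?_
  split_ifs with h
  · rw [mul_assoc]
  · rw [mul_zero]

/-- the value at `0` -/
lemma det_dm_zero (t : ℕ → ℕ → R) : (dm m N t 0).det = ∏ i : Fin m, t 0 i := by
  have h1 : ∀ (i c : Fin m), c ≤ i → ∀ j, 0 < j → ((i : ℕ) + j) % m = c →
      ((i : ℕ) + j) / m ≠ 0 := by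
    intro i c hc j hj h h2
    have hm : 0 < m := lt_of_le_of_lt (Nat.zero_le _) i.isLt
    have h3 : (i : ℕ) + j < m := by
      rcases (Nat.div_eq_zero_iff).1 h2 with h4 | h4
      · omega
      · exact h4
    rw [Nat.mod_eq_of_lt h3] at h
    have h4 : (c : ℕ) ≤ i := hc
    omega
  rw [Matrix.det_of_isUpperTriangular]
  · refine prod_congr rfl fun i _ => ?_
    rw [dm_apply, sum_eq_single 0]
    · have h2 : ((i : ℕ) + 0) % m = i := by
        rw [add_zero, Nat.mod_eq_of_lt i.isLt]
      rw [if_pos h2, add_zero, Nat.div_eq_of_lt i.isLt, pow_zero, mul_one]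
    · intro j _ hj
      split_ifs with h
      · rw [zero_pow (h1 i i le_rfl j (Nat.pos_of_ne_zero hj) h), mul_zero]
      · rfl
    · intro h
      exact absurd (mem_range.2 (Nat.succ_pos N)) h
  · intro i c hic
    have hci : c < i := hic
    rw [dm_apply]
    refine sum_eq_zero fun j _ => ?_
    split_ifs with h
    · rcases Nat.eq_zero_or_pos j with rfl | hj
      · rw [add_zero, Nat.mod_eq_of_lt i.isLt] at h
        exact absurd (Fin.ext h) (ne_of_gt hci)
      · rw [zero_pow (h1 i c hci.le j hj h), mul_zero]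
    · rfl

/-- the determinant as a polynomial in `θ` -/
def dp (m N : ℕ) (t : ℕ → ℕ → R) : R[X] := (dm m N (fun j i => C (t j i)) X).det

lemma eval_dp (t : ℕ → ℕ → R) (θ : R) : (dp m N t).eval θ = (dm m N t θ).det := by
  have h := det_dm_map (m := m) (N := N) (evalRingHom θ) (fun j i => C (t j i)) X
  simpa [dp] using h

private lemma dm_deg (t : ℕ → ℕ → R) (i c : Fin m)
    (h : dm m N (fun j i => C (t j i)) (X : R[X]) i c ≠ 0) :
    m * (dm m N (fun j i => C (t j i)) (X : R[X]) i c).natDegree + c ≤ i + N := by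
  have hm : 0 < m := lt_of_le_of_lt (Nat.zero_le _) i.isLt
  have h1 : (c : ℕ) ≤ i + N := by
    by_contra h2
    apply h
    rw [dm_apply]
    refine sum_eq_zero fun j hj => ?_
    split_ifs with h3
    · have h4 := Nat.mod_le ((i : ℕ) + j) m
      have := mem_range.1 hj
      omega
    · rfl
  have h2 : (dm m N (fun j i => C (t j i)) (X : R[X]) i c).natDegree ≤ (i + N - c) / m := by
    rw [dm_apply]
    refine natDegree_sum_le_of_forall_le _ _ fun j hj => ?_
    split_ifs with h3
    · refine (natDegree_C_mul_X_pow_le _ _).trans ?_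
      rw [Nat.le_div_iff_mul_le hm]
      have h4 := Nat.div_add_mod ((i : ℕ) + j) m
      have h5 := mem_range.1 hj
      have h6 : m * (((i : ℕ) + j) / m) = i + j - c := by omega
      rw [mul_comm, h6]
      omega
    · simp
  have h3 : m * ((i + N - c) / m) ≤ i + N - c := Nat.mul_div_le _ _
  have h4 := Nat.mul_le_mul_left m h2
  omega

lemma natDegree_dp (t : ℕ → ℕ → R) : (dp m N t).natDegree ≤ N := by
  rcases Nat.eq_zero_or_pos m with rfl | hm
  · unfold dp
    rw [Matrix.det_isEmpty, natDegree_one]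
    exact Nat.zero_le _
  unfold dp
  rw [Matrix.det_apply]
  refine natDegree_sum_le_of_forall_le _ _ fun σ _ => ?_
  set M := dm m N (fun j i => C (t j i)) (X : R[X]) with hM
  have h0 : (Equiv.Perm.sign σ • ∏ i, M (σ i) i).natDegree ≤ (∏ i, M (σ i) i).natDegree := by
    rw [Units.smul_def, zsmul_eq_mul]
    rcases Int.units_eq_one_or (Equiv.Perm.sign σ) with h | h <;> rw [h] <;> simp
  refine h0.trans ?_
  by_cases hz : ∃ i, M (σ i) i = 0
  · obtain ⟨i, hi⟩ := hz
    have h1 : (∏ i, M (σ i) i) = 0 := prod_eq_zero (mem_univ i) hi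
    rw [h1, natDegree_zero]
    exact Nat.zero_le _
  push Not at hz
  refine (natDegree_prod_le _ _).trans ?_
  have h1 : ∑ i : Fin m, (m * (M (σ i) i).natDegree + i) ≤ ∑ i : Fin m, ((σ i : ℕ) + N) :=
    sum_le_sum fun i _ => dm_deg t (σ i) i (hz i)
  rw [sum_add_distrib, sum_add_distrib, ← mul_sum] at h1
  have h2 : ∑ i : Fin m, (σ i : ℕ) = ∑ i : Fin m, (i : ℕ) :=
    Equiv.sum_comp σ fun i : Fin m => (i : ℕ)
  rw [h2, sum_const, card_univ, Fintype.card_fin, smul_eq_mul] at h1
  have h3 : m * ∑ i : Fin m, (M (σ i) i).natDegree ≤ m * N := by omega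
  exact Nat.le_of_mul_le_mul_left h3 hm

/-- the degree in a parameter -/
lemma natDegree_det_dm {t : ℕ → ℕ → R[X]} {δ : Fin m → ℕ}
    (h : ∀ j ≤ N, ∀ i : Fin m, (t j i).natDegree ≤ δ i) (θ : R) :
    (dm m N t (C θ)).det.natDegree ≤ ∑ i, δ i := by
  rw [Matrix.det_apply]
  refine natDegree_sum_le_of_forall_le _ _ fun σ _ => ?_
  set M := dm m N t (C θ) with hM
  have h0 : (Equiv.Perm.sign σ • ∏ i, M (σ i) i).natDegree ≤ (∏ i, M (σ i) i).natDegree := by
    rw [Units.smul_def, zsmul_eq_mul]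
    rcases Int.units_eq_one_or (Equiv.Perm.sign σ) with h | h <;> rw [h] <;> simp
  refine h0.trans ((natDegree_prod_le _ _).trans ?_)
  rw [← Equiv.sum_comp σ δ]
  refine sum_le_sum fun i _ => ?_
  rw [hM, dm_apply]
  refine natDegree_sum_le_of_forall_le _ _ fun j hj => ?_
  split_ifs with h3
  · rw [← C_pow]
    exact (natDegree_mul_C_le _ _).trans (h j (by have := mem_range.1 hj; omega) _)
  · simp

end ring

section field

variable {K : Type*} [Field K] {m N : ℕ}

/-- the sequence with given values on one period -/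
def ext (m : ℕ) (θ : K) (y : ℕ → K) (n : ℕ) : K := θ ^ (n / m) * y (n % m)

lemma ext_QP (hm : 0 < m) (θ : K) (y : ℕ → K) : QP m θ (ext m θ y) := by
  intro n
  unfold ext
  rw [Nat.add_div_right n hm, Nat.add_mod_right, pow_succ]
  ring

lemma ext_of_lt (θ : K) (y : ℕ → K) {n : ℕ} (hn : n < m) : ext m θ y n = y n := by
  unfold ext
  rw [Nat.div_eq_of_lt hn, Nat.mod_eq_of_lt hn, pow_zero, one_mul]

lemma QP.ext_eq {θ : K} {ψ : ℕ → K} (hm : 0 < m) (h : QP m θ ψ) : ext m θ ψ = ψ := by
  funext n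
  induction n using Nat.strong_induction_on with
  | _ n ih =>
    by_cases hn : n < m
    · exact ext_of_lt θ ψ hn
    · obtain ⟨l, rfl⟩ : ∃ l, n = l + m := ⟨n - m, by omega⟩
      rw [ext_QP hm θ ψ l, h l, ih l (by omega)]

lemma dm_mulVec (t : ℕ → ℕ → K) (θ : K) (y : ℕ → K) (i : Fin m) :
    (dm m N t θ).mulVec (fun c => y c) i = ap N t (ext m θ y) i := by
  show ∑ c, dm m N t θ i c * y c = _
  simp only [dm_apply, sum_mul]
  rw [sum_comm]
  unfold ap
  refine sum_congr rfl fun j _ => ?_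
  have hm : 0 < m := lt_of_le_of_lt (Nat.zero_le _) i.isLt
  have h1 : ((i : ℕ) + j) % m < m := Nat.mod_lt _ hm
  rw [sum_eq_single (⟨((i : ℕ) + j) % m, h1⟩ : Fin m)]
  · rw [if_pos rfl]
    unfold ext
    ring
  · intro c _ hc
    rw [if_neg, zero_mul]
    intro h
    exact hc (Fin.ext h.symm)
  · intro h
    exact absurd (mem_univ _) h

lemma QP.ap {t : ℕ → ℕ → K} {θ : K} {ψ : ℕ → K} (ht : ∀ j, Per m (t j)) (h : QP m θ ψ) :
    QP m θ (ap N t ψ) := by
  intro i
  unfold HGF.ap
  rw [mul_sum]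
  refine sum_congr rfl fun j _ => ?_
  rw [ht j i, add_right_comm, h (i + j)]
  ring

theorem exists_of_det (hm : 0 < m) {t : ℕ → ℕ → K} (ht : ∀ j, Per m (t j)) {θ : K}
    (h : (dm m N t θ).det = 0) : ∃ ψ, ψ ≠ 0 ∧ QP m θ ψ ∧ ap N t ψ = 0 := by
  obtain ⟨y, hy, h1⟩ := Matrix.exists_mulVec_eq_zero_iff.2 h
  set z : ℕ → K := fun n => if hn : n < m then y ⟨n, hn⟩ else 0 with hz
  have hzy : (fun c : Fin m => z c) = y := by
    funext c
    simp [hz]
  refine ⟨ext m θ z, fun h2 => hy ?_, ext_QP hm θ z, ?_⟩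
  · funext c
    have h3 := congrFun h2 c
    rw [ext_of_lt θ z c.isLt] at h3
    rw [← hzy]
    exact h3
  · refine ((ext_QP hm θ z).ap ht).eq_zero hm fun i hi => ?_
    have h2 := dm_mulVec (m := m) (N := N) t θ z ⟨i, hi⟩
    rw [hzy, h1] at h2
    exact h2.symm

theorem det_of_ker (hm : 0 < m) {t : ℕ → ℕ → K} {θ : K} {ψ : ℕ → K}
    (h0 : ψ ≠ 0) (hψ : QP m θ ψ) (h : ap N t ψ = 0) : (dm m N t θ).det = 0 := by
  refine Matrix.exists_mulVec_eq_zero_iff.1 ⟨fun c => ψ c, fun h1 => h0 ?_, ?_⟩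
  · exact hψ.eq_zero hm fun i hi => congrFun h1 ⟨i, hi⟩
  · funext i
    rw [dm_mulVec, hψ.ext_eq hm, h]
    rfl

/-- two polynomials of degree at most `N` which agree at `0` and at `N` other points -/
theorem eq_of_points {P Q : K[X]} (hP : P.natDegree ≤ N) (hQ : Q.natDegree ≤ N) {z : Fin N → K}
    (hz : Function.Injective z) (hz0 : ∀ k, z k ≠ 0) (h0 : P.eval 0 = Q.eval 0)
    (h : ∀ k, P.eval (z k) = Q.eval (z k)) : P = Q := by
  have hc : ((univ : Finset (Option (Fin N))).card : WithBot ℕ) = ((N + 1 : ℕ) : WithBot ℕ) := by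
    rw [card_univ, Fintype.card_option, Fintype.card_fin]
  have hd : ∀ F : K[X], F.natDegree ≤ N → F.degree < ((N + 1 : ℕ) : WithBot ℕ) := fun F hF =>
    lt_of_le_of_lt degree_le_natDegree (by exact_mod_cast Nat.lt_succ_of_le hF)
  refine Polynomial.eq_of_degrees_lt_of_eval_index_eq (univ : Finset (Option (Fin N)))
    (v := fun o => o.elim 0 z) ?_ (hc ▸ hd P hP) (hc ▸ hd Q hQ) ?_
  · intro x _ y _ hxy
    cases x with
    | none =>
      cases y with
      | none => rfl
      | some y => exact absurd hxy.symm (hz0 y)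
    | some x =>
      cases y with
      | none => exact absurd hxy (hz0 x)
      | some y => exact congrArg some (hz hxy)
  · intro x _
    cases x with
    | none => exact h0
    | some x => exact h x

/-- the product of linear polynomials -/
lemma natDegree_lin (α β : Fin N → K) :
    (∏ k, (C (β k) - X * C (α k))).natDegree ≤ N := by
  refine (natDegree_prod_le _ _).trans ?_
  refine (sum_le_card_nsmul _ _ 1 fun k _ => ?_).trans (by simp)
  refine (natDegree_sub_le _ _).trans ?_
  rw [natDegree_C]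
  exact max_le (Nat.zero_le _) ((natDegree_mul_C_le _ _).trans natDegree_X_le)

theorem det_eq_prod {t : ℕ → ℕ → K} {α β : Fin N → K} (hα : ∀ k, α k ≠ 0)
    (hβ : ∀ k, β k ≠ 0) (hinj : Function.Injective fun k => β k / α k)
    (h0 : ∏ i : Fin m, t 0 i = ∏ k, β k) (hz : ∀ k, (dm m N t (β k / α k)).det = 0) (θ : K) :
    (dm m N t θ).det = ∏ k, (β k - θ * α k) := by
  have h1 : dp m N t = ∏ k, (C (β k) - X * C (α k)) := by
    refine eq_of_points (natDegree_dp t) (natDegree_lin α β) hinj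
      (fun k => div_ne_zero (hβ k) (hα k)) ?_ fun k => ?_
    · rw [eval_dp, det_dm_zero, h0, eval_prod]
      refine prod_congr rfl fun k _ => ?_
      simp
    · rw [eval_dp, hz, eval_prod, prod_eq_zero (mem_univ k)]
      rw [eval_sub, eval_C, eval_mul, eval_X, eval_C, div_mul_cancel₀ _ (hα k), sub_self]
  rw [← eval_dp, h1, eval_prod]
  refine prod_congr rfl fun k _ => ?_
  rw [eval_sub, eval_C, eval_mul, eval_X, eval_C]

end field

end Pool.Agent.HGF
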