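import Pool.Agent.HGF.Val
import Pool.Agent.GT.Mov

/-!
# Project HGF: comparison of two values of the parameter, and the moving lemma

Statements as `GT.bridge` and `GT.moving`, for class functions `E` with values in a vector space and
points of `Y` with coordinates in `Om k`, the algebraic closure of `k(t)`, `t = tt k`.

**Field of definition.** `K = k(tt, Γ, the finite coordinates of s j and u j i)` (an
`IntermediateField k (Om k)`, adjoin of a finite set) is the function field of a curve (copy the
private theorem `fld_isCurve` of `GT/Fld.lean`); every coordinate is the image of an element of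
`Option K`. `OnY` descends (`onY_map` for `K.val`). If `V` is a place of `Om k` and `c` the place
of `K` below it (`TInc.exists_below`, `exists_above` for `K.val`) then `vlo V (x.map K.val) = vlo
c x` (`vlo_alg`).

**Moving.** As in `GT.moving`: let `c₀` be the place below `v`; `T` = the finite set of places of
`K` where some `g ∈ Γ` has order `≠ 0`; `exists_prescribed`: `f` with the order `1` at `c₀` and
`0` at the other places in `T`. In the relation `hE` for `f` all terms with `c ≠ c₀` vanish (order
zero, or all `g ∈ Γ` are units at `c`, hence at a place of `Om k` above `c`). So `E` vanishes at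
`c₀`.

**Bridge.** As in `GT.bridge`: for the functions `t - c₀` and `t - c₁` of `K` the orders at the
poles agree and the sums of the orders at the zeros are `d = [K : k(t)] > 0` (`deg_zeros'`), so
the difference of the two relations is `d • C₀ - d • C₁ = 0`. The proof of `GT.bridge` can be
copied almost literally, with `ℤ`-multiples instead of `ℚ`-multiples (`Module k W`, characteristic
zero: `d • x = 0` implies `x = 0`).
-/

set_option autoImplicit false
set_option linter.unusedSectionVars false

noncomputable section

namespace Pool.Agent.HGF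

open Polynomial Pool.Agent.ZCyc Pool.Agent.Dess Pool.Agent.GT Pool.Agent.TInc
open Pool.Agent.VFP (Om tt)
open scoped Classical

variable {k : Type} [Field k] [IsAlgClosed k] [CharZero k] {m : ℕ} {F : Fam k m} {N : ℕ} {W : Type}
  [AddCommGroup W] [Module k W] {E : (Fin N → Option k) → (Fin N → Fin m → Option k) → W}

private theorem exists_fld (Γ : Finset (Om k)) : ∃ K : IntermediateField k (Om k), IsCurve k K ∧
    ↑Γ ⊆ (K : Set (Om k)) ∧ tt k ∈ K := by
  have hX : Hom (∅ : Set (MvPolynomial (Fin (0 + 1)) k)) := fun f hf => hf.elim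
  obtain ⟨K, -, hK, hΓ, htt, -⟩ := exists_field hX Γ (J := Empty) (fun j => j.elim)
  exact ⟨K, hK, hΓ, htt⟩

omit [IsAlgClosed k] [CharZero k] in
private theorem lift_opt {K : IntermediateField k (Om k)} (x : Option (Om k))
    (h : ∀ f ∈ x, f ∈ K) : ∃ x' : Option K, x'.map K.val = x := by
  cases x with
  | none => exact ⟨none, rfl⟩
  | some f => exact ⟨some ⟨f, h f rfl⟩, rfl⟩

omit [IsAlgClosed k] [CharZero k] in
private theorem mov_vanishes {K : IntermediateField k (Om k)} {V : Place k (Om k)}
    {c : Place k K} (h : V.ring.comap (K.val : K →+* Om k) = c.ring) (f : K) :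
    V.Vanishes (f : Om k) ↔ c.Vanishes f := by
  rw [Place.vanishes_iff_or, Place.vanishes_iff_or, ← h, ValuationSubring.mem_comap]
  constructor
  · rintro (h1 | h1)
    · left
      exact Subtype.ext h1
    · right
      exact h1
  · rintro (h1 | h1)
    · left
      rw [h1]
      rfl
    · right
      exact h1

/-- the moving lemma for functions on the set of places -/
private theorem moving_core {K : IntermediateField k (Om k)} (hK : IsCurve k K)
    (L : Place k (Om k) → W) (L' : Place k K → W)
    (hlim : ∀ (V : Place k (Om k)) (c : Place k K),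
      V.ring.comap (K.val : K →+* Om k) = c.ring → L V = L' c)
    (hrel : ∀ f : K, f ≠ 0 → ((TInc.dv hK f).sum fun v a => a • L' v) = 0)
    (Γ : Finset (Om k)) (hΓK : ↑Γ ⊆ (K : Set (Om k))) (hΓ : (0 : Om k) ∉ Γ)
    (h : ∀ v : Place k (Om k), (∀ g ∈ Γ, g ∈ v.ring ∧ g⁻¹ ∈ v.ring) → L v = 0)
    (v : Place k (Om k)) : L v = 0 := by
  have : HasRes k K := hasRes_of_isCurve hK
  obtain ⟨c₀, hc₀⟩ := exists_below hK v K.val
  rw [hlim v c₀ hc₀]
  let T : Finset (Place k K) := Γ.attach.biUnion fun g =>
    (finite_ord hK (⟨g.1, hΓK g.2⟩ : K)).toFinset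
  obtain ⟨f, hf, hf1, hf0⟩ := exists_prescribed hK c₀ T
  have hsum := hrel f hf
  have key : ∀ c, c ≠ c₀ → ord c f ≠ 0 → L' c = 0 := by
    intro c hc hcf
    have hcT : c ∉ T := fun h => hcf (hf0 c h hc)
    obtain ⟨V, hV⟩ := exists_above hK c K.val
    rw [← hlim V c hV]
    apply h
    intro g hg
    have h1 : ord c (⟨g, hΓK hg⟩ : K) = 0 := by
      by_contra hne
      apply hcT
      rw [Finset.mem_biUnion]
      exact ⟨⟨g, hg⟩, Finset.mem_attach _ _, (Set.Finite.mem_toFinset _).2 hne⟩
    have h2 : (⟨g, hΓK hg⟩ : K) ≠ 0 := by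
      intro h3
      apply hΓ
      have h4 := congrArg Subtype.val h3
      change g = 0 at h4
      rw [← h4]
      exact hg
    rw [ord_eq_zero_iff hK h2, ← hV, ValuationSubring.mem_comap, ValuationSubring.mem_comap] at h1
    exact h1
  rw [Finsupp.sum, Finset.sum_eq_single c₀] at hsum
  · rw [TInc.dv_apply, hf1, one_smul] at hsum
    exact hsum
  · intro c hc hne
    rw [Finsupp.mem_support_iff, TInc.dv_apply] at hc
    rw [key c hne hc, smul_zero]
  · intro hc
    rw [Finsupp.notMem_support_iff, TInc.dv_apply, hf1] at hc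
    exact absurd hc one_ne_zero

/-- comparison of two values of the parameter for functions on the set of places -/
private theorem bridge_core {K : IntermediateField k (Om k)} (hK : IsCurve k K) (htt : tt k ∈ K)
    (L : Place k (Om k) → W) (L' : Place k K → W)
    (hlim : ∀ (V : Place k (Om k)) (c : Place k K),
      V.ring.comap (K.val : K →+* Om k) = c.ring → L V = L' c)
    (hrel : ∀ f : K, f ≠ 0 → ((TInc.dv hK f).sum fun v a => a • L' v) = 0) {c₀ c₁ : k}
    {C₀ C₁ : W} (h₀ : ∀ v : Place k (Om k), v.At (tt k) c₀ → L v = C₀)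
    (h₁ : ∀ v : Place k (Om k), v.At (tt k) c₁ → L v = C₁) : C₀ = C₁ := by
  have : HasRes k K := hasRes_of_isCurve hK
  set τ : K := ⟨tt k, htt⟩ with hτ
  have hτt : Transcendental k τ := by
    intro h
    apply Pool.Agent.VFP.tt_transc (k := k)
    have h1 := (isAlgebraic_algHom_iff K.val (K.val : K →+* Om k).injective).2 h
    exact h1
  -- the two functions
  let f : k → K := fun c => τ - algebraMap k K c
  have hft : ∀ c, Transcendental k (f c) := by
    intro c h
    apply hτt
    have h1 : τ = f c + algebraMap k K c := by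
      change τ = τ - algebraMap k K c + algebraMap k K c
      ring
    rw [h1]
    exact h.add (isAlgebraic_algebraMap c)
  have hf0 : ∀ c, f c ≠ 0 := by
    intro c h
    apply hft c
    rw [h]
    exact isAlgebraic_zero
  have hadj : ∀ c, IntermediateField.adjoin k {f c} = IntermediateField.adjoin k {τ} := by
    intro c
    apply le_antisymm
    · rw [IntermediateField.adjoin_simple_le_iff]
      exact sub_mem (IntermediateField.mem_adjoin_simple_self k τ)
        (IntermediateField.algebraMap_mem _ c)
    · rw [IntermediateField.adjoin_simple_le_iff]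
      have h1 : τ = f c + algebraMap k K c := by
        change τ = τ - algebraMap k K c + algebraMap k K c
        ring
      have h2 : f c + algebraMap k K c ∈ IntermediateField.adjoin k {f c} :=
        add_mem (IntermediateField.mem_adjoin_simple_self k (f c))
          (IntermediateField.algebraMap_mem _ c)
      rw [← h1] at h2
      exact h2
  set d : ℕ := Module.finrank (IntermediateField.adjoin k {τ}) K with hd
  have hdpos : 0 < d := by
    have := fin_adjoin hK hτt
    exact Module.finrank_pos
  let S : k → Finset (Place k K) := fun c =>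
    (finite_ord hK (f c)).toFinset.filter fun v => v.Vanishes (f c)
  have hS : ∀ c v, v ∈ S c ↔ v.Vanishes (f c) := by
    intro c v
    rw [Finset.mem_filter, Set.Finite.mem_toFinset]
    constructor
    · exact fun h => h.2
    · intro h
      have h1 := (vanishes_iff_ord hK (hf0 c)).1 h
      exact ⟨ne_of_gt h1, h⟩
  have hdeg : ∀ c, ∑ v ∈ S c, ord v (f c) = d := by
    intro c
    rw [deg_zeros' hK (hft c) (S c) (hS c), hadj c]
  -- the limits at the zeros
  have hlimS : ∀ (c : k) (C : W), (∀ v : Place k (Om k), v.At (tt k) c → L v = C) →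
      ∀ v, v.Vanishes (f c) → L' v = C := by
    intro c C hC v hv
    obtain ⟨V, hV⟩ := exists_above hK v K.val
    rw [← hlim V v hV]
    apply hC
    have h1 := (mov_vanishes hV (f c)).2 hv
    exact h1
  -- the orders at the poles agree
  have hpole : ∀ (a b : k) (v : Place k K), ord v (f a) < 0 → ord v (f b) = ord v (f a) := by
    intro a b v hv
    have h1 : f b = f a + algebraMap k K (a - b) := by
      change τ - algebraMap k K b = τ - algebraMap k K a + algebraMap k K (a - b)
      rw [map_sub]
      ring
    rw [h1]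
    refine (ord_add_eq hK (hf0 a) fun _ => ?_).2
    rw [ord_const hK]
    exact hv
  let D : k → (Place k K →₀ ℤ) := fun c => TInc.dv hK (f c)
  let T : Finset (Place k K) := (D c₀).support ∪ (D c₁).support
  have hsum : ∀ c, (D c).support ⊆ T → ∑ v ∈ T, ord v (f c) • L' v = 0 := by
    intro c hc
    have h1 := hrel (f c) (hf0 c)
    rw [Finsupp.sum_of_support_subset _ hc] at h1
    · exact h1
    · intro v _
      simp
  have hmax : ∀ c, (D c).support ⊆ T → ∑ v ∈ T, max (ord v (f c)) 0 = d := by
    intro c hc
    rw [← hdeg c]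
    symm
    have hsub : S c ⊆ T := by
      intro v hv
      apply hc
      rw [Finsupp.mem_support_iff]
      have h1 := (vanishes_iff_ord hK (hf0 c)).1 ((hS c v).1 hv)
      exact ne_of_gt h1
    rw [← Finset.sum_subset hsub]
    · refine Finset.sum_congr rfl fun v hv => ?_
      have h1 := (vanishes_iff_ord hK (hf0 c)).1 ((hS c v).1 hv)
      exact (max_eq_left h1.le).symm
    · intro v _ hv
      rw [hS, vanishes_iff_ord hK (hf0 c)] at hv
      exact max_eq_right (not_lt.1 hv)
  have hs0 := hsum c₀ Finset.subset_union_left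
  have hs1 := hsum c₁ Finset.subset_union_right
  have hm0 := hmax c₀ Finset.subset_union_left
  have hm1 := hmax c₁ Finset.subset_union_right
  have hterm : ∀ v, ord v (f c₀) • L' v - ord v (f c₁) • L' v =
      max (ord v (f c₀)) 0 • C₀ - max (ord v (f c₁)) 0 • C₁ := by
    intro v
    have e : ∀ (c : k) (C : W), (∀ v : Place k (Om k), v.At (tt k) c → L v = C) →
        max (ord v (f c)) 0 • C = max (ord v (f c)) 0 • L' v := by
      intro c C hC
      by_cases hv : v.Vanishes (f c)
      · rw [hlimS c C hC v hv]
      · rw [vanishes_iff_ord hK (hf0 c)] at hv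
        rw [max_eq_right (not_lt.1 hv), zero_smul, zero_smul]
    rw [e c₀ C₀ h₀, e c₁ C₁ h₁, ← sub_smul, ← sub_smul]
    congr 1
    have h1 := hpole c₀ c₁ v
    have h2 := hpole c₁ c₀ v
    rcases lt_or_ge (ord v (f c₀)) 0 with h | h
    · rw [h1 h]
      simp
    · rcases lt_or_ge (ord v (f c₁)) 0 with h' | h'
      · rw [h2 h'] at h
        omega
      · rw [max_eq_left h, max_eq_left h']
  have hfin : (d : ℤ) • C₀ - (d : ℤ) • C₁ = 0 := by
    have h1 : ∑ v ∈ T, (ord v (f c₀) • L' v - ord v (f c₁) • L' v) = 0 := by
      rw [Finset.sum_sub_distrib, hs0, hs1, sub_zero]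
    rw [Finset.sum_congr rfl fun v _ => hterm v, Finset.sum_sub_distrib, ← Finset.sum_smul,
      ← Finset.sum_smul, hm0, hm1] at h1
    exact h1
  rw [← smul_sub, ← Int.cast_smul_eq_zsmul k] at hfin
  rcases smul_eq_zero.1 hfin with h | h
  · exfalso
    have : d = 0 := by exact_mod_cast h
    omega
  · exact sub_eq_zero.1 h

/-- the field of definition: finitely many points of `Y` over `Om k` come from points over a
function field of a curve `K` in `Om k`, which contains `tt k` and a given finite set `Γ` -/
theorem exists_def (s : Fin N → Option (Om k)) (u : Fin N → Fin m → Option (Om k))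
    (hw : ∀ j, OnY F (s j) (u j)) (Γ : Finset (Om k)) :
    ∃ (K : IntermediateField k (Om k)) (s' : Fin N → Option K) (u' : Fin N → Fin m → Option K),
      IsCurve k K ∧ ↑Γ ⊆ (K : Set (Om k)) ∧ tt k ∈ K ∧ (∀ j, OnY F (s' j) (u' j)) ∧
      (∀ j, (s' j).map K.val = s j) ∧ ∀ j i, (u' j i).map K.val = u j i := by
  let Γ' : Finset (Om k) := Γ ∪ (Finset.univ.biUnion fun j => (s j).toFinset) ∪
    Finset.univ.biUnion fun j => Finset.univ.biUnion fun i => (u j i).toFinset
  obtain ⟨K, hK, hΓ, htt⟩ := exists_fld Γ'
  have h1 : ∀ j, ∃ x' : Option K, x'.map K.val = s j := by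
    intro j
    refine lift_opt _ fun f hf => hΓ ?_
    simp only [Γ', Finset.coe_union, Set.mem_union, Finset.mem_coe, Finset.mem_biUnion,
      Finset.mem_univ, true_and, Option.mem_toFinset]
    exact Or.inl (Or.inr ⟨j, hf⟩)
  have h2 : ∀ j i, ∃ x' : Option K, x'.map K.val = u j i := by
    intro j i
    refine lift_opt _ fun f hf => hΓ ?_
    simp only [Γ', Finset.coe_union, Set.mem_union, Finset.mem_coe, Finset.mem_biUnion,
      Finset.mem_univ, true_and, Option.mem_toFinset]
    exact Or.inr ⟨j, i, hf⟩
  choose s' hs' using h1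
  choose u' hu' using h2
  refine ⟨K, s', u', hK, ?_, htt, fun j => ?_, hs', hu'⟩
  · intro g hg
    apply hΓ
    simp only [Γ', Finset.coe_union, Set.mem_union]
    exact Or.inl (Or.inl hg)
  · rw [← onY_map (F := F) K.val (s' j) (u' j), hs']
    have h3 : (fun i => (u' j i).map K.val) = u j := funext fun i => hu' j i
    rw [h3]
    exact hw j

/-- the moving lemma: if `E` vanishes at all places where the elements of the finite set `Γ` are
units then it vanishes at all places -/
theorem moving (hE : IsCF F E) {s : Fin N → Option (Om k)} {u : Fin N → Fin m → Option (Om k)}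
    (hw : ∀ j, OnY F (s j) (u j)) (Γ : Finset (Om k)) (hΓ : (0 : Om k) ∉ Γ)
    (h : ∀ v : Place k (Om k), (∀ g ∈ Γ, g ∈ v.ring ∧ g⁻¹ ∈ v.ring) →
      E (fun j => vlo v (s j)) (fun j i => vlo v (u j i)) = 0) (v : Place k (Om k)) :
    E (fun j => vlo v (s j)) (fun j i => vlo v (u j i)) = 0 := by
  obtain ⟨K, s', u', hK, hΓK, htt, hon, hs', hu'⟩ := exists_def s u hw Γ
  refine moving_core hK (fun v => E (fun j => vlo v (s j)) (fun j i => vlo v (u j i)))
    (fun v => E (fun j => vlo v (s' j)) (fun j i => vlo v (u' j i))) ?_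
    (fun f hf => hE K hK s' u' f hf hon) Γ hΓK hΓ h v
  intro V c hV
  have h1 : (fun j => vlo V (s j)) = fun j => vlo c (s' j) := by
    funext j
    rw [← hs', vlo_alg hV]
  have h2 : (fun j i => vlo V (u j i)) = fun j i => vlo c (u' j i) := by
    funext j i
    rw [← hu', vlo_alg hV]
  show E (fun j => vlo V (s j)) (fun j i => vlo V (u j i)) = _
  rw [h1, h2]

/-- the values at the places of `Om k` are the values at the places below -/
theorem values_below {K : IntermediateField k (Om k)} {s : Fin N → Option (Om k)}
    {u : Fin N → Fin m → Option (Om k)} {s' : Fin N → Option K} {u' : Fin N → Fin m → Option K}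
    (hs : ∀ j, (s' j).map K.val = s j) (hu : ∀ j i, (u' j i).map K.val = u j i)
    {V : Place k (Om k)} {c : Place k K} (hV : V.ring.comap (K.val : K →+* Om k) = c.ring) :
    E (fun j => vlo V (s j)) (fun j i => vlo V (u j i)) =
      E (fun j => vlo c (s' j)) (fun j i => vlo c (u' j i)) := by
  have h1 : (fun j => vlo V (s j)) = fun j => vlo c (s' j) := by
    funext j
    rw [← hs, vlo_alg hV]
  have h2 : (fun j i => vlo V (u j i)) = fun j i => vlo c (u' j i) := by
    funext j i
    rw [← hu, vlo_alg hV]
  rw [h1, h2]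

/-- `τ` is not constant, all values of `E` at the zeros of `τ` are `C`, and all values at the
poles of `τ` are `0`; then `C = 0` -/
theorem bridge0 (hE : IsCF F E) {s : Fin N → Option (Om k)} {u : Fin N → Fin m → Option (Om k)}
    (hw : ∀ j, OnY F (s j) (u j)) {τ : Om k} (hτ : Transcendental k τ) {C : W}
    (h₀ : ∀ v : Place k (Om k), v.At τ 0 →
      E (fun j => vlo v (s j)) (fun j i => vlo v (u j i)) = C)
    (h₁ : ∀ v : Place k (Om k), v.At τ⁻¹ 0 →
      E (fun j => vlo v (s j)) (fun j i => vlo v (u j i)) = 0) : C = 0 := by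
  obtain ⟨K, s', u', hK, hΓK, htt, hon, hs', hu'⟩ := exists_def s u hw {τ}
  have hτK : τ ∈ K := hΓK (by simp)
  have : HasRes k K := hasRes_of_isCurve hK
  set f : K := ⟨τ, hτK⟩ with hf
  have hft : Transcendental k f := by
    intro h
    apply hτ
    exact (isAlgebraic_algHom_iff K.val (K.val : K →+* Om k).injective).2 h
  have hf0 : f ≠ 0 := by
    intro h
    apply hft
    rw [h]
    exact isAlgebraic_zero
  let L' : Place k K → W := fun c => E (fun j => vlo c (s' j)) (fun j i => vlo c (u' j i))
  have hz : ∀ c : Place k K, 0 < ord c f → L' c = C := by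
    intro c hc
    obtain ⟨V, hV⟩ := exists_above hK c K.val
    have h2 : V.At τ 0 := by
      rw [Place.at_zero_iff]
      exact (mov_vanishes hV f).2 ((vanishes_iff_ord hK hf0).2 hc)
    rw [← h₀ V h2]
    exact (values_below hs' hu' hV).symm
  have hp : ∀ c : Place k K, ord c f < 0 → L' c = 0 := by
    intro c hc
    obtain ⟨V, hV⟩ := exists_above hK c K.val
    have h3 : 0 < ord c f⁻¹ := by
      rw [ord_inv hK]
      omega
    have h2 : V.At τ⁻¹ 0 := by
      rw [Place.at_zero_iff]
      exact (mov_vanishes hV f⁻¹).2 ((vanishes_iff_ord hK (inv_ne_zero hf0)).2 h3)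
    rw [← h₁ V h2]
    exact (values_below hs' hu' hV).symm
  let S : Finset (Place k K) := (finite_ord hK f).toFinset.filter fun v => v.Vanishes f
  have hS : ∀ v, v ∈ S ↔ v.Vanishes f := by
    intro v
    rw [Finset.mem_filter, Set.Finite.mem_toFinset]
    constructor
    · exact fun h => h.2
    · intro h
      have h1 := (vanishes_iff_ord hK hf0).1 h
      exact ⟨ne_of_gt h1, h⟩
  have hdeg := deg_zeros' hK hft S hS
  have hdpos : 0 < Module.finrank (IntermediateField.adjoin k {f}) K := by
    have := fin_adjoin hK hft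
    exact Module.finrank_pos
  have hrel := hE K hK s' u' f hf0 hon
  rw [Finsupp.sum] at hrel
  have hsub : S ⊆ (TInc.dv hK f).support := by
    intro v hv
    rw [Finsupp.mem_support_iff, TInc.dv_apply]
    exact ne_of_gt ((vanishes_iff_ord hK hf0).1 ((hS v).1 hv))
  rw [← Finset.sum_subset hsub] at hrel
  · rw [Finset.sum_congr rfl (g := fun v => ord v f • C), ← Finset.sum_smul, hdeg,
      ← Int.cast_smul_eq_zsmul k] at hrel
    · rcases smul_eq_zero.1 hrel with h | h
      · exfalso
        have : Module.finrank (IntermediateField.adjoin k {f}) K = 0 := by exact_mod_cast h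
        omega
      · exact h
    · intro v hv
      rw [TInc.dv_apply]
      congr 1
      exact hz v ((vanishes_iff_ord hK hf0).1 ((hS v).1 hv))
  · intro v hv hvS
    rw [Finsupp.mem_support_iff, TInc.dv_apply] at hv
    rw [hS, vanishes_iff_ord hK hf0] at hvS
    have h1 : L' v = 0 := hp v (by omega)
    rw [show E (fun j => vlo v (s' j)) (fun j i => vlo v (u' j i)) = 0 from h1, smul_zero]

/-- if all values of `E` above `t = c₀` are `C₀`, and all values above `t = c₁` are `C₁`, then
`C₀ = C₁` -/
theorem bridge (hE : IsCF F E) {s : Fin N → Option (Om k)} {u : Fin N → Fin m → Option (Om k)}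
    (hw : ∀ j, OnY F (s j) (u j)) {c₀ c₁ : k} {C₀ C₁ : W}
    (h₀ : ∀ v : Place k (Om k), v.At (tt k) c₀ →
      E (fun j => vlo v (s j)) (fun j i => vlo v (u j i)) = C₀)
    (h₁ : ∀ v : Place k (Om k), v.At (tt k) c₁ →
      E (fun j => vlo v (s j)) (fun j i => vlo v (u j i)) = C₁) : C₀ = C₁ := by
  obtain ⟨K, s', u', hK, -, htt, hon, hs', hu'⟩ := exists_def s u hw ∅
  refine bridge_core hK htt (fun v => E (fun j => vlo v (s j)) (fun j i => vlo v (u j i)))
    (fun v => E (fun j => vlo v (s' j)) (fun j i => vlo v (u' j i))) ?_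
    (fun f hf => hE K hK s' u' f hf hon) h₀ h₁
  intro V c hV
  have h1 : (fun j => vlo V (s j)) = fun j => vlo c (s' j) := by
    funext j
    rw [← hs', vlo_alg hV]
  have h2 : (fun j i => vlo V (u j i)) = fun j i => vlo c (u' j i) := by
    funext j i
    rw [← hu', vlo_alg hV]
  show E (fun j => vlo V (s j)) (fun j i => vlo V (u j i)) = _
  rw [h1, h2]

end Pool.Agent.HGF
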