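import Pool.Agent.HGF.StA
import Pool.Agent.HYG.CVal

/-!
# A curve on `Y` from a given point to a point with constant row

`exists_line`: `S = s0 + t (s1 - s0)`, the powers `μ_i = V_i ^ M` are linear in `t` for `i ≠ i1`, and
`μ_i1` is given by the equation of `Y`.
-/

set_option autoImplicit false

noncomputable section

namespace Pool.Agent.HGF

open Polynomial Finset Pool.Agent.ZCyc Pool.Agent.Dess Pool.Agent.GT Pool.Agent.TInc
open Pool.Agent.VFP (Om tt)
open scoped Classical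

variable {k : Type} [Field k] {m N : ℕ} {F : Fam k m}

section At

variable {K : Type} [Field K] [Algebra k K] {v : Place k K}

lemma aeval_at {S : K} {s : k} (h : v.At S s) (P : k[X]) : v.At (aeval S P) (aeval s P) := by
  rw [coe_aeval_eq_eval]
  exact h.aeval P

lemma lam_at {S : K} {s : k} (h : v.At S s) (hB : ∀ i, aeval s (F.B i) ≠ 0) :
    v.At (lam F S) (lam F s) :=
  (aeval_at h F.A).div (Place.At.prod fun i _ => aeval_at h (F.B i))
    (prod_ne_zero_iff.2 fun i _ => hB i)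

lemma xx_at {S : K} {s : k} (h : v.At S s) {V : Fin m → K} {i : Fin m} {c : k}
    (hV : v.At (V i ^ F.M) c) (hB : aeval s (F.B i) ≠ 0) :
    v.At (xx F S V i) (1 - aeval s (F.C i) * c / aeval s (F.B i)) :=
  (at_one v).sub (((aeval_at h (F.C i)).mul hV).div (aeval_at h (F.B i)) hB)

lemma ne_of_at {f : K} {c : k} (h : v.At f c) (hc : c ≠ 0) : f ≠ 0 := by
  intro h0
  rw [h0] at h
  exact hc (h.unique (at_zero v))

/-- a unit has a value different from zero -/
lemma unit_at [HasRes k K] {f : K} (h0 : f ≠ 0) (h : f ∈ v.ring) (h' : f⁻¹ ∈ v.ring) :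
    ∃ c, c ≠ 0 ∧ v.At f c := by
  obtain ⟨c, hc⟩ := HasRes.res v f h
  refine ⟨c, fun h1 => ?_, hc⟩
  rw [h1, Place.at_zero_iff, Place.vanishes_iff_or] at hc
  rcases hc with h2 | h2
  · exact h0 h2
  · exact h2 h'

end At

private lemma solve_at {K : Type} [Field K] [Algebra k K] {v : Place k K} {i1 : Fin m} {S : K}
    {s : k} {mid : Fin m → K} {μ : Fin m → k} (hS : v.At S s) (hmid : ∀ i, v.At (mid i) (μ i))
    (h : ∏ i, (aeval s (F.B i) - aeval s (F.C i) * μ i) = aeval s F.A)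
    (hC : aeval s (F.C i1) ≠ 0) (hA : aeval s F.A ≠ 0) :
    (∏ i ∈ univ.erase i1, (aeval S (F.B i) - aeval S (F.C i) * mid i)) ≠ 0 ∧
    aeval S (F.C i1) ≠ 0 ∧
    v.At ((aeval S (F.B i1) - aeval S F.A /
      ∏ i ∈ univ.erase i1, (aeval S (F.B i) - aeval S (F.C i) * mid i)) / aeval S (F.C i1))
      (μ i1) := by
  have h1 : ∀ i, v.At (aeval S (F.B i) - aeval S (F.C i) * mid i)
      (aeval s (F.B i) - aeval s (F.C i) * μ i) := fun i =>
    (aeval_at hS _).sub ((aeval_at hS _).mul (hmid i))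
  have h2 : v.At (∏ i ∈ univ.erase i1, (aeval S (F.B i) - aeval S (F.C i) * mid i))
      (∏ i ∈ univ.erase i1, (aeval s (F.B i) - aeval s (F.C i) * μ i)) :=
    Place.At.prod fun i _ => h1 i
  rw [← mul_prod_erase univ _ (mem_univ i1)] at h
  have h3 : (∏ i ∈ univ.erase i1, (aeval s (F.B i) - aeval s (F.C i) * μ i)) ≠ 0 := by
    intro h4
    rw [h4, mul_zero] at h
    exact hA h.symm
  refine ⟨ne_of_at h2 h3, ne_of_at (aeval_at hS _) hC, ?_⟩
  have h4 := ((aeval_at hS (F.B i1)).sub ((aeval_at hS F.A).div h2 h3)).div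
    (aeval_at hS (F.C i1)) hC
  have h5 : (aeval s (F.B i1) - aeval s F.A /
      ∏ i ∈ univ.erase i1, (aeval s (F.B i) - aeval s (F.C i) * μ i)) / aeval s (F.C i1) =
      μ i1 := by
    rw [← h, mul_div_cancel_right₀ _ h3, sub_sub_cancel, mul_div_cancel_left₀ _ hC]
  rwa [h5] at h4

variable [IsAlgClosed k] [CharZero k]

/-- the curve from the point `(s0, u)` to the point over `s1` with the row `η` -/
theorem exists_line (hm : 0 < m) (hM : 0 < F.M) {v0 : Place k (Om k)} (hv0 : v0.At (tt k) 0)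
    {s0 : k} {u : Fin m → k}
    (h0 : ∏ i, (aeval s0 (F.B i) - aeval s0 (F.C i) * u i ^ F.M) = aeval s0 F.A)
    (hC0 : ∀ i, aeval s0 (F.C i) ≠ 0) (hA0 : aeval s0 F.A ≠ 0) {s1 η : k} (h1 : Base F s1)
    (hη1 : η ≠ 1) (hη : η ^ m = lam F s1) :
    ∃ (S : Om k) (V : Fin m → Om k), Int F S V ∧ v0.At S s0 ∧ (∀ i, v0.At (V i) (u i)) ∧
      (∀ v : Place k (Om k), v.At (tt k) 1 → v.At S s1 ∧
        ∀ i, v.At (V i ^ F.M) (aeval s1 (F.B i) / aeval s1 (F.C i) * (1 - η))) ∧
      ∀ w : Place k (Om k), tt k ∈ w.ring → S ∈ w.ring := by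
  set i1 : Fin m := ⟨0, hm⟩ with hi1
  set μ1 : Fin m → k := fun i => aeval s1 (F.B i) / aeval s1 (F.C i) * (1 - η) with hμ1
  set S : Om k := algebraMap k (Om k) s0 + tt k * algebraMap k (Om k) (s1 - s0) with hS
  set mid : Fin m → Om k := fun i => algebraMap k (Om k) (u i ^ F.M) +
    tt k * algebraMap k (Om k) (μ1 i - u i ^ F.M) with hmid
  set D : Om k := ∏ i ∈ univ.erase i1, (aeval S (F.B i) - aeval S (F.C i) * mid i) with hD
  set top : Om k := (aeval S (F.B i1) - aeval S F.A / D) / aeval S (F.C i1) with htop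
  have hlin : ∀ (v : Place k (Om k)) (c a b : k), v.At (tt k) c →
      v.At (algebraMap k (Om k) a + tt k * algebraMap k (Om k) (b - a)) (a + c * (b - a)) :=
    fun v c a b h => (Place.at_const a).add (h.mul (Place.at_const _))
  have hS0 : v0.At S s0 := by
    have h := hlin v0 0 s0 s1 hv0
    rwa [zero_mul, add_zero] at h
  have hmid0 : ∀ i, v0.At (mid i) (u i ^ F.M) := fun i => by
    have h := hlin v0 0 (u i ^ F.M) (μ1 i) hv0
    rwa [zero_mul, add_zero] at h
  have hS1 : ∀ v : Place k (Om k), v.At (tt k) 1 → v.At S s1 := fun v hv => by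
    have h := hlin v 1 s0 s1 hv
    rwa [one_mul, add_sub_cancel] at h
  have hmid1 : ∀ v : Place k (Om k), v.At (tt k) 1 → ∀ i, v.At (mid i) (μ1 i) := fun v hv i => by
    have h := hlin v 1 (u i ^ F.M) (μ1 i) hv
    rwa [one_mul, add_sub_cancel] at h
  have heq1 : ∏ i, (aeval s1 (F.B i) - aeval s1 (F.C i) * μ1 i) = aeval s1 F.A := by
    have h2 : ∀ i, aeval s1 (F.B i) - aeval s1 (F.C i) * μ1 i = η * aeval s1 (F.B i) := by
      intro i
      rw [hμ1]
      have := h1.C i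
      field_simp
      ring
    rw [prod_congr rfl fun i _ => h2 i, prod_mul_distrib, prod_const, card_univ, Fintype.card_fin,
      hη]
    unfold lam
    rw [div_mul_cancel₀]
    exact prod_ne_zero_iff.2 fun i _ => h1.B i
  obtain ⟨-, -, htop0⟩ := solve_at (i1 := i1) hS0 hmid0 h0 (hC0 i1) hA0
  rw [← hD, ← htop] at htop0
  obtain ⟨v1, hv1⟩ := HYG.exists_place_tt (1 : k)
  obtain ⟨hDne, hCne, -⟩ := solve_at (i1 := i1) (hS1 v1 hv1) (hmid1 v1 hv1) heq1 (h1.C i1) h1.A
  rw [← hD] at hDne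
  have htop1 : ∀ v : Place k (Om k), v.At (tt k) 1 → v.At top (μ1 i1) := fun v hv =>
    (solve_at (i1 := i1) (hS1 v hv) (hmid1 v hv) heq1 (h1.C i1) h1.A).2.2
  set μ : Fin m → Om k := fun i => if i = i1 then top else mid i with hμ
  have hμ0 : ∀ i, v0.At (μ i) (u i ^ F.M) := by
    intro i
    rw [hμ]
    show v0.At (if i = i1 then top else mid i) _
    split_ifs with h
    · rw [h]
      exact htop0
    · exact hmid0 i
  have hμv1 : ∀ v : Place k (Om k), v.At (tt k) 1 → ∀ i, v.At (μ i) (μ1 i) := by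
    intro v hv i
    rw [hμ]
    show v.At (if i = i1 then top else mid i) _
    split_ifs with h
    · rw [h]
      exact htop1 v hv
    · exact hmid1 v hv i
  have hroot : ∀ i, ∃ V : Om k, V ^ F.M = μ i ∧ v0.At V (u i) := by
    intro i
    obtain ⟨r, hr⟩ := HYG.exists_root_om hM (μ i)
    have h2 := hμ0 i
    rw [← hr] at h2
    obtain ⟨ζ, hζ, h3⟩ := HYG.root_limit hM h2
    have hζ0 : ζ ≠ 0 := by
      intro h
      rw [h, zero_pow hM.ne'] at hζ
      exact zero_ne_one hζ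
    refine ⟨algebraMap k (Om k) ζ⁻¹ * r, ?_, ?_⟩
    · rw [mul_pow, hr, ← map_pow, inv_pow, hζ, inv_one, map_one, one_mul]
    · have h4 := (Place.at_const (v := v0) ζ⁻¹).mul h3
      rwa [inv_mul_cancel_left₀ hζ0] at h4
  choose V hVM hV0 using hroot
  have hμ1ne : ∀ i, μ1 i ≠ 0 := fun i =>
    mul_ne_zero (div_ne_zero (h1.B i) (h1.C i)) (sub_ne_zero.2 hη1.symm)
  refine ⟨S, V, ⟨?_, fun i => ?_, fun i => ?_, ?_, fun i => ?_⟩, hS0, hV0, fun v hv =>
    ⟨hS1 v hv, fun i => ?_⟩, fun w hw => ?_⟩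
  · simp only [hVM]
    rw [← mul_prod_erase univ _ (mem_univ i1)]
    have h2 : ∏ i ∈ univ.erase i1, (aeval S (F.B i) - aeval S (F.C i) * μ i) = D := by
      refine prod_congr rfl fun i hi => ?_
      rw [hμ]
      show _ - _ * (if i = i1 then top else mid i) = _
      rw [if_neg (ne_of_mem_erase hi)]
    have h3 : μ i1 = top := if_pos rfl
    rw [h2, h3, htop]
    field_simp
    ring
  · exact ne_of_at (aeval_at (hS1 v1 hv1) _) (h1.B i)
  · exact ne_of_at (aeval_at (hS1 v1 hv1) _) (h1.C i)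
  · exact ne_of_at (aeval_at (hS1 v1 hv1) _) h1.A
  · intro h
    have h2 := ne_of_at (hμv1 v1 hv1 i) (hμ1ne i)
    rw [← hVM, h, zero_pow hM.ne'] at h2
    exact h2 rfl
  · rw [hVM]
    exact hμv1 v hv i
  · exact add_mem (w.const_mem _) (mul_mem hw (w.const_mem _))

end Pool.Agent.HGF
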