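import Pool.Agent.HGF.PathA
import Pool.Agent.HGF.Mov
import Pool.Agent.HGF.Eig
import Pool.Agent.HGF.StB
import Pool.Agent.HGF.Cst

/-!
# From good states to all points

Good states: all factorisations exist and neighbours are generic. Suppose that `AE E` vanishes at all
good states. Given points `(s0 j, u j)` of `Y` with `C_i(s0 j) ≠ 0`, `A(s0 j) ≠ 0`, `u j i ≠ 0`, we
connect them by a curve (`exists_line`) with a generic constant state. The factorisations of the
constant state can be lifted (`Ords.lift`), so almost all points of the curve are good states, and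
`AE E` vanishes at all points of the curve (`moving`).
-/

set_option autoImplicit false

noncomputable section

namespace Pool.Agent.HGF

open Polynomial Finset Pool.Agent.ZCyc Pool.Agent.Dess Pool.Agent.GT Pool.Agent.TInc
open Pool.Agent.VFP (Om tt)
open scoped Classical

variable {k : Type} [Field k] [IsAlgClosed k] [CharZero k] {m N : ℕ} {F : Fam k m} {W : Type}
  [AddCommGroup W] [Module k W] {E : (Fin N → Option k) → (Fin N → Fin m → Option k) → W}

/-- genericity of two sequences is an open condition -/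
def OpenGen (m : ℕ) (Gn : (ℕ → k) → (ℕ → k) → Prop) : Prop :=
  ∀ (x y : ℕ → Om k) (v : Place k (Om k)) (x' y' : ℕ → k), Good m x' → Good m y' →
    mu m x' ≠ mu m y' → (∀ i, v.At (x i) (x' i)) → (∀ i, v.At (y i) (y' i)) → Gn x' y' →
    ∃ Γ : Finset (Om k), (0 : Om k) ∉ Γ ∧ ∀ (w : Place k (Om k)) (x'' y'' : ℕ → k),
      (∀ g ∈ Γ, g ∈ w.ring ∧ g⁻¹ ∈ w.ring) → Good m x'' → Good m y'' → mu m x'' ≠ mu m y'' →
      (∀ i, w.At (x i) (x'' i)) → (∀ i, w.At (y i) (y'' i)) → Gn x'' y''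

/-- `AE E` vanishes at the good states -/
def GoodZero (F : Fam k m) (hm : 0 < m) (Gn : (ℕ → k) → (ℕ → k) → Prop)
    (E : (Fin N → Option k) → (Fin N → Fin m → Option k) → W) : Prop :=
  ∀ (s : Fin N → k) (X : Fin N → ℕ → k) (O : Equiv.Perm (Fin N) → Fin N → ℕ → k) (p : Fin m → k)
    (w : Fin N → Fin m → k), IsSt F hm s X p w → (Function.Injective fun j => lam F (s j)) →
    Ords m X O → (∀ (σ : Equiv.Perm (Fin N)) (j j' : Fin N), (j' : ℕ) = j + 1 →
      Gn (O σ j) (O σ j')) → AE E (som0 s) (som w) = 0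

omit [IsAlgClosed k] [CharZero k] in
/-- a finite set of nonzero elements from a finite family -/
private lemma family {ι : Type} [Finite ι] (f : ι → Om k) (hf : ∀ i, f i ≠ 0) :
    ∃ Γ : Finset (Om k), (0 : Om k) ∉ Γ ∧ ∀ i, f i ∈ Γ := by
  have : Fintype ι := Fintype.ofFinite ι
  refine ⟨univ.image f, fun h => ?_, fun i => mem_image_of_mem f (mem_univ i)⟩
  obtain ⟨i, -, hi⟩ := mem_image.1 h
  exact hf i hi

omit [IsAlgClosed k] [CharZero k] in
private lemma families {ι : Type} [Finite ι] (Γ : ι → Finset (Om k)) (h : ∀ i, (0 : Om k) ∉ Γ i) :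
    ∃ G : Finset (Om k), (0 : Om k) ∉ G ∧ ∀ i, ∀ g ∈ Γ i, g ∈ G := by
  have : Fintype ι := Fintype.ofFinite ι
  refine ⟨univ.biUnion Γ, fun h1 => ?_, fun i g hg => mem_biUnion.2 ⟨i, mem_univ i, hg⟩⟩
  obtain ⟨i, -, hi⟩ := mem_biUnion.1 h1
  exact h i hi

theorem vanish_int (hF : F.Adm) {Gn : (ℕ → k) → (ℕ → k) → Prop}
    (hm : 0 < m) (hopen : OpenGen m Gn)
    (hc : ∀ a : k, a ≠ 0 → a ≠ 1 → {b : k | ¬ Gn (fun _ => a) fun _ => b}.Finite ∧
      {b : k | ¬ Gn (fun _ => b) fun _ => a}.Finite)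
    (hgood : GoodZero F hm Gn E) (hE : IsCF F E) {s0 : Fin N → k} {u : Fin N → Fin m → k}
    (h0 : ∀ j, ∏ i, (aeval (s0 j) (F.B i) - aeval (s0 j) (F.C i) * u j i ^ F.M) =
      aeval (s0 j) F.A)
    (hC : ∀ j i, aeval (s0 j) (F.C i) ≠ 0) (hA : ∀ j, aeval (s0 j) F.A ≠ 0) :
    AE E (som0 s0) (som u) = 0 := by
  obtain ⟨s1, η, hs1, hinj1, hη0, hη1, hηm, hgen⟩ := exists_consts (N := N) hF hc
  obtain ⟨v0, hv0⟩ := HYG.exists_place_tt (0 : k)
  have hline := fun j => exists_line hm hF.M0 hv0 (h0 j) (hC j) (hA j) (hs1 j) (hη1 j) (hηm j)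
  choose S V hInt hS0 hV0 hS1 hSint using hline
  set Z : Fin N → ℕ → Om k := fun j => row F hm (S j) (V j) with hZ
  have hZG : ∀ j, Good m (Z j) := fun j => (hInt j).good hm
  have hZmu : ∀ j, mu m (Z j) = lam F (S j) := fun j => (hInt j).mu hm
  obtain ⟨v1, hv1⟩ := HYG.exists_place_tt (1 : k)
  have hZ1 : ∀ j i, v1.At (Z j i) (η j) := by
    intro j i
    have h1 := xx_at (F := F) (V := V j) (i := ⟨i % m, Nat.mod_lt i hm⟩) (hS1 j v1 hv1).1
      ((hS1 j v1 hv1).2 _) ((hs1 j).B _)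
    have h2 : 1 - aeval (s1 j) (F.C ⟨i % m, Nat.mod_lt i hm⟩) *
        (aeval (s1 j) (F.B ⟨i % m, Nat.mod_lt i hm⟩) / aeval (s1 j)
        (F.C ⟨i % m, Nat.mod_lt i hm⟩) * (1 - η j)) /
        aeval (s1 j) (F.B ⟨i % m, Nat.mod_lt i hm⟩) = η j := by
      have h3 := (hs1 j).B ⟨i % m, Nat.mod_lt i hm⟩
      have h4 := (hs1 j).C ⟨i % m, Nat.mod_lt i hm⟩
      field_simp
      ring
    rw [h2] at h1
    exact h1
  have hinjc : Function.Injective fun j => mu m fun _ : ℕ => η j := fun i j hij => hinj1 (by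
    have h1 : mu m (fun _ : ℕ => η i) = mu m fun _ : ℕ => η j := hij
    rw [mu_const, mu_const, hηm, hηm] at h1
    exact h1)
  obtain ⟨O, hO, hO1⟩ := Ords.lift v1 hm (X := Z) (X' := fun j _ => η j)
    (fun j => (hZG j).per) (fun j => good_const (hη0 j) (hη1 j)) hZ1 hinjc (ords_const hη0 hη1)
  -- genericity along the curve
  have hΓ1 : ∀ q : Equiv.Perm (Fin N) × Fin N × Fin N, ∃ Γ : Finset (Om k), (0 : Om k) ∉ Γ ∧
      (((q.2.2 : ℕ) = q.2.1 + 1) → ∀ (w : Place k (Om k)) (x'' y'' : ℕ → k),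
      (∀ g ∈ Γ, g ∈ w.ring ∧ g⁻¹ ∈ w.ring) → Good m x'' → Good m y'' → mu m x'' ≠ mu m y'' →
      (∀ i, w.At (O q.1 q.2.1 i) (x'' i)) → (∀ i, w.At (O q.1 q.2.2 i) (y'' i)) →
      Gn x'' y'') := by
    rintro ⟨σ, j, j'⟩
    by_cases hj : (j' : ℕ) = j + 1
    · have hne : j ≠ j' := by
        intro h
        rw [h] at hj
        omega
      obtain ⟨Γ, h1, h2⟩ := hopen (O σ j) (O σ j') v1 (fun _ => η (σ j)) (fun _ => η (σ j'))
        (good_const (hη0 _) (hη1 _)) (good_const (hη0 _) (hη1 _))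
        (fun h => hne (σ.injective (hinjc h))) (hO1 σ j) (hO1 σ j')
        (hgen _ _ fun h => hne (σ.injective h))
      exact ⟨Γ, h1, fun _ => h2⟩
    · exact ⟨∅, by simp, fun h => absurd h hj⟩
  choose Γ1 hΓ10 hΓ1 using hΓ1
  obtain ⟨G1, hG10, hG1⟩ := families Γ1 hΓ10
  obtain ⟨G2, hG20, hG2⟩ := family (fun q : Equiv.Perm (Fin N) × Fin N × Fin m =>
    O q.1 q.2.1 q.2.2) fun q => (hO.good _ _).ne0 _
  obtain ⟨G3, hG30, hG3⟩ := family (fun q : Equiv.Perm (Fin N) × Fin N × Fin m =>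
    1 - O q.1 q.2.1 q.2.2) fun q => sub_ne_zero.2 ((hO.good _ _).ne1 _).symm
  obtain ⟨G4, hG40, hG4⟩ := family (fun q : Fin N × Fin m => aeval (S q.1) (F.B q.2))
    fun q => (hInt q.1).B q.2
  obtain ⟨G5, hG50, hG5⟩ := family (fun q : Fin N × Fin m => aeval (S q.1) (F.C q.2))
    fun q => (hInt q.1).C q.2
  obtain ⟨G6, hG60, hG6⟩ := family (fun j : Fin N => aeval (S j) F.A) fun j => (hInt j).A
  obtain ⟨G7, hG70, hG7⟩ := family (fun q : Fin N × Fin m => V q.1 q.2) fun q => (hInt q.1).w q.2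
  have hlinj : ∀ j j', j ≠ j' → lam F (S j) - lam F (S j') ≠ 0 := by
    intro j j' hne
    have h1 := (lam_at (F := F) (hS1 j v1 hv1).1 (hs1 j).B).sub
      (lam_at (F := F) (hS1 j' v1 hv1).1 (hs1 j').B)
    exact ne_of_at h1 (sub_ne_zero.2 fun h => hne (hinj1 h))
  obtain ⟨G8, hG80, hG8⟩ := family (fun q : {q : Fin N × Fin N // q.1 ≠ q.2} =>
    lam F (S q.1.1) - lam F (S q.1.2)) fun q => hlinj _ _ q.2
  have htt : tt k ≠ 0 := by
    intro h
    have h1 := hv1
    rw [h] at h1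
    exact one_ne_zero (h1.unique (at_zero v1))
  set Γ : Finset (Om k) := {tt k} ∪ (G1 ∪ (G2 ∪ (G3 ∪ (G4 ∪ (G5 ∪ (G6 ∪ (G7 ∪ G8))))))) with hΓ
  have hΓ0 : (0 : Om k) ∉ Γ := by
    simp only [hΓ, mem_union, mem_singleton, not_or]
    exact ⟨htt.symm, hG10, hG20, hG30, hG40, hG50, hG60, hG70, hG80⟩
  have key : ∀ w : Place k (Om k), (∀ g ∈ Γ, g ∈ w.ring ∧ g⁻¹ ∈ w.ring) →
      AE E (fun j => vlo w (some (S j))) (fun j i => vlo w (some (V j i))) = 0 := by
    intro w hw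
    simp only [hΓ, mem_union, mem_singleton] at hw
    have hSw : ∀ j, ∃ c, w.At (S j) c := fun j => HasRes.res w _ (hSint j w (hw _ (Or.inl rfl)).1)
    choose sw hsw using hSw
    have hVw : ∀ j i, ∃ c, c ≠ 0 ∧ w.At (V j i) c := fun j i => by
      have h1 := hw _ (Or.inr (Or.inr (Or.inr (Or.inr (Or.inr (Or.inr (Or.inr (Or.inl
        (hG7 (j, i))))))))))
      exact unit_at ((hInt j).w i) h1.1 h1.2
    choose ww hww0 hww using hVw
    have hBw : ∀ j i, aeval (sw j) (F.B i) ≠ 0 := fun j i => by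
      have h1 := hw _ (Or.inr (Or.inr (Or.inr (Or.inr (Or.inl (hG4 (j, i)))))))
      obtain ⟨c, hc0, hc⟩ := unit_at ((hInt j).B i) h1.1 h1.2
      rw [(aeval_at (hsw j) (F.B i)).unique hc]
      exact hc0
    have hCw : ∀ j i, aeval (sw j) (F.C i) ≠ 0 := fun j i => by
      have h1 := hw _ (Or.inr (Or.inr (Or.inr (Or.inr (Or.inr (Or.inl (hG5 (j, i))))))))
      obtain ⟨c, hc0, hc⟩ := unit_at ((hInt j).C i) h1.1 h1.2
      rw [(aeval_at (hsw j) (F.C i)).unique hc]
      exact hc0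
    have hAw : ∀ j, aeval (sw j) F.A ≠ 0 := fun j => by
      have h1 := hw _ (Or.inr (Or.inr (Or.inr (Or.inr (Or.inr (Or.inr (Or.inl (hG6 j))))))))
      obtain ⟨c, hc0, hc⟩ := unit_at (hInt j).A h1.1 h1.2
      rw [(aeval_at (hsw j) F.A).unique hc]
      exact hc0
    have hIw : ∀ j, Int F (sw j) (ww j) := fun j => by
      refine ⟨?_, hBw j, hCw j, hAw j, hww0 j⟩
      have h1 : w.At (∏ i, (aeval (S j) (F.B i) - aeval (S j) (F.C i) * V j i ^ F.M))
          (∏ i, (aeval (sw j) (F.B i) - aeval (sw j) (F.C i) * ww j i ^ F.M)) :=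
        Place.At.prod fun i _ => (aeval_at (hsw j) _).sub
          ((aeval_at (hsw j) _).mul ((hww j i).pow _))
      rw [(hInt j).onY] at h1
      exact h1.unique (aeval_at (hsw j) F.A)
    have hlamw : ∀ j, w.At (lam F (S j)) (lam F (sw j)) := fun j => lam_at (hsw j) (hBw j)
    have hinjw : Function.Injective fun j => lam F (sw j) := by
      intro j j' hjj
      by_contra hne
      have h1 := hw _ (Or.inr (Or.inr (Or.inr (Or.inr (Or.inr (Or.inr (Or.inr (Or.inr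
        (hG8 ⟨(j, j'), hne⟩)))))))))
      obtain ⟨c, hc0, hc⟩ := unit_at (hlinj j j' hne) h1.1 h1.2
      apply hc0
      rw [hc.unique ((hlamw j).sub (hlamw j'))]
      exact sub_eq_zero.2 hjj
    have hrow : ∀ j i, w.At (Z j i) (row F hm (sw j) (ww j) i) := by
      intro j i
      exact xx_at (hsw j) ((hww j _).pow _) (hBw j _)
    -- the values of the factorisations
    have hOw : ∀ σ j i, ∃ c, (c ≠ 0 ∧ c ≠ 1) ∧ w.At (O σ j i) c := by
      intro σ j i
      have h1 : O σ j i = O σ j ((⟨i % m, Nat.mod_lt i hm⟩ : Fin m) : ℕ) := by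
        have h2 := per_eq (hO.good σ j).per hm
        exact (congrFun h2 i).symm
      rw [h1]
      have h2 := hw _ (Or.inr (Or.inr (Or.inl (hG2 (σ, j, ⟨i % m, Nat.mod_lt i hm⟩)))))
      have h3 := hw _ (Or.inr (Or.inr (Or.inr (Or.inl
        (hG3 (σ, j, ⟨i % m, Nat.mod_lt i hm⟩))))))
      obtain ⟨c, hc0, hc⟩ := unit_at ((hO.good σ j).ne0 _) h2.1 h2.2
      obtain ⟨c', hc0', hc'⟩ := unit_at (sub_ne_zero.2 ((hO.good σ j).ne1 _).symm) h3.1 h3.2
      refine ⟨c, ⟨hc0, fun h4 => hc0' ?_⟩, hc⟩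
      rw [hc'.unique ((at_one w).sub hc), h4, sub_self]
    choose Ow hOw01 hOw using hOw
    have hXw1 : ∀ j i, row F hm (sw j) (ww j) i ≠ 1 := fun j => ((hIw j).good hm).ne1
    have hOrd : Ords m (fun j => row F hm (sw j) (ww j)) Ow :=
      hO.at hrow hXw1 hOw (fun σ j i => (hOw01 σ j i).1) fun σ j i => (hOw01 σ j i).2
    have h1 : AE E (som0 sw) (som ww) = 0 := by
      refine hgood sw (fun j => row F hm (sw j) (ww j)) Ow (fun i => ∏ j, ww j i) ww
        ⟨hIw, fun _ => rfl, fun _ => rfl⟩ hinjw hOrd fun σ j j' hj => ?_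
      refine hΓ1 (σ, j, j') hj w _ _ (fun g hg => hw _ (Or.inr (Or.inl (hG1 _ g hg))))
        (hOrd.good σ j) (hOrd.good σ j') (fun h2 => ?_) (hOw σ j) (hOw σ j')
      rw [hOrd.mu, hOrd.mu, (hIw _).mu hm, (hIw _).mu hm] at h2
      have h3 := σ.injective (hinjw h2)
      rw [h3] at hj
      omega
    have h2 : (fun j => vlo w (some (S j))) = som0 sw := by
      funext j
      exact vlo_at (hsw j)
    have h3 : (fun j i => vlo w (some (V j i))) = som ww := by
      funext j i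
      exact vlo_at (hww j i)
    rw [h2, h3]
    exact h1
  have hmov := moving (isCF_AE hE) (s := fun j => some (S j)) (u := fun j i => some (V j i))
    (fun j => (onY_some hF _ _).2 (hInt j).onY) Γ hΓ0 key v0
  have h2 : (fun j => vlo v0 (some (S j))) = som0 s0 := by
    funext j
    exact vlo_at (hS0 j)
  have h3 : (fun j i => vlo v0 (some (V j i))) = som u := by
    funext j i
    exact vlo_at (hV0 j i)
  rw [h2, h3] at hmov
  exact hmov

end Pool.Agent.HGF
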