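import Pool.Agent.HGF.Krull
import Pool.Agent.GTM.RootB
import Pool.Agent.VFP.Util

/-!
# The roots of `h₀ + t h`
-/

set_option autoImplicit false
set_option linter.unusedSectionVars false

noncomputable section

namespace Pool.Agent.HGF

open Finset Polynomial Pool.Agent.ZCyc Pool.Agent.Dess
open Pool.Agent.VFP (Om tt)

variable {k : Type} [Field k] {N : ℕ}

lemma hh_monic {K : Type} [Field K] (s : Fin N → K) : (hh s).Monic :=
  monic_prod_of_monic _ _ fun j _ => monic_X_sub_C (s j)

lemma hh_natDegree {K : Type} [Field K] (s : Fin N → K) : (hh s).natDegree = N := by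
  unfold hh
  rw [natDegree_prod_of_monic _ _ fun j _ => monic_X_sub_C (s j)]
  simp

lemma hh_eval {K : Type} [Field K] (s : Fin N → K) (c : K) : (hh s).eval c = ∏ j, (c - s j) := by
  unfold hh
  rw [eval_prod]
  exact prod_congr rfl fun j _ => by simp

/-- a monic polynomial of degree `N` is a product of linear factors -/
theorem exists_hh {K : Type} [Field K] [IsAlgClosed K] {R : K[X]} (hR : R.Monic)
    (hd : R.natDegree = N) : ∃ S : Fin N → K, R = hh S := by
  have hs := IsAlgClosed.splits R
  have h1 : R.roots.toList.length = N := by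
    rw [Multiset.length_toList, ← hd, hs.natDegree_eq_card_roots]
  refine ⟨fun j => R.roots.toList.get (Fin.cast h1.symm j), ?_⟩
  have h2 := hs.eq_prod_roots
  rw [hR.leadingCoeff, map_one, one_mul] at h2
  conv_lhs => rw [h2]
  unfold hh
  rw [← List.prod_ofFn]
  conv_lhs => rw [← Multiset.coe_toList R.roots]
  rw [Multiset.map_coe, Multiset.prod_coe]
  congr 1
  apply List.ext_get
  · rw [List.length_map, List.length_ofFn, h1]
  · intro n h3 h4
    simp

variable [IsAlgClosed k] [CharZero k]

/-- the polynomial `h₀ + t h` -/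
def RR (s : Fin N → k) (h : k[X]) (t : Om k) : (Om k)[X] :=
  (hh s).map (algebraMap k (Om k)) + C t * h.map (algebraMap k (Om k))

lemma RR_eval (s : Fin N → k) (h : k[X]) (t : Om k) (c : k) :
    (RR s h t).eval (algebraMap k (Om k) c) =
      algebraMap k (Om k) (∏ j, (c - s j)) + t * algebraMap k (Om k) (h.eval c) := by
  unfold RR
  rw [eval_add, eval_mul, eval_C, eval_map, eval_map, eval₂_at_apply, eval₂_at_apply, hh_eval]

lemma RR_monic {s : Fin N → k} {h : k[X]} (hd : h.degree < N) (t : Om k) :
    (RR s h t).Monic ∧ (RR s h t).natDegree = N := by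
  have h1 : ((hh s).map (algebraMap k (Om k))).Monic := (hh_monic s).map _
  have h2 : ((hh s).map (algebraMap k (Om k))).degree = N := by
    rw [degree_map, degree_eq_natDegree (hh_monic s).ne_zero, hh_natDegree]
  have h3 : (C t * h.map (algebraMap k (Om k))).degree <
      ((hh s).map (algebraMap k (Om k))).degree := by
    rw [h2]
    refine lt_of_le_of_lt (degree_mul_le _ _) ?_
    refine lt_of_le_of_lt (add_le_add degree_C_le le_rfl) ?_
    rw [zero_add, degree_map]
    exact hd
  have h4 := h1.add_of_left h3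
  refine ⟨h4, ?_⟩
  apply natDegree_eq_of_degree_eq_some
  unfold RR
  rw [degree_add_eq_left_of_degree_lt h3, h2]

/-- At a place where `t` has the value `0` the roots tend to the `s j`. -/
theorem roots_zero {s : Fin N → k} (hs : Function.Injective s) {h : k[X]} (hd : h.degree < N)
    {t : Om k} {S : Fin N → Om k} (hS : RR s h t = hh S) {v : Place k (Om k)} (hv : v.At t 0) :
    ∃ σ : Equiv.Perm (Fin N), ∀ j, v.At (S j) (s (σ j)) := by
  have h1 : GTM.PolAt v (RR s h t) (hh s) := by
    intro n
    unfold RR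
    rw [coeff_add, coeff_C_mul, coeff_map, coeff_map]
    have h2 := (Place.at_const (v := v) ((hh s).coeff n)).add
      (hv.mul (Place.at_const (v := v) (h.coeff n)))
    rwa [zero_mul, add_zero] at h2
  obtain ⟨n, u, u₀, h2, h3, h4⟩ := GTM.roots_at h1 (hh_monic s).ne_zero
    (by rw [(RR_monic hd t).2, hh_natDegree])
  have h5 : ∀ j, ∃ l, v.At (S j) (s l) := by
    intro j
    have h6 : S j ∈ (RR s h t).roots := by
      rw [mem_roots (RR_monic hd t).1.ne_zero, IsRoot, hS, hh_eval]
      exact prod_eq_zero (mem_univ j) (sub_self _)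
    rw [h2, Multiset.mem_map] at h6
    obtain ⟨i, -, hi⟩ := h6
    have h7 : u₀ i ∈ (hh s).roots := by
      rw [h3]
      exact Multiset.mem_map_of_mem _ (mem_univ_val i)
    rw [mem_roots (hh_monic s).ne_zero, IsRoot, hh_eval] at h7
    obtain ⟨l, -, hl⟩ := prod_eq_zero_iff.1 h7
    refine ⟨l, ?_⟩
    rw [← hi, ← sub_eq_zero.1 hl]
    exact h4 i
  choose σ hσ using h5
  have h6 : ∀ c : k, ∏ j, (c - s (σ j)) = ∏ j, (c - s j) := by
    intro c
    have h7 : v.At ((RR s h t).eval (algebraMap k (Om k) c)) (∏ j, (c - s (σ j))) := by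
      rw [hS, hh_eval]
      exact Place.At.prod fun j _ => (Place.at_const c).sub (hσ j)
    rw [RR_eval] at h7
    have h8 := (Place.at_const (v := v) (∏ j, (c - s j))).add
      (hv.mul (Place.at_const (v := v) (h.eval c)))
    rw [zero_mul, add_zero] at h8
    exact h7.unique h8
  have h7 : Function.Surjective σ := by
    intro l
    have h8 := h6 (s l)
    have h9 : ∏ j, (s l - s j) = 0 := prod_eq_zero (mem_univ l) (sub_self (s l))
    rw [h9] at h8
    obtain ⟨j, -, hj⟩ := prod_eq_zero_iff.1 h8
    exact ⟨j, (hs (sub_eq_zero.1 hj)).symm⟩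
  exact ⟨Equiv.ofBijective σ (Finite.injective_iff_bijective.1
    (Finite.injective_iff_surjective.2 h7)), hσ⟩

/-- At a place where `t` has a pole one of the roots has a pole. -/
theorem roots_pole {s : Fin N → k} {h : k[X]} (h0 : h ≠ 0) {t : Om k} {S : Fin N → Om k}
    (hS : RR s h t = hh S) {v : Place k (Om k)} (hv : t ∉ v.ring) : ∃ j, S j ∉ v.ring := by
  by_contra hcon
  push Not at hcon
  obtain ⟨c, hc⟩ : ∃ c : k, h.eval c ≠ 0 := by
    by_contra h1
    push Not at h1
    exact h0 (Polynomial.funext fun c => by rw [h1 c, eval_zero])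
  have h1 := RR_eval s h t c
  rw [hS, hh_eval] at h1
  have h2 : ∏ j, (algebraMap k (Om k) c - S j) ∈ v.ring :=
    prod_mem fun j _ => sub_mem (Place.at_const (v := v) c).mem (hcon j)
  apply hv
  have h3 : algebraMap k (Om k) (h.eval c) ≠ 0 := (_root_.map_ne_zero _).2 hc
  have h4 : t = (∏ j, (algebraMap k (Om k) c - S j) - algebraMap k (Om k) (∏ j, (c - s j))) *
      algebraMap k (Om k) ((h.eval c)⁻¹) := by
    rw [h1, map_inv₀]
    field_simp
    ring
  rw [h4]
  exact mul_mem (sub_mem h2 (Place.at_const (v := v) _).mem) (Place.at_const (v := v) _).mem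

end Pool.Agent.HGF
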