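import Pool.Agent.HGF.PathA
import Pool.Agent.HGF.Mov
import Pool.Agent.HGF.Eig
import Pool.Agent.HGF.Bdry
import Pool.Agent.HGF.StB

/-!
# `AE E` vanishes at the good states

`CurveOut`: a curve through a good state. Above the zeros of `τ` the values are the states of the
factorisations `O σ`, for which `AE E` has the same value (`orders`). Above the poles of `τ` the
values are degenerate, and `AE E` is zero. So `AE E` vanishes at the state (`bridge0`).
-/

set_option autoImplicit false

noncomputable section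

namespace Pool.Agent.HGF

open Polynomial Finset Pool.Agent.ZCyc Pool.Agent.Dess Pool.Agent.GT Pool.Agent.TInc
open Pool.Agent.VFP (Om tt)
open scoped Classical

variable {k : Type} [Field k] [IsAlgClosed k] [CharZero k] {m N : ℕ} {F : Fam k m} {W : Type}
  [AddCommGroup W] [Module k W] {E : (Fin N → Option k) → (Fin N → Fin m → Option k) → W}

/-- the curve through a state -/
def CurveOut (F : Fam k m) (i0 : Fin m) (s : Fin N → k)
    (O : Equiv.Perm (Fin N) → Fin N → ℕ → k) (p : Fin m → k) : Prop :=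
  ∃ (τ η : Om k) (S : Fin N → Om k) (Z : Fin N → ℕ → Om k), Transcendental k τ ∧ η ≠ 0 ∧
    (∀ j, Base F (S j)) ∧ (∀ j, Good m (Z j)) ∧ (∀ j, mu m (Z j) = lam F (S j)) ∧
    PCond F S Z (fun i => algebraMap k (Om k) (p i) * if i = i0 then η else 1) ∧
    (∀ v : Place k (Om k), v.At τ 0 → v.At η 1 ∧ ∃ σ : Equiv.Perm (Fin N),
      (∀ j, v.At (S j) (s (σ j))) ∧ ∀ j i, v.At (Z j i) (O σ j i)) ∧
    ∀ v : Place k (Om k), v.At τ⁻¹ 0 → (∃ j, S j ∉ v.ring) ∨ v.At η 0 ∨ v.At η⁻¹ 0 ∨
      ∃ (j : Fin N) (i : Fin m) (c : k), v.At (S j) c ∧ Base F c ∧ v.At (Z j i) 1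

private lemma none_of_inv {v : Place k (Om k)} {f : Om k} (h0 : f ≠ 0) (h : v.At f⁻¹ 0) :
    vlo v (some f) = none := by
  rw [vlo_some, HYG.vl_none_om]
  rw [Place.at_zero_iff, Place.vanishes_iff_or, inv_inv] at h
  exact h.resolve_left (inv_ne_zero h0)

omit [IsAlgClosed k] [CharZero k] in
private lemma some_zero {v : Place k (Om k)} {f : Om k} (h : v.Vanishes f) :
    vlo v (some f) = some 0 := vlo_at (Place.at_zero_iff.2 h)

theorem ae_good (hF : F.Adm) (hm : 0 < m) (hN : 0 < N) {b : Fin m → ℕ}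
    (hb : ∀ i, 0 < b i ∧ b i < F.M)
    {Gn : (ℕ → k) → (ℕ → k) → Prop} {rX rY : (ℕ → k) → (ℕ → k) → ℕ → k} (hE : IsCF F E)
    (hEig : IsEig F.M b E) (hr : RProp m Gn rX rY) (hcore : CoreRel F hm Gn rX rY E) {i0 : Fin m}
    (hi0 : (F.C i0).natDegree < F.d i0) {s : Fin N → k} {X : Fin N → ℕ → k}
    {O : Equiv.Perm (Fin N) → Fin N → ℕ → k} {p : Fin m → k} {w : Fin N → Fin m → k}
    (hw : IsSt F hm s X p w) (hinj : Function.Injective fun j => lam F (s j))
    (hO : Ords m X O) (hgen : ∀ (σ : Equiv.Perm (Fin N)) (j j' : Fin N), (j' : ℕ) = j + 1 →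
      Gn (O σ j) (O σ j')) (hcurve : CurveOut F i0 s O p) :
    AE E (som0 s) (som w) = 0 := by
  obtain ⟨τ, η, S, Z, hτ, hη, hS, hZ, hZmu, hP, h0, h1⟩ := hcurve
  obtain ⟨V, hV⟩ := exists_ws hm hF.M0 hN hS hZ hZmu hP
  have heq : ProdInv F E := fun s w w' hi hi' hpow hprod =>
    eq_of_prod hEig (fun j i => (hi j).w i) hF.M0 (fun j i => (hpow j i).symm)
      fun i => (hprod i).symm
  have hon : ∀ j, OnY F (some (S j)) (fun i => some (V j i)) := fun j =>
    (onY_some hF _ _).2 (hV.int j).onY
  refine bridge0 (isCF_AE hE) (s := fun j => some (S j)) (u := fun j i => some (V j i)) hon hτ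
    (fun v hv => ?_) fun v hv => ?_
  · obtain ⟨hη1, σ, hσS, hσZ⟩ := h0 v hv
    have hbase : ∀ j, Base F (s (σ j)) := fun j => (hw.int _).base
    have hpow : ∀ j (i : Fin m), V j i ^ F.M =
        aeval (S j) (F.B i) / aeval (S j) (F.C i) * (1 - Z j i) := fun j i =>
      pow_of_row hm (hS j) (hV.row j) i
    have hval : ∀ j (i : Fin m), ∃ r : k, r ^ F.M = aeval (s (σ j)) (F.B i) /
        aeval (s (σ j)) (F.C i) * (1 - O σ j i) ∧ v.At (V j i) r := by
      intro j i
      refine HYG.at_root hF.M0 ?_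
      rw [hpow j i]
      exact ((aeval_at (hσS j) _).div (aeval_at (hσS j) _) ((hbase j).C i)).mul
        ((at_one v).sub (hσZ j i))
    choose r hr1 hr2 using hval
    have hrow : ∀ j, row F hm (s (σ j)) (r j) = O σ j := fun j =>
      row_of_pow hm (hbase j) (hO.good σ j).per (hr1 j)
    have hX : ∀ j, mu m (X j) = lam F (s j) := fun j => by
      rw [← hw.row]
      exact (hw.int j).mu hm
    have hst : IsSt F hm (fun j => s (σ j)) (O σ) p r := by
      refine ⟨fun j => ?_, hrow, fun i => ?_⟩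
      · refine int_of_row hm hF.M0 (hbase j) ?_ ?_
        · rw [hrow j]
          exact hO.good σ j
        · rw [hrow j, hO.mu, hX]
      · have h2 : v.At (∏ j, V j i) (∏ j, r j i) := Place.At.prod fun j _ => hr2 j i
        rw [hV.prod i] at h2
        have h3 : v.At (algebraMap k (Om k) (p i) * if i = i0 then η else 1) (p i * 1) := by
          refine (Place.at_const _).mul ?_
          split_ifs
          · exact hη1
          · exact at_one v
        rw [mul_one] at h3
        exact h2.unique h3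
    have h2 := orders hm hF.M0 heq hr hcore hinj hO hgen hw σ hst
    have h3 : (fun j => vlo v (some (S j))) = som0 fun j => s (σ j) := by
      funext j
      exact vlo_at (hσS j)
    have h4 : (fun j i => vlo v (some (V j i))) = som r := by
      funext j i
      exact vlo_at (hr2 j i)
    rw [h3, h4]
    exact h2
  · have honv : ∀ j, OnY F (vlo v (some (S j))) (fun i => vlo v (some (V j i))) := fun j =>
      onY_vlo v (hon j)
    have hz : ∀ (j : Fin N) (i : Fin m), v.Vanishes (V j i) →
        AE E (fun j => vlo v (some (S j))) (fun j i => vlo v (some (V j i))) = 0 := fun j i h =>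
      zero_of (isEig_AE hEig) hb (j := j) (i := i) (Or.inr (some_zero h))
    rcases h1 v hv with ⟨j, hj⟩ | h2 | h2 | ⟨j, i, c, hc, hcB, h2⟩
    · exact zero_of_none hb (isCF_AE hE) (isEig_AE hEig) honv hi0 (j := j)
        (HYG.vl_none_om.2 hj)
    · -- the product vanishes
      have h3 : v.Vanishes (∏ j, V j i0) := by
        rw [hV.prod, if_pos rfl, ← Place.at_zero_iff]
        have h4 := (Place.at_const (v := v) (p i0)).mul h2
        rwa [mul_zero] at h4
      obtain ⟨j, -, h4⟩ := v.vanishes_prod h3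
      exact hz j i0 h4
    · have hp0 : p i0 ≠ 0 := by
        rw [← hw.prod]
        exact prod_ne_zero_iff.2 fun j _ => (hw.int j).w i0
      have h3 : v.Vanishes (∏ j, (V j i0)⁻¹) := by
        rw [prod_inv_distrib, hV.prod, if_pos rfl, ← Place.at_zero_iff, mul_inv]
        have h4 := ((Place.at_const (v := v) (p i0)).inv hp0).mul h2
        rwa [mul_zero] at h4
      obtain ⟨j, -, h4⟩ := v.vanishes_prod h3
      exact zero_of (isEig_AE hEig) hb (j := j) (i := i0) (Or.inl
        (none_of_inv ((hV.int j).w i0) (Place.at_zero_iff.2 h4)))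
    · refine hz j i (v.vanishes_of_pow (n := F.M) ?_)
      rw [pow_of_row hm (hS j) (hV.row j) i, ← Place.at_zero_iff]
      have h3 := ((aeval_at hc (F.B i)).div (aeval_at hc (F.C i)) (hcB.C i)).mul
        ((at_one v).sub h2)
      rwa [sub_self, mul_zero] at h3

end Pool.Agent.HGF
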