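import Pool.Agent.HGF.Defs

/-!
# Project HGF: values of points of the projective line and of the hypersurface

Homogeneous coordinates of `x : Option K` are `fst x`, `snd x`. For a place `v` with residue
  field `k`
there is `l ≠ 0` in `K` such that `l * fst x`, `l * snd x` have the values `fst (vlo v x)`,
`snd (vlo v x)` (`exists_mul`): `l = 1` if `x` is `none` or `some f` with `f` regular at `v`, `l
  = f⁻¹`
otherwise. So equations which are homogeneous pass to the values.
-/

set_option autoImplicit false

noncomputable section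

namespace Pool.Agent.HGF

open Polynomial Pool.Agent.ZCyc Pool.Agent.Dess Pool.Agent.GT Pool.Agent.TInc
open Pool.Agent.VFP (Om tt)
open Pool.Agent.HYG (vl)
open scoped Classical

variable {k : Type} [Field k] {m : ℕ} {F : Fam k m} {K : Type} [Field K] [Algebra k K]

theorem fst_some (f : K) : fst (some f) = f := rfl

theorem fst_none : fst (none : Option K) = 1 := rfl

theorem snd_some (f : K) : snd (some f) = 1 := by
  unfold snd
  rw [if_neg (by simp)]

theorem snd_none : snd (none : Option K) = 0 := by
  unfold snd
  rw [if_pos rfl]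

theorem fst_map {K' : Type} [Field K'] [Algebra k K'] (φ : K →ₐ[k] K') (x : Option K) :
    fst (x.map φ) = φ (fst x) := by
  cases x with
  | none => exact (map_one φ).symm
  | some f => rfl

private theorem snd_map' {L K' : Type} [Field K'] (g : L → K') (x : Option L) :
    snd (x.map g) = if x = none then 0 else 1 := by
  cases x with
  | none => exact snd_none
  | some f => exact snd_some _

theorem snd_map {K' : Type} [Field K'] [Algebra k K'] (φ : K →ₐ[k] K') (x : Option K) :
    snd (x.map φ) = φ (snd x) := by
  rw [snd_map']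
  unfold snd
  split_ifs
  · exact (map_zero φ).symm
  · exact (map_one φ).symm

theorem vlo_none (v : Place k K) : vlo v (none : Option K) = none := rfl

theorem vlo_some (v : Place k K) (f : K) : vlo v (some f) = vl v f := rfl

theorem vlo_at {v : Place k K} {f : K} {c : k} (h : v.At f c) : vlo v (some f) = some c :=
  HYG.vl_of_at h

/-- the value of a constant point -/
theorem vlo_const (v : Place k K) (x : Option k) : vlo v (x.map (algebraMap k K)) = x := by
  cases x with
  | none => rfl
  | some c => exact HYG.vl_const c

/-- places above each other (`vl_alg`) -/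
theorem vlo_alg {K' : Type} [Field K'] [Algebra k K'] {φ : K →ₐ[k] K'} {V : Place k K'}
    {v : Place k K} (h : V.ring.comap (φ : K →+* K') = v.ring) (x : Option K) :
    vlo V (x.map φ) = vlo v x := by
  cases x with
  | none => rfl
  | some f => exact HYG.vl_below h f

/-- multiplication by a constant (`vl_mul`) -/
theorem vlo_mul (v : Place k K) {ζ : k} (hζ : ζ ≠ 0) (x : Option K) :
    vlo v (x.map fun w => algebraMap k K ζ * w) = (vlo v x).map fun w => ζ * w := by
  cases x with
  | none => rfl
  | some f => exact HYG.vl_smul hζ f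

theorem fst_ne_or (x : Option K) : fst x ≠ 0 ∨ snd x ≠ 0 := by
  cases x with
  | none =>
    left
    exact one_ne_zero
  | some f =>
    right
    rw [snd_some]
    exact one_ne_zero

/-- homogeneous coordinates with values -/
theorem exists_mul [HasRes k K] (v : Place k K) (x : Option K) :
    ∃ l : K, l ≠ 0 ∧ v.At (l * fst x) (fst (vlo v x)) ∧ v.At (l * snd x) (snd (vlo v x)) := by
  have h1 : v.At (1 : K) (1 : k) := by
    have := Place.at_const (v := v) (1 : k)
    rwa [map_one] at this
  have h0 : v.At (0 : K) (0 : k) := by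
    have := Place.at_const (v := v) (0 : k)
    rwa [map_zero] at this
  cases x with
  | none =>
    refine ⟨1, one_ne_zero, ?_, ?_⟩
    · rw [one_mul]
      exact h1
    · rw [vlo_none, snd_none, snd_none, mul_zero]
      exact h0
  | some f =>
    by_cases hf : f ∈ v.ring
    · obtain ⟨c, hc⟩ := HasRes.res v f hf
      refine ⟨1, one_ne_zero, ?_, ?_⟩
      · rw [vlo_at hc, fst_some, fst_some, one_mul]
        exact hc
      · rw [vlo_at hc, snd_some, snd_some, mul_one]
        exact h1
    · have hf0 : f ≠ 0 := by
        rintro rfl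
        exact hf v.ring.zero_mem
      have hv : vl v f = none := HYG.vl_none.2 fun c hc => hf hc.mem
      refine ⟨f⁻¹, inv_ne_zero hf0, ?_, ?_⟩
      · rw [vlo_some, hv, fst_some, fst_none, inv_mul_cancel₀ hf0]
        exact h1
      · rw [vlo_some, hv, snd_some, snd_none, mul_one, Place.at_zero_iff, Place.vanishes_iff_or,
          inv_inv]
        exact Or.inr hf

/-! ### Forms -/

/-- `form d P` for a finite point: the sum is `aeval s P` (`Polynomial.aeval_eq_sum_range'`) -/
theorem form_some {d : ℕ} {P : k[X]} (h : P.natDegree ≤ d) (s : K) :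
    form d P (some s) = aeval s P := by
  unfold form
  rw [aeval_eq_sum_range' (Nat.lt_succ_of_le h)]
  refine Finset.sum_congr rfl fun j _ => ?_
  rw [fst_some, snd_some, one_pow, mul_one, Algebra.smul_def]

/-- `form d P` at infinity is the coefficient of degree `d` -/
theorem form_none (d : ℕ) (P : k[X]) :
    form d P (none : Option K) = algebraMap k K (P.coeff d) := by
  unfold form
  rw [Finset.sum_eq_single d]
  · rw [fst_none, snd_none, one_pow, Nat.sub_self, pow_zero, mul_one, mul_one]
  · intro j hj hjd
    have h1 : d - j ≠ 0 := by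
      have := Finset.mem_range.1 hj
      omega
    rw [snd_none, zero_pow h1, mul_zero, mul_zero]
  · intro h
    exact absurd (Finset.mem_range.2 (Nat.lt_succ_self d)) h

theorem form_map {K' : Type} [Field K'] [Algebra k K'] (φ : K →ₐ[k] K') (d : ℕ) (P : k[X])
    (s : Option K) : form d P (s.map φ) = φ (form d P s) := by
  unfold form
  rw [map_sum]
  refine Finset.sum_congr rfl fun j _ => ?_
  rw [map_mul, map_mul, map_pow, map_pow, AlgHom.commutes, fst_map, snd_map]

/-- the value of a form: multiply every term of the sum by `l ^ d = l ^ j * l ^ (d - j)` -/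
theorem form_at {v : Place k K} {d : ℕ} (P : k[X]) {s : Option K} {l : K} {a b : k}
    (h1 : v.At (l * fst s) a) (h2 : v.At (l * snd s) b) :
    v.At (l ^ d * form d P s) (∑ j ∈ Finset.range (d + 1), P.coeff j * (a ^ j * b ^ (d - j))) := by
  unfold form
  rw [Finset.mul_sum]
  apply Place.At.sum
  intro j hj
  have hj' : j + (d - j) = d := by
    have := Finset.mem_range.1 hj
    omega
  have h3 : l ^ d * (algebraMap k K (P.coeff j) * (fst s ^ j * snd s ^ (d - j))) =
      algebraMap k K (P.coeff j) * ((l * fst s) ^ j * (l * snd s) ^ (d - j)) := by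
    rw [mul_pow, mul_pow]
    nth_rewrite 1 [← hj']
    rw [pow_add]
    ring
  rw [h3]
  exact (Place.at_const _).mul ((h1.pow j).mul (h2.pow (d - j)))

theorem form_vlo {v : Place k K} {d : ℕ} (P : k[X]) {s : Option K} {l : K}
    (h1 : v.At (l * fst s) (fst (vlo v s))) (h2 : v.At (l * snd s) (snd (vlo v s))) :
    v.At (l ^ d * form d P s) (form d P (vlo v s)) := by
  exact form_at P h1 h2

/-! ### The hypersurface -/

/-- the equation for finite coordinates -/
theorem onY_some (hF : F.Adm) (s : K) (w : Fin m → K) :
    OnY F (some s) (fun i => some (w i)) ↔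
      ∏ i, (aeval s (F.B i) - aeval s (F.C i) * w i ^ F.M) = aeval s F.A := by
  unfold OnY
  rw [form_some (s := s) (by exact hF.degA)]
  have h1 : ∀ i, form (F.d i) (F.B i) (some s) * snd (some (w i)) ^ F.M -
      form (F.d i) (F.C i) (some s) * fst (some (w i)) ^ F.M =
      aeval s (F.B i) - aeval s (F.C i) * w i ^ F.M := by
    intro i
    rw [form_some (hF.degB i), form_some (hF.degC i), snd_some, fst_some, one_pow, mul_one]
  rw [Finset.prod_congr rfl fun i _ => h1 i]
  simp only [snd_some, one_pow, Finset.prod_const_one, mul_one]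

theorem onY_map {K' : Type} [Field K'] [Algebra k K'] (φ : K →ₐ[k] K') (s : Option K)
    (u : Fin m → Option K) : OnY F (s.map φ) (fun i => (u i).map φ) ↔ OnY F s u := by
  unfold OnY
  simp only [form_map, fst_map, snd_map]
  rw [← (φ : K →+* K').injective.eq_iff]
  simp only [map_prod, map_sub, map_mul, map_pow, RingHom.coe_coe]

/-- constant points, `φ = Algebra.ofId k K` in `onY_map` -/
theorem onY_const (s : Option k) (u : Fin m → Option k) :
    OnY F (s.map (algebraMap k K)) (fun i => (u i).map (algebraMap k K)) ↔ OnY F s u := by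
  exact onY_map (Algebra.ofId k K) s u

/-- The values of a point of `Y` lie on `Y`: multiply the equation by `l ^ F.D * ∏ (l_i ^ M)` with
the `l` of `s` and the `l_i` of `u i` (`exists_mul`). The factor `i` on the left is multiplied by
`l ^ d_i * l_i ^ M`. Both sides have values, which are equal by `Place.At.unique`. -/
theorem onY_vlo [HasRes k K] (v : Place k K) {s : Option K} {u : Fin m → Option K}
    (h : OnY F s u) : OnY F (vlo v s) (fun i => vlo v (u i)) := by
  obtain ⟨l, hl, h1, h2⟩ := exists_mul v s
  choose t ht h3 h4 using fun i => exists_mul v (u i)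
  unfold OnY at h ⊢
  have hD : l ^ F.D = ∏ i, l ^ F.d i := by
    unfold Fam.D
    rw [Finset.prod_pow_eq_pow_sum]
  have hL : v.At (∏ i, (l ^ F.d i * t i ^ F.M) * (form (F.d i) (F.B i) s * snd (u i) ^ F.M -
      form (F.d i) (F.C i) s * fst (u i) ^ F.M))
      (∏ i, (form (F.d i) (F.B i) (vlo v s) * snd (vlo v (u i)) ^ F.M -
        form (F.d i) (F.C i) (vlo v s) * fst (vlo v (u i)) ^ F.M)) := by
    apply Place.At.prod
    intro i _
    have h5 := ((form_vlo (d := F.d i) (F.B i) h1 h2).mul ((h4 i).pow F.M)).sub
      ((form_vlo (d := F.d i) (F.C i) h1 h2).mul ((h3 i).pow F.M))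
    convert h5 using 1
    rw [mul_pow, mul_pow]
    ring
  have hR : v.At (l ^ F.D * form F.D F.A s * ∏ i, (t i * snd (u i)) ^ F.M)
      (form F.D F.A (vlo v s) * ∏ i, snd (vlo v (u i)) ^ F.M) := by
    refine (form_vlo (d := F.D) F.A h1 h2).mul ?_
    apply Place.At.prod
    intro i _
    exact (h4 i).pow F.M
  have he : ∏ i, (l ^ F.d i * t i ^ F.M) * (form (F.d i) (F.B i) s * snd (u i) ^ F.M -
      form (F.d i) (F.C i) s * fst (u i) ^ F.M) =
      l ^ F.D * form F.D F.A s * ∏ i, (t i * snd (u i)) ^ F.M := by
    rw [Finset.prod_mul_distrib, h, Finset.prod_mul_distrib, ← hD]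
    simp only [mul_pow]
    rw [Finset.prod_mul_distrib]
    ring
  rw [he] at hL
  exact hL.unique hR

/-- multiplication of a coordinate by an `M`-th root of unity -/
theorem onY_mul {ζ : K} (hζ : ζ ^ F.M = 1) {s : Option K} {u : Fin m → Option K} (i : Fin m)
    (h : OnY F s u) : OnY F s (Function.update u i ((u i).map fun w => ζ * w)) := by
  have h1 : ∀ j, snd (Function.update u i ((u i).map fun w => ζ * w) j) = snd (u j) := by
    intro j
    by_cases hj : j = i
    · subst hj
      rw [Function.update_self]
      exact snd_map' _ _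
    · rw [Function.update_of_ne hj]
  have h2 : ∀ j, fst (Function.update u i ((u i).map fun w => ζ * w) j) ^ F.M =
      fst (u j) ^ F.M := by
    intro j
    by_cases hj : j = i
    · subst hj
      rw [Function.update_self]
      cases u j with
      | none => rfl
      | some w =>
        rw [Option.map_some, fst_some, fst_some, mul_pow, hζ, one_mul]
    · rw [Function.update_of_ne hj]
  unfold OnY at h ⊢
  simp only [h1, h2]
  exact h

/-- an interior point lies on `Y` -/
theorem Int.onY_some (hF : F.Adm) {s : K} {w : Fin m → K} (h : Int F s w) :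
    OnY F (some s) (fun i => some (w i)) := (HGF.onY_some hF s w).2 h.onY

/-- `x_i ≠ 0, 1`, and the product of the `x_i` is `lam F s` -/
theorem Int.xx_ne_one {s : K} {w : Fin m → K} (h : Int F s w) (i : Fin m) : xx F s w i ≠ 1 := by
  intro h1
  unfold xx at h1
  have h2 : aeval s (F.C i) * w i ^ F.M / aeval s (F.B i) = 0 := by
    linear_combination -h1
  exact div_ne_zero (mul_ne_zero (h.C i) (pow_ne_zero _ (h.w i))) (h.B i) h2

private theorem prod_xx' {s : K} {w : Fin m → K} (h : Int F s w) :
    ∏ i, xx F s w i = lam F s := by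
  unfold lam
  rw [← h.onY, ← Finset.prod_div_distrib]
  refine Finset.prod_congr rfl fun i _ => ?_
  unfold xx
  have := h.B i
  field_simp

theorem Int.xx_ne_zero {s : K} {w : Fin m → K} (h : Int F s w) (i : Fin m) : xx F s w i ≠ 0 := by
  intro h1
  have h3 := prod_xx' h
  rw [Finset.prod_eq_zero (Finset.mem_univ i) h1] at h3
  exact div_ne_zero h.A (Finset.prod_ne_zero_iff.2 fun j _ => h.B j) h3.symm

theorem Int.prod_xx {s : K} {w : Fin m → K} (h : Int F s w) : ∏ i, xx F s w i = lam F s := by
  exact prod_xx' h

end Pool.Agent.HGF
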