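import Pool.Agent.HGF.StC
import Pool.Agent.HGF.PathB

/-!
# The vanishing theorem, from the core relation and the curve through a good state
-/

set_option autoImplicit false

noncomputable section

namespace Pool.Agent.HGF

open Polynomial Finset Pool.Agent.ZCyc Pool.Agent.Dess Pool.Agent.GT Pool.Agent.TInc
open Pool.Agent.VFP (Om tt)
open scoped Classical

variable {k : Type} [Field k] [IsAlgClosed k] [CharZero k] {m : ℕ} {F : Fam k m}

/-- the curve theorem -/
def CurveThm (F : Fam k m) (i0 : Fin m) : Prop :=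
  ∀ (s : Fin F.D → k) (X : Fin F.D → ℕ → k) (O : Equiv.Perm (Fin F.D) → Fin F.D → ℕ → k)
    (p : Fin m → k), (∀ j, Base F (s j)) → (Function.Injective fun j => lam F (s j)) →
    (∀ j, Good m (X j)) → (∀ j, mu m (X j) = lam F (s j)) → Ords m X O → PCond F s X p →
    CurveOut F i0 s O p

/-- the core theorem -/
def CoreThm (F : Fam k m) (hm : 0 < m) (Gn : (ℕ → k) → (ℕ → k) → Prop)
    (rX rY : (ℕ → k) → (ℕ → k) → ℕ → k) : Prop :=
  ∀ (N : ℕ) (W : Type) [AddCommGroup W] [Module k W] (b : Fin m → ℕ)
    (E : (Fin N → Option k) → (Fin N → Fin m → Option k) → W),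
    (∀ i, 0 < b i ∧ b i < F.M) → IsCF F E → IsEig F.M b E → CoreRel F hm Gn rX rY E

theorem vanish_of (hF : F.Adm) (hm : 0 < m) {i0 : Fin m} (hi0 : (F.C i0).natDegree < F.d i0)
    {Gn : (ℕ → k) → (ℕ → k) → Prop} {rX rY : (ℕ → k) → (ℕ → k) → ℕ → k}
    (hr : RProp m Gn rX rY) (hopen : OpenGen m Gn)
    (hc : ∀ a : k, a ≠ 0 → a ≠ 1 → {b : k | ¬ Gn (fun _ => a) fun _ => b}.Finite ∧
      {b : k | ¬ Gn (fun _ => b) fun _ => a}.Finite)
    (hcore : CoreThm F hm Gn rX rY) (hcurve : CurveThm F i0) : Vanish F := by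
  intro W _ _ b E hb hE hEig s u hon
  have hD : 0 < F.D := lt_of_lt_of_le (lt_of_le_of_lt (Nat.zero_le _) hi0)
    (single_le_sum (f := F.d) (fun i _ => Nat.zero_le _) (mem_univ i0))
  have hgood : GoodZero F hm Gn E := by
    intro s X O p w hw hinj hO hgen
    refine ae_good hF hm hD hb hE hEig hr (hcore F.D W b E hb hE hEig) hi0 hw hinj hO hgen ?_
    refine hcurve s X O p (fun j => (hw.int j).base) hinj (fun j => ?_) (fun j => ?_) hO hw.pcond
    · rw [← hw.row]
      exact (hw.int j).good hm
    · rw [← hw.row]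
      exact (hw.int j).mu hm
  have hEA := isCF_AE hE
  have hEigA := isEig_AE hEig
  by_cases h1 : ∀ j, ∃ c, s j = some c
  · choose s0 hs0 using h1
    have hs : s = som0 s0 := funext hs0
    subst hs
    by_cases h2 : ∀ j i, ∃ c, u j i = some c
    · choose w hw using h2
      have hu : u = som w := by
        funext j i
        exact hw j i
      subst hu
      have hY : ∀ j, ∏ i, (aeval (s0 j) (F.B i) - aeval (s0 j) (F.C i) * w j i ^ F.M) =
          aeval (s0 j) F.A := fun j => (onY_some hF (s0 j) (w j)).1 (hon j)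
      by_cases h3 : ∀ j i, aeval (s0 j) (F.C i) ≠ 0
      · by_cases h4 : ∀ j, aeval (s0 j) F.A ≠ 0
        · exact vanish_int hF hm hopen hc hgood hE hY h3 h4
        · push Not at h4
          obtain ⟨j, hj⟩ := h4
          refine zero_of_A hF.two hb hEA hEigA hon (j := j) ?_
          show form F.D F.A (some (s0 j)) = 0
          rw [form_some hF.degA]
          exact hj
      · push Not at h3
        obtain ⟨j, i, hj⟩ := h3
        refine zero_of_C hb hEA hEigA hon (j := j) (i := i) ?_
        show form (F.d i) (F.C i) (some (s0 j)) = 0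
        rw [form_some (hF.degC i)]
        exact hj
    · push Not at h2
      obtain ⟨j, i, hj⟩ := h2
      refine zero_of hEigA hb (j := j) (i := i) (Or.inl ?_)
      cases h : u j i with
      | none => rfl
      | some c => exact absurd h (hj c)
  · push Not at h1
    obtain ⟨j, hj⟩ := h1
    refine zero_of_none hb hEA hEigA hon hi0 (j := j) ?_
    cases h : s j with
    | none => rfl
    | some c => exact absurd h (hj c)

end Pool.Agent.HGF
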