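import Pool.Agent.HGF.Van
import Pool.Agent.HGF.Curve

/-!
# The curve theorem in the form of `Van.lean`
-/

set_option autoImplicit false

noncomputable section

namespace Pool.Agent.HGF

open Polynomial Finset Pool.Agent.ZCyc Pool.Agent.Dess Pool.Agent.GT Pool.Agent.TInc
open Pool.Agent.VFP (Om tt)

variable {k : Type} [Field k] [IsAlgClosed k] [CharZero k] {m : ℕ} {F : Fam k m}

theorem curveThm (hF : F.Adm) (hm : 0 < m) {i0 : Fin m} (hi0 : (F.C i0).natDegree < F.d i0) :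
    CurveThm F i0 := by
  intro s X O p hs hinj hX hmu hO hp
  obtain ⟨τ, η, S, Z, h1, h2, h3, h4, h5, h6, h7, h8⟩ :=
    exists_curve hF hi0 hm hs hinj hX hmu hO hp
  refine ⟨τ, η, S, Z, h1, h2, h3, h4, h5, h6, h7, fun v hv => ?_⟩
  rcases h8 v hv with h9 | h9 | h9 | ⟨j, i, c, hc, hcB, h9⟩
  · exact Or.inl h9
  · exact Or.inr (Or.inl h9)
  · exact Or.inr (Or.inr (Or.inl h9))
  · refine Or.inr (Or.inr (Or.inr ⟨j, ⟨i % m, Nat.mod_lt i hm⟩, c, hc, hcB, ?_⟩))
    have h10 := congrFun (per_eq (h4 j).per hm) i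
    have h11 : Z j ((⟨i % m, Nat.mod_lt i hm⟩ : Fin m) : ℕ) = Z j i := h10
    rw [h11]
    exact h9

end Pool.Agent.HGF
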